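import Pool.Agent.Helper96.FK.Defs

/-!
# FK-25: the families of linear parts

`fam1`: `r = (t + c/2)^{2n+1} - (c/2)^{2n+1}`.
`fam2`: `w = t^3 + c t`, `r = ((6n+5)/(n+1)) w^{2n+2} t + 4 c w^{2n+1}(t^2 + 2c/3)`.
With `x, y, z = -(x+y)`: `e1 = 0`, `x^3 = I x + E`, `I = x^2+xy+y^2`, `E = -xy(x+y)`, `h = I + c`, so
`w(x) = h x + E` for each of `x, y, z`, and `G 2 r = r(x)+r(y)+r(z)` as `r` is odd.
Modulo `h^2`: `w(x)^N ≡ E^N + N E^{N-1} h x`. `∑ x = 0`, `∑ x^2 = 2I`, `∑ x^3 = 3E`. Hence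
`∑ w^{2n+2} x ≡ (2n+2) E^{2n+1} h 2I`,
`∑ w^{2n+1}(x^2+2c/3) ≡ E^{2n+1}(2I+2c) + (2n+1)E^{2n} h 3E = (6n+5) E^{2n+1} h`, total
`4(6n+5) E^{2n+1} h (I + c) = 4(6n+5) E^{2n+1} h^2 ≡ 0`. (Checked by computer for n = 0, 1, 2.)
-/

set_option autoImplicit false

open MvPolynomial

namespace Pool.Agent.Helper96.FK

private theorem fam_G2 (r : Polynomial ℂ) :
    G 2 r = Polynomial.aeval (X 0 : MvPolynomial (Fin 2) ℂ) r +
      Polynomial.aeval (X 1 : MvPolynomial (Fin 2) ℂ) r -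
      Polynomial.aeval (X 0 + X 1 : MvPolynomial (Fin 2) ℂ) r := by
  unfold G
  rw [Fin.sum_univ_two, Fin.sum_univ_two]

private theorem fam_dvd_aeval {r : Polynomial ℂ} (h0 : r.coeff 0 = 0)
    (x : MvPolynomial (Fin 2) ℂ) : x ∣ Polynomial.aeval x r := by
  obtain ⟨s, rfl⟩ := Polynomial.X_dvd_iff.2 h0
  rw [map_mul, Polynomial.aeval_X]
  exact dvd_mul_right _ _

theorem fam1 (c : ℂ) (n : ℕ) : ∃ r : Polynomial ℂ, r.natDegree = 2 * n + 1 ∧ r.coeff 0 = 0 ∧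
    X 0 ∣ G 2 r ∧ X 1 ∣ G 2 r ∧ (X 0 + X 1 + C c) ∣ G 2 r ∧ (c = 0 → OddP r) := by
  have hodd : Odd (2 * n + 1) := ⟨n, rfl⟩
  have h0 : ((Polynomial.X + Polynomial.C (c / 2)) ^ (2 * n + 1) -
      Polynomial.C ((c / 2) ^ (2 * n + 1)) : Polynomial ℂ).coeff 0 = 0 := by
    rw [Polynomial.coeff_zero_eq_eval_zero]
    simp
  have hae : ∀ x : MvPolynomial (Fin 2) ℂ, Polynomial.aeval x
      ((Polynomial.X + Polynomial.C (c / 2)) ^ (2 * n + 1) -
      Polynomial.C ((c / 2) ^ (2 * n + 1)) : Polynomial ℂ) =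
      (x + C (c / 2)) ^ (2 * n + 1) - C (c / 2) ^ (2 * n + 1) := by
    intro x
    rw [map_sub, map_pow, map_add, Polynomial.aeval_X, Polynomial.aeval_C, Polynomial.aeval_C,
      algebraMap_eq, C_pow]
  have hd : ∀ x y : MvPolynomial (Fin 2) ℂ, ∀ r : Polynomial ℂ,
      x - y ∣ Polynomial.aeval x r - Polynomial.aeval y r := by
    intro x y r
    rw [Polynomial.aeval_def, Polynomial.aeval_def, ← Polynomial.eval_map, ← Polynomial.eval_map]
    exact Polynomial.sub_dvd_eval_sub _ _ _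
  refine ⟨(Polynomial.X + Polynomial.C (c / 2)) ^ (2 * n + 1) -
      Polynomial.C ((c / 2) ^ (2 * n + 1)), ?_, h0, ?_, ?_, ?_, ?_⟩
  · rw [Polynomial.natDegree_sub_C, Polynomial.natDegree_pow, Polynomial.natDegree_X_add_C,
      mul_one]
  · rw [fam_G2, add_sub_assoc]
    refine dvd_add (fam_dvd_aeval h0 _) ?_
    have h1 := hd (X 1) (X 0 + X 1) ((Polynomial.X + Polynomial.C (c / 2)) ^ (2 * n + 1) -
      Polynomial.C ((c / 2) ^ (2 * n + 1)))
    refine dvd_trans ?_ h1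
    refine ⟨-1, ?_⟩
    ring
  · rw [fam_G2, add_sub_right_comm]
    refine dvd_add ?_ (fam_dvd_aeval h0 _)
    have h1 := hd (X 0) (X 0 + X 1) ((Polynomial.X + Polynomial.C (c / 2)) ^ (2 * n + 1) -
      Polynomial.C ((c / 2) ^ (2 * n + 1)))
    refine dvd_trans ?_ h1
    refine ⟨-1, ?_⟩
    ring
  · rw [fam_G2, hae, hae, hae]
    have e2 : (C (c / 2) + C (c / 2) : MvPolynomial (Fin 2) ℂ) = C c := by
      rw [← C_add, add_halves]
    have h1 : (X 0 + X 1 + C c : MvPolynomial (Fin 2) ℂ) ∣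
        (X 0 + C (c / 2)) ^ (2 * n + 1) + (X 1 + C (c / 2)) ^ (2 * n + 1) := by
      have := hodd.add_dvd_pow_add_pow (X 0 + C (c / 2) : MvPolynomial (Fin 2) ℂ)
        (X 1 + C (c / 2))
      rw [show (X 0 + C (c / 2) + (X 1 + C (c / 2)) : MvPolynomial (Fin 2) ℂ) =
        X 0 + X 1 + (C (c / 2) + C (c / 2)) by ring, e2] at this
      exact this
    have h2 : (X 0 + X 1 + C c : MvPolynomial (Fin 2) ℂ) ∣
        (X 0 + X 1 + C (c / 2)) ^ (2 * n + 1) + C (c / 2) ^ (2 * n + 1) := by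
      have := hodd.add_dvd_pow_add_pow (X 0 + X 1 + C (c / 2) : MvPolynomial (Fin 2) ℂ)
        (C (c / 2))
      rw [show (X 0 + X 1 + C (c / 2) + C (c / 2) : MvPolynomial (Fin 2) ℂ) =
        X 0 + X 1 + (C (c / 2) + C (c / 2)) by ring, e2] at this
      exact this
    have h3 := dvd_sub h1 h2
    have e3 : ((X 0 + C (c / 2)) ^ (2 * n + 1) - C (c / 2) ^ (2 * n + 1) +
        ((X 1 + C (c / 2)) ^ (2 * n + 1) - C (c / 2) ^ (2 * n + 1)) -
        ((X 0 + X 1 + C (c / 2)) ^ (2 * n + 1) - C (c / 2) ^ (2 * n + 1)) :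
        MvPolynomial (Fin 2) ℂ) =
        (X 0 + C (c / 2)) ^ (2 * n + 1) + (X 1 + C (c / 2)) ^ (2 * n + 1) -
        ((X 0 + X 1 + C (c / 2)) ^ (2 * n + 1) + C (c / 2) ^ (2 * n + 1)) := by ring
    rw [e3]
    exact h3
  · intro hc
    subst hc
    unfold OddP
    simp only [zero_div, Polynomial.C_0, add_zero, ne_eq, Nat.add_eq_zero_iff, one_ne_zero,
      and_false, not_false_eq_true, zero_pow, sub_zero, Polynomial.pow_comp, Polynomial.X_comp]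
    exact hodd.neg_pow _

end Pool.Agent.Helper96.FK
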