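import Pool.Agent.Helper96.FK.Defs

/-!
# FK-25b: the family for the cube root of unity type (proof in `Fam.lean`)
-/

set_option autoImplicit false

open MvPolynomial

namespace Pool.Agent.Helper96.FK

private theorem fam2_pow {S : Type*} [CommRing S] (h x E : S) (N : ℕ) :
    ∃ q : S, (h * x + E) ^ (N + 1) = E ^ (N + 1) + ((N : S) + 1) * E ^ N * (h * x) + h ^ 2 * q := by
  induction N with
  | zero => exact ⟨0, by simp; ring⟩
  | succ N ih =>
    obtain ⟨q, hq⟩ := ih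
    refine ⟨((N : S) + 1) * E ^ N * x ^ 2 + (h * x + E) * q, ?_⟩
    rw [pow_succ (h * x + E) (N + 1), hq]
    push_cast
    ring

private theorem fam2_dvd {S : Type*} [CommRing S] (a c x y : S) (n : ℕ)
    (ha : a * ((n : S) + 1) = 6 * (n : S) + 5) (c3 : S) (hc3 : 3 * c3 = 2 * c) :
    (x ^ 2 + x * y + y ^ 2 + c) ^ 2 ∣
      (a * (x ^ 3 + c * x) ^ (2 * n + 2) * x + 4 * c * (x ^ 3 + c * x) ^ (2 * n + 1) * (x ^ 2 + c3)) +
      (a * (y ^ 3 + c * y) ^ (2 * n + 2) * y + 4 * c * (y ^ 3 + c * y) ^ (2 * n + 1) * (y ^ 2 + c3)) +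
      (a * ((-(x + y)) ^ 3 + c * (-(x + y))) ^ (2 * n + 2) * (-(x + y)) +
        4 * c * ((-(x + y)) ^ 3 + c * (-(x + y))) ^ (2 * n + 1) * ((-(x + y)) ^ 2 + c3)) := by
  obtain ⟨h, hh⟩ : ∃ h : S, h = x ^ 2 + x * y + y ^ 2 + c := ⟨_, rfl⟩
  obtain ⟨E, hE⟩ : ∃ E : S, E = -(x * y * (x + y)) := ⟨_, rfl⟩
  have hx : x ^ 3 + c * x = h * x + E := by rw [hh, hE]; ring
  have hy : y ^ 3 + c * y = h * y + E := by rw [hh, hE]; ring
  have hz : (-(x + y)) ^ 3 + c * (-(x + y)) = h * (-(x + y)) + E := by rw [hh, hE]; ring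
  rw [← hh, hx, hy, hz]
  obtain ⟨qx2, hx2⟩ := fam2_pow h x E (2 * n + 1)
  obtain ⟨qy2, hy2⟩ := fam2_pow h y E (2 * n + 1)
  obtain ⟨qz2, hz2⟩ := fam2_pow h (-(x + y)) E (2 * n + 1)
  obtain ⟨qx1, hx1⟩ := fam2_pow h x E (2 * n)
  obtain ⟨qy1, hy1⟩ := fam2_pow h y E (2 * n)
  obtain ⟨qz1, hz1⟩ := fam2_pow h (-(x + y)) E (2 * n)
  rw [show 2 * n + 1 + 1 = 2 * n + 2 from rfl] at hx2 hy2 hz2
  rw [hx2, hy2, hz2, hx1, hy1, hz1]
  have e1 : E ^ (2 * n + 1) = E ^ (2 * n) * E := pow_succ _ _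
  have e2 : E ^ (2 * n + 2) = E ^ (2 * n) * E ^ 2 := by rw [← pow_add]
  rw [e1, e2]
  obtain ⟨P, hP⟩ : ∃ P : S, P = E ^ (2 * n) := ⟨_, rfl⟩
  rw [← hP]
  push_cast
  refine ⟨4 * (6 * (n : S) + 5) * P * E +
    a * (qx2 * x + qy2 * y + qz2 * (-(x + y))) +
    4 * c * (qx1 * (x ^ 2 + c3) + qy1 * (y ^ 2 + c3) + qz1 * ((-(x + y)) ^ 2 + c3)), ?_⟩
  have hI : x ^ 2 + x * y + y ^ 2 = h - c := by rw [hh]; ring
  have hE' : x * y * (x + y) = -E := by rw [hE]; ring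
  linear_combination (4 * a * ((n : S) + 1) * P * E * h + 8 * c * P * E) * hI +
    4 * P * E * h * (h - c) * ha - 12 * c * (2 * (n : S) + 1) * P * h * hE' + 4 * c * P * E * hc3

/-- the polynomial -/
private noncomputable def fam2_r (a c c3 : ℂ) (n : ℕ) : Polynomial ℂ :=
  Polynomial.C a * (Polynomial.X ^ 3 + Polynomial.C c * Polynomial.X) ^ (2 * n + 2) *
    Polynomial.X + Polynomial.C (4 * c) * (Polynomial.X ^ 3 + Polynomial.C c * Polynomial.X) ^
    (2 * n + 1) * (Polynomial.X ^ 2 + Polynomial.C c3)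

private theorem fam2_aeval (a c c3 : ℂ) (n : ℕ) (x : MvPolynomial (Fin 2) ℂ) :
    Polynomial.aeval x (fam2_r a c c3 n) = C a * (x ^ 3 + C c * x) ^ (2 * n + 2) * x +
      4 * C c * (x ^ 3 + C c * x) ^ (2 * n + 1) * (x ^ 2 + C c3) := by
  unfold fam2_r
  simp only [map_add, map_mul, map_pow, Polynomial.aeval_C, Polynomial.aeval_X,
    MvPolynomial.algebraMap_eq]
  have h4 : (C (4 : ℂ) : MvPolynomial (Fin 2) ℂ) = 4 := map_ofNat C 4
  rw [h4]

private theorem fam2_odd (a c c3 : ℂ) (n : ℕ) : OddP (fam2_r a c c3 n) := by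
  unfold OddP fam2_r
  simp only [Polynomial.add_comp, Polynomial.mul_comp, Polynomial.pow_comp, Polynomial.C_comp,
    Polynomial.X_comp]
  have h1 : (-Polynomial.X : Polynomial ℂ) ^ 3 + Polynomial.C c * -Polynomial.X =
      -(Polynomial.X ^ 3 + Polynomial.C c * Polynomial.X) := by ring
  rw [h1, Even.neg_pow ⟨n + 1, by ring⟩, Odd.neg_pow ⟨n, rfl⟩]
  ring

private theorem fam2_deg (a c c3 : ℂ) (n : ℕ) (ha : a ≠ 0) :
    (fam2_r a c c3 n).natDegree = 6 * n + 7 := by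
  have hw : (Polynomial.X ^ 3 + Polynomial.C c * Polynomial.X : Polynomial ℂ).Monic := by
    monicity!
  have hd : (Polynomial.X ^ 3 + Polynomial.C c * Polynomial.X : Polynomial ℂ).natDegree = 3 := by
    compute_degree!
  have h1 : (Polynomial.C a * (Polynomial.X ^ 3 + Polynomial.C c * Polynomial.X) ^ (2 * n + 2) *
    Polynomial.X : Polynomial ℂ).natDegree = 6 * n + 7 := by
    rw [mul_assoc, Polynomial.natDegree_C_mul ha, Polynomial.natDegree_mul (hw.pow _).ne_zero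
      Polynomial.X_ne_zero, hw.natDegree_pow, hd, Polynomial.natDegree_X]
    ring
  have h2 : (Polynomial.C (4 * c) * (Polynomial.X ^ 3 + Polynomial.C c * Polynomial.X) ^
    (2 * n + 1) * (Polynomial.X ^ 2 + Polynomial.C c3) : Polynomial ℂ).natDegree ≤ 6 * n + 5 := by
    refine Polynomial.natDegree_mul_le.trans ?_
    have h3 := Polynomial.natDegree_C_mul_le (4 * c)
      ((Polynomial.X ^ 3 + Polynomial.C c * Polynomial.X : Polynomial ℂ) ^ (2 * n + 1))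
    rw [hw.natDegree_pow, hd] at h3
    have h4 : (Polynomial.X ^ 2 + Polynomial.C c3 : Polynomial ℂ).natDegree ≤ 2 := by
      compute_degree!
    omega
  unfold fam2_r
  rw [Polynomial.natDegree_add_eq_left_of_natDegree_lt (by omega), h1]

private theorem fam2_sub (r : Polynomial ℂ) (x y : MvPolynomial (Fin 2) ℂ) :
    x - y ∣ Polynomial.aeval x r - Polynomial.aeval y r := by
  rw [Polynomial.aeval_def, Polynomial.aeval_def, ← Polynomial.eval_map, ← Polynomial.eval_map]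
  exact Polynomial.sub_dvd_eval_sub _ _ _

private theorem fam2_neg (r : Polynomial ℂ) (hr : OddP r) (x : MvPolynomial (Fin 2) ℂ) :
    Polynomial.aeval (-x) r = -Polynomial.aeval x r := by
  have h := congrArg (Polynomial.aeval x) hr
  rw [Polynomial.aeval_comp] at h
  simpa using h

private theorem fam2_G (r : Polynomial ℂ) : G 2 r =
    Polynomial.aeval (X 0 : MvPolynomial (Fin 2) ℂ) r +
      Polynomial.aeval (X 1 : MvPolynomial (Fin 2) ℂ) r -
      Polynomial.aeval (X 0 + X 1 : MvPolynomial (Fin 2) ℂ) r := by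
  unfold G
  rw [Fin.sum_univ_two, Fin.sum_univ_two]

theorem fam2 (c : ℂ) (n : ℕ) : ∃ r : Polynomial ℂ, r.natDegree = 6 * n + 7 ∧ r.coeff 0 = 0 ∧
    OddP r ∧ X 0 ∣ G 2 r ∧ X 1 ∣ G 2 r ∧ (X 0 + X 1) ∣ G 2 r ∧ hq c ^ 2 ∣ G 2 r := by
  have hn : ((n : ℂ) + 1) ≠ 0 := by exact_mod_cast Nat.succ_ne_zero n
  have hn5 : (6 * (n : ℂ) + 5) ≠ 0 := by
    have : (6 * n + 5 : ℕ) ≠ 0 := by omega
    exact_mod_cast this
  obtain ⟨a, ha⟩ : ∃ a : ℂ, a = (6 * (n : ℂ) + 5) / ((n : ℂ) + 1) := ⟨_, rfl⟩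
  have ha0 : a ≠ 0 := by rw [ha]; exact div_ne_zero hn5 hn
  have ha1 : a * ((n : ℂ) + 1) = 6 * (n : ℂ) + 5 := by rw [ha]; field_simp
  obtain ⟨r, hr⟩ : ∃ r, r = fam2_r a c (2 * c / 3) n := ⟨_, rfl⟩
  have h0 : r.coeff 0 = 0 := by
    rw [Polynomial.coeff_zero_eq_eval_zero, hr]
    unfold fam2_r
    simp
  have hodd : OddP r := by rw [hr]; exact fam2_odd a c _ n
  have hz : Polynomial.aeval (0 : MvPolynomial (Fin 2) ℂ) r = 0 := by
    rw [Polynomial.aeval_def, Polynomial.eval₂_at_zero, h0, map_zero]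
  refine ⟨r, by rw [hr]; exact fam2_deg a c _ n ha0, h0, hodd, ?_, ?_, ?_, ?_⟩
  · rw [fam2_G]
    have h1 := fam2_sub r (X 0) 0
    have h2 := fam2_sub r (X 0 + X 1) (X 1)
    rw [sub_zero, hz, sub_zero] at h1
    rw [add_sub_cancel_right] at h2
    have h3 := dvd_sub h1 h2
    convert h3 using 1
    ring
  · rw [fam2_G]
    have h1 := fam2_sub r (X 1) 0
    have h2 := fam2_sub r (X 0 + X 1) (X 0)
    rw [sub_zero, hz, sub_zero] at h1
    rw [add_sub_cancel_left] at h2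
    have h3 := dvd_sub h1 h2
    convert h3 using 1
    ring
  · rw [fam2_G]
    have h1 := fam2_sub r (X 0) (-(X 1))
    have h2 := fam2_sub r (X 0 + X 1) 0
    rw [sub_zero, hz, sub_zero] at h2
    rw [fam2_neg r hodd, sub_neg_eq_add, sub_neg_eq_add] at h1
    exact dvd_sub h1 h2
  · have h1 := fam2_dvd (C a : MvPolynomial (Fin 2) ℂ) (C c) (X 0) (X 1) n
      (by
        have := congrArg (C : ℂ →+* MvPolynomial (Fin 2) ℂ) ha1
        have h6 : (C (6 : ℂ) : MvPolynomial (Fin 2) ℂ) = 6 := map_ofNat C 6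
        have h5 : (C (5 : ℂ) : MvPolynomial (Fin 2) ℂ) = 5 := map_ofNat C 5
        simpa [h5, h6] using this)
      (C (2 * c / 3))
      (by
        have : (3 : ℂ) * (2 * c / 3) = 2 * c := by ring
        have := congrArg (C : ℂ →+* MvPolynomial (Fin 2) ℂ) this
        have h3 : (C (3 : ℂ) : MvPolynomial (Fin 2) ℂ) = 3 := map_ofNat C 3
        have h2 : (C (2 : ℂ) : MvPolynomial (Fin 2) ℂ) = 2 := map_ofNat C 2
        simpa [h2, h3] using this)
    rw [← fam2_aeval, ← fam2_aeval, ← fam2_aeval, ← hr, fam2_neg r hodd, ← sub_eq_add_neg,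
      ← fam2_G] at h1
    exact h1

end Pool.Agent.Helper96.FK
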