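import Pool.Agent.Helper96.FK.Defs

/-!
# FK-17b: bounded functions are constant (proof in `Elim.lean`)
-/

set_option autoImplicit false

open MvPolynomial

namespace Pool.Agent.Helper96.FK

/-- an element lying in all valuation rings over `ℂ` is a constant -/
theorem const_of_all {K : Type} [Field K] [Algebra ℂ K] (z : K)
    (h : ∀ V : ValuationSubring K, Over V → z ∈ V) : ∃ c : ℂ, algebraMap ℂ K c = z := by
  have h1 : z ∈ (⨅ V : {V : ValuationSubring K //
      (Set.range (algebraMap ℂ K)) ⊆ V.toSubring}, V.1.toSubring) := by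
    rw [Subring.mem_iInf]
    rintro ⟨V, hV⟩
    exact h V (fun c => hV ⟨c, rfl⟩)
  rw [iInf_valuationSubring_superset] at h1
  have h2 : IsIntegral (Subring.closure (Set.range (algebraMap ℂ K))) z := h1
  have hcl : ∀ s ∈ Subring.closure (Set.range (algebraMap ℂ K)), ∃ c : ℂ,
      algebraMap ℂ K c = s := by
    intro s hs
    have h3 : Subring.closure (Set.range (algebraMap ℂ K)) ≤ (algebraMap ℂ K).range := by
      rw [Subring.closure_le]
      rintro _ ⟨c, rfl⟩
      exact ⟨c, rfl⟩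
    exact h3 hs
  let f : ℂ →+* Subring.closure (Set.range (algebraMap ℂ K)) :=
    (algebraMap ℂ K).codRestrict _ (fun c => Subring.subset_closure ⟨c, rfl⟩)
  letI : Algebra ℂ (Subring.closure (Set.range (algebraMap ℂ K))) := f.toAlgebra
  haveI : IsScalarTower ℂ (Subring.closure (Set.range (algebraMap ℂ K))) K :=
    IsScalarTower.of_algebraMap_eq (fun c => rfl)
  haveI : Algebra.IsIntegral ℂ (Subring.closure (Set.range (algebraMap ℂ K))) := by
    constructor
    rintro ⟨s, hs⟩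
    obtain ⟨c, hc⟩ := hcl s hs
    have h4 : (⟨s, hs⟩ : Subring.closure (Set.range (algebraMap ℂ K))) = algebraMap ℂ _ c :=
      Subtype.ext hc.symm
    rw [h4]
    exact isIntegral_algebraMap
  have h5 : IsIntegral ℂ z := isIntegral_trans z h2
  have h6 := IsIntegral.mem_range_algebraMap_of_minpoly_splits (K := ℂ) h5 (IsAlgClosed.splits _)
  exact h6

theorem const_sb_hom {S S' : Type*} [CommRing S] [Algebra ℂ S] [CommRing S'] [Algebra ℂ S']
    (f : S →ₐ[ℂ] S') (Q : MvPolynomial (Fin 2) ℂ) (u v : S) :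
    f (sb Q u v) = sb Q (f u) (f v) := by
  unfold sb
  rw [← AlgHom.comp_apply, comp_aeval]
  congr 2
  ext i
  fin_cases i <;> simp

theorem const_sb_X (Q : MvPolynomial (Fin 2) ℂ) :
    sb Q (X 0 : MvPolynomial (Fin 2) ℂ) (X 1) = Q := by
  unfold sb
  have h : (![X 0, X 1] : Fin 2 → MvPolynomial (Fin 2) ℂ) = X := by
    ext i
    fin_cases i <;> simp
  rw [h, aeval_X_left_apply]

theorem const_sb_mem {K : Type} [Field K] [Algebra ℂ K] (V : ValuationSubring K) (hV : Over V)
    (Q : MvPolynomial (Fin 2) ℂ) (x y : K) (hx : x ∈ V) (hy : y ∈ V) : sb Q x y ∈ V := by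
  induction Q using MvPolynomial.induction_on with
  | C a =>
    unfold sb
    rw [aeval_C]
    exact hV a
  | add p q hp hq =>
    unfold sb at *
    rw [map_add]
    exact V.add_mem _ _ hp hq
  | mul_X p i hp =>
    unfold sb at *
    rw [map_mul, aeval_X]
    refine V.mul_mem _ _ hp ?_
    fin_cases i
    · exact hx
    · exact hy

theorem const_of_bounded (B : MvPolynomial (Fin 2) ℂ) (hB : Prime B)
    (P : MvPolynomial (Fin 2) ℂ)
    (h : ∀ (K : Type) [Field K] [Algebra ℂ K] (V : ValuationSubring K) (x y : K), Over V →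
      sb B x y = 0 → (∀ Q : MvPolynomial (Fin 2) ℂ, sb Q x y = 0 → B ∣ Q) →
      (x ∉ V ∨ y ∉ V) → sb P x y ∈ V) : ∃ c : ℂ, B ∣ P - C c := by
  have hI : (Ideal.span {B}).IsPrime := (Ideal.span_singleton_prime hB.ne_zero).2 hB
  let R := MvPolynomial (Fin 2) ℂ ⧸ Ideal.span {B}
  let K := FractionRing R
  let g : MvPolynomial (Fin 2) ℂ →ₐ[ℂ] R := Ideal.Quotient.mkₐ ℂ _
  let e : R →ₐ[ℂ] K := IsScalarTower.toAlgHom ℂ R K
  have he : Function.Injective e := IsFractionRing.injective R K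
  have key : ∀ Q : MvPolynomial (Fin 2) ℂ, sb Q (e (g (X 0))) (e (g (X 1))) = e (g Q) := by
    intro Q
    rw [← const_sb_hom, ← const_sb_hom, const_sb_X]
  have key0 : ∀ Q : MvPolynomial (Fin 2) ℂ, sb Q (e (g (X 0))) (e (g (X 1))) = 0 ↔ B ∣ Q := by
    intro Q
    rw [key, map_eq_zero_iff e he, ← Ideal.mem_span_singleton]
    exact Ideal.Quotient.eq_zero_iff_mem
  obtain ⟨c, hc⟩ := const_of_all (K := K) (sb P (e (g (X 0))) (e (g (X 1)))) (by
    intro V hV
    by_cases h1 : e (g (X 0)) ∈ V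
    · by_cases h2 : e (g (X 1)) ∈ V
      · exact const_sb_mem V hV P _ _ h1 h2
      · exact h K V _ _ hV ((key0 B).2 dvd_rfl) (fun Q hQ => (key0 Q).1 hQ) (Or.inr h2)
    · exact h K V _ _ hV ((key0 B).2 dvd_rfl) (fun Q hQ => (key0 Q).1 hQ) (Or.inl h1))
  refine ⟨c, (key0 _).1 ?_⟩
  have h7 : sb (P - C c) (e (g (X 0))) (e (g (X 1))) =
      sb P (e (g (X 0))) (e (g (X 1))) - algebraMap ℂ K c := by
    unfold sb
    rw [map_sub, aeval_C]
  rw [h7, hc, sub_self]

end Pool.Agent.Helper96.FK
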