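import Pool.Agent.Helper96.FK.Defs

/-!
# FK-17: common zeros and bounded functions

`elim`: the kernel of `ℂ[X,Y] → K`, `Q ↦ Q(x,y)` is a prime ideal containing `(B)` strictly, so it
has height two and is maximal (Krull dimension of `ℂ[X,Y]` is two); then use the Nullstellensatz
(`MvPolynomial.isMaximal_iff_eq_vanishingIdeal_singleton`). Or: elimination (Gauss lemma) gives
`0 ≠ e(X)` in the ideal `(B, N)`, the same for `Y`, so `x, y` are algebraic over `ℂ`.

`const_of_bounded`: `K = Frac(ℂ[X,Y]/(B))`, `x, y` the classes. `P(x,y)` lies in every valuation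
subring of `K` containing `ℂ` (if `x, y ∈ V` clear, otherwise by hypothesis), so it is integral
over `ℂ` (`iInf_valuationSubring_superset`), hence a constant `c`, and `B ∣ P - C c`.
-/

set_option autoImplicit false

open MvPolynomial

namespace Pool.Agent.Helper96.FK

theorem elim {K : Type} [Field K] [Algebra ℂ K] (B N : MvPolynomial (Fin 2) ℂ) (hB : Prime B)
    (hN : ¬ B ∣ N) (x y : K) (h1 : sb B x y = 0) (h2 : sb N x y = 0) :
    ∃ α β : ℂ, x = algebraMap ℂ K α ∧ y = algebraMap ℂ K β := by
  classical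
  let φ : MvPolynomial (Fin 2) ℂ →ₐ[ℂ] K := aeval ![x, y]
  let P : Ideal (MvPolynomial (Fin 2) ℂ) := RingHom.ker φ
  have hP : P.IsPrime := RingHom.ker_isPrime _
  have hBP : B ∈ P := h1
  have hNP : N ∈ P := h2
  have hmax : P.IsMaximal := by
    obtain ⟨M, hM, hPM⟩ := P.exists_le_maximal hP.ne_top
    by_cases h : P = M
    · rw [h]
      exact hM
    exfalso
    have hlt : P < M := lt_of_le_of_ne hPM h
    have hBne : B ≠ 0 := hB.ne_zero
    have hspan : (Ideal.span {B}).IsPrime := (Ideal.span_singleton_prime hBne).2 hB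
    have h01 : (⊥ : Ideal (MvPolynomial (Fin 2) ℂ)) < Ideal.span {B} := by
      rw [bot_lt_iff_ne_bot, Ne, Ideal.span_singleton_eq_bot]
      exact hBne
    have h12 : Ideal.span {B} < P := by
      refine lt_of_le_of_ne ((Ideal.span_singleton_le_iff_mem _).2 hBP) fun he => hN ?_
      rw [← Ideal.mem_span_singleton, he]
      exact hNP
    let a : Fin 4 → PrimeSpectrum (MvPolynomial (Fin 2) ℂ) :=
      ![⟨⊥, Ideal.isPrime_bot⟩, ⟨Ideal.span {B}, hspan⟩, ⟨P, hP⟩, ⟨M, hM.isPrime⟩]
    have ha : StrictMono a := by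
      rw [Fin.strictMono_iff_lt_succ]
      intro i
      fin_cases i
      · exact h01
      · exact h12
      · exact hlt
    have hlen := Order.LTSeries.length_le_krullDim (LTSeries.mk 3 a ha)
    have hdim : ringKrullDim (MvPolynomial (Fin 2) ℂ) = 2 := by
      rw [MvPolynomial.ringKrullDim_of_isNoetherianRing, ringKrullDim_eq_zero_of_field]
      simp
    change ((3 : ℕ) : WithBot ℕ∞) ≤ ringKrullDim (MvPolynomial (Fin 2) ℂ) at hlen
    rw [hdim] at hlen
    exact absurd hlen (by decide)
  obtain ⟨p, hp⟩ := (MvPolynomial.isMaximal_iff_eq_vanishingIdeal_singleton (I := P)).1 hmax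
  have key : ∀ i : Fin 2, (X i - C (p i) : MvPolynomial (Fin 2) ℂ) ∈ P := by
    intro i
    rw [hp, MvPolynomial.mem_vanishingIdeal_singleton_iff]
    simp
  refine ⟨p 0, p 1, ?_, ?_⟩
  · have h := key 0
    rw [RingHom.mem_ker] at h
    have h' : φ (X 0) - φ (C (p 0)) = 0 := by
      rw [← map_sub]
      exact h
    simpa [φ, sub_eq_zero] using h'
  · have h := key 1
    rw [RingHom.mem_ker] at h
    have h' : φ (X 1) - φ (C (p 1)) = 0 := by
      rw [← map_sub]
      exact h
    simpa [φ, sub_eq_zero] using h'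

end Pool.Agent.Helper96.FK
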