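import Pool.Agent.Helper96.FK.Asym
import Pool.Agent.Helper96.FK.Const
import Pool.Agent.Helper96.FK.Elim

/-!
# FK-24: multiplicities (see the comment in `Neg.lean`)
-/

set_option autoImplicit false

open MvPolynomial

namespace Pool.Agent.Helper96.FK

private theorem mult_ker0 (f : Polynomial ℂ) (D : MvPolynomial (Fin 2) ℂ)
    (h : aeval ![f, Polynomial.X] D = 0) :
    (X 0 - Polynomial.aeval (X 1 : MvPolynomial (Fin 2) ℂ) f) ∣ D := by
  rw [← Ideal.mem_span_singleton, ← Ideal.Quotient.eq_zero_iff_mem]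
  set I := Ideal.span {(X 0 - Polynomial.aeval (X 1 : MvPolynomial (Fin 2) ℂ) f :
    MvPolynomial (Fin 2) ℂ)} with hI
  have h0 : Ideal.Quotient.mkₐ ℂ I (Polynomial.aeval (X 1 : MvPolynomial (Fin 2) ℂ) f) =
      Ideal.Quotient.mkₐ ℂ I (X 0) := by
    symm
    rw [← sub_eq_zero, ← map_sub]
    exact Ideal.Quotient.eq_zero_iff_mem.2 (Ideal.mem_span_singleton_self _)
  have h1 : ((Ideal.Quotient.mkₐ ℂ I).comp
      (Polynomial.aeval (X 1 : MvPolynomial (Fin 2) ℂ))).comp (aeval ![f, Polynomial.X]) =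
      Ideal.Quotient.mkₐ ℂ I := by
    ext i
    fin_cases i
    · simpa using h0
    · simp
  have h2 := congrArg (fun g => g D) h1
  simp only [AlgHom.comp_apply] at h2
  rw [h, map_zero, map_zero] at h2
  exact h2.symm

private theorem mult_ker1 (f : Polynomial ℂ) (D : MvPolynomial (Fin 2) ℂ)
    (h : aeval ![Polynomial.X, f] D = 0) :
    (X 1 - Polynomial.aeval (X 0 : MvPolynomial (Fin 2) ℂ) f) ∣ D := by
  rw [← Ideal.mem_span_singleton, ← Ideal.Quotient.eq_zero_iff_mem]
  set I := Ideal.span {(X 1 - Polynomial.aeval (X 0 : MvPolynomial (Fin 2) ℂ) f :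
    MvPolynomial (Fin 2) ℂ)} with hI
  have h0 : Ideal.Quotient.mkₐ ℂ I (Polynomial.aeval (X 0 : MvPolynomial (Fin 2) ℂ) f) =
      Ideal.Quotient.mkₐ ℂ I (X 1) := by
    symm
    rw [← sub_eq_zero, ← map_sub]
    exact Ideal.Quotient.eq_zero_iff_mem.2 (Ideal.mem_span_singleton_self _)
  have h1 : ((Ideal.Quotient.mkₐ ℂ I).comp
      (Polynomial.aeval (X 0 : MvPolynomial (Fin 2) ℂ))).comp (aeval ![Polynomial.X, f]) =
      Ideal.Quotient.mkₐ ℂ I := by
    ext i
    fin_cases i
    · simp
    · simpa using h0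
  have h2 := congrArg (fun g => g D) h1
  simp only [AlgHom.comp_apply] at h2
  rw [h, map_zero, map_zero] at h2
  exact h2.symm

private theorem mult_ne0 (f : Polynomial ℂ) :
    (X 0 - Polynomial.aeval (X 1 : MvPolynomial (Fin 2) ℂ) f) ≠ 0 := by
  intro h
  have h1 := congrArg (aeval ![f + 1, (Polynomial.X : Polynomial ℂ)]) h
  rw [map_sub, aeval_X, map_zero, ← Polynomial.aeval_algHom_apply, aeval_X] at h1
  simp at h1

private theorem mult_ne1 (f : Polynomial ℂ) :
    (X 1 - Polynomial.aeval (X 0 : MvPolynomial (Fin 2) ℂ) f) ≠ 0 := by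
  intro h
  have h1 := congrArg (aeval ![(Polynomial.X : Polynomial ℂ), f + 1]) h
  rw [map_sub, aeval_X, map_zero, ← Polynomial.aeval_algHom_apply, aeval_X] at h1
  simp at h1

private theorem mult_zero0 (f : Polynomial ℂ) (B : MvPolynomial (Fin 2) ℂ) (hB : Prime B)
    (h : B ∣ X 0 - Polynomial.aeval (X 1 : MvPolynomial (Fin 2) ℂ) f) :
    aeval ![f, Polynomial.X] B = 0 := by
  obtain ⟨D, hD⟩ := h
  have h1 := congrArg (aeval ![f, (Polynomial.X : Polynomial ℂ)]) hD
  rw [map_sub, aeval_X, map_mul, ← Polynomial.aeval_algHom_apply, aeval_X] at h1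
  simp only [Matrix.cons_val_zero, Matrix.cons_val_one, Polynomial.aeval_X_left_apply,
    sub_self] at h1
  rcases mul_eq_zero.1 h1.symm with h2 | h2
  · exact h2
  · exfalso
    obtain ⟨E, hE⟩ := mult_ker0 f D h2
    rw [hD] at hE
    have hD0 : D ≠ 0 := by
      rintro rfl
      rw [mul_zero] at hD
      exact mult_ne0 f hD
    have h3 : D * (B * E - 1) = 0 := by linear_combination -hE
    have h4 := (mul_eq_zero.1 h3).resolve_left hD0
    exact hB.not_isUnit (IsUnit.of_mul_eq_one E (by linear_combination h4))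

private theorem mult_zero1 (f : Polynomial ℂ) (B : MvPolynomial (Fin 2) ℂ) (hB : Prime B)
    (h : B ∣ X 1 - Polynomial.aeval (X 0 : MvPolynomial (Fin 2) ℂ) f) :
    aeval ![Polynomial.X, f] B = 0 := by
  obtain ⟨D, hD⟩ := h
  have h1 := congrArg (aeval ![(Polynomial.X : Polynomial ℂ), f]) hD
  rw [map_sub, aeval_X, map_mul, ← Polynomial.aeval_algHom_apply, aeval_X] at h1
  simp only [Matrix.cons_val_zero, Matrix.cons_val_one, Polynomial.aeval_X_left_apply,
    sub_self] at h1
  rcases mul_eq_zero.1 h1.symm with h2 | h2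
  · exact h2
  · exfalso
    obtain ⟨E, hE⟩ := mult_ker1 f D h2
    rw [hD] at hE
    have hD0 : D ≠ 0 := by
      rintro rfl
      rw [mul_zero] at hD
      exact mult_ne1 f hD
    have h3 : D * (B * E - 1) = 0 := by linear_combination -hE
    have h4 := (mul_eq_zero.1 h3).resolve_left hD0
    exact hB.not_isUnit (IsUnit.of_mul_eq_one E (by linear_combination h4))

private theorem mult_G (q : Polynomial ℂ) : (G 2 q : MvPolynomial (Fin 2) ℂ) =
    Polynomial.aeval (X 0) q + Polynomial.aeval (X 1) q - Polynomial.aeval (X 0 + X 1) q := by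
  unfold G
  rw [Fin.sum_univ_two, Fin.sum_univ_two]

private theorem mult_pd0 (q : Polynomial ℂ) : pderiv 0 (G 2 q : MvPolynomial (Fin 2) ℂ) =
    Polynomial.aeval (X 0) (Polynomial.derivative q) -
      Polynomial.aeval (X 0 + X 1) (Polynomial.derivative q) := by
  rw [mult_G, map_sub, map_add, Derivation.map_aeval, Derivation.map_aeval,
    Derivation.map_aeval, map_add, pderiv_X_self, pderiv_X_of_ne (by decide)]
  simp

private theorem mult_pd1 (q : Polynomial ℂ) : pderiv 1 (G 2 q : MvPolynomial (Fin 2) ℂ) =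
    Polynomial.aeval (X 1) (Polynomial.derivative q) -
      Polynomial.aeval (X 0 + X 1) (Polynomial.derivative q) := by
  rw [mult_G, map_sub, map_add, Derivation.map_aeval, Derivation.map_aeval,
    Derivation.map_aeval, map_add, pderiv_X_self, pderiv_X_of_ne (by decide)]
  simp

private theorem mult_dvd (i : Fin 2) (n : ℕ) (B P : MvPolynomial (Fin 2) ℂ)
    (h : B ^ (n + 1) ∣ P) : B ^ n ∣ pderiv i P := by
  obtain ⟨D, rfl⟩ := h
  rw [Derivation.leibniz, Derivation.leibniz_pow]
  refine dvd_add ?_ ?_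
  · rw [smul_eq_mul]
    exact (pow_dvd_pow B (Nat.le_succ n)).mul_right _
  · rw [smul_eq_mul, Nat.add_sub_cancel, nsmul_eq_mul, smul_eq_mul]
    exact ((Dvd.intro _ rfl : B ^ n ∣ B ^ n * pderiv i B).mul_left _).mul_left _

private theorem mult_deg (q : Polynomial ℂ) (hq : 2 ≤ q.natDegree) (c : ℂ)
    (h : Polynomial.derivative q = Polynomial.C c) : False := by
  have h1 := congrArg (fun f => f.coeff (q.natDegree - 1)) h
  simp only [Polynomial.coeff_derivative] at h1
  rw [Polynomial.coeff_C_of_ne_zero (by omega)] at h1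
  have h2 : q.natDegree - 1 + 1 = q.natDegree := by omega
  rw [h2] at h1
  rcases mul_eq_zero.1 h1 with h3 | h3
  · have h10 := Polynomial.leadingCoeff_eq_zero.1 h3
    rw [h10, Polynomial.natDegree_zero] at hq
    omega
  · have h4 : ((q.natDegree - 1 + 1 : ℕ) : ℂ) = 0 := by push_cast; exact h3
    rw [Nat.cast_eq_zero] at h4
    omega

private theorem mult_aeC (f : Polynomial ℂ) (c : ℂ) :
    Polynomial.aeval (Polynomial.C c : Polynomial ℂ) f = Polynomial.C (f.eval c) := by
  have h := Polynomial.aeval_algebraMap_apply (Polynomial ℂ) c f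
  rw [Polynomial.coe_aeval_eq_eval] at h
  exact h

theorem mult_X0 (q : Polynomial ℂ) (hq : 2 ≤ q.natDegree) (B : MvPolynomial (Fin 2) ℂ)
    (hB : Prime B) (h : B ∣ X 0) : ¬ B ^ 2 ∣ G 2 q := by
  intro h2
  have h3 := mult_zero0 0 B hB (by rwa [map_zero, sub_zero])
  have h4 := mult_dvd 0 1 B _ h2
  rw [pow_one, mult_pd0] at h4
  have h5 := map_dvd (aeval ![(0 : Polynomial ℂ), Polynomial.X]) h4
  rw [h3, zero_dvd_iff, map_sub, ← Polynomial.aeval_algHom_apply,
    ← Polynomial.aeval_algHom_apply, map_add, aeval_X, aeval_X] at h5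
  simp only [Matrix.cons_val_zero, Matrix.cons_val_one, zero_add,
    Polynomial.aeval_X_left_apply] at h5
  have h6 := mult_aeC (Polynomial.derivative q) 0
  rw [Polynomial.C_0] at h6
  rw [h6] at h5
  exact mult_deg q hq _ (sub_eq_zero.1 h5).symm

theorem mult_X1 (q : Polynomial ℂ) (hq : 2 ≤ q.natDegree) (B : MvPolynomial (Fin 2) ℂ)
    (hB : Prime B) (h : B ∣ X 1) : ¬ B ^ 2 ∣ G 2 q := by
  intro h2
  have h3 := mult_zero1 0 B hB (by rwa [map_zero, sub_zero])
  have h4 := mult_dvd 1 1 B _ h2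
  rw [pow_one, mult_pd1] at h4
  have h5 := map_dvd (aeval ![Polynomial.X, (0 : Polynomial ℂ)]) h4
  rw [h3, zero_dvd_iff, map_sub, ← Polynomial.aeval_algHom_apply,
    ← Polynomial.aeval_algHom_apply, map_add, aeval_X, aeval_X] at h5
  simp only [Matrix.cons_val_zero, Matrix.cons_val_one, add_zero,
    Polynomial.aeval_X_left_apply] at h5
  have h6 := mult_aeC (Polynomial.derivative q) 0
  rw [Polynomial.C_0] at h6
  rw [h6] at h5
  exact mult_deg q hq _ (sub_eq_zero.1 h5).symm

private theorem mult_line (B : MvPolynomial (Fin 2) ℂ) (hB : Prime B) (c : ℂ)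
    (h : B ∣ X 0 + X 1 + C c) :
    aeval ![-Polynomial.X - Polynomial.C c, (Polynomial.X : Polynomial ℂ)] B = 0 := by
  apply mult_zero0 _ B hB
  convert h using 1
  rw [map_sub, map_neg, Polynomial.aeval_X, Polynomial.aeval_C]
  show X 0 - (-X 1 - C c) = _
  ring

theorem mult_neg (q : Polynomial ℂ) (hq : 2 ≤ q.natDegree) (B : MvPolynomial (Fin 2) ℂ)
    (hB : Prime B) (c : ℂ) (h : B ∣ X 0 + X 1 + C c) : ¬ B ^ 2 ∣ G 2 q := by
  intro h2
  have h3 := mult_line B hB c h
  have h4 := mult_dvd 1 1 B _ h2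
  rw [pow_one, mult_pd1] at h4
  have h5 := map_dvd (aeval ![-Polynomial.X - Polynomial.C c, (Polynomial.X : Polynomial ℂ)]) h4
  rw [h3, zero_dvd_iff, map_sub, ← Polynomial.aeval_algHom_apply,
    ← Polynomial.aeval_algHom_apply, map_add, aeval_X, aeval_X] at h5
  simp only [Matrix.cons_val_zero, Matrix.cons_val_one,
    Polynomial.aeval_X_left_apply] at h5
  have e : (-Polynomial.X - Polynomial.C c + Polynomial.X : Polynomial ℂ) =
      Polynomial.C (-c) := by
    rw [map_neg]
    ring
  rw [e, mult_aeC] at h5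
  exact mult_deg q hq _ (sub_eq_zero.1 h5)

private theorem mult_Gline (q : Polynomial ℂ) (B : MvPolynomial (Fin 2) ℂ) (hB : Prime B)
    (c : ℂ) (h : B ∣ X 0 + X 1 + C c) (hG : B ∣ G 2 q) (z : ℂ) :
    (Polynomial.derivative q).eval (-z - c) = (Polynomial.derivative q).eval z := by
  have h3 := mult_line B hB c h
  have h5 := map_dvd (aeval ![-Polynomial.X - Polynomial.C c, (Polynomial.X : Polynomial ℂ)]) hG
  rw [h3, zero_dvd_iff, mult_G, map_sub, map_add, ← Polynomial.aeval_algHom_apply,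
    ← Polynomial.aeval_algHom_apply, ← Polynomial.aeval_algHom_apply, map_add, aeval_X,
    aeval_X] at h5
  simp only [Matrix.cons_val_zero, Matrix.cons_val_one,
    Polynomial.aeval_X_left_apply] at h5
  have e : (-Polynomial.X - Polynomial.C c + Polynomial.X : Polynomial ℂ) =
      Polynomial.C (-c) := by
    rw [map_neg]
    ring
  rw [e, mult_aeC] at h5
  have h6 := congrArg Polynomial.derivative h5
  rw [Polynomial.derivative_sub, Polynomial.derivative_add, Polynomial.derivative_C,
    Polynomial.derivative_zero, sub_zero] at h6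
  have h7 : Polynomial.aeval (-Polynomial.X - Polynomial.C c : Polynomial ℂ) q =
      q.comp (-Polynomial.X - Polynomial.C c) := rfl
  rw [h7, Polynomial.derivative_comp] at h6
  have h8 := congrArg (Polynomial.eval z) h6
  simp only [Polynomial.eval_add, Polynomial.eval_mul, Polynomial.eval_comp,
    Polynomial.eval_sub, Polynomial.eval_neg, Polynomial.eval_X, Polynomial.eval_C,
    Polynomial.derivative_sub, Polynomial.derivative_neg, Polynomial.derivative_X,
    Polynomial.derivative_C, Polynomial.eval_one, Polynomial.eval_zero] at h8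
  linear_combination -h8

private theorem mult_per (f : Polynomial ℂ) (d : ℂ) (hd : d ≠ 0)
    (h : ∀ z, f.eval (z + d) = f.eval z) : f = Polynomial.C (f.eval 0) := by
  have h1 : ∀ n : ℕ, f.eval (n * d) = f.eval 0 := by
    intro n
    induction n with
    | zero => rw [Nat.cast_zero, zero_mul]
    | succ n ih =>
      rw [Nat.cast_succ, add_mul, one_mul, h, ih]
  apply Polynomial.eq_of_infinite_eval_eq
  have h2 : Function.Injective (fun n : ℕ => (n : ℂ) * d) := by
    intro a b hab
    have := mul_right_cancel₀ hd hab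
    exact_mod_cast this
  refine (Set.infinite_range_of_injective h2).mono ?_
  rintro _ ⟨n, rfl⟩
  show f.eval (n * d) = (Polynomial.C (f.eval 0)).eval (n * d)
  rw [h1, Polynomial.eval_C]

theorem cneg_unique (q : Polynomial ℂ) (hq : 2 ≤ q.natDegree) (B B' : MvPolynomial (Fin 2) ℂ)
    (hB : Prime B) (hB' : Prime B') (c c' : ℂ) (h : B ∣ X 0 + X 1 + C c)
    (h' : B' ∣ X 0 + X 1 + C c') (hG : B ∣ G 2 q) (hG' : B' ∣ G 2 q) : c = c' := by
  by_contra hne
  have h1 := mult_Gline q B hB c h hG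
  have h2 := mult_Gline q B' hB' c' h' hG'
  refine mult_deg q hq _ (mult_per (Polynomial.derivative q) (c' - c) (sub_ne_zero.2 (Ne.symm hne)) ?_)
  intro z
  have h3 := h1 (-z - c')
  have h4 := h2 z
  rw [h4] at h3
  rw [← h3]
  congr 1
  ring

theorem cneg_odd (q : Polynomial ℂ) (ho : OddP q) (hq : 2 ≤ q.natDegree)
    (B : MvPolynomial (Fin 2) ℂ) (hB : Prime B) (c : ℂ) (h : B ∣ X 0 + X 1 + C c)
    (hG : B ∣ G 2 q) : c = 0 := by
  by_contra hne
  have h1 := mult_Gline q B hB c h hG
  have h2 : ∀ z, (Polynomial.derivative q).eval (-z) = (Polynomial.derivative q).eval z := by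
    intro z
    have h3 := congrArg Polynomial.derivative ho
    rw [Polynomial.derivative_comp] at h3
    have h8 := congrArg (Polynomial.eval z) h3
    simp only [Polynomial.eval_mul, Polynomial.eval_comp,
      Polynomial.eval_neg, Polynomial.eval_X,
      Polynomial.derivative_neg, Polynomial.derivative_X,
      Polynomial.eval_one] at h8
    linear_combination -h8
  refine mult_deg q hq _ (mult_per (Polynomial.derivative q) c hne ?_)
  intro z
  have h3 := h1 z
  rw [← h3, ← h2]
  congr 1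
  ring

private theorem mult_fac (f : Polynomial ℂ) (hf : f ≠ 0) (B Y : MvPolynomial (Fin 2) ℂ)
    (hB : Prime B) (h : B ∣ Polynomial.aeval Y f) : ∃ a : ℂ, B ∣ Y - C a := by
  have h1 := IsAlgClosed.splits f
  have h2 := h1.eq_prod_roots
  rw [h2, map_mul, Polynomial.aeval_C, map_multiset_prod, Multiset.map_map] at h
  rcases hB.dvd_or_dvd h with h3 | h3
  · exfalso
    apply hB.not_isUnit
    refine isUnit_of_dvd_unit h3 ?_
    exact (IsUnit.mk0 _ (Polynomial.leadingCoeff_ne_zero.2 hf)).map _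
  · obtain ⟨x, hx, hx2⟩ := Prime.exists_mem_multiset_dvd hB h3
    rw [Multiset.mem_map] at hx
    obtain ⟨a, ha, rfl⟩ := hx
    refine ⟨a, ?_⟩
    simpa using hx2

theorem mult_hq (q : Polynomial ℂ) (ho : OddP q) (hq' : 3 ≤ q.natDegree)
    (B : MvPolynomial (Fin 2) ℂ) (hB : Prime B) (c : ℂ) (h : B ∣ hq c) : ¬ B ^ 3 ∣ G 2 q := by
  intro h3
  have h4 := mult_dvd 0 2 B _ h3
  have h5 := mult_dvd 1 2 B _ h3
  have h6 := mult_dvd 0 1 B _ h4
  have h7 := mult_dvd 1 1 B _ h4
  have h8 := mult_dvd 1 1 B _ h5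
  rw [pow_one] at h6 h7 h8
  rw [mult_pd0] at h6 h7
  rw [mult_pd1] at h8
  rw [map_sub, Derivation.map_aeval, Derivation.map_aeval, map_add] at h6 h7 h8
  rw [pderiv_X_self, pderiv_X_of_ne (by decide)] at h6 h7 h8
  simp only [smul_eq_mul, mul_zero, mul_one, add_zero, zero_add, zero_sub, dvd_neg] at h6 h7 h8
  have h9 := (dvd_sub_left h7).1 h6
  have h10 := (dvd_sub_left h7).1 h8
  have hf : Polynomial.derivative (Polynomial.derivative q) ≠ 0 := by
    rw [Polynomial.derivative_ne_zero, Polynomial.natDegree_derivative]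
    omega
  obtain ⟨a, ha⟩ := mult_fac _ hf B _ hB h9
  obtain ⟨b, hb⟩ := mult_fac _ hf B _ hB h10
  have h11 := mult_zero0 (Polynomial.C a) B hB (by rw [Polynomial.aeval_C]; exact ha)
  have h12 := map_dvd (aeval ![Polynomial.C a, (Polynomial.X : Polynomial ℂ)]) hb
  rw [h11, zero_dvd_iff, map_sub, aeval_X, aeval_C] at h12
  exact Polynomial.X_sub_C_ne_zero b h12

end Pool.Agent.Helper96.FK
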