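import Pool.Agent.Helper96.FK.Dirs
import Pool.Agent.Helper96.FK.Const

/-!
# FK-23: the other factors of `Den`, and multiplicities

`negtype`: `const_of_bounded` with `P = X 0 + X 1`, if `B ∤ X 0`, `B ∤ X 1`. At a generic point of
`B = 0` with `x ∉ V` or `y ∉ V`: if `x/y ∈ V`, `dir` and `dirs` give direction `0` (`asym0`: `x = 0`,
so `B ∣ X 0`), a cube root of unity (excluded by hypothesis, `tv_of_Cg`) or `-1`, then `asymneg`:
`x+y ∈ V`. If `x/y ∉ V`, `y/x` is small, `asym0` with exchanged variables: `y = 0`, `B ∣ X 1`.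

Multiplicities: if `(X 0)^2 ∣ G 2 q`, the coefficient of `x` in `q(x)+q(y)-q(x+y)`, which is
`q'(0)-q'(y)`, vanishes. If `(X 0+X 1+c)^2 ∣ G 2 q`, put `x = s - y`: the derivative at `s = -c` is
`q'(-c-y) - q'(-c)`, zero, impossible. `cneg_unique`: `X+Y+c ∣ G 2 q` says
`q(-c-y)+q(y) = q(-c)`; two values of `c` make `q'` periodic.
`(hq)-type`: if `B^3 ∣ G 2 q`, `B` prime, `B ∣ hq c`: then `B ∣ ∂_x^2 G 2 q = q''(x)-q''(x+y)`. Take a
point: `B` has a zero `(x,y)` in some `K` with `y ∉ V` (`lift_left`, or the generic point: if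
`x, y ∈ V` for all `V` they are constants); as `x^2+xy+y^2 = -c`, `x/y ≡ α`, `α^2+α+1 = 0`, and
`q''(x)-q''(x+y) = k(k-1)q_k y^{k-2}(α^{k-2} - (1+α)^{k-2} + small)`, with `1+α = -α^2`, `k` odd:
`α^{k-2}+α^{2(k-2)} ≠ 0`. Contradiction.
-/

set_option autoImplicit false

open MvPolynomial

namespace Pool.Agent.Helper96.FK

private theorem neg_sb_dvd {K : Type} [CommRing K] [Algebra ℂ K] {B Q : MvPolynomial (Fin 2) ℂ}
    (h : B ∣ Q) (x y : K) (h0 : sb B x y = 0) : sb Q x y = 0 := by
  obtain ⟨R, rfl⟩ := h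
  unfold sb at h0 ⊢
  rw [map_mul, h0, zero_mul]

private theorem neg_den_ne {p q : Polynomial ℂ} {Den N : MvPolynomial (Fin 2) ℂ}
    (hR : RData p q Den N) : Den ≠ 0 := by
  intro h0
  obtain ⟨K, _, _, _, V, hV, y, hy⟩ := exists_vf
  have hG : sb (G 2 q) (1 : K) y = 0 := by
    have h1 : G 2 q = 0 := by
      have := hR.den_q
      rw [h0] at this
      exact zero_dvd_iff.1 this
    rw [h1]
    unfold sb
    rw [map_zero]
  have hc : Cg V ((1 : K) / y) 0 := by
    unfold Cg
    rw [map_zero, sub_zero, one_div, map_inv₀]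
    have h1 : 1 < V.valuation y := by
      by_contra h
      exact hy ((V.valuation_le_one_iff y).1 (not_lt.1 h))
    exact inv_lt_one_of_one_lt₀ h1
  exact one_ne_zero (asym0 V hV q (le_trans (by norm_num) hR.dq) hR.q0 1 y hy hc hG)

/-- one of the two quotients is bounded -/
private theorem neg_cases {K : Type} [Field K] [Algebra ℂ K] (V : ValuationSubring K) (x y : K)
    (hxy : x ∉ V ∨ y ∉ V) : (y ∉ V ∧ x / y ∈ V) ∨ (x ∉ V ∧ Cg V (y / x) 0) := by
  have hlt : ∀ z : K, z ∉ V → 1 < V.valuation z := by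
    intro z hz
    by_contra h
    exact hz ((V.valuation_le_one_iff z).1 (not_lt.1 h))
  by_cases hy : y ∈ V
  · right
    have hx : x ∉ V := by
      rcases hxy with h | h
      · exact h
      · exact absurd hy h
    refine ⟨hx, ?_⟩
    unfold Cg
    rw [map_zero, sub_zero, map_div₀]
    have h1 := hlt x hx
    have h2 : V.valuation y ≤ 1 := (V.valuation_le_one_iff y).2 hy
    exact (div_lt_one₀ (lt_trans zero_lt_one h1)).2 (lt_of_le_of_lt h2 h1)
  · by_cases hq : x / y ∈ V
    · exact Or.inl ⟨hy, hq⟩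
    · right
      have hy0 : y ≠ 0 := by
        rintro rfl
        exact hy V.zero_mem
      have h1 := hlt _ hq
      have h2 := hlt _ hy
      have h3 : V.valuation x = V.valuation (x / y) * V.valuation y := by
        rw [← map_mul, div_mul_cancel₀ x hy0]
      have h4 : 1 < V.valuation x := by
        rw [h3]
        exact one_lt_mul'' h1 h2
      refine ⟨fun h => absurd ((V.valuation_le_one_iff x).2 h) (not_le.2 h4), ?_⟩
      unfold Cg
      rw [map_zero, sub_zero]
      have e : y / x = (x / y)⁻¹ := by rw [inv_div]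
      rw [e, map_inv₀]
      exact inv_lt_one_of_one_lt₀ h1

theorem negtype {p q : Polynomial ℂ} {Den N : MvPolynomial (Fin 2) ℂ} (hR : RData p q Den N)
    (B : MvPolynomial (Fin 2) ℂ) (hB : Prime B) (hBD : B ∣ Den)
    (hno : ∀ α : ℂ, α ^ 2 + α + 1 = 0 → tv B α 1 ≠ 0) :
    B ∣ X 0 ∨ B ∣ X 1 ∨ ∃ c : ℂ, B ∣ X 0 + X 1 + C c := by
  by_cases h0 : B ∣ X 0
  · exact Or.inl h0
  by_cases h1 : B ∣ X 1
  · exact Or.inr (Or.inl h1)
  right
  right
  have hD := neg_den_ne hR
  have hq2 : 2 ≤ q.natDegree := le_trans (by norm_num) hR.dq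
  obtain ⟨c, hc⟩ := const_of_bounded B hB (X 0 + X 1) (by
    intro K _ _ V x y hV hxy hgen hout
    have e0 : ∀ a b : K, sb (X 0 : MvPolynomial (Fin 2) ℂ) a b = a := by
      intro a b
      unfold sb
      rw [aeval_X]
      rfl
    have e1 : ∀ a b : K, sb (X 1 : MvPolynomial (Fin 2) ℂ) a b = b := by
      intro a b
      unfold sb
      rw [aeval_X]
      rfl
    have es : sb (X 0 + X 1 : MvPolynomial (Fin 2) ℂ) x y = x + y := by
      have h := e0 x y
      have h' := e1 x y
      unfold sb at h h' ⊢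
      rw [map_add, h, h']
    rw [es]
    have hDen : sb Den x y = 0 := neg_sb_dvd hBD x y hxy
    have hG : sb (G 2 q) x y = 0 := neg_sb_dvd hR.den_q x y hDen
    rcases neg_cases V x y hout with ⟨hy, hm⟩ | ⟨hx, hm⟩
    · obtain ⟨α, hα, hCg⟩ := dir V hV B hB.ne_zero x y hy hm hxy
      have hαD := tv_of_Cg V hV Den hD x y hy α hCg hDen
      rcases dirs hR α hαD with h | h | h
      · rw [h] at hCg
        have hx := asym0 V hV q hq2 hR.q0 x y hy hCg hG
        exact absurd (hgen (X 0) (by rw [e0, hx])) h0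
      · rw [h] at hCg
        exact asymneg V hV q hq2 x y hy hCg hG
      · exact absurd hα (hno α h)
    · have hG' : sb (G 2 q) y x = 0 := by
        rw [sb_G2] at hG ⊢
        rw [add_comm y x, add_comm (Polynomial.aeval y q)]
        exact hG
      have hy := asym0 V hV q hq2 hR.q0 y x hx hm hG'
      exact absurd (hgen (X 1) (by rw [e1, hy])) h1)
  refine ⟨-c, ?_⟩
  rw [C_neg, ← sub_eq_add_neg]
  exact hc

end Pool.Agent.Helper96.FK
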