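import Pool.Agent.Helper96.FK.Omega
import Pool.Agent.Helper96.FK.Neg
import Pool.Agent.Helper96.FK.Mult
import Pool.Agent.Helper96.FK.Fam
import Pool.Agent.Helper96.FK.Fam2

/-!
# FK-26: admissible linear parts of arbitrarily high degree

`Den ∣ G 2 r` as soon as `B^n ∣ Den → B^n ∣ G 2 r` for all primes `B` (UFD). By `omega`, `negtype`
every prime factor `B` of `Den` divides `X 0`, `X 1`, `X 0+X 1+c1` or `hq c`; by `Mult.lean`
`n ≤ 1`, `1`, `1`, `2` respectively (`Den ∣ G 2 q`). Case without cube roots of unity: `fam1` with the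
`c1` of a factor `B ∣ X 0+X 1+c1`, `B ∤ X 0, X 1`, if there is one (unique by `cneg_unique`), else
`c1 = 0`; if `q` is odd, `c1 = 0` by `cneg_odd`. Case with: `fam2` with the `c` of `omega`; `q` is odd
and `c1 = 0`.
-/

set_option autoImplicit false

open MvPolynomial

namespace Pool.Agent.Helper96.FK

/-- divisibility in a factorial ring from divisibility of the prime powers -/
private theorem adm_dvd {Q : MvPolynomial (Fin 2) ℂ} (P : MvPolynomial (Fin 2) ℂ) (hP : P ≠ 0)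
    (h : ∀ B : MvPolynomial (Fin 2) ℂ, Prime B → ∀ k : ℕ, B ^ k ∣ P → B ^ k ∣ Q) : P ∣ Q := by
  revert hP h
  refine UniqueFactorizationMonoid.induction_on_coprime (P := fun P : MvPolynomial (Fin 2) ℂ =>
    P ≠ 0 → (∀ B : MvPolynomial (Fin 2) ℂ, Prime B → ∀ k : ℕ, B ^ k ∣ P → B ^ k ∣ Q) → P ∣ Q) P
    ?_ ?_ ?_ ?_
  · intro h0
    exact absurd rfl h0
  · intro x hx _ _
    exact hx.dvd
  · intro B k hB _ h
    exact h B hB k dvd_rfl
  · intro x y hxy hx hy hne h
    refine hxy.mul_dvd (hx (left_ne_zero_of_mul hne) fun B hB k hk =>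
      h B hB k (hk.trans (dvd_mul_right x y)))
      (hy (right_ne_zero_of_mul hne) fun B hB k hk => h B hB k (hk.trans (dvd_mul_left y x)))

/-- a factor of multiplicity at most one -/
private theorem adm_one {Den B R Q : MvPolynomial (Fin 2) ℂ} (hq : ¬ B ^ 2 ∣ Q)
    (hD : Den ∣ Q) (hB : B ∣ R) {k : ℕ} (hk : B ^ k ∣ Den) : B ^ k ∣ R := by
  have hk1 : k ≤ 1 := by
    by_contra hc
    exact hq ((pow_dvd_pow B (by omega)).trans (hk.trans hD))
  interval_cases k
  · rw [pow_zero]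
    exact one_dvd _
  · rwa [pow_one]

/-- a factor of multiplicity at most two -/
private theorem adm_two {Den B R Q : MvPolynomial (Fin 2) ℂ} (hq : ¬ B ^ 3 ∣ Q)
    (hD : Den ∣ Q) (hB : B ^ 2 ∣ R) {k : ℕ} (hk : B ^ k ∣ Den) : B ^ k ∣ R := by
  have hk1 : k ≤ 2 := by
    by_contra hc
    exact hq ((pow_dvd_pow B (by omega)).trans (hk.trans hD))
  exact (pow_dvd_pow B hk1).trans hB

private theorem adm_Den {p q : Polynomial ℂ} {Den N : MvPolynomial (Fin 2) ℂ}
    (hR : RData p q Den N) : Den ≠ 0 := by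
  intro h0
  have h1 : G 2 q = 0 := by
    have := hR.den_q
    rw [h0] at this
    exact zero_dvd_iff.1 this
  refine mult_X0 q (le_trans (by norm_num) hR.dq) (X 0) X_prime dvd_rfl ?_
  rw [h1]
  exact dvd_zero _

theorem exists_adm {p q : Polynomial ℂ} {Den N : MvPolynomial (Fin 2) ℂ} (hR : RData p q Den N)
    (n : ℕ) : ∃ r : Polynomial ℂ, n ≤ r.natDegree ∧ r.coeff 0 = 0 ∧ Den ∣ G 2 r ∧
      (OddP q → OddP p → OddP r) := by
  have hq2 : 2 ≤ q.natDegree := le_trans (by norm_num) hR.dq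
  have hDen := adm_Den hR
  rcases omega hR with hno | ⟨-, hqo, c, hc⟩
  · -- no cube roots of unity
    have hc1 : ∃ c1 : ℂ, (∀ B, Prime B → B ∣ Den → ∀ c, B ∣ X 0 + X 1 + C c → c = c1) ∧
        (OddP q → c1 = 0) := by
      by_cases hex : ∃ B, Prime B ∧ B ∣ Den ∧ ∃ c : ℂ, B ∣ X 0 + X 1 + C c
      · obtain ⟨B0, hB0, hBD0, c0, hc0⟩ := hex
        refine ⟨c0, fun B hB hBD c hc => ?_, fun ho => ?_⟩
        · exact cneg_unique q hq2 B B0 hB hB0 c c0 hc hc0 (hBD.trans hR.den_q)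
            (hBD0.trans hR.den_q)
        · exact cneg_odd q ho hq2 B0 hB0 c0 hc0 (hBD0.trans hR.den_q)
      · refine ⟨0, fun B hB hBD c hc => ?_, fun _ => rfl⟩
        exact absurd ⟨B, hB, hBD, c, hc⟩ hex
    obtain ⟨c1, hc1, hc1o⟩ := hc1
    obtain ⟨r, hr1, hr2, hr3, hr4, hr5, hr6⟩ := fam1 c1 n
    refine ⟨r, by omega, hr2, adm_dvd Den hDen ?_, fun ho _ => hr6 (hc1o ho)⟩
    intro B hB k hk
    rcases Nat.eq_zero_or_pos k with rfl | hk0
    · rw [pow_zero]
      exact one_dvd _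
    have hBD : B ∣ Den := (dvd_pow_self B hk0.ne').trans hk
    rcases negtype hR B hB hBD (fun α hα => hno B hB hBD α hα) with h | h | ⟨c, h⟩
    · exact adm_one (mult_X0 q hq2 B hB h) hR.den_q (h.trans hr3) hk
    · exact adm_one (mult_X1 q hq2 B hB h) hR.den_q (h.trans hr4) hk
    · have hcc := hc1 B hB hBD c h
      rw [hcc] at h
      exact adm_one (mult_neg q hq2 B hB c1 h) hR.den_q (h.trans hr5) hk
  · -- cube roots of unity
    obtain ⟨r, hr1, hr2, hr3, hr4, hr5, hr6, hr7⟩ := fam2 c n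
    refine ⟨r, by omega, hr2, adm_dvd Den hDen ?_, fun _ _ => hr3⟩
    intro B hB k hk
    rcases Nat.eq_zero_or_pos k with rfl | hk0
    · rw [pow_zero]
      exact one_dvd _
    have hBD : B ∣ Den := (dvd_pow_self B hk0.ne').trans hk
    by_cases hex : ∃ α : ℂ, α ^ 2 + α + 1 = 0 ∧ tv B α 1 = 0
    · obtain ⟨α, hα, ht⟩ := hex
      have h := hc B hB hBD α hα ht
      exact adm_two (mult_hq q hqo hR.dq B hB c h) hR.den_q ((pow_dvd_pow_of_dvd h 2).trans hr7) hk
    · rcases negtype hR B hB hBD (fun α hα ht => hex ⟨α, hα, ht⟩) with h | h | ⟨c', h⟩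
      · exact adm_one (mult_X0 q hq2 B hB h) hR.den_q (h.trans hr4) hk
      · exact adm_one (mult_X1 q hq2 B hB h) hR.den_q (h.trans hr5) hk
      · have hc0 := cneg_odd q hqo hq2 B hB c' h (hBD.trans hR.den_q)
        have hm := mult_neg q hq2 B hB c' h
        rw [hc0, C_0, add_zero] at h
        exact adm_one hm hR.den_q (h.trans hr6) hk

end Pool.Agent.Helper96.FK
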