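import Pool.Agent.Helper96.FK.VF

/-!
# FK-18: asymptotics of points on `G 2 q = 0`

`sb (G 2 q) x y = q(x) + q(y) - q(x+y)`; `k = deg q`, `|.|` the valuation of `V`, `|y| > 1`.

`asym0` (`x/y` small, `q(0) = 0`): `q(x+y) - q(y) = x y^{k-1} (k q_k + small)`, so if `x ≠ 0`,
`q(x)/x = y^{k-1}(k q_k + small)` is not in `V`; so `x ∉ V`, `q(x)/x = x^{k-1}(q_k + small)` and
`(x/y)^{k-1} ≡ k`, contradiction.

`asymneg` (`s = x + y`, `s/y` small): suppose `|s| > 1`. `q(s-y) - q(-y) = s (-y)^{k-1}(k q_k+small)`,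
`|q(s)| = |s|^k < |s||y|^{k-1}`, so `|q(y) + q(-y)| = |s||y|^{k-1}`; the left side is `0` or `|y|^e`
with `e ≤ k` even, so `|s| = |y|^{e-k+1}` which is either `≤ 1` or `≥ |y|`, contradiction.

`dirM`: divide `p(x)+p(y)-p(x+y) = 0` by `y^m`, `m = deg p`.
-/

set_option autoImplicit false

open MvPolynomial

namespace Pool.Agent.Helper96.FK

theorem sb_G2 {K : Type} [CommRing K] [Algebra ℂ K] (q : Polynomial ℂ) (x y : K) :
    sb (G 2 q) x y =
      Polynomial.aeval x q + Polynomial.aeval y q - Polynomial.aeval (x + y) q := by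
  unfold sb G
  rw [map_sub, map_sum, Fin.sum_univ_two, Fin.sum_univ_two]
  rw [← Polynomial.aeval_algHom_apply, ← Polynomial.aeval_algHom_apply,
    ← Polynomial.aeval_algHom_apply, map_add, aeval_X, aeval_X]
  rfl

section aux

variable {K : Type} [Field K] [Algebra ℂ K] {V : ValuationSubring K}

omit [Algebra ℂ K] in
private theorem asym_ne (y : K) (hy : y ∉ V) : y ≠ 0 := by
  rintro rfl
  exact hy V.zero_mem

private theorem asym_inv (y : K) (hy : y ∉ V) : Cg V y⁻¹ 0 := by
  unfold Cg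
  rw [map_zero, sub_zero, map_inv₀]
  have h1 : 1 < V.valuation y := by
    by_contra h
    exact hy ((V.valuation_le_one_iff y).1 (not_lt.1 h))
  exact inv_lt_one_of_one_lt₀ h1

private theorem asym_zero : Cg V (0 : K) 0 := by
  have h := Cg.const V (0 : ℂ)
  rwa [map_zero] at h

private theorem asym_one : Cg V (1 : K) 1 := by
  have h := Cg.const V (1 : ℂ)
  rwa [map_one] at h

private theorem asym_mulmem {x z : K} (hx : Cg V x 0) (hz : z ∈ V) :
    Cg V (x * z) 0 := by
  unfold Cg at hx ⊢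
  rw [map_zero, sub_zero] at hx ⊢
  rw [map_mul]
  have h1 : V.valuation z ≤ 1 := (V.valuation_le_one_iff z).2 hz
  calc V.valuation x * V.valuation z ≤ V.valuation x * 1 := mul_le_mul_right h1 _
    _ = V.valuation x := mul_one _
    _ < 1 := hx

private theorem asym_pow (hV : Over V) {x : K} {α : ℂ} (h : Cg V x α) (n : ℕ) :
    Cg V (x ^ n) (α ^ n) := by
  induction n with
  | zero => rw [pow_zero, pow_zero]; exact asym_one
  | succ n ih => rw [pow_succ, pow_succ]; exact ih.mul hV h

private theorem asym_sum {ι : Type} (s : Finset ι) (f : ι → K) (g : ι → ℂ)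
    (h : ∀ i ∈ s, Cg V (f i) (g i)) : Cg V (∑ i ∈ s, f i) (∑ i ∈ s, g i) := by
  classical
  induction s using Finset.induction_on with
  | empty => simpa using asym_zero
  | insert a s ha ih =>
    rw [Finset.sum_insert ha, Finset.sum_insert ha]
    exact (h a (Finset.mem_insert_self a s)).add
      (ih (fun i hi => h i (Finset.mem_insert_of_mem hi)))

private theorem asym_aeval (p : Polynomial ℂ) (n : ℕ) (hn : p.natDegree ≤ n) (x : K) :
    Polynomial.aeval x p =
      ∑ i ∈ Finset.range (n + 1), algebraMap ℂ K (p.coeff i) * x ^ i := by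
  rw [Polynomial.aeval_eq_sum_range' (lt_of_le_of_lt hn (Nat.lt_succ_self n))]
  refine Finset.sum_congr rfl (fun i _ => ?_)
  rw [Algebra.smul_def]

private theorem asym_A (hV : Over V) (p : Polynomial ℂ) (n : ℕ) (hn : p.natDegree ≤ n)
    (r y : K) (ρ : ℂ) (hr : Cg V r ρ) (hy : y ∉ V) :
    Cg V (y⁻¹ ^ n * Polynomial.aeval (r * y) p) (p.coeff n * ρ ^ n) := by
  have hy0 := asym_ne y hy
  rw [asym_aeval p n hn, Finset.mul_sum]
  have h1 : ∀ i ∈ Finset.range (n + 1),
      Cg V (y⁻¹ ^ n * (algebraMap ℂ K (p.coeff i) * (r * y) ^ i))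
        (if i = n then p.coeff n * ρ ^ n else 0) := by
    intro i hi
    rw [Finset.mem_range] at hi
    obtain ⟨j, rfl⟩ : ∃ j, n = i + j := ⟨n - i, by omega⟩
    have e1 : y⁻¹ ^ (i + j) * (algebraMap ℂ K (p.coeff i) * (r * y) ^ i) =
        algebraMap ℂ K (p.coeff i) * r ^ i * y⁻¹ ^ j := by
      rw [pow_add, mul_pow]
      have e2 : y⁻¹ ^ i * y ^ i = 1 := by
        rw [← mul_pow, inv_mul_cancel₀ hy0, one_pow]
      linear_combination (algebraMap ℂ K (p.coeff i) * r ^ i * y⁻¹ ^ j) * e2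
    rw [e1]
    have h2 := (((Cg.const V (p.coeff i)).mul hV (asym_pow hV hr i)).mul hV
      (asym_pow hV (asym_inv y hy) j))
    by_cases hj : j = 0
    · subst hj
      rw [if_pos (by omega)]
      rw [pow_zero, pow_zero, mul_one, mul_one] at h2
      rw [add_zero, pow_zero, mul_one]
      exact h2
    · rw [if_neg (by omega)]
      rw [zero_pow hj, mul_zero] at h2
      exact h2
  have h3 := asym_sum _ _ _ h1
  rw [Finset.sum_ite_eq' (Finset.range (n + 1)) n, if_pos (by simp)] at h3
  exact h3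

private theorem asym_B (hV : Over V) (p : Polynomial ℂ) (n : ℕ) (hn : p.natDegree ≤ n + 1)
    (r s y : K) (β : ℂ) (hr : Cg V r 0) (hs : Cg V s β) (hy : y ∉ V) :
    ∃ Q : K, Polynomial.aeval (r * y + s * y) p - Polynomial.aeval (s * y) p = (r * y) * Q ∧
      Cg V (y⁻¹ ^ n * Q) (p.coeff (n + 1) * ((n + 1 : ℕ) * β ^ n)) := by
  have hy0 := asym_ne y hy
  refine ⟨∑ i ∈ Finset.range (n + 1 + 1), algebraMap ℂ K (p.coeff i) *
    ∑ j ∈ Finset.range i, (r * y + s * y) ^ j * (s * y) ^ (i - 1 - j), ?_, ?_⟩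
  · rw [asym_aeval p (n + 1) hn, asym_aeval p (n + 1) hn, ← Finset.sum_sub_distrib,
      Finset.mul_sum]
    refine Finset.sum_congr rfl (fun i _ => ?_)
    have h := geom_sum₂_mul (r * y + s * y) (s * y) i
    linear_combination (-(algebraMap ℂ K (p.coeff i))) * h
  · rw [Finset.mul_sum]
    have h1 : ∀ i ∈ Finset.range (n + 1 + 1),
        Cg V (y⁻¹ ^ n * (algebraMap ℂ K (p.coeff i) *
            ∑ j ∈ Finset.range i, (r * y + s * y) ^ j * (s * y) ^ (i - 1 - j)))
          (if i = n + 1 then p.coeff (n + 1) * ((n + 1 : ℕ) * β ^ n) else 0) := by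
      intro i hi
      rw [Finset.mem_range] at hi
      rcases Nat.eq_zero_or_pos i with rfl | hi0
      · rw [if_neg (by omega), Finset.range_zero, Finset.sum_empty, mul_zero, mul_zero]
        exact asym_zero
      · obtain ⟨i, rfl⟩ : ∃ i', i = i' + 1 := ⟨i - 1, by omega⟩
        obtain ⟨l, rfl⟩ : ∃ l, n = i + l := ⟨n - i, by omega⟩
        have e1 : ∑ j ∈ Finset.range (i + 1),
            (r * y + s * y) ^ j * (s * y) ^ (i + 1 - 1 - j) =
            y ^ i * ∑ j ∈ Finset.range (i + 1), (r + s) ^ j * s ^ (i - j) := by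
          rw [Finset.mul_sum]
          refine Finset.sum_congr rfl (fun j hj => ?_)
          rw [Finset.mem_range] at hj
          obtain ⟨m, rfl⟩ : ∃ m, i = j + m := ⟨i - j, by omega⟩
          have e3 : j + m + 1 - 1 - j = m := by omega
          have e4 : j + m - j = m := by omega
          rw [e3, e4, ← add_mul, mul_pow, mul_pow, pow_add]
          ring
        have e2 : y⁻¹ ^ i * y ^ i = 1 := by
          rw [← mul_pow, inv_mul_cancel₀ hy0, one_pow]
        rw [e1]
        have e5 : y⁻¹ ^ (i + l) * (algebraMap ℂ K (p.coeff (i + 1)) *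
            (y ^ i * ∑ j ∈ Finset.range (i + 1), (r + s) ^ j * s ^ (i - j))) =
            algebraMap ℂ K (p.coeff (i + 1)) *
              (∑ j ∈ Finset.range (i + 1), (r + s) ^ j * s ^ (i - j)) * y⁻¹ ^ l := by
          rw [pow_add]
          linear_combination (algebraMap ℂ K (p.coeff (i + 1)) *
              (∑ j ∈ Finset.range (i + 1), (r + s) ^ j * s ^ (i - j)) * y⁻¹ ^ l) * e2
        rw [e5]
        have h2 : Cg V (∑ j ∈ Finset.range (i + 1), (r + s) ^ j * s ^ (i - j))
            (∑ j ∈ Finset.range (i + 1), β ^ i) := by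
          apply asym_sum
          intro j hj
          rw [Finset.mem_range] at hj
          have h3 := (asym_pow hV (hr.add hs) j).mul hV (asym_pow hV hs (i - j))
          rw [zero_add, ← pow_add] at h3
          have e6 : j + (i - j) = i := by omega
          rw [e6] at h3
          exact h3
        rw [Finset.sum_const, Finset.card_range, nsmul_eq_mul] at h2
        have h4 := (((Cg.const V (p.coeff (i + 1))).mul hV h2).mul hV
          (asym_pow hV (asym_inv y hy) l))
        by_cases hl : l = 0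
        · subst hl
          rw [if_pos (by omega)]
          rw [pow_zero, pow_zero, mul_one, mul_one] at h4
          rw [add_zero, pow_zero, mul_one]
          exact h4
        · rw [if_neg (by omega)]
          rw [zero_pow hl, mul_zero] at h4
          exact h4
    have h3 := asym_sum _ _ _ h1
    rw [Finset.sum_ite_eq' (Finset.range (n + 1 + 1)) (n + 1), if_pos (by simp)] at h3
    exact h3

end aux

theorem asym0 {K : Type} [Field K] [Algebra ℂ K] (V : ValuationSubring K) (hV : Over V)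
    (q : Polynomial ℂ) (hq : 2 ≤ q.natDegree) (q0 : q.coeff 0 = 0) (x y : K) (hy : y ∉ V)
    (hx : Cg V (x / y) 0) (h : sb (G 2 q) x y = 0) : x = 0 := by
  by_contra hx0
  have hy0 := asym_ne y hy
  obtain ⟨n, hn⟩ : ∃ n, q.natDegree = n + 1 := ⟨q.natDegree - 1, by omega⟩
  have hxy : x / y * y = x := div_mul_cancel₀ x hy0
  obtain ⟨Q, hQ1, hQ2⟩ := asym_B hV q n hn.le (x / y) 1 y 1 hx asym_one hy
  rw [hxy, one_mul] at hQ1
  rw [sb_G2] at h
  have h1 : Polynomial.aeval x q = x * Q := by
    rw [← hQ1]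
    linear_combination h
  have h2 : Polynomial.X * q.divX = q := by
    have h3 := Polynomial.X_mul_divX_add q
    rw [q0, map_zero, add_zero] at h3
    exact h3
  have h4 : Polynomial.aeval x q.divX = Q := by
    rw [← h2, map_mul, Polynomial.aeval_X] at h1
    exact mul_left_cancel₀ hx0 h1
  have h5 : q.divX.natDegree ≤ n := by
    rw [Polynomial.natDegree_divX_eq_natDegree_tsub_one, hn]
    omega
  have h6 := asym_A hV q.divX n h5 (x / y) y 0 hx hy
  rw [hxy, h4, zero_pow (by omega), mul_zero] at h6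
  have h7 := Cg.unique hV hQ2 h6
  have h8 : q.coeff (n + 1) ≠ 0 := by
    rw [← hn]
    intro h9
    have h10 := Polynomial.leadingCoeff_eq_zero.1 h9
    rw [h10, Polynomial.natDegree_zero] at hq
    omega
  have h11 : ((n + 1 : ℕ) : ℂ) ≠ 0 := Nat.cast_ne_zero.2 (by omega)
  rw [one_pow, mul_one] at h7
  exact (mul_ne_zero h8 h11) h7

theorem asymneg {K : Type} [Field K] [Algebra ℂ K] (V : ValuationSubring K) (hV : Over V)
    (q : Polynomial ℂ) (hq : 2 ≤ q.natDegree) (x y : K) (hy : y ∉ V)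
    (hx : Cg V (x / y) (-1)) (h : sb (G 2 q) x y = 0) : x + y ∈ V := by
  by_contra hs
  have hy0 := asym_ne y hy
  have hs0 := asym_ne _ hs
  obtain ⟨n, hn⟩ : ∃ n, q.natDegree = n + 1 := ⟨q.natDegree - 1, by omega⟩
  have hr : Cg V ((x + y) / y) 0 := by
    have h1 := hx.add asym_one
    rw [neg_add_cancel] at h1
    have e : x / y + 1 = (x + y) / y := by
      rw [add_div, div_self hy0]
    rw [e] at h1
    exact h1
  have hm1 : Cg V (-1 : K) (-1) := by
    have h1 := Cg.const V (-1 : ℂ)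
    rwa [map_neg, map_one] at h1
  have hxy : (x + y) / y * y = x + y := div_mul_cancel₀ _ hy0
  obtain ⟨Q, hQ1, hQ2⟩ := asym_B hV q n hn.le ((x + y) / y) (-1) y (-1) hr hm1 hy
  have e0 : x + y + -1 * y = x := by ring
  rw [hxy, e0] at hQ1
  rw [sb_G2] at h
  -- the even part
  have hE : Polynomial.aeval y (q + q.comp (-Polynomial.X)) =
      Polynomial.aeval (x + y) q - (x + y) * Q := by
    rw [map_add, Polynomial.aeval_comp, map_neg, Polynomial.aeval_X, ← hQ1]
    have e1 : (-1 : K) * y = -y := by ring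
    rw [e1]
    linear_combination h
  have h2 : Polynomial.aeval (x + y) q =
      (x + y) * Polynomial.aeval (x + y) q.divX + algebraMap ℂ K (q.coeff 0) := by
    conv_lhs => rw [← Polynomial.X_mul_divX_add q]
    rw [map_add, map_mul, Polynomial.aeval_X, Polynomial.aeval_C]
  have h5 : q.divX.natDegree ≤ n := by
    rw [Polynomial.natDegree_divX_eq_natDegree_tsub_one, hn]
    omega
  have h6 := asym_A hV q.divX n h5 ((x + y) / y) y 0 hr hy
  rw [hxy, zero_pow (by omega), mul_zero] at h6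
  have hsinv : (x + y)⁻¹ ∈ V := by
    rcases V.mem_or_inv_mem (x + y) with h7 | h7
    · exact absurd h7 hs
    · exact h7
  have h8 : Cg V (y⁻¹ ^ n * ((x + y)⁻¹ * algebraMap ℂ K (q.coeff 0))) 0 := by
    have h9 := asym_pow hV (asym_inv y hy) n
    rw [zero_pow (by omega)] at h9
    exact asym_mulmem h9 (V.mul_mem _ _ hsinv (hV _))
  -- w
  have hw : Cg V (y⁻¹ ^ n * ((x + y)⁻¹ * Polynomial.aeval y (q + q.comp (-Polynomial.X))))
      (-(q.coeff (n + 1) * ((n + 1 : ℕ) * (-1) ^ n))) := by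
    have h10 := (h6.add h8).add (hm1.mul hV hQ2)
    have e2 : y⁻¹ ^ n * Polynomial.aeval (x + y) q.divX +
        y⁻¹ ^ n * ((x + y)⁻¹ * algebraMap ℂ K (q.coeff 0)) + -1 * (y⁻¹ ^ n * Q) =
        y⁻¹ ^ n * ((x + y)⁻¹ * Polynomial.aeval y (q + q.comp (-Polynomial.X))) := by
      rw [hE, h2]
      have e3 : (x + y)⁻¹ * (x + y) = 1 := inv_mul_cancel₀ hs0
      linear_combination (-(y⁻¹ ^ n) * (Polynomial.aeval (x + y) q.divX - Q)) * e3
    rw [e2] at h10
    convert h10 using 1
    ring
  have h8' : q.coeff (n + 1) ≠ 0 := by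
    rw [← hn]
    intro h9
    have h10 := Polynomial.leadingCoeff_eq_zero.1 h9
    rw [h10, Polynomial.natDegree_zero] at hq
    omega
  have h11 : ((n + 1 : ℕ) : ℂ) ≠ 0 := Nat.cast_ne_zero.2 (by omega)
  have hc : -(q.coeff (n + 1) * (((n + 1 : ℕ) : ℂ) * (-1) ^ n)) ≠ 0 :=
    neg_ne_zero.2 (mul_ne_zero h8' (mul_ne_zero h11 (pow_ne_zero _ (by norm_num))))
  by_cases hE0 : q + q.comp (-Polynomial.X) = 0
  · rw [hE0, map_zero, mul_zero, mul_zero] at hw
    exact hc (Cg.unique hV hw asym_zero)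
  · set E := q + q.comp (-Polynomial.X) with hEdef
    have hEd : E.natDegree ≤ n + 1 := by
      rw [hEdef]
      refine (Polynomial.natDegree_add_le _ _).trans ?_
      rw [max_le_iff]
      refine ⟨hn.le, ?_⟩
      refine Polynomial.natDegree_comp_le.trans ?_
      rw [Polynomial.natDegree_neg, Polynomial.natDegree_X, mul_one]
      exact hn.le
    have hEA := asym_A hV E E.natDegree le_rfl 1 y 1 asym_one hy
    rw [one_mul, one_pow, mul_one] at hEA
    have hlc : E.coeff E.natDegree ≠ 0 := by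
      intro h9
      exact hE0 (Polynomial.leadingCoeff_eq_zero.1 h9)
    have hEi := hEA.inv hV hlc
    have h12 := hw.mul hV hEi
    have hEv0 : Polynomial.aeval y E ≠ 0 := by
      intro h13
      rw [h13, mul_zero] at hEA
      exact hlc (Cg.unique hV hEA asym_zero)
    have hcc : -(q.coeff (n + 1) * (((n + 1 : ℕ) : ℂ) * (-1) ^ n)) *
        (E.coeff E.natDegree)⁻¹ ≠ 0 := mul_ne_zero hc (inv_ne_zero hlc)
    rcases Nat.lt_or_ge E.natDegree (n + 1) with hlt | hge
    · -- s = unit * t^(n - e)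
      obtain ⟨l, hl⟩ : ∃ l, n = E.natDegree + l := ⟨n - E.natDegree, by omega⟩
      have h14 := h12.inv hV hcc
      have h15 := (h14.mul hV (asym_pow hV (asym_inv y hy) l)).mem hV
      apply hs
      convert h15 using 1
      have e4 : y⁻¹ ^ n = y⁻¹ ^ E.natDegree * y⁻¹ ^ l := by
        rw [← pow_add, ← hl]
      rw [e4]
      have e5 : y⁻¹ ^ E.natDegree ≠ 0 := pow_ne_zero _ (inv_ne_zero hy0)
      have e6 : y⁻¹ ^ l ≠ 0 := pow_ne_zero _ (inv_ne_zero hy0)
      field_simp
    · have he : E.natDegree = n + 1 := le_antisymm hEd hge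
      rw [he] at h12
      have h16 := h12.mul hV hr
      have e7 : y⁻¹ ^ n * ((x + y)⁻¹ * Polynomial.aeval y E) *
          (y⁻¹ ^ (n + 1) * Polynomial.aeval y E)⁻¹ * ((x + y) / y) = 1 := by
        have e5 : y⁻¹ ^ n ≠ 0 := pow_ne_zero _ (inv_ne_zero hy0)
        rw [pow_succ]
        field_simp
      rw [e7, mul_zero] at h16
      exact one_ne_zero (Cg.unique hV asym_one h16)

theorem dirM {K : Type} [Field K] [Algebra ℂ K] (V : ValuationSubring K) (hV : Over V)
    (p : Polynomial ℂ) (hp : 1 ≤ p.natDegree) (x y : K) (hy : y ∉ V) (α : ℂ)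
    (hx : Cg V (x / y) α) (h : sb (G 2 p) x y = 0) :
    α ^ p.natDegree + 1 = (α + 1) ^ p.natDegree := by
  have hy0 := asym_ne y hy
  have hxy : x / y * y = x := div_mul_cancel₀ x hy0
  have hm1 : Cg V (-1 : K) (-1) := by
    have h1 := Cg.const V (-1 : ℂ)
    rwa [map_neg, map_one] at h1
  have h1 := asym_A hV p p.natDegree le_rfl (x / y) y α hx hy
  have h2 := asym_A hV p p.natDegree le_rfl 1 y 1 asym_one hy
  have h3 := asym_A hV p p.natDegree le_rfl (x / y + 1) y (α + 1) (hx.add asym_one) hy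
  rw [add_mul, one_mul, hxy] at h3
  rw [hxy] at h1
  rw [one_mul] at h2
  have h4 := (h1.add h2).add (hm1.mul hV h3)
  rw [sb_G2] at h
  have e : y⁻¹ ^ p.natDegree * Polynomial.aeval x p + y⁻¹ ^ p.natDegree * Polynomial.aeval y p +
      -1 * (y⁻¹ ^ p.natDegree * Polynomial.aeval (x + y) p) = 0 := by
    linear_combination (y⁻¹ ^ p.natDegree) * h
  rw [e] at h4
  have h5 := Cg.unique hV h4 asym_zero
  have h6 : p.coeff p.natDegree ≠ 0 := by
    intro h9
    have h10 := Polynomial.leadingCoeff_eq_zero.1 h9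
    rw [h10, Polynomial.natDegree_zero] at hp
    omega
  have h7 : p.coeff p.natDegree * (α ^ p.natDegree + 1 - (α + 1) ^ p.natDegree) = 0 := by
    rw [one_pow] at h5
    linear_combination h5
  have h8 := (mul_eq_zero.1 h7).resolve_left h6
  linear_combination h8

end Pool.Agent.Helper96.FK
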