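import Pool.Agent.Helper96.FK.Asym

/-!
# FK-19: asymptotics in the direction of a primitive cube root of unity

`α^2+α+1 = 0`, `q` odd of degree `k ≥ 3`, `|y| > 1`, `x/y ≡ α`. Put `U = x - α y`,
`W = x - α^2 y`, `δ = α - α^2`. Then `|W| = |y|`, `θ := |U|/|W| < 1`, and
`x = (αW - α^2 U)/δ`, `y = (W - U)/δ`, `-(x+y) = (α^2 W - αU)/δ`, so for odd `j`
`x^j + y^j - (x+y)^j = 3 δ^{-j} ∑_{i ≡ -j mod 3} C(j,i) W^{j-i} (-U)^i`.
(`U W = x^2+xy+y^2`.) Suppose `|U W| > 1`, i.e. `θ > |W|^{-2}`. Let `m` in `{0,1,2}` be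
`≡ -k mod 3`. The term `(k, m)` has value `|W|^{k-m} |U|^m`; every other term `(j, i)`,
`j ≤ k` odd, `i ≡ -j mod 3`, has smaller value: clear for `i ≥ m`; for `i < m` one has
`k - j ≥ 2 (m - i)`, and `|U W| > 1`. So `sb (G 2 q) x y ≠ 0`, contradiction.
-/

set_option autoImplicit false

open MvPolynomial

namespace Pool.Agent.Helper96.FK

private theorem asymw_cmp {Γ : Type*} [LinearOrderedCommGroupWithZero Γ] (w u : Γ)
    (hu0 : 0 < u) (hw : 1 < w) (huw : u < w) (h1 : 1 < w * u) (k m j i : ℕ)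
    (hk : k % 2 = 1) (hj : j % 2 = 1) (hjk : j ≤ k) (hij : i ≤ j) (hm : m ≤ 2) (hmk : m ≤ k)
    (h3 : (k + m) % 3 = 0) (h3' : (j + i) % 3 = 0) (hne : ¬ (j = k ∧ i = m)) :
    w ^ (j - i) * u ^ i < w ^ (k - m) * u ^ m := by
  have hw0 : 0 < w := lt_trans zero_lt_one hw
  rcases le_or_gt m i with hmi | hmi
  · obtain ⟨r, rfl⟩ := Nat.exists_eq_add_of_le hmi
    obtain ⟨t, rfl⟩ := Nat.exists_eq_add_of_le hjk
    have e1 : j + t - m = (j - (m + r)) + r + t := by omega
    rw [e1, pow_add w _ t, pow_add w _ r, pow_add u m r]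
    have hP : 0 < w ^ (j - (m + r)) * u ^ m := mul_pos (pow_pos hw0 _) (pow_pos hu0 _)
    have h5 : u ^ r < w ^ r * w ^ t := by
      rcases Nat.eq_zero_or_pos r with hr | hr
      · subst hr
        have ht : t ≠ 0 := by
          intro ht
          apply hne
          omega
        rw [pow_zero, pow_zero, one_mul]
        exact one_lt_pow₀ hw ht
      · calc u ^ r < w ^ r := pow_lt_pow_left₀ huw hu0.le hr.ne'
          _ = w ^ r * 1 := (mul_one _).symm
          _ ≤ w ^ r * w ^ t := by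
            gcongr
            exact one_le_pow₀ hw.le
    calc w ^ (j - (m + r)) * (u ^ m * u ^ r) = (w ^ (j - (m + r)) * u ^ m) * u ^ r :=
          (mul_assoc _ _ _).symm
      _ < (w ^ (j - (m + r)) * u ^ m) * (w ^ r * w ^ t) := by
        exact mul_lt_mul_of_pos_left h5 hP
      _ = w ^ (j - (m + r)) * w ^ r * w ^ t * u ^ m := by
        generalize w ^ (j - (m + r)) = A1
        generalize w ^ r = A2
        generalize w ^ t = A3
        generalize u ^ m = A4
        ac_rfl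
  · obtain ⟨d, rfl⟩ := Nat.exists_eq_add_of_lt hmi
    have e2 : 2 * (d + 1) ≤ k - j := by omega
    have e1 : k - (i + d + 1) = (j - i) + (k - j - 2 * (d + 1)) + (d + 1) := by omega
    rw [e1, pow_add w _ (d + 1), pow_add w _ (k - j - 2 * (d + 1)), add_assoc i d 1,
      pow_add u i (d + 1)]
    have hP : 0 < w ^ (j - i) * u ^ i := mul_pos (pow_pos hw0 _) (pow_pos hu0 _)
    have h5 : 1 < w ^ (k - j - 2 * (d + 1)) * (w * u) ^ (d + 1) := by
      calc (1 : Γ) < (w * u) ^ (d + 1) := one_lt_pow₀ h1 (by omega)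
        _ = 1 * (w * u) ^ (d + 1) := (one_mul _).symm
        _ ≤ w ^ (k - j - 2 * (d + 1)) * (w * u) ^ (d + 1) := by
          gcongr
          exact one_le_pow₀ hw.le
    calc w ^ (j - i) * u ^ i = (w ^ (j - i) * u ^ i) * 1 := (mul_one _).symm
      _ < (w ^ (j - i) * u ^ i) * (w ^ (k - j - 2 * (d + 1)) * (w * u) ^ (d + 1)) :=
        mul_lt_mul_of_pos_left h5 hP
      _ = _ := by
        rw [mul_pow]
        generalize w ^ (j - i) = A1
        generalize w ^ (k - j - 2 * (d + 1)) = A2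
        generalize w ^ (d + 1) = A3
        generalize u ^ (d + 1) = A4
        generalize u ^ i = A5
        ac_rfl

private theorem asymw_val {K : Type} [Field K] [Algebra ℂ K] (V : ValuationSubring K)
    (hV : Over V) (z : ℂ) (hz : z ≠ 0) : V.valuation (algebraMap ℂ K z) = 1 := by
  apply le_antisymm
  · exact (V.valuation_le_one_iff _).2 (hV z)
  · have h1 : V.valuation (algebraMap ℂ K z⁻¹) ≤ 1 := (V.valuation_le_one_iff _).2 (hV z⁻¹)
    have h2 : V.valuation (algebraMap ℂ K z) * V.valuation (algebraMap ℂ K z⁻¹) = 1 := by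
      rw [← map_mul, ← map_mul, mul_inv_cancel₀ hz, map_one, map_one]
    calc (1 : _) = V.valuation (algebraMap ℂ K z) * V.valuation (algebraMap ℂ K z⁻¹) := h2.symm
      _ ≤ V.valuation (algebraMap ℂ K z) * 1 := by gcongr
      _ = V.valuation (algebraMap ℂ K z) := mul_one _

private theorem asymw_coeff (q : Polynomial ℂ) (ho : OddP q) (j : ℕ) (hj : j % 2 = 0) :
    q.coeff j = 0 := by
  have h1 : (q.comp (-Polynomial.X)).coeff j = -q.coeff j := by
    rw [show q.comp (-Polynomial.X) = -q from ho, Polynomial.coeff_neg]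
  have h2 : (-Polynomial.X : Polynomial ℂ) = Polynomial.C (-1) * Polynomial.X := by
    rw [map_neg, map_one]; ring
  rw [h2, Polynomial.comp_C_mul_X_coeff] at h1
  have h3 : (-1 : ℂ) ^ j = 1 := by
    obtain ⟨t, rfl⟩ : ∃ t, j = 2 * t := ⟨j / 2, by omega⟩
    rw [pow_mul]; norm_num
  rw [h3, mul_one] at h1
  linear_combination (1 / 2 : ℂ) * h1

private theorem asymw_root (α : ℂ) (hα : α ^ 2 + α + 1 = 0) (n : ℕ) :
    (n % 3 = 0 → 1 + α ^ n + (α ^ 2) ^ n = 3) ∧ (n % 3 ≠ 0 → 1 + α ^ n + (α ^ 2) ^ n = 0) := by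
  have h3 : α ^ 3 = 1 := by linear_combination (α - 1) * hα
  have h6 : (α ^ 2) ^ 3 = 1 := by rw [← pow_mul, show 2 * 3 = 3 * 2 from rfl, pow_mul, h3, one_pow]
  have e1 : ∀ t, α ^ (3 * t) = 1 := fun t => by rw [pow_mul, h3, one_pow]
  have e2 : ∀ t, (α ^ 2) ^ (3 * t) = 1 := fun t => by rw [pow_mul, h6, one_pow]
  constructor
  · intro hn
    obtain ⟨t, rfl⟩ : ∃ t, n = 3 * t := ⟨n / 3, by omega⟩
    rw [e1, e2]; norm_num
  · intro hn
    rcases (show n % 3 = 1 ∨ n % 3 = 2 by omega) with h | h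
    · obtain ⟨t, rfl⟩ : ∃ t, n = 3 * t + 1 := ⟨n / 3, by omega⟩
      rw [pow_add, pow_add, e1, e2]
      linear_combination hα
    · obtain ⟨t, rfl⟩ : ∃ t, n = 3 * t + 2 := ⟨n / 3, by omega⟩
      rw [pow_add, pow_add, e1, e2]
      linear_combination hα + α * h3

private theorem asymw_sum {K : Type} [Field K] [Algebra ℂ K] (α ε : ℂ) (w u : K) (j : ℕ) :
    (algebraMap ℂ K (ε * α) * (w + algebraMap ℂ K α * u)) ^ j +
      (algebraMap ℂ K ε * (w + u)) ^ j +
      (algebraMap ℂ K (ε * α ^ 2) * (w + algebraMap ℂ K (α ^ 2) * u)) ^ j =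
    ∑ i ∈ Finset.range (j + 1), algebraMap ℂ K
      (ε ^ j * (j.choose i : ℂ) * (1 + α ^ (j + i) + (α ^ 2) ^ (j + i))) *
        (w ^ (j - i) * u ^ i) := by
  rw [mul_pow, mul_pow, mul_pow, add_comm w u, add_comm w (algebraMap ℂ K α * u),
    add_comm w (algebraMap ℂ K (α ^ 2) * u), add_pow, add_pow, add_pow, Finset.mul_sum,
    Finset.mul_sum, Finset.mul_sum, ← Finset.sum_add_distrib, ← Finset.sum_add_distrib]
  apply Finset.sum_congr rfl
  intro i _
  simp only [map_mul, map_add, map_one, map_pow, map_natCast]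
  ring

theorem asymW {K : Type} [Field K] [Algebra ℂ K] (V : ValuationSubring K) (hV : Over V)
    (q : Polynomial ℂ) (ho : OddP q) (hq : 3 ≤ q.natDegree) (α : ℂ) (hα : α ^ 2 + α + 1 = 0)
    (x y : K) (hy : y ∉ V) (hx : Cg V (x / y) α) (h : sb (G 2 q) x y = 0) :
    x ^ 2 + x * y + y ^ 2 ∈ V := by
  classical
  by_contra hcon
  set v := V.valuation with hvdef
  set c : ℂ →+* K := algebraMap ℂ K with hc
  have hy1 : 1 < v y := by
    rw [← not_le]
    intro hle
    exact hy ((V.valuation_le_one_iff _).1 hle)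
  have hy0 : y ≠ 0 := by
    intro h0
    rw [h0, map_zero] at hy1
    exact absurd hy1 (not_lt.2 zero_le)
  have hcα : c α ^ 2 + c α + 1 = 0 := by
    have := congrArg c hα
    simpa using this
  have hδ : α - α ^ 2 ≠ 0 := by
    intro h0
    have h1 : (3 : ℂ) = 0 := by
      linear_combination (-(α - α ^ 2) ) * h0 + (α ^ 2 - 3 * α + 3) * hα
    norm_num at h1
  obtain ⟨ε, hε⟩ : ∃ ε : ℂ, ε = (α - α ^ 2)⁻¹ := ⟨_, rfl⟩
  have hε0 : ε ≠ 0 := by rw [hε]; exact inv_ne_zero hδ
  have hεδ : c ε * (c α - c α ^ 2) = 1 := by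
    rw [hε, ← map_pow, ← map_sub, ← map_mul, inv_mul_cancel₀ hδ, map_one]
  obtain ⟨W, hW⟩ : ∃ W : K, W = x - c α ^ 2 * y := ⟨_, rfl⟩
  obtain ⟨U, hU⟩ : ∃ U : K, U = -(x - c α * y) := ⟨_, rfl⟩
  have hUW : W * U = -(x ^ 2 + x * y + y ^ 2) := by
    rw [hW, hU]
    linear_combination ((x * y) - (c α - 1) * y ^ 2) * hcα
  have hUv : v U < v y := by
    have h1 : U = -((x / y - c α) * y) := by
      rw [hU]; field_simp
    have h2 : v (x / y - c α) < 1 := hx
    rw [h1, Valuation.map_neg, map_mul]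
    calc v (x / y - c α) * v y < 1 * v y :=
          mul_lt_mul_of_pos_right h2 (lt_trans zero_lt_one hy1)
      _ = v y := one_mul _
  have hWv : v W = v y := by
    have h1 : W = c (α - α ^ 2) * y + (-U) := by
      rw [hW, hU, map_sub, map_pow]; ring
    have h2 : v (c (α - α ^ 2) * y) = v y := by
      rw [map_mul, asymw_val V hV _ hδ, one_mul]
    rw [h1, Valuation.map_add_eq_of_lt_left, h2]
    rw [Valuation.map_neg, h2]
    exact hUv
  have hw1 : 1 < v W := by rw [hWv]; exact hy1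
  have huw : v U < v W := by rw [hWv]; exact hUv
  have h1 : 1 < v W * v U := by
    rw [← map_mul, hUW, Valuation.map_neg, ← not_le]
    intro hle
    exact hcon ((V.valuation_le_one_iff _).1 hle)
  have hu0 : 0 < v U := by
    rw [zero_lt_iff]
    intro h0
    rw [h0, mul_zero] at h1
    exact absurd h1 (not_lt.2 zero_le)
  have hxe : x = c (ε * α) * (W + c α * U) := by
    rw [map_mul, hW, hU]
    linear_combination (-x) * hεδ
  have hye : y = c ε * (W + U) := by
    rw [hW, hU]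
    linear_combination (-y) * hεδ
  have hze : -(x + y) = c (ε * α ^ 2) * (W + c (α ^ 2) * U) := by
    rw [map_mul, map_pow, hW, hU]
    linear_combination (x + y) * hεδ +
      (c ε * x * c α * (c α - 1) - c ε * y * c α * (c α - 1) ^ 2) * hcα
  obtain ⟨k, hk⟩ : ∃ k : ℕ, k = q.natDegree := ⟨_, rfl⟩
  have hqk : q.coeff k ≠ 0 := by
    rw [hk]
    intro h0
    rw [Polynomial.coeff_natDegree, Polynomial.leadingCoeff_eq_zero] at h0
    rw [h0, Polynomial.natDegree_zero] at hq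
    omega
  have hkodd : k % 2 = 1 := by
    by_contra h0
    exact hqk (asymw_coeff q ho k (by omega))
  have hneg : Polynomial.aeval (x + y) q = -Polynomial.aeval (-(x + y)) q := by
    have h2 : Polynomial.aeval (x + y) (q.comp (-Polynomial.X)) = -Polynomial.aeval (x + y) q := by
      rw [show q.comp (-Polynomial.X) = -q from ho, map_neg]
    rw [Polynomial.aeval_comp, map_neg, Polynomial.aeval_X] at h2
    rw [h2, neg_neg]
  rw [sb_G2, hneg, sub_neg_eq_add] at h
  have hexp : Polynomial.aeval x q + Polynomial.aeval y q + Polynomial.aeval (-(x + y)) q =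
      ∑ j ∈ Finset.range (k + 1), ∑ i ∈ Finset.range (j + 1), c (q.coeff j *
        (ε ^ j * (j.choose i : ℂ) * (1 + α ^ (j + i) + (α ^ 2) ^ (j + i)))) *
          (W ^ (j - i) * U ^ i) := by
    rw [hk, Polynomial.aeval_eq_sum_range, Polynomial.aeval_eq_sum_range,
      Polynomial.aeval_eq_sum_range, ← Finset.sum_add_distrib, ← Finset.sum_add_distrib]
    apply Finset.sum_congr rfl
    intro j _
    rw [← smul_add, ← smul_add, Algebra.smul_def]
    have h3 := asymw_sum (K := K) α ε W U j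
    rw [← hc, ← hxe, ← hye, ← hze] at h3
    rw [h3, Finset.mul_sum]
    apply Finset.sum_congr rfl
    intro i _
    rw [← hc, map_mul c (q.coeff j)]
    exact (mul_assoc _ _ _).symm
  obtain ⟨m, hm2, hm3⟩ : ∃ m : ℕ, m ≤ 2 ∧ (k + m) % 3 = 0 :=
    ⟨(3 - k % 3) % 3, by omega, by omega⟩
  have hmk : m ≤ k := by omega
  rw [hexp, Finset.sum_sigma'] at h
  set f : (Σ _ : ℕ, ℕ) → K := fun p => c (q.coeff p.1 *
        (ε ^ p.1 * (p.1.choose p.2 : ℂ) * (1 + α ^ (p.1 + p.2) + (α ^ 2) ^ (p.1 + p.2)))) *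
          (W ^ (p.1 - p.2) * U ^ p.2) with hf
  set s : Finset (Σ _ : ℕ, ℕ) := (Finset.range (k + 1)).sigma (fun j => Finset.range (j + 1))
    with hs
  have h' : ∑ p ∈ s, f p = 0 := h
  have hmem : (⟨k, m⟩ : Σ _ : ℕ, ℕ) ∈ s := by
    rw [hs, Finset.mem_sigma]
    exact ⟨Finset.mem_range.2 (Nat.lt_succ_self k), Finset.mem_range.2 (Nat.lt_succ_of_le hmk)⟩
  rw [← Finset.add_sum_erase s f hmem] at h'
  have hmain : v (f ⟨k, m⟩) = v W ^ (k - m) * v U ^ m := by
    have hne : q.coeff k * (ε ^ k * (k.choose m : ℂ) * (1 + α ^ (k + m) + (α ^ 2) ^ (k + m))) ≠ 0 := by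
      rw [(asymw_root α hα (k + m)).1 hm3]
      have hch : (k.choose m : ℂ) ≠ 0 := by
        exact_mod_cast (Nat.choose_pos hmk).ne'
      exact mul_ne_zero hqk (mul_ne_zero (mul_ne_zero (pow_ne_zero _ hε0) hch) (by norm_num))
    show v (c _ * (W ^ (k - m) * U ^ m)) = _
    rw [map_mul, asymw_val V hV _ hne, one_mul, map_mul, map_pow, map_pow]
  have hpos : v W ^ (k - m) * v U ^ m ≠ 0 :=
    mul_ne_zero (pow_ne_zero _ (lt_trans zero_lt_one hw1).ne') (pow_ne_zero _ hu0.ne')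
  have hrest : v (∑ p ∈ s.erase ⟨k, m⟩, f p) < v W ^ (k - m) * v U ^ m := by
    apply Valuation.map_sum_lt _ hpos
    rintro ⟨j, i⟩ hp
    rw [Finset.mem_erase, hs, Finset.mem_sigma, Finset.mem_range, Finset.mem_range] at hp
    obtain ⟨hpne, hj, hi⟩ := hp
    have hne : ¬ (j = k ∧ i = m) := by
      rintro ⟨rfl, rfl⟩
      exact hpne rfl
    change j < k + 1 at hj
    change i < j + 1 at hi
    by_cases hz : j % 2 = 1 ∧ (j + i) % 3 = 0
    · have h5 := asymw_cmp (v W) (v U) hu0 hw1 huw h1 k m j i hkodd hz.1 (by omega) (by omega)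
        hm2 hmk hm3 hz.2 hne
      refine lt_of_le_of_lt ?_ h5
      show v (c _ * (W ^ (j - i) * U ^ i)) ≤ _
      rw [map_mul v, map_mul v (W ^ (j - i)), map_pow v, map_pow v]
      calc _ ≤ 1 * (v W ^ (j - i) * v U ^ i) := by
            gcongr
            exact (V.valuation_le_one_iff _).2 (hV _)
        _ = _ := one_mul _
    · have h5 : f ⟨j, i⟩ = 0 := by
        show c _ * (W ^ (j - i) * U ^ i) = 0
        have h6 : q.coeff j * (ε ^ j * (j.choose i : ℂ) * (1 + α ^ (j + i) + (α ^ 2) ^ (j + i))) = 0 := by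
          by_cases hj2 : j % 2 = 1
          · have h7 : (j + i) % 3 ≠ 0 := fun h8 => hz ⟨hj2, h8⟩
            rw [(asymw_root α hα (j + i)).2 h7]; ring
          · rw [asymw_coeff q ho j (by omega)]; ring
        show c (q.coeff j * (ε ^ j * (j.choose i : ℂ) * (1 + α ^ (j + i) + (α ^ 2) ^ (j + i)))) * _ = 0
        rw [h6, map_zero, zero_mul]
      rw [h5, map_zero]
      exact zero_lt_iff.2 hpos
  have hEq : f ⟨k, m⟩ = -(∑ p ∈ s.erase ⟨k, m⟩, f p) := by
    linear_combination h'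
  rw [← hmain, hEq, Valuation.map_neg] at hrest
  exact lt_irrefl _ hrest

end Pool.Agent.Helper96.FK
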