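import Mathlib

/-!
# The Lie algebra of evolution equations: basic calculus (MP_ff793d_mp)

`A R = R[u_0, u_1, ...]`, `D` the total derivative, `d i` the partial derivative with respect to
`u_i`, `ev p` the evolutionary derivation with characteristic `p` (it maps `u_j` to `D^j p`).
-/

set_option autoImplicit false

open MvPolynomial

namespace Pool.Agent.Helper96.FK

variable {R : Type*} [CommRing R]

/-- differential polynomials -/
abbrev A (R : Type*) [CommRing R] := MvPolynomial ℕ R

/-- the total derivative -/
noncomputable def D : Derivation R (A R) (A R) := mkDerivation R (fun j : ℕ => (X (j + 1) : A R))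

/-- partial derivatives -/
noncomputable abbrev d (i : ℕ) : Derivation R (A R) (A R) := pderiv i

/-- the evolutionary derivation with characteristic `p` -/
noncomputable def ev (p : A R) : Derivation R (A R) (A R) := mkDerivation R (fun j : ℕ => (⇑D)^[j] p)

/-- order at most `k` -/
def Ord (k : ℕ) (f : A R) : Prop := ∀ j, k < j → d j f = 0

@[simp] theorem D_X (j : ℕ) : D (X j : A R) = X (j + 1) := by
  simp [D]

@[simp] theorem ev_X (p : A R) (j : ℕ) : ev p (X j) = (⇑D)^[j] p := by
  simp [ev]

@[simp] theorem ev_X0 (p : A R) : ev p (X 0) = p := by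
  simp

theorem ev_X1 (p : A R) : ev p (X 1) = D p := by
  simp

theorem D_mul (f g : A R) : D (f * g) = f * D g + g * D f := by
  rw [Derivation.leibniz]; rfl

theorem d_mul (j : ℕ) (f g : A R) : d j (f * g) = f * d j g + g * d j f := by
  rw [Derivation.leibniz]; rfl

theorem ev_mul (p f g : A R) : ev p (f * g) = f * ev p g + g * ev p f := by
  rw [Derivation.leibniz]; rfl

@[simp] theorem D_C (r : R) : D (C r) = 0 := derivation_C D r

@[simp] theorem ev_C (p : A R) (r : R) : ev p (C r) = 0 := derivation_C (ev p) r

theorem D_C_mul (r : R) (f : A R) : D (C r * f) = C r * D f := by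
  rw [D_mul, D_C]; ring

theorem ev_C_mul (p : A R) (r : R) (f : A R) : ev p (C r * f) = C r * ev p f := by
  rw [ev_mul, ev_C]; ring

theorem iter_C_mul (n : ℕ) (r : R) (f : A R) : (⇑D)^[n] (C r * f) = C r * (⇑D)^[n] f := by
  induction n generalizing f with
  | zero => rfl
  | succ n ih => rw [Function.iterate_succ_apply, D_C_mul, ih, Function.iterate_succ_apply]

theorem iter_add (n : ℕ) (f g : A R) : (⇑D)^[n] (f + g) = (⇑D)^[n] f + (⇑D)^[n] g := by
  induction n generalizing f g with
  | zero => rfl
  | succ n ih => rw [Function.iterate_succ_apply, map_add, ih, Function.iterate_succ_apply,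
      Function.iterate_succ_apply]

theorem iter_succ (n : ℕ) (f : A R) : (⇑D)^[n + 1] f = D ((⇑D)^[n] f) :=
  Function.iterate_succ_apply' _ _ _

/-- commutation of partial and total derivatives -/
theorem d_succ_D (j : ℕ) (f : A R) : d (j + 1) (D f) = D (d (j + 1) f) + d j f := by
  have h : ⁅(d (j + 1) : Derivation R (A R) (A R)), (D : Derivation R (A R) (A R))⁆ = d j := by
    apply derivation_ext
    intro i
    rw [Derivation.commutator_apply, D_X]
    by_cases hi : i = j
    · subst hi
      rw [pderiv_X_self, pderiv_X_of_ne (by omega), map_zero, pderiv_X_self]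
      simp
    · rw [pderiv_X_of_ne (i := j) hi, pderiv_X_of_ne (by omega)]
      by_cases hi2 : i = j + 1
      · subst hi2
        rw [pderiv_X_self]
        simp
      · rw [pderiv_X_of_ne hi2]
        simp
  have h2 := Derivation.congr_fun h f
  rw [Derivation.commutator_apply] at h2
  linear_combination h2

theorem d_zero_D (f : A R) : d 0 (D f) = D (d 0 f) := by
  have h : ⁅(d 0 : Derivation R (A R) (A R)), (D : Derivation R (A R) (A R))⁆ = 0 := by
    apply derivation_ext
    intro i
    rw [Derivation.commutator_apply, D_X, pderiv_X_of_ne (by omega)]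
    by_cases hi : i = 0
    · subst hi
      rw [pderiv_X_self]
      simp
    · rw [pderiv_X_of_ne hi]
      simp
  have h2 := Derivation.congr_fun h f
  rw [Derivation.commutator_apply] at h2
  simp only [Derivation.coe_zero, Pi.zero_apply] at h2
  linear_combination h2

/-- commutation of partial derivatives -/
theorem d_comm (i j : ℕ) (f : A R) : d i (d j f) = d j (d i f) := by
  have h : ⁅(d i : Derivation R (A R) (A R)), (d j : Derivation R (A R) (A R))⁆ = 0 := by
    apply derivation_ext
    intro k
    rw [Derivation.commutator_apply]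
    have h1 : ∀ a b : ℕ, d a (d b (X k : A R)) = 0 := by
      intro a b
      by_cases hk : k = b
      · subst hk
        rw [pderiv_X_self]
        simp
      · rw [pderiv_X_of_ne hk]
        simp
    rw [h1, h1]
    simp
  have h2 := Derivation.congr_fun h f
  rw [Derivation.commutator_apply] at h2
  simp only [Derivation.coe_zero, Pi.zero_apply] at h2
  linear_combination h2

/-- evolutionary derivations commute with the total derivative -/
theorem ev_D (p f : A R) : ev p (D f) = D (ev p f) := by
  have h : ⁅(ev p : Derivation R (A R) (A R)), (D : Derivation R (A R) (A R))⁆ = 0 := by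
    apply derivation_ext
    intro i
    rw [Derivation.commutator_apply, D_X, ev_X, ev_X, iter_succ]
    simp
  have h2 := Derivation.congr_fun h f
  rw [Derivation.commutator_apply] at h2
  simp only [Derivation.coe_zero, Pi.zero_apply] at h2
  linear_combination h2

theorem ev_iter (p f : A R) (n : ℕ) : ev p ((⇑D)^[n] f) = (⇑D)^[n] (ev p f) := by
  induction n with
  | zero => rfl
  | succ n ih => rw [iter_succ, iter_succ, ev_D, ih]

theorem ev_add_left (p q f : A R) : ev (p + q) f = ev p f + ev q f := by
  have h : ev (p + q) = ev p + ev q := by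
    apply derivation_ext
    intro i
    rw [Derivation.add_apply, ev_X, ev_X, ev_X, iter_add]
  rw [h]; rfl

theorem ev_C_mul_left (r : R) (p f : A R) : ev (C r * p) f = C r * ev p f := by
  have h : ev (C r * p) = r • ev p := by
    apply derivation_ext
    intro i
    rw [Derivation.smul_apply, ev_X, ev_X, iter_C_mul, smul_eq_C_mul]
  rw [h, Derivation.smul_apply, smul_eq_C_mul]

theorem ev_X1_left (f : A R) : ev (X 1) f = D f := by
  have h : ev (X 1 : A R) = D := by
    apply derivation_ext
    intro i
    rw [ev_X, D_X]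
    induction i with
    | zero => rfl
    | succ i ih => rw [iter_succ, ih, D_X]
  rw [h]

theorem ev_one_left (f : A R) : ev 1 f = d 0 f := by
  have h : ev (1 : A R) = d 0 := by
    apply derivation_ext
    intro i
    rw [ev_X]
    cases i with
    | zero => rw [pderiv_X_self]; rfl
    | succ i =>
      rw [pderiv_X_of_ne (by omega), Function.iterate_succ_apply]
      have h0 : D (1 : A R) = 0 := D.map_one_eq_zero
      rw [h0]
      exact iterate_map_zero D i
  rw [h]

theorem der_sum_apply (s : Finset ℕ) (F : ℕ → Derivation R (A R) (A R)) (q : A R) :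
    (∑ i ∈ s, F i) q = ∑ i ∈ s, F i q := by
  classical
  induction s using Finset.induction_on with
  | empty => simp
  | insert a s ha ih => rw [Finset.sum_insert ha, Finset.sum_insert ha, Derivation.add_apply, ih]

/-- the formula with partial derivatives -/
theorem ev_eq_sum (p q : A R) (s : Finset ℕ) (hs : ∀ i, i ∉ s → i ∉ q.vars) :
    ev p q = ∑ i ∈ s, d i q * (⇑D)^[i] p := by
  have hsup : q ∈ supported R (s : Set ℕ) := by
    rw [mem_supported]
    intro i hi
    by_contra h
    exact hs i (by simpa using h) (by simpa using hi)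
  have h := derivation_eqOn_supported (R := R) (D₁ := ev p)
    (D₂ := ∑ i ∈ s, ((⇑D)^[i] p) • d i) (s := (s : Set ℕ)) (by
      intro j hj
      simp only [Function.comp_apply]
      rw [ev_X, der_sum_apply, Finset.sum_eq_single j]
      · rw [Derivation.smul_apply, pderiv_X_self]
        simp
      · intro i _ hij
        rw [Derivation.smul_apply, pderiv_X_of_ne (Ne.symm hij)]
        simp
      · intro h
        exact absurd hj (by simpa using h)) hsup
  rw [h, der_sum_apply]
  refine Finset.sum_congr rfl ?_
  intro i _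
  rw [Derivation.smul_apply, smul_eq_mul, mul_comm]

/-- The bracket of the problem in terms of evolutionary derivations. -/
theorem bracket_eq (f g : A R) :
    (∑ i ∈ f.vars ∪ g.vars, (pderiv i f *
          (⇑(mkDerivation R (fun j : ℕ => (X (j + 1) : MvPolynomial ℕ R))))^[i] g -
        pderiv i g *
          (⇑(mkDerivation R (fun j : ℕ => (X (j + 1) : MvPolynomial ℕ R))))^[i] f)) =
      ev g f - ev f g := by
  rw [Finset.sum_sub_distrib, ev_eq_sum g f (f.vars ∪ g.vars), ev_eq_sum f g (f.vars ∪ g.vars)]
  · rfl
  · intro i hi h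
    exact hi (Finset.mem_union_right _ h)
  · intro i hi h
    exact hi (Finset.mem_union_left _ h)

/-- In characteristic zero a vanishing partial derivative means independence. -/
theorem notMem_vars_of_d_eq_zero [IsDomain R] [CharZero R] {j : ℕ} {f : A R} (h : d j f = 0) : j ∉ f.vars := by
  intro hj
  rw [mem_vars_iff_mem_support] at hj
  obtain ⟨m, hm, hmj⟩ := hj
  rw [Finsupp.mem_support_iff] at hmj
  have h1 := coeff_pderiv (i := j) f (m - Finsupp.single j 1)
  rw [show pderiv j f = 0 from h] at h1
  have h2 : m - Finsupp.single j 1 + Finsupp.single j 1 = m := by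
    ext i
    by_cases hi : i = j
    · subst hi
      simp
      omega
    · simp [Ne.symm hi]
  rw [h2, coeff_zero] at h1
  have h3 : coeff m f ≠ 0 := by simpa using hm
  have h4 : (((m - Finsupp.single j 1 : ℕ →₀ ℕ) j : ℕ) : R) + 1 ≠ 0 := by
    exact Nat.cast_add_one_ne_zero _
  exact (mul_ne_zero h3 h4) h1.symm

theorem Ord.mono {k l : ℕ} {f : A R} (h : Ord k f) (hkl : k ≤ l) : Ord l f :=
  fun j hj => h j (by omega)

theorem Ord.notMem [IsDomain R] [CharZero R] {k : ℕ} {f : A R} (h : Ord k f) {i : ℕ} (hi : k < i) : i ∉ f.vars :=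
  notMem_vars_of_d_eq_zero (h i hi)

theorem exists_ord (f : A R) : ∃ k, Ord k f := by
  refine ⟨f.vars.sup id, fun j hj => pderiv_eq_zero_of_notMem_vars ?_⟩
  intro h
  have := Finset.le_sup (f := id) h
  simp only [id] at this
  omega

theorem ord_C (r : R) (k : ℕ) : Ord k (C r) := fun j _ => by
  show pderiv j (C r) = 0
  exact pderiv_C

theorem ord_X (j : ℕ) : Ord j (X j : A R) := fun i hi => by
  show pderiv i (X j) = 0
  rw [pderiv_X_of_ne (by omega)]

theorem Ord.add {k : ℕ} {f g : A R} (hf : Ord k f) (hg : Ord k g) : Ord k (f + g) := fun j hj => by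
  rw [map_add, hf j hj, hg j hj, add_zero]

theorem Ord.sub {k : ℕ} {f g : A R} (hf : Ord k f) (hg : Ord k g) : Ord k (f - g) := fun j hj => by
  rw [map_sub, hf j hj, hg j hj, sub_zero]

theorem Ord.mul {k : ℕ} {f g : A R} (hf : Ord k f) (hg : Ord k g) : Ord k (f * g) := fun j hj => by
  rw [d_mul, hf j hj, hg j hj, mul_zero, mul_zero, add_zero]

theorem Ord.pow {k : ℕ} {f : A R} (hf : Ord k f) (n : ℕ) : Ord k (f ^ n) := by
  induction n with
  | zero => rw [pow_zero]; exact ord_C 1 k
  | succ n ih => rw [pow_succ]; exact ih.mul hf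

theorem Ord.d {k : ℕ} {f : A R} (hf : Ord k f) (i : ℕ) : Ord k (d i f) := fun j hj => by
  rw [d_comm, hf j hj, map_zero]

theorem Ord.D {k : ℕ} {f : A R} (hf : Ord k f) : Ord (k + 1) (D f) := fun j hj => by
  obtain ⟨i, rfl⟩ : ∃ i, j = i + 1 := ⟨j - 1, by omega⟩
  rw [d_succ_D, hf (i + 1) (by omega), hf i (by omega), map_zero, add_zero]

theorem Ord.iter {k : ℕ} {f : A R} (hf : Ord k f) (m : ℕ) : Ord (k + m) ((⇑FK.D)^[m] f) := by
  induction m with
  | zero => exact hf
  | succ m ih => rw [iter_succ]; exact ih.D

/-- the top derivative of `D f` -/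
theorem Ord.d_D {k : ℕ} {f : A R} (hf : Ord k f) : FK.d (k + 1) (FK.D f) = FK.d k f := by
  rw [d_succ_D, hf (k + 1) (by omega), map_zero, zero_add]

theorem ev_eq_range [IsDomain R] [CharZero R] {n : ℕ} (p : A R) {q : A R} (hq : Ord n q) :
    ev p q = ∑ i ∈ Finset.range (n + 1), d i q * (⇑D)^[i] p := by
  apply ev_eq_sum
  intro i hi
  apply hq.notMem
  rw [Finset.mem_range] at hi
  omega

theorem ev_ord0 [IsDomain R] [CharZero R] (p : A R) {q : A R} (hq : Ord 0 q) : ev p q = d 0 q * p := by
  rw [ev_eq_range p hq]; simp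

theorem ev_ord1 [IsDomain R] [CharZero R] (p : A R) {q : A R} (hq : Ord 1 q) : ev p q = d 0 q * p + d 1 q * D p := by
  rw [ev_eq_range p hq, Finset.sum_range_succ, Finset.sum_range_succ]; simp

theorem ev_ord2 [IsDomain R] [CharZero R] (p : A R) {q : A R} (hq : Ord 2 q) :
    ev p q = d 0 q * p + d 1 q * D p + d 2 q * D (D p) := by
  rw [ev_eq_range p hq, Finset.sum_range_succ, Finset.sum_range_succ, Finset.sum_range_succ]
  simp

theorem D_eq_range [IsDomain R] [CharZero R] {n : ℕ} {q : A R} (hq : Ord n q) :
    D q = ∑ i ∈ Finset.range (n + 1), d i q * X (i + 1) := by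
  rw [← ev_X1_left, ev_eq_range (X 1) hq]
  refine Finset.sum_congr rfl ?_
  intro i _
  congr 1
  clear * -
  induction i with
  | zero => rfl
  | succ i ih => rw [iter_succ, ih, D_X]

theorem D_ord0 [IsDomain R] [CharZero R] {q : A R} (hq : Ord 0 q) : D q = d 0 q * X 1 := by
  rw [D_eq_range hq]; simp

theorem D_ord1 [IsDomain R] [CharZero R] {q : A R} (hq : Ord 1 q) : D q = d 0 q * X 1 + d 1 q * X 2 := by
  rw [D_eq_range hq, Finset.sum_range_succ, Finset.sum_range_succ]; simp

theorem D_ord2 [IsDomain R] [CharZero R] {q : A R} (hq : Ord 2 q) : D q = d 0 q * X 1 + d 1 q * X 2 + d 2 q * X 3 := by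
  rw [D_eq_range hq, Finset.sum_range_succ, Finset.sum_range_succ, Finset.sum_range_succ]; simp

/-- the partial derivative of an evolutionary derivative -/
theorem d_ev [IsDomain R] [CharZero R] {n : ℕ} (j : ℕ) (p : A R) {q : A R} (hq : Ord n q) :
    d j (ev p q) = ev p (d j q) +
      ∑ i ∈ Finset.range (n + 1), d i q * d j ((⇑D)^[i] p) := by
  rw [ev_eq_range p hq, ev_eq_range p (hq.d j), map_sum, ← Finset.sum_add_distrib]
  refine Finset.sum_congr rfl ?_
  intro i _
  rw [d_mul, d_comm j i]
  ring

/-- elements with vanishing partial derivatives are constants -/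
theorem eq_C_of_d [IsDomain R] [CharZero R] {f : A R} (h : ∀ j, d j f = 0) : f = C (constantCoeff f) := by
  have hv : f.vars = ∅ := by
    rw [Finset.eq_empty_iff_forall_notMem]
    exact fun j => notMem_vars_of_d_eq_zero (h j)
  have hr := vars_eq_empty_iff_eq_C.1 hv
  rw [hr]
  simp

/-- the kernel of `D` consists of constants -/
theorem eq_C_of_D [IsDomain R] [CharZero R] {f : A R} (h : D f = 0) : ∃ r : R, f = C r := by
  obtain ⟨k, hk⟩ := exists_ord f
  have h0 : ∀ m, ∀ j, k < j + m → d j f = 0 := by
    intro m
    induction m with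
    | zero => intro j hj; exact hk j (by omega)
    | succ m ih =>
      intro j hj
      have h1 := d_succ_D j f
      rw [h, map_zero, ih (j + 1) (by omega), map_zero, zero_add] at h1
      exact h1.symm
  exact ⟨_, eq_C_of_d (fun j => h0 (k + 1) j (by omega))⟩

end Pool.Agent.Helper96.FK
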