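import Pool.Agent.Helper96.FK.Defs

/-!
# FK-1: algebra of the bracket

`br p q = ev p q - ev q p`. Everything here is routine from `Basic.lean`
(`ev_D`, `ev_add_left`, `ev_C_mul_left`, `ev_X1_left`, `ev_one_left`, `d_mul`, ...).
-/

set_option autoImplicit false

open MvPolynomial

namespace Pool.Agent.Helper96.FK

variable {R : Type*} [CommRing R]

theorem br_add_left (f g h : A R) : br (f + g) h = br f h + br g h := by
  unfold br; rw [ev_add_left, map_add]; ring

theorem br_add_right (f g h : A R) : br f (g + h) = br f g + br f h := by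
  unfold br; rw [ev_add_left, map_add]; ring

theorem br_C_mul_left (r : R) (f g : A R) : br (C r * f) g = C r * br f g := by
  unfold br; rw [ev_C_mul_left, ev_C_mul]; ring

theorem br_C_mul_right (r : R) (f g : A R) : br f (C r * g) = C r * br f g := by
  unfold br; rw [ev_C_mul_left, ev_C_mul]; ring

theorem br_self (f : A R) : br f f = 0 := by
  unfold br; ring

theorem br_anti (f g : A R) : br f g = -br g f := by
  unfold br; ring

theorem br_zero_left (f : A R) : br 0 f = 0 := by
  have h := br_C_mul_left (0 : R) 0 f
  simpa using h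

theorem br_zero_right (f : A R) : br f 0 = 0 := by
  rw [br_anti, br_zero_left, neg_zero]

theorem br_neg_left (f g : A R) : br (-f) g = -br f g := by
  have h := br_C_mul_left (-1 : R) f g
  simpa using h

theorem br_neg_right (f g : A R) : br f (-g) = -br f g := by
  have h := br_C_mul_right (-1 : R) f g
  simpa using h

theorem br_sub_left (f g h : A R) : br (f - g) h = br f h - br g h := by
  rw [sub_eq_add_neg, br_add_left, br_neg_left, ← sub_eq_add_neg]

theorem br_sub_right (f g h : A R) : br f (g - h) = br f g - br f h := by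
  rw [sub_eq_add_neg, br_add_right, br_neg_right, ← sub_eq_add_neg]

theorem br_sum_left {ι : Type*} (s : Finset ι) (f : ι → A R) (g : A R) :
    br (∑ i ∈ s, f i) g = ∑ i ∈ s, br (f i) g := by
  classical
  induction s using Finset.induction_on with
  | empty => simp [br_zero_left]
  | insert a s ha ih => rw [Finset.sum_insert ha, Finset.sum_insert ha, br_add_left, ih]

theorem br_sum_right {ι : Type*} (s : Finset ι) (f : ι → A R) (g : A R) :
    br g (∑ i ∈ s, f i) = ∑ i ∈ s, br g (f i) := by
  classical
  induction s using Finset.induction_on with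
  | empty => simp [br_zero_right]
  | insert a s ha ih => rw [Finset.sum_insert ha, Finset.sum_insert ha, br_add_right, ih]

theorem br_C_left (r : R) (h : A R) : br (C r) h = C r * d 0 h := by
  have h1 := br_C_mul_left r 1 h
  rw [mul_one] at h1
  rw [h1]
  unfold br
  rw [ev_one_left, Derivation.map_one_eq_zero, sub_zero]

theorem br_X1 (h : A R) : br (X 1) h = 0 := by
  unfold br; rw [ev_X1_left, ev_X1, sub_self]

private theorem br_iter_sub (n : ℕ) (f g : A R) :
    (⇑D)^[n] (f - g) = (⇑D)^[n] f - (⇑D)^[n] g := by
  induction n with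
  | zero => rfl
  | succ n ih => rw [iter_succ, iter_succ, iter_succ, ih, map_sub]

private theorem br_ev_br (f g h : A R) : ev (br f g) h = ev f (ev g h) - ev g (ev f h) := by
  have e : ev (br f g) = ⁅ev f, ev g⁆ := by
    apply derivation_ext
    intro i
    rw [Derivation.commutator_apply, ev_X, ev_X, ev_X, ev_iter, ev_iter]
    unfold br
    rw [br_iter_sub]
  rw [e, Derivation.commutator_apply]

/-- Jacobi identity. Use `ev (br f g) = ev f ∘ ev g - ev g ∘ ev f`, which is checked on generators
(`derivation_ext`, `ev_iter`). -/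
theorem jacobi (f g h : A R) : br f (br g h) = br (br f g) h + br g (br f h) := by
  have h1 : br f (br g h) = ev f (ev g h - ev h g) - ev (br g h) f := rfl
  have h2 : br (br f g) h = ev (br f g) h - ev h (ev f g - ev g f) := rfl
  have h3 : br g (br f h) = ev g (ev f h - ev h f) - ev (br f h) g := rfl
  rw [h1, h2, h3, br_ev_br, br_ev_br, br_ev_br, map_sub, map_sub, map_sub]
  ring

private theorem br_der_monomial (Δ : Derivation R (A R) (A R)) {i : ℕ}
    (hΔ : ∀ j, (Δ (X j)).IsHomogeneous i) (n : ℕ) :
    ∀ (e : ℕ →₀ ℕ) (r : R), e.degree = n + 1 → (Δ (monomial e r)).IsHomogeneous (n + i) := by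
  induction n with
  | zero =>
    intro e r he
    have hne : e ≠ 0 := by
      rintro rfl
      simp at he
    obtain ⟨j, hj⟩ := Finsupp.ne_iff.1 hne
    have hj' : 1 ≤ e j := Nat.one_le_iff_ne_zero.2 (by simpa using hj)
    have hle : Finsupp.single j 1 ≤ e := Finsupp.single_le_iff.2 hj'
    have he' : e = (e - Finsupp.single j 1) + Finsupp.single j 1 := (tsub_add_cancel_of_le hle).symm
    have hd : (e - Finsupp.single j 1).degree = 0 := by
      have := congrArg Finsupp.degree he'
      rw [map_add, he, Finsupp.degree_single] at this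
      omega
    have hz : e - Finsupp.single j 1 = 0 := (Finsupp.degree_eq_zero_iff _).1 hd
    have hm : (monomial e r : A R) = C r * X j := by
      rw [he', hz, zero_add, X, C_mul_monomial, mul_one]
    rw [hm, Derivation.leibniz, derivation_C, smul_zero, add_zero, smul_eq_mul]
    have := (isHomogeneous_C ℕ r).mul (hΔ j)
    simpa using this
  | succ n ih =>
    intro e r he
    have hne : e ≠ 0 := by
      rintro rfl
      simp at he
    obtain ⟨j, hj⟩ := Finsupp.ne_iff.1 hne
    have hj' : 1 ≤ e j := Nat.one_le_iff_ne_zero.2 (by simpa using hj)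
    have hle : Finsupp.single j 1 ≤ e := Finsupp.single_le_iff.2 hj'
    have he' : e = (e - Finsupp.single j 1) + Finsupp.single j 1 := (tsub_add_cancel_of_le hle).symm
    have hd : (e - Finsupp.single j 1).degree = n + 1 := by
      have := congrArg Finsupp.degree he'
      rw [map_add, he, Finsupp.degree_single] at this
      omega
    have hm : (monomial e r : A R) = monomial (e - Finsupp.single j 1) r * X j := by
      conv_lhs => rw [he']
      rw [X, monomial_mul, mul_one]
    rw [hm, Derivation.leibniz, smul_eq_mul, smul_eq_mul]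
    refine IsHomogeneous.add ?_ ?_
    · have h1 := (isHomogeneous_monomial r hd).mul (hΔ j)
      have e1 : n + 1 + i = n + 1 + i := rfl
      exact h1
    · have h2 := (isHomogeneous_X R j).mul (ih _ r hd)
      have e1 : 1 + (n + i) = n + 1 + i := by omega
      rw [e1] at h2
      exact h2

private theorem br_der_hom (Δ : Derivation R (A R) (A R)) {i n : ℕ}
    (hΔ : ∀ j, (Δ (X j)).IsHomogeneous i) {f : A R} (hf : f.IsHomogeneous (n + 1)) :
    (Δ f).IsHomogeneous (n + i) := by
  rw [f.as_sum, map_sum]
  apply IsHomogeneous.sum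
  intro e he
  refine br_der_monomial Δ hΔ n e _ ?_
  have h0 : coeff e f ≠ 0 := by simpa using he
  have := hf h0
  rwa [Finsupp.degree_eq_weight_one]

/-- total derivative preserves homogeneity -/
theorem isHomogeneous_D {f : A R} {n : ℕ} (hf : f.IsHomogeneous n) : (D f).IsHomogeneous n := by
  cases n with
  | zero =>
    have h1 := homogeneousComponent_eq_self hf
    rw [homogeneousComponent_zero] at h1
    rw [← h1, D_C]
    exact isHomogeneous_zero _ _ _
  | succ n =>
    refine br_der_hom D (i := 1) (fun j => ?_) hf
    rw [D_X]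
    exact isHomogeneous_X R _

theorem isHomogeneous_ev {p q : A R} {i j : ℕ} (hp : p.IsHomogeneous i)
    (hq : q.IsHomogeneous (j + 1)) : (ev p q).IsHomogeneous (i + j) := by
  rw [add_comm i j]
  refine br_der_hom (ev p) (i := i) (fun k => ?_) hq
  rw [ev_X]
  induction k with
  | zero => exact hp
  | succ k ih => rw [iter_succ]; exact isHomogeneous_D ih

theorem isHomogeneous_br {p q : A R} {i j : ℕ} (hp : p.IsHomogeneous (i + 1))
    (hq : q.IsHomogeneous (j + 1)) : (br p q).IsHomogeneous (i + j + 1) := by
  unfold br
  have h1 := isHomogeneous_ev hp hq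
  have h2 := isHomogeneous_ev hq hp
  rw [show i + 1 + j = i + j + 1 by omega] at h1
  rw [show j + 1 + i = i + j + 1 by omega] at h2
  exact h1.sub h2

/-- partial derivatives lower the degree by one -/
theorem isHomogeneous_d {f : A R} {n : ℕ} (i : ℕ) (hf : f.IsHomogeneous (n + 1)) :
    (d i f).IsHomogeneous n := by
  refine br_der_hom (d i) (i := 0) (fun k => ?_) hf
  by_cases hk : k = i
  · subst hk
    rw [pderiv_X_self]
    exact isHomogeneous_one _ _
  · rw [pderiv_X_of_ne hk]
    exact isHomogeneous_zero _ _ _

private theorem br_hc_hom (f : A R) (n : ℕ) : (hc n f).IsHomogeneous n :=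
  homogeneousComponent_isHomogeneous n f

private theorem br_hc_zero (f : A R) : ∃ r : R, hc 0 f = C r :=
  ⟨coeff 0 f, homogeneousComponent_zero f⟩

/-- the bracket of the components of degrees `i`, `j` -/
private theorem br_pair_hom (f g : A R) {i j s : ℕ} (h : i + j = s + 1) :
    (br (hc i f) (hc j g)).IsHomogeneous s := by
  cases i with
  | zero =>
    obtain ⟨r, hr⟩ := br_hc_zero f
    obtain ⟨j, rfl⟩ : ∃ k, j = k + 1 := ⟨s, by omega⟩
    rw [hr, br_C_left]
    have h1 := (isHomogeneous_C ℕ r).mul (isHomogeneous_d 0 (br_hc_hom g (j + 1)))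
    have e : 0 + j = s := by omega
    rw [e] at h1
    exact h1
  | succ i =>
    cases j with
    | zero =>
      obtain ⟨r, hr⟩ := br_hc_zero g
      rw [hr, br_anti, br_C_left]
      have h1 := ((isHomogeneous_C ℕ r).mul (isHomogeneous_d 0 (br_hc_hom f (i + 1)))).neg
      have e : 0 + i = s := by omega
      rw [e] at h1
      exact h1
    | succ j =>
      have h1 := isHomogeneous_br (br_hc_hom f (i + 1)) (br_hc_hom g (j + 1))
      have e : i + j + 1 = s := by omega
      rw [e] at h1
      exact h1

private theorem br_pair_zero (f g : A R) : br (hc 0 f) (hc 0 g) = 0 := by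
  obtain ⟨r, hr⟩ := br_hc_zero f
  obtain ⟨t, ht⟩ := br_hc_zero g
  rw [hr, ht, br_C_left]
  have : d 0 (C t : A R) = 0 := pderiv_C
  rw [this, mul_zero]

private theorem br_sum_hc (f : A R) (N : ℕ) (hN : f.totalDegree ≤ N) :
    f = ∑ i ∈ Finset.range (N + 1), hc i f := by
  have h1 : ∑ i ∈ Finset.range (f.totalDegree + 1), hc i f = ∑ i ∈ Finset.range (N + 1), hc i f := by
    apply Finset.sum_subset
    · intro i hi
      rw [Finset.mem_range] at hi ⊢
      omega
    · intro i _ hi
      apply homogeneousComponent_eq_zero
      rw [Finset.mem_range] at hi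
      omega
  rw [← h1]
  exact (sum_homogeneousComponent f).symm

/-- homogeneous components of a bracket -/
theorem hc_br (f g : A R) (s : ℕ) :
    hc s (br f g) = ∑ x ∈ Finset.HasAntidiagonal.antidiagonal (s + 1),
      br (hc x.1 f) (hc x.2 g) := by
  classical
  obtain ⟨N, hf, hg, hs⟩ : ∃ N, f.totalDegree ≤ N ∧ g.totalDegree ≤ N ∧ s + 1 ≤ N :=
    ⟨f.totalDegree + g.totalDegree + (s + 1), by omega, by omega, by omega⟩
  have key : ∀ x : ℕ × ℕ, hc s (br (hc x.1 f) (hc x.2 g)) =
      if x.1 + x.2 = s + 1 then br (hc x.1 f) (hc x.2 g) else 0 := by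
    rintro ⟨i, j⟩
    dsimp only
    split_ifs with h
    · exact homogeneousComponent_eq_self (br_pair_hom f g h)
    · by_cases h0 : i + j = 0
      · have hi : i = 0 := by omega
        have hj : j = 0 := by omega
        subst hi hj
        rw [br_pair_zero, map_zero]
      · obtain ⟨m, hm⟩ : ∃ m, i + j = m + 1 := ⟨i + j - 1, by omega⟩
        have h1 := br_pair_hom f g hm
        rw [homogeneousComponent_of_mem h1, if_neg]
        omega
  conv_lhs => rw [br_sum_hc f N hf, br_sum_hc g N hg]
  rw [br_sum_left]
  simp only [br_sum_right, map_sum]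
  rw [← Finset.sum_product', Finset.sum_congr rfl (fun x _ => key x), ← Finset.sum_filter]
  apply Finset.sum_congr _ (fun _ _ => rfl)
  ext x
  rw [Finset.mem_filter, Finset.mem_product, Finset.mem_range, Finset.mem_range,
    Finset.HasAntidiagonal.mem_antidiagonal]
  constructor
  · rintro ⟨_, h⟩
    exact h
  · intro h
    exact ⟨⟨by omega, by omega⟩, h⟩

theorem hc_d (i s : ℕ) (f : A R) : hc s (d i f) = d i (hc (s + 1) f) := by
  classical
  ext e
  rw [coeff_homogeneousComponent]
  show (if e.degree = s then coeff e (pderiv i f) else 0) =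
    coeff e (pderiv i (homogeneousComponent (s + 1) f))
  rw [coeff_pderiv, coeff_pderiv, coeff_homogeneousComponent, map_add, Finsupp.degree_single]
  by_cases h : e.degree = s
  · rw [if_pos h, if_pos (by omega)]
  · rw [if_neg h, if_neg (by omega), zero_mul]

/-- `∂_0` is a derivation of the bracket -/
theorem d0_br (f g : A R) : d 0 (br f g) = br (d 0 f) g + br f (d 0 g) := by
  have h : ∀ k : A R, d 0 k = br 1 k := by
    intro k
    have h1 := br_C_left (1 : R) k
    rw [C_1, one_mul] at h1
    exact h1.symm
  rw [h, h, h]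
  exact jacobi 1 f g

end Pool.Agent.Helper96.FK
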