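import Pool.Agent.Helper96.FK.Br

/-!
# FK-1b: the bracket, the coefficient derivative and base change

All routine: derivations of `A L` over `ℂ` are compared on `C a` and `X i`
(`MvPolynomial.induction_on`); `map φ (D f) = D (map φ f)` by `MvPolynomial.induction_on`.
-/

set_option autoImplicit false

open MvPolynomial

namespace Pool.Agent.Helper96.FK

variable {R : Type*} [CommRing R]

theorem cd_D (f : A L) : cd (D f) = D (cd f) := by
  induction f using MvPolynomial.induction_on with
  | C a => simp
  | add p q hp hq => simp only [map_add, hp, hq]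
  | mul_X p i hp =>
    rw [D_mul, D_X, map_add, cd_mul, cd_mul, cd_X, cd_X, hp, cd_mul, cd_X]
    simp only [mul_zero, zero_add, add_zero]
    rw [D_mul, D_X]
    ring

private theorem brcd_cd_iter (n : ℕ) (f : A L) : cd ((⇑D)^[n] f) = (⇑D)^[n] (cd f) := by
  induction n with
  | zero => rfl
  | succ n ih => rw [iter_succ, iter_succ, cd_D, ih]

theorem cd_ev (f g : A L) : cd (ev f g) = ev (cd f) g + ev f (cd g) := by
  induction g using MvPolynomial.induction_on with
  | C a => simp
  | add p q hp hq =>
    simp only [map_add, hp, hq]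
    ring
  | mul_X p i hp =>
    rw [ev_mul, ev_X, map_add, cd_mul, cd_mul, cd_X, hp, brcd_cd_iter, ev_mul, ev_X, cd_mul, cd_X]
    simp only [mul_zero, zero_add, add_zero]
    rw [ev_mul, ev_X]
    ring

theorem cd_br (f g : A L) : cd (br f g) = br (cd f) g + br f (cd g) := by
  unfold br
  rw [map_sub, cd_ev, cd_ev]
  ring

theorem hc_cd (s : ℕ) (f : A L) : hc s (cd f) = cd (hc s f) := by
  ext e : 1
  rw [coeff_cd, coeff_homogeneousComponent, coeff_homogeneousComponent, coeff_cd]
  split_ifs
  · rfl
  · exact (Polynomial.derivative_zero).symm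

theorem isHomogeneous_cd {f : A L} {n : ℕ} (hf : f.IsHomogeneous n) : (cd f).IsHomogeneous n := by
  intro e he
  apply hf
  intro h0
  apply he
  rw [coeff_cd, h0, Polynomial.derivative_zero]

private theorem brcd_map_D {R' : Type*} [CommRing R'] (φ : R →+* R') (f : A R) :
    MvPolynomial.map φ (D f) = D (MvPolynomial.map φ f) := by
  induction f using MvPolynomial.induction_on with
  | C a => simp
  | add p q hp hq => simp only [map_add, hp, hq]
  | mul_X p i hp =>
    rw [D_mul, D_X, map_add, map_mul, map_mul, map_mul, map_X, map_X, hp, D_mul, D_X]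

private theorem brcd_map_iter {R' : Type*} [CommRing R'] (φ : R →+* R') (n : ℕ) (f : A R) :
    MvPolynomial.map φ ((⇑D)^[n] f) = (⇑D)^[n] (MvPolynomial.map φ f) := by
  induction n with
  | zero => rfl
  | succ n ih => rw [iter_succ, iter_succ, brcd_map_D, ih]

private theorem brcd_map_ev {R' : Type*} [CommRing R'] (φ : R →+* R') (f g : A R) :
    MvPolynomial.map φ (ev f g) = ev (MvPolynomial.map φ f) (MvPolynomial.map φ g) := by
  induction g using MvPolynomial.induction_on with
  | C a => simp
  | add p q hp hq => simp only [map_add, hp, hq]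
  | mul_X p i hp =>
    rw [ev_mul, ev_X, map_add, map_mul, map_mul, map_mul, map_X, hp, brcd_map_iter, ev_mul, ev_X]

/-- base change: the bracket commutes with ring homomorphisms of the coefficients -/
theorem map_br {R' : Type*} [CommRing R'] (φ : R →+* R') (f g : A R) :
    MvPolynomial.map φ (br f g) = br (MvPolynomial.map φ f) (MvPolynomial.map φ g) := by
  unfold br
  rw [map_sub, brcd_map_ev, brcd_map_ev]

theorem map_hc {R' : Type*} [CommRing R'] (φ : R →+* R') (s : ℕ) (f : A R) :
    MvPolynomial.map φ (hc s f) = hc s (MvPolynomial.map φ f) := by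
  ext e
  rw [coeff_map, coeff_homogeneousComponent, coeff_homogeneousComponent, coeff_map]
  split_ifs
  · rfl
  · exact map_zero φ

end Pool.Agent.Helper96.FK
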