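import Pool.Agent.Helper96.FK.Defs

/-!
# FK-16a: congruences modulo the maximal ideal, existence of a valued field
-/

set_option autoImplicit false

open MvPolynomial

namespace Pool.Agent.Helper96.FK

/-- an algebraically closed field with a nontrivial valuation ring containing `ℂ`:
`K = AlgebraicClosure (RatFunc ℂ)` and `Ideal.image_subset_nonunits_valuationSubring` for
`ℂ[X]` and the ideal `(X)`; `y = 1/X` -/
theorem exists_vf : ∃ (K : Type) (_ : Field K) (_ : Algebra ℂ K) (_ : IsAlgClosed K)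
    (V : ValuationSubring K), Over V ∧ ∃ y : K, y ∉ V := by
  let φ : Polynomial ℂ →+* AlgebraicClosure (RatFunc ℂ) :=
    (algebraMap (RatFunc ℂ) (AlgebraicClosure (RatFunc ℂ))).comp
      (algebraMap (Polynomial ℂ) (RatFunc ℂ))
  have hφ : Function.Injective φ :=
    (algebraMap (RatFunc ℂ) (AlgebraicClosure (RatFunc ℂ))).injective.comp
      (RatFunc.algebraMap_injective ℂ)
  let xx : φ.range := ⟨φ Polynomial.X, ⟨Polynomial.X, rfl⟩⟩
  have hI : (Ideal.span {xx} : Ideal φ.range) ≠ ⊤ := by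
    intro h
    rw [Ideal.eq_top_iff_one, Ideal.mem_span_singleton'] at h
    obtain ⟨⟨b, p, hp⟩, hb⟩ := h
    have h1 : b * φ Polynomial.X = 1 := congrArg Subtype.val hb
    rw [← hp, ← map_mul] at h1
    have h2 : p * Polynomial.X = 1 := hφ (by rw [h1, map_one])
    have h3 := congrArg (Polynomial.eval 0) h2
    simp at h3
  obtain ⟨V, hV1, hV2⟩ := Ideal.image_subset_nonunits_valuationSubring (A := φ.range) _ hI
  refine ⟨AlgebraicClosure (RatFunc ℂ), inferInstance, inferInstance, inferInstance, V, ?_,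
    (φ Polynomial.X)⁻¹, ?_⟩
  · intro z
    apply hV1
    refine ⟨Polynomial.C z, ?_⟩
    show algebraMap (RatFunc ℂ) (AlgebraicClosure (RatFunc ℂ))
      (algebraMap (Polynomial ℂ) (RatFunc ℂ) (Polynomial.C z)) = _
    rw [RatFunc.algebraMap_C, ← RatFunc.algebraMap_eq_C, ← IsScalarTower.algebraMap_apply]
  · have h1 : φ Polynomial.X ∈ V.nonunits := hV2 ⟨xx, Ideal.subset_span rfl, rfl⟩
    have h2 : φ Polynomial.X ≠ 0 := by
      intro h
      exact Polynomial.X_ne_zero (hφ (h.trans (map_zero φ).symm))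
    rw [← inv_inv (φ Polynomial.X)] at h1
    exact (V.inv_mem_nonunits_iff.mp h1).resolve_left (inv_ne_zero h2)

lemma cg_le {K : Type} [Field K] [Algebra ℂ K] {V : ValuationSubring K} (hV : Over V) (c : ℂ) :
    V.valuation (algebraMap ℂ K c) ≤ 1 :=
  (V.valuation_le_one_iff _).2 (hV c)

lemma cg_one {K : Type} [Field K] [Algebra ℂ K] {V : ValuationSubring K} (hV : Over V) {c : ℂ}
    (hc : c ≠ 0) : V.valuation (algebraMap ℂ K c) = 1 := by
  apply le_antisymm (cg_le hV c)
  have h1 := cg_le hV c⁻¹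
  have h2 : V.valuation (algebraMap ℂ K c) * V.valuation (algebraMap ℂ K c⁻¹) = 1 := by
    rw [← map_mul, ← map_mul, mul_inv_cancel₀ hc, map_one, map_one]
  calc (1 : V.ValueGroup) = V.valuation (algebraMap ℂ K c) * V.valuation (algebraMap ℂ K c⁻¹) :=
        h2.symm
    _ ≤ V.valuation (algebraMap ℂ K c) * 1 := by gcongr
    _ = _ := mul_one _

theorem Cg.mem {K : Type} [Field K] [Algebra ℂ K] {V : ValuationSubring K} (hV : Over V)
    {x : K} {α : ℂ} (h1 : Cg V x α) : x ∈ V := by
  have h2 : x - algebraMap ℂ K α ∈ V := (V.valuation_le_one_iff _).1 (le_of_lt h1)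
  have h3 := V.add_mem _ _ h2 (hV α)
  rwa [sub_add_cancel] at h3

/-- the direction is unique -/
theorem Cg.unique {K : Type} [Field K] [Algebra ℂ K] {V : ValuationSubring K} (hV : Over V)
    {x : K} {α β : ℂ} (h1 : Cg V x α) (h2 : Cg V x β) : α = β := by
  by_contra hne
  have h3 := cg_one hV (sub_ne_zero.2 hne)
  have h4 : algebraMap ℂ K (α - β) =
      (x - algebraMap ℂ K β) - (x - algebraMap ℂ K α) := by
    rw [map_sub]
    ring
  rw [h4] at h3
  have h5 := V.valuation.map_sub (x - algebraMap ℂ K β) (x - algebraMap ℂ K α)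
  rw [h3] at h5
  exact absurd h5 (not_le.2 (max_lt h2 h1))

theorem Cg.add {K : Type} [Field K] [Algebra ℂ K] {V : ValuationSubring K}
    {x y : K} {α β : ℂ} (h1 : Cg V x α) (h2 : Cg V y β) : Cg V (x + y) (α + β) := by
  unfold Cg at h1 h2 ⊢
  have h4 : x + y - algebraMap ℂ K (α + β) =
      (x - algebraMap ℂ K α) + (y - algebraMap ℂ K β) := by
    rw [map_add]
    ring
  rw [h4]
  exact V.valuation.map_add_lt h1 h2

theorem Cg.mul {K : Type} [Field K] [Algebra ℂ K] {V : ValuationSubring K} (hV : Over V)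
    {x y : K} {α β : ℂ} (h1 : Cg V x α) (h2 : Cg V y β) : Cg V (x * y) (α * β) := by
  have hx : V.valuation x ≤ 1 := (V.valuation_le_one_iff _).2 (h1.mem hV)
  unfold Cg at h1 h2 ⊢
  have h4 : x * y - algebraMap ℂ K (α * β) =
      x * (y - algebraMap ℂ K β) + (algebraMap ℂ K β) * (x - algebraMap ℂ K α) := by
    rw [map_mul]
    ring
  rw [h4]
  apply V.valuation.map_add_lt
  · rw [map_mul]
    calc V.valuation x * V.valuation (y - algebraMap ℂ K β)
        ≤ 1 * V.valuation (y - algebraMap ℂ K β) := by gcongr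
      _ < 1 := by rwa [one_mul]
  · rw [map_mul]
    calc V.valuation (algebraMap ℂ K β) * V.valuation (x - algebraMap ℂ K α)
        ≤ 1 * V.valuation (x - algebraMap ℂ K α) := by
          gcongr
          exact cg_le hV β
      _ < 1 := by rwa [one_mul]

theorem Cg.inv {K : Type} [Field K] [Algebra ℂ K] {V : ValuationSubring K} (hV : Over V)
    {x : K} {α : ℂ} (h1 : Cg V x α) (hα : α ≠ 0) : Cg V x⁻¹ α⁻¹ := by
  have hα1 := cg_one hV hα
  unfold Cg at h1 ⊢
  have hx : V.valuation x = 1 := by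
    have h2 := V.valuation.map_add_eq_of_lt_right (x := x - algebraMap ℂ K α)
      (y := algebraMap ℂ K α) (by rw [hα1]; exact h1)
    rw [sub_add_cancel] at h2
    rw [h2, hα1]
  have hx0 : x ≠ 0 := by
    rintro rfl
    rw [map_zero] at hx
    exact zero_ne_one hx
  have hα0 : algebraMap ℂ K α ≠ 0 := by
    intro h
    rw [h, map_zero] at hα1
    exact zero_ne_one hα1
  have h4 : x⁻¹ - algebraMap ℂ K α⁻¹ =
      -((x - algebraMap ℂ K α) * (x⁻¹ * (algebraMap ℂ K α)⁻¹)) := by
    rw [map_inv₀]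
    field_simp
    ring
  rw [h4, Valuation.map_neg, map_mul, map_mul, map_inv₀, map_inv₀, hx, hα1, inv_one, mul_one,
    mul_one]
  exact h1

theorem Cg.const {K : Type} [Field K] [Algebra ℂ K] (V : ValuationSubring K) (α : ℂ) :
    Cg V (algebraMap ℂ K α) α := by
  unfold Cg
  rw [sub_self, map_zero]
  exact zero_lt_one

end Pool.Agent.Helper96.FK
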