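import Pool.Agent.Helper96.FK.Tail

/-!
# FK-28b: polynomial combinations (proof in `Tail.lean`)
-/

set_option autoImplicit false

open MvPolynomial

namespace Pool.Agent.Helper96.FK

/-- linear combinations of commuting series commute -/
private theorem combos_FC {n : ℕ} {F : A ℂ} (a : Fin n → ℂ) (h : Fin n → ℕ → A ℂ)
    (hF : ∀ i, FC F (h i)) : FC F (fun s => ∑ i, C (a i) * h i s) := by
  intro s
  have h1 : ∀ x ∈ Finset.HasAntidiagonal.antidiagonal (s + 1),
      br (hc x.1 F) (∑ i, C (a i) * h i x.2) = ∑ i, C (a i) * br (hc x.1 F) (h i x.2) := by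
    intro x _
    rw [br_sum_right]
    exact Finset.sum_congr rfl fun i _ => br_C_mul_right _ _ _
  rw [Finset.sum_congr rfl h1, Finset.sum_comm]
  refine Finset.sum_eq_zero fun i _ => ?_
  rw [← Finset.mul_sum, hF i s, mul_zero]

private theorem combos_Ser {n : ℕ} (a : Fin n → ℂ) (h : Fin n → ℕ → A ℂ)
    (hS : ∀ i, Ser (h i)) : Ser (fun s => ∑ i, C (a i) * h i s) := by
  refine ⟨fun s => ?_, ?_⟩
  · refine IsHomogeneous.sum _ _ _ fun i _ => ?_
    have := (isHomogeneous_C ℕ (a i)).mul ((hS i).1 s)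
    rwa [zero_add] at this
  · refine Finset.sum_eq_zero fun i _ => ?_
    rw [(hS i).2, mul_zero]

/-- a polynomial all of whose components vanish is zero -/
private theorem combos_zero {f : A ℂ} (h : ∀ s, hc s f = 0) : f = 0 := by
  rw [← sum_homogeneousComponent f]
  exact Finset.sum_eq_zero fun s _ => h s

/-- a terminating series is a polynomial -/
private theorem combos_poly {h : ℕ → A ℂ} (hS : Ser h) {M : ℕ} (hM : ∀ s, M ≤ s → h s = 0)
    (s : ℕ) : hc s (∑ t ∈ Finset.range M, h t) = h s := by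
  rw [map_sum]
  have h1 : ∀ t ∈ Finset.range M, hc s (h t) = if t = s then h t else 0 := by
    intro t _
    rw [homogeneousComponent_of_mem (hS.1 t)]
    by_cases hts : t = s
    · rw [if_pos hts.symm, if_pos hts]
    · rw [if_neg (fun e => hts e.symm), if_neg hts]
  rw [Finset.sum_congr rfl h1, Finset.sum_ite_eq']
  split_ifs with hs
  · rfl
  · exact (hM s (by simpa using hs)).symm

private theorem combos_br {F : A ℂ} {h : ℕ → A ℂ} (hS : Ser h) (hF : FC F h) {M : ℕ}
    (hM : ∀ s, M ≤ s → h s = 0) : br F (∑ t ∈ Finset.range M, h t) = 0 := by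
  apply combos_zero
  intro s
  rw [hc_br]
  simp only [combos_poly hS hM]
  exact hF s

/-- the leading coefficient of a combination of polynomials of increasing degrees -/
private theorem combos_lead {n : ℕ} (a : Fin n → ℂ) (ha : a ≠ 0) (r : ℕ → Polynomial ℂ)
    (hr : StrictMono (fun i => (r i).natDegree)) (h0 : ∀ i, 1 ≤ (r i).natDegree) :
    ∃ i : Fin n, (∑ j, Polynomial.C (a j) * r j).coeff (r i).natDegree ≠ 0 := by
  classical
  obtain ⟨i0, hi0⟩ := Function.ne_iff.1 ha
  have hne : (Finset.univ.filter fun i => a i ≠ 0).Nonempty :=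
    ⟨i0, by simpa using hi0⟩
  obtain ⟨i, hi, hmax⟩ := Finset.exists_max_image _ (fun i : Fin n => (i : ℕ)) hne
  rw [Finset.mem_filter] at hi
  refine ⟨i, ?_⟩
  rw [Polynomial.finsetSum_coeff, Finset.sum_eq_single i]
  · rw [Polynomial.coeff_C_mul]
    refine mul_ne_zero hi.2 ?_
    rw [Polynomial.coeff_natDegree, Polynomial.leadingCoeff_ne_zero]
    intro h
    have := h0 i
    rw [h, Polynomial.natDegree_zero] at this
    omega
  · intro j _ hji
    rw [Polynomial.coeff_C_mul]
    by_cases haj : a j = 0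
    · rw [haj, zero_mul]
    · have h1 : (j : ℕ) ≤ i := hmax j (by simpa using haj)
      have h2 : (j : ℕ) < i := lt_of_le_of_ne h1 (fun e => hji (Fin.ext e))
      rw [Polynomial.coeff_eq_zero_of_natDegree_lt (hr h2), mul_zero]
  · intro h
    exact absurd (Finset.mem_univ i) h

private theorem combos_ell {n : ℕ} (a : Fin n → ℂ) (r : ℕ → Polynomial ℂ) :
    ∑ j : Fin n, C (a j) * ell (r j) = ell (∑ j : Fin n, Polynomial.C (a j) * r j) := by
  classical
  have h : ∀ s : Finset (Fin n), ∑ j ∈ s, C (a j) * ell (r j) =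
      ell (∑ j ∈ s, Polynomial.C (a j) * r j) := by
    intro s
    induction s using Finset.induction_on with
    | empty => simp [ell]
    | insert x s hx ih =>
      rw [Finset.sum_insert hx, Finset.sum_insert hx, ell_add, ell_C_mul, ih]
  exact h _

theorem combos {k : ℕ} {c0 : ℂ} {F : A ℂ} (hF : CS k c0 F) (Gt : A ℂ)
    (hfam : ∀ n : ℕ, ∃ (r : Polynomial ℂ) (h : ℕ → A ℂ), n ≤ r.natDegree ∧ Ser h ∧
      h 1 = ell r ∧ FC F h ∧ FC Gt h) :
    ∀ N : ℕ, ∃ h : A ℂ, br F h = 0 ∧ br Gt h = 0 ∧ ∃ j, N ≤ j ∧ d j h ≠ 0 := by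
  classical
  intro N
  choose r h hn hSer hell hFC hGC using hfam
  -- strictly increasing degrees
  let n : ℕ → ℕ := fun i => Nat.rec (N + 1) (fun _ m => (r m).natDegree + 1) i
  have hn0 : n 0 = N + 1 := rfl
  have hns : ∀ i, n (i + 1) = (r (n i)).natDegree + 1 := fun i => rfl
  have hmono : StrictMono (fun i => (r (n i)).natDegree) := by
    apply strictMono_nat_of_lt_succ
    intro i
    have := hn (n (i + 1))
    rw [hns] at this
    show (r (n i)).natDegree < (r (n (i + 1))).natDegree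
    rw [hns]
    omega
  have hN : ∀ i, N + 1 ≤ (r (n i)).natDegree := by
    intro i
    have h1 := hn (n 0)
    rw [hn0] at h1
    have h2 : (r (n 0)).natDegree ≤ (r (n i)).natDegree := hmono.monotone (Nat.zero_le i)
    rw [hn0] at h2
    omega
  obtain ⟨W, γ, hrec⟩ := tail_rec hF
  have htail : ∀ i : Fin (W + 1), ∃ S : ℕ, ∃ ζ : ℕ → ℂ, ∀ s, S ≤ s →
      h (n i) s = C (ζ s) * X 0 ^ s := by
    intro i
    obtain ⟨S, hS⟩ := tail_form hF (h (n i)) (hSer _) (hFC _)
    choose ζ hζ using fun s : {s : ℕ // S ≤ s} => hS s.1 s.2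
    refine ⟨S, fun s => if hs : S ≤ s then ζ ⟨s, hs⟩ else 0, fun s hs => ?_⟩
    simp only
    rw [dif_pos hs]
    exact hζ ⟨s, hs⟩
  choose Sf ζ hζ using htail
  obtain ⟨S, hS⟩ : ∃ S, ∀ i, Sf i ≤ S :=
    ⟨Finset.univ.sup Sf, fun i => Finset.le_sup (Finset.mem_univ i)⟩
  -- a nontrivial combination
  let Λ : (Fin (W + 1) → ℂ) →ₗ[ℂ] (Fin W → ℂ) :=
    { toFun := fun a j => ∑ i, a i * ζ i (S + 2 + j)
      map_add' := by
        intro a b
        funext j
        simp [add_mul, Finset.sum_add_distrib]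
      map_smul' := by
        intro z a
        funext j
        simp [Finset.mul_sum, mul_assoc] }
  have hker : LinearMap.ker Λ ≠ ⊥ := by
    apply LinearMap.ker_ne_bot_of_finrank_lt
    simp
  obtain ⟨a, haΛ, ha0⟩ := (Submodule.ne_bot_iff _).1 hker
  rw [LinearMap.mem_ker] at haΛ
  have hwin : ∀ j, j < W → ∑ i, a i * ζ i (S + 2 + j) = 0 := by
    intro j hj
    exact congrFun haΛ ⟨j, hj⟩
  set hh : ℕ → A ℂ := fun s => ∑ i : Fin (W + 1), C (a i) * h (n i) s with hhdef
  have hhS : Ser hh := combos_Ser a (fun i => h (n i)) (fun i => hSer _)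
  have hhF : FC F hh := combos_FC a (fun i => h (n i)) (fun i => hFC _)
  have hhG : FC Gt hh := combos_FC a (fun i => h (n i)) (fun i => hGC _)
  have hhζ : ∀ s, S ≤ s → hh s = C (∑ i, a i * ζ i s) * X 0 ^ s := by
    intro s hs
    rw [hhdef]
    simp only
    rw [map_sum, Finset.sum_mul]
    refine Finset.sum_congr rfl fun i _ => ?_
    rw [hζ i s (le_trans (hS i) hs), C_mul]
    ring
  have hk := hF.hk
  have hz : ∀ m, ∑ i, a i * ζ i (S + 2 + m) = 0 := by
    intro m
    induction m using Nat.strong_induction_on with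
    | _ m ih =>
      by_cases hm : m < W
      · exact hwin m hm
      · have h1 := hrec hh hhS hhF S (fun s => ∑ i, a i * ζ i s) hhζ (S + 2 + m) (by omega)
        have h2 : ∑ i ∈ Finset.range W, γ i * (∑ l, a l * ζ l (S + 2 + m - 1 - i)) = 0 := by
          refine Finset.sum_eq_zero fun i hi => ?_
          have hi' := Finset.mem_range.1 hi
          have h3 := ih (m - 1 - i) (by omega)
          rw [show S + 2 + m - 1 - i = S + 2 + (m - 1 - i) by omega, h3, mul_zero]
        rw [h2, add_zero] at h1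
        rcases mul_eq_zero.1 h1 with h4 | h4
        · exfalso
          rcases mul_eq_zero.1 h4 with h5 | h5
          · rcases mul_eq_zero.1 h5 with h6 | h6
            · exact hF.ne h6
            · rw [Nat.cast_eq_zero] at h6
              omega
          · rw [Nat.cast_eq_zero] at h5
            omega
        · exact h4
  have hM : ∀ s, S + 2 ≤ s → hh s = 0 := by
    intro s hs
    obtain ⟨m, rfl⟩ : ∃ m, s = S + 2 + m := ⟨s - (S + 2), by omega⟩
    rw [hhζ _ (by omega), hz, C_0, zero_mul]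
  refine ⟨∑ t ∈ Finset.range (S + 2), hh t, combos_br hhS hhF hM, combos_br hhS hhG hM, ?_⟩
  obtain ⟨i, hi⟩ := combos_lead a ha0 (fun j => r (n j)) hmono (fun j => by have := hN j; omega)
  refine ⟨(r (n i)).natDegree, by have := hN i; omega, ?_⟩
  intro hd0
  apply hi
  have h1 := hc_d (r (n i)).natDegree 0 (∑ t ∈ Finset.range (S + 2), hh t)
  rw [hd0, map_zero, zero_add, combos_poly hhS hM] at h1
  have h2 : hh 1 = ell (∑ j : Fin (W + 1), Polynomial.C (a j) * r (n j)) := by
    rw [← combos_ell a (fun j => r (n j)), hhdef]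
    simp only [hell]
  rw [h2, d_ell] at h1
  exact ((C_eq_zero (R := ℂ) (σ := ℕ)).1 h1.symm)

end Pool.Agent.Helper96.FK
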