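import Pool.Agent.Helper96.FK.TInj

/-!
# FK-29: translation covariance

`K s := d 0 (h (s+1)) - cd (h s)`, homogeneous of degree `s`. Apply `d 0 - cd` to the equations
`FC F h` (`d0_br`, `cd_br`, `hc_d`, `hc_cd`, `hF : d 0 F = cd F`): `∑ br (hc i F) (K j) = 0` over
`i + j = s + 1`. `K 0 = C (r.coeff 0) = 0`, `K 1 = d 0 (h 2) - cd (ell r) = 0`, and for `s ≥ 2` by
induction `br (hc 1 F) (K s) = 0`, so `K s = 0` by `br_ell_inj`.
-/

set_option autoImplicit false

open MvPolynomial

namespace Pool.Agent.Helper96.FK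

theorem covar_cd_map (r : Polynomial ℂ) : cd (ell (r.map Polynomial.C) : A L) = 0 := by
  rw [← map_ell]
  ext e : 1
  rw [coeff_cd, coeff_map, Polynomial.derivative_C, coeff_zero]

theorem covar_key {F : A L} (hF0 : hc 0 F = 0) (hF : d 0 F = cd F) (h : ℕ → A L)
    (h0 : h 0 = 0) (hFC : FC F h) (s : ℕ) :
    ∑ x ∈ Finset.HasAntidiagonal.antidiagonal (s + 1),
      br (hc x.1 F) (d 0 (h (x.2 + 1)) - cd (h x.2)) = 0 := by
  have e1 : ∀ i, d 0 (hc (i + 1) F) = cd (hc i F) := by
    intro i
    rw [← hc_d, hF, hc_cd]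
  have a1 := congrArg (fun z : A L => d 0 z) (hFC (s + 1))
  have a2 := congrArg (fun z : A L => cd z) (hFC s)
  simp only [map_sum, map_zero, d0_br, cd_br, Finset.sum_add_distrib] at a1 a2
  rw [Finset.Nat.sum_antidiagonal_succ] at a1
  rw [Finset.Nat.sum_antidiagonal_succ' (f := fun x => br (hc x.1 F) (d 0 (h x.2)))] at a1
  simp only [hF0, h0, map_zero, br_zero_left, br_zero_right, zero_add, e1] at a1
  simp only [br_sub_right, Finset.sum_sub_distrib]
  linear_combination a1 - a2

theorem covar {q : Polynomial ℂ} (hq : 2 ≤ q.natDegree) {F : A L} (hF0 : hc 0 F = 0)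
    (hF1 : hc 1 F = ell (q.map Polynomial.C)) (hF : d 0 F = cd F) (h : ℕ → A L) (hS : Ser h)
    (r : Polynomial ℂ) (r0 : r.coeff 0 = 0) (h1 : h 1 = ell (r.map Polynomial.C))
    (h2 : d 0 (h 2) = 0) (hFC : FC F h) : ∀ s, d 0 (h (s + 1)) = cd (h s) := by
  have key := covar_key hF0 hF h hS.2 hFC
  intro s
  rw [← sub_eq_zero]
  induction s using Nat.strong_induction_on with
  | _ s ih =>
    rcases s with _ | _ | s
    · rw [hS.2, map_zero, sub_zero, zero_add, h1, d_ell, Polynomial.coeff_map, r0, map_zero,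
        map_zero]
    · rw [h1, covar_cd_map, sub_zero]
      exact h2
    · have hK : (d 0 (h (s + 1 + 1 + 1)) - cd (h (s + 1 + 1))).IsHomogeneous (s + 1 + 1) :=
        (isHomogeneous_d 0 (hS.1 (s + 1 + 1 + 1))).sub (isHomogeneous_cd (hS.1 (s + 1 + 1)))
      have hdeg : 2 ≤ (q.map (Polynomial.C : ℂ →+* L)).natDegree := by
        rw [Polynomial.natDegree_map_eq_of_injective Polynomial.C_injective]
        exact hq
      refine br_ell_inj (by omega) hdeg hK ?_
      have k := key (s + 1 + 1)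
      rw [Finset.Nat.sum_antidiagonal_succ, Finset.Nat.sum_antidiagonal_succ] at k
      simp only [hF0, br_zero_left, zero_add] at k
      rw [Finset.sum_eq_zero, add_zero, hF1] at k
      · exact k
      · intro x hx
        rw [Finset.HasAntidiagonal.mem_antidiagonal] at hx
        rw [ih x.2 (by omega), br_zero_right]

end Pool.Agent.Helper96.FK
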