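import Pool.Agent.Helper96.FK.TMap2

/-!
# FK-5: the bracket of two quadratic elements

For `a = x^i y^j`: `ev (T 2 b) (u_i u_j) = u_i D^j (T 2 b) + u_j D^i (T 2 b)`, whose symbols are
`x_0^i (x_1+x_2)^j b(x_1,x_2)` and `x_0^j (x_1+x_2)^i b(x_1,x_2)`. So for symmetric `a`
`ev (T 2 b) (T 2 a) = T 3 (2 a(x_0, x_1+x_2) b(x_1,x_2))`; symmetrise with `T_rename`.
-/

set_option autoImplicit false

open MvPolynomial

namespace Pool.Agent.Helper96.FK

variable {R : Type*} [CommRing R]

theorem tcub_T3 (c : R) (i j k : ℕ) :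
    T 3 (C c * (X 0 ^ i * (X 1 ^ j * X 2 ^ k)) : MvPolynomial (Fin 3) R) =
      C c * (X i * (X j * X k)) := by
  have h : (C c * (X 0 ^ i * (X 1 ^ j * X 2 ^ k)) : MvPolynomial (Fin 3) R) =
      monomial (Finsupp.single 0 i + (Finsupp.single 1 j + Finsupp.single 2 k)) c := by
    rw [X_pow_eq_monomial, X_pow_eq_monomial, X_pow_eq_monomial, monomial_mul, monomial_mul,
      C_mul_monomial]
    simp
  rw [h, T_monomial, Fin.prod_univ_three]
  simp [mul_assoc]

theorem tcub_T2 (c : R) (i j : ℕ) :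
    T 2 (C c * (X 0 ^ i * X 1 ^ j) : MvPolynomial (Fin 2) R) = C c * (X i * X j) := by
  have h : (C c * (X 0 ^ i * X 1 ^ j) : MvPolynomial (Fin 2) R) =
      monomial (Finsupp.single 0 i + Finsupp.single 1 j) c := by
    rw [X_pow_eq_monomial, X_pow_eq_monomial, monomial_mul, C_mul_monomial]
    simp
  rw [h, T_monomial, Fin.prod_univ_two]
  simp

theorem tcub_T1 (c : R) (i : ℕ) :
    T 1 (C c * X 0 ^ i : MvPolynomial (Fin 1) R) = C c * X i := by
  have h : (C c * X 0 ^ i : MvPolynomial (Fin 1) R) = monomial (Finsupp.single 0 i) c := by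
    rw [X_pow_eq_monomial, C_mul_monomial]
    simp
  rw [h, T_monomial, Fin.prod_univ_one]
  simp

/-- induction principle for polynomials in two variables -/
theorem tcub_induction {motive : MvPolynomial (Fin 2) R → Prop}
    (hm : ∀ (c : R) (i j : ℕ), motive (C c * (X 0 ^ i * X 1 ^ j)))
    (ha : ∀ p q, motive p → motive q → motive (p + q)) (P : MvPolynomial (Fin 2) R) :
    motive P := by
  induction P using MvPolynomial.induction_on' with
  | monomial e c =>
    have h : (monomial e c : MvPolynomial (Fin 2) R) = C c * (X 0 ^ (e 0) * X 1 ^ (e 1)) := by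
      rw [monomial_eq, Finsupp.prod_fintype _ _ (by simp), Fin.prod_univ_two]
    rw [h]
    exact hm _ _ _
  | add p q hp hq => exact ha p q hp hq

section sb

variable {S : Type*} [CommRing S] [Algebra R S]

theorem tcub_sb_add (P Q : MvPolynomial (Fin 2) R) (x y : S) :
    sb (P + Q) x y = sb P x y + sb Q x y := by
  unfold sb; rw [map_add]

theorem tcub_sb_mon (c : R) (i j : ℕ) (x y : S) :
    sb (C c * (X 0 ^ i * X 1 ^ j)) x y = algebraMap R S c * (x ^ i * y ^ j) := by
  unfold sb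
  simp

theorem tcub_sb_symm (a : MvPolynomial (Fin 2) R) (ha : a.IsSymmetric) (x y : S) :
    sb a x y = sb a y x := by
  unfold sb
  have h := ha (Equiv.swap 0 1)
  conv_lhs => rw [← h]
  rw [aeval_rename]
  congr 2
  funext k
  fin_cases k <;> simp

end sb

theorem tcub_X_mul_T2 (i : ℕ) (P : MvPolynomial (Fin 2) R) :
    X i * T 2 P = T 3 (X 0 ^ i * sb P (X 1 : MvPolynomial (Fin 3) R) (X 2)) := by
  induction P using tcub_induction with
  | hm c j k =>
    rw [tcub_T2, tcub_sb_mon]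
    have h : (X 0 ^ i * (algebraMap R (MvPolynomial (Fin 3) R) c * (X 1 ^ j * X 2 ^ k)) :
        MvPolynomial (Fin 3) R) = C c * (X 0 ^ i * (X 1 ^ j * X 2 ^ k)) := by
      rw [algebraMap_eq]; ring
    rw [h, tcub_T3]
    ring
  | ha p q hp hq => rw [map_add, mul_add, hp, hq, tcub_sb_add, mul_add, map_add]

theorem tcub_iter_T2 (j : ℕ) (P : MvPolynomial (Fin 2) R) :
    (⇑D)^[j] (T 2 P) = T 2 ((X 0 + X 1) ^ j * P) := by
  induction j with
  | zero => simp
  | succ j ih =>
    rw [iter_succ, ih, D_T, Fin.sum_univ_two]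
    congr 1
    ring

theorem tcub_sb_mul {S : Type*} [CommRing S] [Algebra R S] (P Q : MvPolynomial (Fin 2) R)
    (x y : S) : sb (P * Q) x y = sb P x y * sb Q x y := by
  unfold sb; rw [map_mul]

theorem tcub_X_mul_iter (i j : ℕ) (P : MvPolynomial (Fin 2) R) :
    X i * (⇑D)^[j] (T 2 P) =
      T 3 (X 0 ^ i * ((X 1 + X 2) ^ j * sb P (X 1 : MvPolynomial (Fin 3) R) (X 2))) := by
  rw [tcub_iter_T2, tcub_X_mul_T2, tcub_sb_mul]
  congr 3
  unfold sb
  simp

theorem tcub_ev (a b : MvPolynomial (Fin 2) R) :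
    ev (T 2 b) (T 2 a) =
      T 3 ((sb a (X 0 : MvPolynomial (Fin 3) R) (X 1 + X 2) +
        sb a (X 1 + X 2 : MvPolynomial (Fin 3) R) (X 0)) *
        sb b (X 1 : MvPolynomial (Fin 3) R) (X 2)) := by
  induction a using tcub_induction with
  | hm c i j =>
    rw [tcub_T2, ev_C_mul, ev_mul, ev_X, ev_X, tcub_X_mul_iter, tcub_X_mul_iter, ← map_add,
      ← smul_eq_C_mul, ← map_smul]
    congr 1
    rw [tcub_sb_mon, tcub_sb_mon, smul_eq_C_mul, algebraMap_eq]
    ring
  | ha p q hp hq =>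
    rw [map_add, map_add, hp, hq, tcub_sb_add, tcub_sb_add, ← map_add]
    congr 1
    ring

theorem tcub_two_mul (P : MvPolynomial (Fin 3) R) : T 3 ((2 : MvPolynomial (Fin 3) R) * P) =
    (2 : A R) * T 3 P := by
  rw [two_mul, two_mul, map_add]

theorem ev_T2_T2 (a b : MvPolynomial (Fin 2) R) (ha : a.IsSymmetric) :
    ev (T 2 b) (T 2 a) = (2 : A R) *
      T 3 (sb a (X 1 + X 2 : MvPolynomial (Fin 3) R) (X 0) *
        sb b (X 1 : MvPolynomial (Fin 3) R) (X 2)) := by
  rw [tcub_ev, tcub_sb_symm a ha (X 0 : MvPolynomial (Fin 3) R) (X 1 + X 2), ← tcub_two_mul]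
  congr 1
  ring

/-- one summand of `J` -/
noncomputable def tcub_t (a c : MvPolynomial (Fin 2) R) (i j k : Fin 3) :
    MvPolynomial (Fin 3) R :=
  sb a (X i + X j : MvPolynomial (Fin 3) R) (X k) * sb c (X i : MvPolynomial (Fin 3) R) (X j) -
    sb c (X i + X j : MvPolynomial (Fin 3) R) (X k) * sb a (X i : MvPolynomial (Fin 3) R) (X j)

theorem tcub_J (a c : MvPolynomial (Fin 2) R) :
    J a c = tcub_t a c 0 1 2 + tcub_t a c 0 2 1 + tcub_t a c 1 2 0 := rfl

theorem tcub_t_symm (a c : MvPolynomial (Fin 2) R) (ha : a.IsSymmetric) (hc : c.IsSymmetric)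
    (i j k : Fin 3) : tcub_t a c i j k = tcub_t a c j i k := by
  unfold tcub_t
  rw [tcub_sb_symm a ha (X i : MvPolynomial (Fin 3) R) (X j),
    tcub_sb_symm c hc (X i : MvPolynomial (Fin 3) R) (X j),
    add_comm (X i : MvPolynomial (Fin 3) R) (X j)]

theorem tcub_rename_sb (σ : Equiv.Perm (Fin 3)) (a : MvPolynomial (Fin 2) R)
    (x y : MvPolynomial (Fin 3) R) : rename σ (sb a x y) = sb a (rename σ x) (rename σ y) := by
  unfold sb
  rw [← AlgHom.comp_apply, comp_aeval]
  congr 2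
  funext k
  fin_cases k <;> rfl

theorem tcub_rename_t (σ : Equiv.Perm (Fin 3)) (a c : MvPolynomial (Fin 2) R) (i j k : Fin 3) :
    rename σ (tcub_t a c i j k) = tcub_t a c (σ i) (σ j) (σ k) := by
  unfold tcub_t
  rw [map_sub, map_mul, map_mul, tcub_rename_sb, tcub_rename_sb, tcub_rename_sb, tcub_rename_sb,
    map_add, rename_X, rename_X, rename_X]

theorem tcub_T_t (σ : Equiv.Perm (Fin 3)) (a c : MvPolynomial (Fin 2) R) (i j k : Fin 3) :
    T 3 (tcub_t a c (σ i) (σ j) (σ k)) = T 3 (tcub_t a c i j k) := by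
  rw [← tcub_rename_t, T_rename]

theorem br_T2 (a b : MvPolynomial (Fin 2) R) (ha : a.IsSymmetric) (hb : b.IsSymmetric) :
    (3 : A R) * br (T 2 b) (T 2 a) = (2 : A R) * T 3 (J a b) := by
  have h1 : T 3 (tcub_t a b 0 2 1) = T 3 (tcub_t a b 1 2 0) := by
    have h := tcub_T_t (Equiv.swap (0 : Fin 3) 1) a b 1 2 0
    have e2 : (Equiv.swap (0 : Fin 3) 1) 2 = 2 := by decide
    rw [Equiv.swap_apply_right, Equiv.swap_apply_left, e2] at h
    exact h
  have h2 : T 3 (tcub_t a b 0 1 2) = T 3 (tcub_t a b 1 2 0) := by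
    have h := tcub_T_t (Equiv.swap (0 : Fin 3) 2) a b 1 2 0
    have e2 : (Equiv.swap (0 : Fin 3) 2) 1 = 1 := by decide
    rw [Equiv.swap_apply_right, Equiv.swap_apply_left, e2] at h
    rw [tcub_t_symm a b ha hb, h]
  have h3 : br (T 2 b) (T 2 a) = (2 : A R) * T 3 (tcub_t a b 1 2 0) := by
    unfold br tcub_t
    rw [ev_T2_T2 a b ha, ev_T2_T2 b a hb, map_sub]
    ring
  rw [h3, tcub_J, map_add, map_add, h1, h2]
  ring

theorem J_symm (a b : MvPolynomial (Fin 2) R) (ha : a.IsSymmetric) (hb : b.IsSymmetric) :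
    (J a b).IsSymmetric := by
  intro σ
  rw [tcub_J, map_add, map_add, tcub_rename_t, tcub_rename_t, tcub_rename_t]
  have key : ∀ x y z : Fin 3, x ≠ y → y ≠ z → x ≠ z →
      tcub_t a b x y z + tcub_t a b x z y + tcub_t a b y z x =
        tcub_t a b 0 1 2 + tcub_t a b 0 2 1 + tcub_t a b 1 2 0 := by
    have e1 := tcub_t_symm a b ha hb 0 1 2
    have e2 := tcub_t_symm a b ha hb 0 2 1
    have e3 := tcub_t_symm a b ha hb 1 2 0
    intro x y z hxy hyz hxz
    fin_cases x <;> fin_cases y <;> fin_cases z <;> first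
      | exact absurd rfl hxy
      | exact absurd rfl hyz
      | exact absurd rfl hxz
      | (simp only [Fin.zero_eta, Fin.mk_one, Fin.reduceFinMk, Fin.isValue, e1, e2, e3] <;> abel)
  exact key _ _ _ (fun h => absurd (σ.injective h) (by decide))
    (fun h => absurd (σ.injective h) (by decide)) (fun h => absurd (σ.injective h) (by decide))

/-- the `∂_0` derivative of a quadratic element -/
theorem d0_T2 (b : MvPolynomial (Fin 2) R) (hb : b.IsSymmetric) :
    d 0 (T 2 b) = (2 : A R) * T 1 (sb b (X 0 : MvPolynomial (Fin 1) R) 0) := by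
  have h : ∀ P : MvPolynomial (Fin 2) R, d 0 (T 2 P) =
      T 1 (sb P (X 0 : MvPolynomial (Fin 1) R) 0) +
        T 1 (sb P (0 : MvPolynomial (Fin 1) R) (X 0)) := by
    intro P
    induction P using tcub_induction with
    | hm c i j =>
      rw [tcub_T2, tcub_sb_mon, tcub_sb_mon, algebraMap_eq, d_mul, d_mul]
      have hC : d 0 (C c : A R) = 0 := pderiv_C
      rw [hC, mul_zero, add_zero]
      have hA : ∀ k l : ℕ, (X k : A R) * d 0 (X l : A R) * C c =
          T 1 (C c * (X 0 ^ k * 0 ^ l) : MvPolynomial (Fin 1) R) := by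
        intro k l
        rcases Nat.eq_zero_or_pos l with rfl | hl
        · rw [show d 0 (X 0 : A R) = 1 from pderiv_X_self 0, pow_zero, mul_one, mul_one, tcub_T1,
            mul_comm]
        · rw [show d 0 (X l : A R) = 0 from pderiv_X_of_ne (by omega), zero_pow (by omega)]
          simp
      rw [← hA i j]
      have hB : (C c * (0 ^ i * X 0 ^ j) : MvPolynomial (Fin 1) R) = C c * (X 0 ^ j * 0 ^ i) := by
        ring
      rw [hB, ← hA j i]
      ring
    | ha p q hp hq =>
      rw [map_add, map_add, hp, hq, tcub_sb_add, tcub_sb_add, map_add, map_add]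
      abel
  rw [h, tcub_sb_symm b hb (0 : MvPolynomial (Fin 1) R) (X 0), two_mul]

end Pool.Agent.Helper96.FK
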