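import Pool.Agent.Helper96.FK.Defs

/-!
# FK-6b: divisibility between the `G s q` of different degrees

`G_ne_zero`: restrict to two variables (others zero; or differentiate): `q(x)+q(y)-q(x+y)` is
nonzero if `deg q ≥ 2` (coefficient of `x^{k-1} y`, `k = deg q`, is `-k q_k`); the contributions
of `q(0)` do not matter.
-/

set_option autoImplicit false

open MvPolynomial

namespace Pool.Agent.Helper96.FK

/-- the specialization `x_0 = X`, `x_1 = 1`, the other variables are `0` -/
private noncomputable def gdvd_phi (R : Type*) [CommRing R] (n : ℕ) :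
    MvPolynomial (Fin (n + 2)) R →ₐ[R] Polynomial R :=
  MvPolynomial.aeval (Fin.cons Polynomial.X (Fin.cons 1 fun _ : Fin n => 0) :
    Fin (n + 2) → Polynomial R)

private theorem gdvd_const {R : Type*} [CommRing R] (q : Polynomial R) (r : R) :
    Polynomial.aeval (Polynomial.C r) q = Polynomial.C (q.eval r) :=
  Polynomial.aeval_algebraMap_apply_eq_algebraMap_eval r q

private theorem gdvd_phi_G {R : Type*} [CommRing R] (n : ℕ) (q : Polynomial R) :
    gdvd_phi R n (G (n + 2) q) =
      q + (Polynomial.C (q.eval 1) + ∑ _j : Fin n, Polynomial.C (q.eval 0)) -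
        Polynomial.taylor 1 q := by
  have h0 : Polynomial.aeval (0 : Polynomial R) q = Polynomial.C (q.eval 0) := by
    have := gdvd_const q 0
    rwa [Polynomial.C_0] at this
  have h1 : Polynomial.aeval (1 : Polynomial R) q = Polynomial.C (q.eval 1) := by
    have := gdvd_const q 1
    rwa [Polynomial.C_1] at this
  have hX : ∀ j, gdvd_phi R n (X j) = (Fin.cons Polynomial.X (Fin.cons 1 fun _ : Fin n => 0) :
      Fin (n + 2) → Polynomial R) j := fun j => MvPolynomial.aeval_X _ j
  unfold G
  rw [map_sub, map_sum, ← Polynomial.aeval_algHom_apply, map_sum]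
  simp only [← Polynomial.aeval_algHom_apply, hX]
  rw [Fin.sum_univ_succ, Fin.sum_univ_succ, Fin.sum_univ_succ, Fin.sum_univ_succ]
  simp only [Fin.cons_zero, Fin.cons_succ, Finset.sum_const_zero, add_zero, h0, h1,
    Polynomial.aeval_X_left_apply]
  rfl

private theorem gdvd_coeff {R : Type*} [CommRing R] (n : ℕ) (q : Polynomial R) (m : ℕ)
    (hm : m ≠ 0) : (gdvd_phi R n (G (n + 2) q)).coeff m =
      q.coeff m - (Polynomial.hasseDeriv m q).eval 1 := by
  rw [gdvd_phi_G, Polynomial.coeff_sub, Polynomial.coeff_add, Polynomial.coeff_add,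
    Polynomial.finsetSum_coeff, Polynomial.taylor_coeff]
  simp [Polynomial.coeff_C, hm]

private theorem gdvd_natDegree {R : Type*} [CommRing R] [IsDomain R] [CharZero R] (n : ℕ)
    (q : Polynomial R) (hq : 2 ≤ q.natDegree) :
    (gdvd_phi R n (G (n + 2) q)).natDegree = q.natDegree - 1 := by
  apply Polynomial.natDegree_eq_of_le_of_coeff_ne_zero
  · rw [Polynomial.natDegree_le_iff_coeff_eq_zero]
    intro m hm
    rw [gdvd_coeff n q m (by omega)]
    rcases Nat.lt_or_ge q.natDegree m with h | h
    · rw [Polynomial.coeff_eq_zero_of_natDegree_lt h,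
        Polynomial.hasseDeriv_eq_zero_of_lt_natDegree q m h]
      simp
    · have hk : m = q.natDegree := by omega
      have h2 : (Polynomial.hasseDeriv m q) = Polynomial.C (q.coeff m) := by
        ext j
        rw [Polynomial.hasseDeriv_coeff, Polynomial.coeff_C]
        split_ifs with hj
        · subst hj
          simp
        · rw [Polynomial.coeff_eq_zero_of_natDegree_lt (by omega)]
          simp
      rw [h2]
      simp
  · rw [gdvd_coeff n q _ (by omega)]
    have h2 : (Polynomial.hasseDeriv (q.natDegree - 1) q) =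
        Polynomial.C (q.coeff (q.natDegree - 1)) +
          Polynomial.C ((q.natDegree : R) * q.leadingCoeff) * Polynomial.X := by
      ext j
      rw [Polynomial.hasseDeriv_coeff, Polynomial.coeff_add, Polynomial.coeff_C,
        Polynomial.coeff_C_mul, Polynomial.coeff_X]
      rcases j with _ | _ | j
      · simp
      · have h3 : 0 + 1 + (q.natDegree - 1) = q.natDegree := by omega
        rw [h3]
        have h4 : q.natDegree.choose (q.natDegree - 1) = q.natDegree := by
          conv_lhs => rw [← h3]
          rw [show 0 + 1 + (q.natDegree - 1) - 1 = q.natDegree - 1 by omega, h3]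
          rw [Nat.choose_symm (by omega : 1 ≤ q.natDegree), Nat.choose_one_right]
        rw [h4]
        simp
      · rw [Polynomial.coeff_eq_zero_of_natDegree_lt (by omega)]
        simp
    rw [h2]
    simp only [Polynomial.eval_add, Polynomial.eval_mul, Polynomial.eval_C, Polynomial.eval_X]
    have h5 : (q.natDegree : R) ≠ 0 := by
      exact_mod_cast (by omega : q.natDegree ≠ 0)
    have h6 : q.leadingCoeff ≠ 0 := by
      rw [Ne, Polynomial.leadingCoeff_eq_zero]
      rintro rfl
      simp at hq
    intro h
    apply mul_ne_zero h5 h6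
    linear_combination -h

/-- the degree of `G (n+3) q` as a polynomial in the first variable is `natDegree q - 1`, so two
irreducible ones of different degrees do not divide each other -/
theorem G_not_dvd (n : ℕ) (p q : Polynomial ℂ) (hp : 2 ≤ p.natDegree) (hq : 2 ≤ q.natDegree)
    (hne : q.natDegree ≠ p.natDegree) (hip : Irreducible (G (n + 3) p))
    (hiq : Irreducible (G (n + 3) q)) : ¬ G (n + 3) q ∣ G (n + 3) p := by
  intro hd
  obtain ⟨u, hu⟩ := (hiq.associated_of_dvd hip hd)
  obtain ⟨c, hc⟩ := (MvPolynomial.isUnit_iff_eq_C_of_isReduced.mp u.isUnit)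
  have h1 := gdvd_natDegree (n + 1) p hp
  have h2 := gdvd_natDegree (n + 1) q hq
  have h3 : gdvd_phi ℂ (n + 1) (G (n + 3) p) =
      gdvd_phi ℂ (n + 1) (G (n + 3) q) * Polynomial.C c := by
    rw [← hu, map_mul, hc.2]
    congr 1
    exact AlgHom.commutes _ c
  have h4 : (gdvd_phi ℂ (n + 1) (G (n + 3) p)).natDegree =
      (gdvd_phi ℂ (n + 1) (G (n + 3) q)).natDegree := by
    rw [h3, Polynomial.natDegree_mul_C hc.1.ne_zero]
  rw [h1, h2] at h4
  omega

theorem G_ne_zero {R : Type*} [CommRing R] [IsDomain R] [CharZero R] (n : ℕ) (q : Polynomial R)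
    (hq : 2 ≤ q.natDegree) : G (n + 2) q ≠ 0 := by
  intro h
  have h1 := gdvd_natDegree n q hq
  rw [h, map_zero, Polynomial.natDegree_zero] at h1
  omega

end Pool.Agent.Helper96.FK
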