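import Pool.Agent.Helper96.FK.TMap2
import Pool.Agent.Helper96.FK.GDvd

/-!
# FK-4: `T s` is injective on symmetric symbols

The coefficient of the monomial `∏_j u_{e_j}` in `T s P` is the sum of the coefficients of `P` at
all exponents `e'` with `e' = e ∘ σ` for some permutation `σ` (two maps `Fin s → ℕ` give the same
multiset of values iff they differ by a permutation). If `P` is symmetric these coefficients are
all equal, so the coefficient in `T s P` is a positive integer times the coefficient of `P`.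
(Alternative: show that `P ↦ ∑_σ rename σ P` factors through `T s`.)
-/

set_option autoImplicit false

open MvPolynomial

namespace Pool.Agent.Helper96.FK

/-- the multiset of values of `e` as a finitely supported function -/
noncomputable def tinj_v {s : ℕ} (e : Fin s →₀ ℕ) : ℕ →₀ ℕ :=
  ∑ j : Fin s, Finsupp.single (e j) 1

theorem tinj_v_apply {s : ℕ} (e : Fin s →₀ ℕ) (n : ℕ) :
    tinj_v e n = Fintype.card {j : Fin s // e j = n} := by
  classical
  unfold tinj_v
  rw [Finsupp.finsetSum_apply, Fintype.card_subtype, Finset.card_filter]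
  refine Finset.sum_congr rfl ?_
  intro j _
  rw [Finsupp.single_apply]

theorem tinj_perm {s : ℕ} {e f : Fin s →₀ ℕ} (h : tinj_v e = tinj_v f) :
    ∃ σ : Equiv.Perm (Fin s), Finsupp.mapDomain σ e = f := by
  classical
  have hc : ∀ n, Nonempty ({j : Fin s // e j = n} ≃ {j : Fin s // f j = n}) := by
    intro n
    rw [← Fintype.card_eq, ← tinj_v_apply, ← tinj_v_apply, h]
  let φ' : ∀ n, ({j : Fin s // e j = n} ≃ {j : Fin s // f j = n}) := fun n => (hc n).some
  refine ⟨Equiv.ofFiberEquiv φ', ?_⟩
  ext j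
  obtain ⟨i, rfl⟩ := (Equiv.ofFiberEquiv φ').surjective j
  rw [Finsupp.mapDomain_apply (Equiv.ofFiberEquiv φ').injective]
  exact (Equiv.ofFiberEquiv_map φ' i).symm

variable {R : Type*} [CommRing R]

theorem tinj_T_monomial {s : ℕ} (e : Fin s →₀ ℕ) (c : R) :
    T s (monomial e c) = monomial (tinj_v e) c := by
  rw [T_monomial]
  have h : ∏ j : Fin s, (X (e j) : A R) = monomial (tinj_v e) 1 := by
    unfold tinj_v
    rw [monomial_sum_one]
    rfl
  rw [h, C_mul_monomial, mul_one]

variable [IsDomain R] [CharZero R]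

theorem T_inj {s : ℕ} {P : MvPolynomial (Fin s) R} (hP : P.IsSymmetric) (h : T s P = 0) :
    P = 0 := by
  classical
  ext e0
  rw [coeff_zero]
  by_contra hne
  have h1 : T s P = ∑ e ∈ P.support, monomial (tinj_v e) (coeff e P) := by
    conv_lhs => rw [P.as_sum]
    rw [map_sum]
    exact Finset.sum_congr rfl (fun e _ => tinj_T_monomial e _)
  have h2 : coeff (tinj_v e0) (T s P) = ∑ e ∈ P.support.filter (fun e => tinj_v e = tinj_v e0),
      coeff e P := by
    rw [h1, coeff_sum, Finset.sum_filter]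
    refine Finset.sum_congr rfl ?_
    intro e _
    rw [coeff_monomial]
  have h3 : ∀ e ∈ P.support.filter (fun e => tinj_v e = tinj_v e0), coeff e P = coeff e0 P := by
    intro e he
    obtain ⟨σ, hσ⟩ := tinj_perm (Finset.mem_filter.1 he).2
    have h4 := coeff_rename_mapDomain (σ : Fin s → Fin s) σ.injective P e
    rw [hP σ, hσ] at h4
    exact h4.symm
  rw [Finset.sum_congr rfl h3, Finset.sum_const, h, coeff_zero, nsmul_eq_mul] at h2
  rcases mul_eq_zero.1 h2.symm with h5 | h5
  · rw [Nat.cast_eq_zero, Finset.card_eq_zero] at h5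
    have h6 : e0 ∈ P.support.filter (fun e => tinj_v e = tinj_v e0) :=
      Finset.mem_filter.2 ⟨mem_support_iff.2 hne, rfl⟩
    rw [h5] at h6
    exact absurd h6 (Finset.notMem_empty _)
  · exact hne h5

theorem T_inj' {s : ℕ} {P Q : MvPolynomial (Fin s) R} (hP : P.IsSymmetric) (hQ : Q.IsSymmetric)
    (h : T s P = T s Q) : P = Q := by
  have h1 : P - Q = 0 := T_inj (hP.sub hQ) (by rw [map_sub, h, sub_self])
  exact sub_eq_zero.1 h1

/-- `br (ell q)` is injective in degrees `≥ 2` -/
theorem br_ell_inj [Algebra ℚ R] {s : ℕ} (hs : 2 ≤ s) {q : Polynomial R} (hq : 2 ≤ q.natDegree)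
    {h : A R} (hh : h.IsHomogeneous s) (h0 : br (ell q) h = 0) : h = 0 := by
  obtain ⟨P, hP, rfl⟩ := T_surj_symm s h hh
  rw [br_ell_T] at h0
  have h1 := T_inj ((G_symm s q).mul hP) h0
  obtain ⟨n, rfl⟩ : ∃ n, s = n + 2 := ⟨s - 2, by omega⟩
  rcases mul_eq_zero.1 h1 with h2 | h2
  · exact absurd h2 (G_ne_zero n q hq)
  · rw [h2, map_zero]

end Pool.Agent.Helper96.FK
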