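import Pool.Agent.Helper96.FK.Step
import Pool.Agent.Helper96.FK.TInj
import Pool.Agent.Helper96.FK.TCub

/-!
# FK-12: degrees two and three

`b` is the symmetric symbol of `hc 2 F`, `c2` symmetric with `G_q c2 = G_r b`. With `g2` the
symmetric symbol of `hc 2 Gp`, the degree-2 part of `comm` says `G_q g2 = (G_p + c∂) b`
(`∂ = cd`); then `G_q (G_p + c∂) c2 = (G_p + c∂)(G_r b) = G_r G_q g2`, so `(G_p + c∂) c2 = G_r g2`.
These are `e2F` and `e2G` for `h2 = T 2 c2`, `h1 = ell r`.

Degree 3: `RF := hc 3 (br F (ell r + T 2 c2))`, `RG := hc 3 (br Gp (..) + c cd (..))`, as in FK-11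
`G_q PG = G_p PF + c ∂ PF` for their symmetric symbols. If `q, p0` are not both odd use `step3`.
If both are odd, show `Pi3 ∣ PF` with `Pi3_dvd` and use `step3_odd`: up to factors
`PF = (2/3) J(c2, b) - G_r β` (`T 3 β = hc 3 F`, `β` symmetric), and `G_r(x,-x,z) = 0` as `r` is odd.
`J(c2,b)(x,-x,z)`: first pairing `c2(0,z) b(x,-x) - b(0,z) c2(x,-x)`; if `b(0,·) = 0` then
`π_q(y) c2(0,y) = π_r(y) b(0,y) = 0` with `π_q(y) = q'(0) - q'(y) ≠ 0` (compare coefficients of
`x` in `G_q c2 = G_r b`), so `c2(0,·) = 0`; similarly for `b(x,-x) = 0` (put `y = -x + s`, compare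
coefficients of `s`). The other two pairings vanish separately:
`c2(x+z,-x) b(x,z) - b(x+z,-x) c2(x,z) = 0`, because after multiplication by
`G_q(x+z,-x) G_q(x,z)` it is `b b' (G_r' G_q - G_q' G_r) = 0` as `G_q(x+z,-x) = -G_q(x,z)` for
odd `q` and the same for `r`.
-/

set_option autoImplicit false

open MvPolynomial

namespace Pool.Agent.Helper96.FK

/-! ### auxiliary -/

theorem cub_cd_emb {σ : Type*} (P : MvPolynomial σ ℂ) : cd (emb P) = 0 := by
  refine MvPolynomial.ext _ _ fun e => ?_
  rw [coeff_cd]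
  show Polynomial.derivative (coeff e (MvPolynomial.map Polynomial.C P)) = _
  rw [coeff_map, Polynomial.derivative_C, coeff_zero]

theorem cub_cd_emb_mul {σ : Type*} (P : MvPolynomial σ ℂ) (Q : MvPolynomial σ L) :
    cd (emb P * Q) = emb P * cd Q := by
  rw [cd_mul, cub_cd_emb, mul_zero, add_zero]

theorem cub_cd_rename {σ τ : Type*} (e : σ ≃ τ) (P : MvPolynomial σ L) :
    cd (rename e P) = rename e (cd P) := by
  induction P using MvPolynomial.induction_on' with
  | monomial u a => rw [rename_monomial, cd_monomial, cd_monomial, rename_monomial]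
  | add P Q h1 h2 => rw [map_add, map_add, h1, h2, map_add, map_add]

theorem cub_cd_symm {s : ℕ} {P : MvPolynomial (Fin s) L} (hP : P.IsSymmetric) :
    (cd P).IsSymmetric := fun e => by
  rw [← cub_cd_rename, hP e]

theorem cub_emb_G (s : ℕ) (q : Polynomial ℂ) : emb (G s q) = G s (q.map Polynomial.C) :=
  map_G Polynomial.C s q

theorem cub_C_symm {s : ℕ} (a : L) : (C a : MvPolynomial (Fin s) L).IsSymmetric := fun e => by
  simp

theorem cub_T_C_mul {s : ℕ} (a : L) (P : MvPolynomial (Fin s) L) :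
    C a * T s P = T s (C a * P) := by
  rw [← smul_eq_C_mul, ← smul_eq_C_mul, map_smul]

theorem cub_br_T_ell {s : ℕ} (P : MvPolynomial (Fin s) L) (p : Polynomial L) :
    br (T s P) (ell p) = -T s (G s p * P) := by
  rw [br_anti, br_ell_T]

theorem cub_key {S : Type*} [CommRing S] [IsDomain S] {gq c gr b : Polynomial S}
    (h : gq * c = gr * b) (hb : b.coeff 0 = 0) (hr : gr.coeff 0 = 0) (hq : gq.coeff 1 ≠ 0) :
    c.coeff 0 = 0 := by
  have h0 := congrArg (fun z => Polynomial.coeff z 0) h
  have h1 := congrArg (fun z => Polynomial.coeff z 1) h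
  simp only [Polynomial.mul_coeff_zero, Polynomial.mul_coeff_one, hb, hr] at h0 h1
  rw [mul_zero] at h0
  rcases mul_eq_zero.1 h0 with h2 | h2
  · rw [h2] at h1
    simp only [zero_mul, mul_zero, zero_add, add_zero] at h1
    exact (mul_eq_zero.1 h1).resolve_left hq
  · exact h2

theorem cub_sb_G {S : Type*} [CommRing S] [Algebra L S] (q : Polynomial L) (x y : S) :
    sb (G 2 q) x y = Polynomial.aeval x q + Polynomial.aeval y q - Polynomial.aeval (x + y) q := by
  unfold sb G
  rw [map_sub, map_sum, Fin.sum_univ_two, Fin.sum_univ_two, ← Polynomial.aeval_algHom_apply,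
    ← Polynomial.aeval_algHom_apply, ← Polynomial.aeval_algHom_apply, map_add, aeval_X, aeval_X]
  rfl

theorem cub_aeval (q : Polynomial L) (x : Polynomial (Polynomial L)) :
    Polynomial.aeval x q = (q.map (algebraMap L (Polynomial L))).comp x := by
  rw [Polynomial.comp, Polynomial.eval₂_map, Polynomial.aeval_def]
  rfl

/-- the value at zero -/
noncomputable def cub_phi : Polynomial (Polynomial L) →ₐ[L] Polynomial L :=
  { (Polynomial.constantCoeff : Polynomial (Polynomial L) →+* Polynomial L) with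
    commutes' := fun r => by
      show Polynomial.coeff (algebraMap L (Polynomial (Polynomial L)) r) 0 = _
      rw [Polynomial.algebraMap_apply, Polynomial.coeff_C_zero] }

theorem cub_phi_apply (z : Polynomial (Polynomial L)) : cub_phi z = z.coeff 0 := rfl

theorem cub_coeff0 (P : MvPolynomial (Fin 2) L) (x y : Polynomial (Polynomial L)) :
    (sb P x y).coeff 0 = sb P (x.coeff 0) (y.coeff 0) := by
  have h := MvPolynomial.comp_aeval_apply (f := (![x, y] : Fin 2 → Polynomial (Polynomial L)))
    cub_phi P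
  have h3 : (fun i => cub_phi ((![x, y] : Fin 2 → Polynomial (Polynomial L)) i)) =
      ![x.coeff 0, y.coeff 0] := by
    funext i
    fin_cases i
    · exact cub_phi_apply x
    · exact cub_phi_apply y
  rw [h3, cub_phi_apply] at h
  exact h

/-- `c - q'(y)` is not zero -/
theorem cub_pi_ne {q : Polynomial ℂ} (hq : 2 ≤ q.natDegree) (a : L) (y : Polynomial L)
    (hy : y.natDegree = 1) :
    (((q.map Polynomial.C).map (algebraMap L (Polynomial L))).derivative).eval y ≠
      algebraMap L (Polynomial L) a := by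
  intro h
  have h1 : (((q.map Polynomial.C).map (algebraMap L (Polynomial L))).derivative).eval y =
      ((q.map Polynomial.C).derivative).comp y := by
    rw [Polynomial.derivative_map, Polynomial.eval_map]
    rfl
  rw [h1] at h
  have h2 := congrArg Polynomial.natDegree h
  rw [Polynomial.natDegree_comp, hy, mul_one, Polynomial.derivative_map,
    Polynomial.natDegree_map_eq_of_injective Polynomial.C_injective,
    Polynomial.natDegree_derivative] at h2
  rw [show algebraMap L (Polynomial L) a = Polynomial.C a from rfl, Polynomial.natDegree_C] at h2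
  omega

theorem cub_hc0 {c : ℂ} {q : Polynomial ℂ} {p : Polynomial L} {F Gp : A L}
    (hd : Datum c q p F Gp) : hc 2 (br F Gp) = br (hc 1 F) (hc 2 Gp) + br (hc 2 F) (hc 1 Gp) ∧
    hc 3 (br F Gp) = br (hc 1 F) (hc 3 Gp) + br (hc 2 F) (hc 2 Gp) + br (hc 3 F) (hc 1 Gp) := by
  constructor
  · rw [hc_br, Finset.Nat.antidiagonal_succ]
    simp only [Finset.Nat.antidiagonal_succ, Finset.Nat.antidiagonal_zero, Finset.map_singleton,
      Finset.sum_cons, Finset.map_cons, Finset.sum_singleton, Function.Embedding.prodMap,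
      Function.Embedding.coeFn_mk, Prod.map, Nat.succ_eq_add_one, Function.Embedding.refl_apply]
    norm_num [hd.F0, hd.G0, br_zero_left, br_zero_right]
  · rw [hc_br, Finset.Nat.antidiagonal_succ]
    simp only [Finset.Nat.antidiagonal_succ, Finset.Nat.antidiagonal_zero, Finset.map_singleton,
      Finset.sum_cons, Finset.map_cons, Finset.sum_singleton, Function.Embedding.prodMap,
      Function.Embedding.coeFn_mk, Prod.map, Nat.succ_eq_add_one, Function.Embedding.refl_apply]
    norm_num [hd.F0, hd.G0, br_zero_left, br_zero_right]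
    ring

/-- the quadratic relation `G_q g2 = (G_p + c ∂) b` -/
theorem quad_rel {c : ℂ} {q : Polynomial ℂ} {p : Polynomial L} {F Gp : A L}
    (hd : Datum c q p F Gp) {b g2 : MvPolynomial (Fin 2) L} (hb : b.IsSymmetric)
    (hg : g2.IsSymmetric) (hbF : T 2 b = hc 2 F) (hgG : T 2 g2 = hc 2 Gp) :
    emb (G 2 q) * g2 = G 2 p * b + C (Polynomial.C c) * cd b := by
  have h1 := congrArg (hc 2) hd.comm
  rw [(cub_hc0 hd).1, hd.F1, hd.G1, ← hgG, ← hbF, br_ell_T, cub_br_T_ell, ← smul_eq_C_mul,
    map_smul, hc_cd, smul_eq_C_mul, ← hbF, cd_T, cub_T_C_mul, ← sub_eq_add_neg,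
    sub_eq_iff_eq_add, ← map_add] at h1
  rw [cub_emb_G]
  have h2 := T_inj' ((G_symm 2 _).mul hg)
    (((cub_C_symm _).mul (cub_cd_symm hb)).add ((G_symm 2 p).mul hb)) h1
  rw [h2, add_comm]

/-- the cubic relation: `3 G_q α + 2 J(g2, b) = 3 (G_p + c ∂) β` -/
theorem cub_rel {c : ℂ} {q : Polynomial ℂ} {p : Polynomial L} {F Gp : A L}
    (hd : Datum c q p F Gp) {b g2 : MvPolynomial (Fin 2) L} (hb : b.IsSymmetric)
    (hg : g2.IsSymmetric) (hbF : T 2 b = hc 2 F) (hgG : T 2 g2 = hc 2 Gp)
    {al be : MvPolynomial (Fin 3) L} (hal : al.IsSymmetric) (hbe : be.IsSymmetric)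
    (halG : T 3 al = hc 3 Gp) (hbeF : T 3 be = hc 3 F) :
    3 * (emb (G 3 q) * al) + 2 * J g2 b = 3 * (G 3 p * be + C (Polynomial.C c) * cd be) := by
  have h1 := congrArg (hc 3) hd.comm
  rw [(cub_hc0 hd).2, hd.F1, hd.G1, ← hgG, ← hbF, ← halG, ← hbeF, br_ell_T, cub_br_T_ell,
    ← smul_eq_C_mul, map_smul, hc_cd, smul_eq_C_mul, ← hbeF, cd_T, cub_T_C_mul] at h1
  have h2 := br_T2 g2 b hg hb
  have e3 : ∀ P : MvPolynomial (Fin 3) L, (3 : A L) * T 3 P = T 3 (3 * P) := fun P => by
    have h5 := cub_T_C_mul (s := 3) (3 : L) P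
    rwa [map_ofNat, map_ofNat] at h5
  have e2 : ∀ P : MvPolynomial (Fin 3) L, (2 : A L) * T 3 P = T 3 (2 * P) := fun P => by
    have h5 := cub_T_C_mul (s := 3) (2 : L) P
    rwa [map_ofNat, map_ofNat] at h5
  have s3 : (3 : MvPolynomial (Fin 3) L).IsSymmetric := by
    have h5 := cub_C_symm (s := 3) (3 : L)
    rwa [map_ofNat] at h5
  have s2 : (2 : MvPolynomial (Fin 3) L).IsSymmetric := by
    have h5 := cub_C_symm (s := 3) (2 : L)
    rwa [map_ofNat] at h5
  have h3 : T 3 (3 * (emb (G 3 q) * al) + 2 * J g2 b) =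
      T 3 (3 * (G 3 p * be + C (Polynomial.C c) * cd be)) := by
    rw [map_add, ← e3, ← e2, ← e3, map_add, ← h2, cub_emb_G]
    linear_combination (3 : A L) * h1
  refine T_inj' ?_ ?_ h3
  · exact (s3.mul ((by rw [cub_emb_G]; exact G_symm 3 _ : (emb (G 3 q)).IsSymmetric).mul hal)).add
      (s2.mul (J_symm g2 b hg hb))
  · exact s3.mul (((G_symm 3 p).mul hbe).add ((cub_C_symm _).mul (cub_cd_symm hbe)))

/-- `G_q(x,y) = x π_q(y) + O(x^2)`, `π_q(y) = q'(0) - q'(y)` -/
theorem c2_zero {q r : Polynomial ℂ} (hq : 2 ≤ q.natDegree) (hr0 : r.coeff 0 = 0)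
    {b c2 : MvPolynomial (Fin 2) L}
    (hb : b.IsSymmetric) (hc2 : c2.IsSymmetric) (h : emb (G 2 q) * c2 = emb (G 2 r) * b)
    (hb0 : sb b (0 : Polynomial L) Polynomial.X = 0) :
    sb c2 (0 : Polynomial L) Polynomial.X = 0 := by
  have h1 : sb (emb (G 2 q) * c2) (Polynomial.X : Polynomial (Polynomial L))
      (Polynomial.C Polynomial.X) = sb (emb (G 2 r) * b) (Polynomial.X : Polynomial (Polynomial L))
      (Polynomial.C Polynomial.X) := by rw [h]
  have hm : ∀ P Q : MvPolynomial (Fin 2) L, sb (P * Q) (Polynomial.X : Polynomial (Polynomial L))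
      (Polynomial.C Polynomial.X) = sb P (Polynomial.X : Polynomial (Polynomial L))
      (Polynomial.C Polynomial.X) * sb Q (Polynomial.X : Polynomial (Polynomial L))
      (Polynomial.C Polynomial.X) := fun P Q => map_mul _ P Q
  rw [hm, hm, cub_emb_G, cub_emb_G, cub_sb_G, cub_sb_G] at h1
  simp only [cub_aeval, Polynomial.comp_X, Polynomial.comp_C, ← Polynomial.taylor_apply] at h1
  have h2 := cub_key h1 ?_ ?_ ?_
  · rw [cub_coeff0] at h2
    simpa using h2
  · rw [cub_coeff0]
    simpa using hb0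
  · rw [Polynomial.coeff_sub, Polynomial.coeff_add, Polynomial.coeff_C_zero,
      Polynomial.taylor_coeff_zero, Polynomial.coeff_map, Polynomial.coeff_map, hr0]
    simp
  · rw [Polynomial.coeff_sub, Polynomial.coeff_add, Polynomial.coeff_C_ne_zero (by norm_num),
      Polynomial.taylor_coeff_one, Polynomial.coeff_map, add_zero]
    intro h3
    exact cub_pi_ne hq _ _ Polynomial.natDegree_X (sub_eq_zero.1 h3).symm

theorem c2_anti {q r : Polynomial ℂ} (hq : 2 ≤ q.natDegree) (hqo : OddP q) (hro : OddP r)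
    {b c2 : MvPolynomial (Fin 2) L}
    (hb : b.IsSymmetric) (hc2 : c2.IsSymmetric) (h : emb (G 2 q) * c2 = emb (G 2 r) * b)
    (hb0 : sb b (Polynomial.X : Polynomial L) (-Polynomial.X) = 0) :
    sb c2 (Polynomial.X : Polynomial L) (-Polynomial.X) = 0 := by
  have h1 : sb (emb (G 2 q) * c2) (Polynomial.C Polynomial.X : Polynomial (Polynomial L))
      (Polynomial.X + Polynomial.C (-Polynomial.X)) = sb (emb (G 2 r) * b)
      (Polynomial.C Polynomial.X : Polynomial (Polynomial L))
      (Polynomial.X + Polynomial.C (-Polynomial.X)) := by rw [h]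
  have hm : ∀ P Q : MvPolynomial (Fin 2) L, sb (P * Q)
      (Polynomial.C Polynomial.X : Polynomial (Polynomial L))
      (Polynomial.X + Polynomial.C (-Polynomial.X)) =
      sb P (Polynomial.C Polynomial.X : Polynomial (Polynomial L))
      (Polynomial.X + Polynomial.C (-Polynomial.X)) *
      sb Q (Polynomial.C Polynomial.X : Polynomial (Polynomial L))
      (Polynomial.X + Polynomial.C (-Polynomial.X)) := fun P Q => map_mul _ P Q
  have hx : (Polynomial.C Polynomial.X : Polynomial (Polynomial L)) +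
      (Polynomial.X + Polynomial.C (-Polynomial.X)) = Polynomial.X := by
    rw [Polynomial.C_neg]; ring
  rw [hm, hm, cub_emb_G, cub_emb_G, cub_sb_G, cub_sb_G, hx] at h1
  simp only [cub_aeval, Polynomial.comp_X, Polynomial.comp_C, ← Polynomial.taylor_apply] at h1
  have h2 := cub_key h1 ?_ ?_ ?_
  · rw [cub_coeff0] at h2
    simpa using h2
  · rw [cub_coeff0]
    simpa using hb0
  · have e1 : ∀ y : Polynomial L, ((r.map Polynomial.C).map (algebraMap L (Polynomial L))).eval
        (-y) = -((r.map Polynomial.C).map (algebraMap L (Polynomial L))).eval y := by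
      intro y
      have e2 : ((r.map Polynomial.C).map (algebraMap L (Polynomial L))).comp (-Polynomial.X) =
          -((r.map Polynomial.C).map (algebraMap L (Polynomial L))) := by
        have e3 := congrArg (fun z => (z.map Polynomial.C).map (algebraMap L (Polynomial L))) hro
        simpa [Polynomial.map_comp] using e3
      have e4 := congrArg (Polynomial.eval y) e2
      simpa [Polynomial.eval_comp] using e4
    have e5 : r.coeff 0 = 0 := by
      have e6 := congrArg (fun z => Polynomial.eval 0 z) hro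
      simp only [Polynomial.eval_comp, Polynomial.eval_neg, Polynomial.eval_X, neg_zero] at e6
      rw [Polynomial.coeff_zero_eq_eval_zero]
      linear_combination (1 / 2) * e6
    rw [Polynomial.coeff_sub, Polynomial.coeff_add, Polynomial.coeff_C_zero,
      Polynomial.taylor_coeff_zero, Polynomial.coeff_map, Polynomial.coeff_map, e5, e1]
    simp
  · rw [Polynomial.coeff_sub, Polynomial.coeff_add, Polynomial.coeff_C_ne_zero (by norm_num),
      Polynomial.taylor_coeff_one, Polynomial.coeff_map, zero_add]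
    intro h3
    exact cub_pi_ne hq _ _ (by rw [Polynomial.natDegree_neg, Polynomial.natDegree_X])
      (sub_eq_zero.1 h3)

theorem quad_exists {c : ℂ} {q : Polynomial ℂ} {p : Polynomial L} {F Gp : A L}
    (hd : Datum c q p F Gp) {b : MvPolynomial (Fin 2) L} (hb : b.IsSymmetric)
    (hbF : T 2 b = hc 2 F) (r : Polynomial ℂ) (c2 : MvPolynomial (Fin 2) L)
    (hc2 : c2.IsSymmetric) (h : emb (G 2 q) * c2 = emb (G 2 r) * b) :
    br (hc 1 F) (T 2 c2) + br (hc 2 F) (ell (r.map Polynomial.C)) = 0 ∧
    br (hc 1 Gp) (T 2 c2) + br (hc 2 Gp) (ell (r.map Polynomial.C)) +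
      C (Polynomial.C c) * cd (T 2 c2) = 0 := by
  constructor
  · rw [hd.F1, ← hbF, br_ell_T, cub_br_T_ell, ← cub_emb_G, ← cub_emb_G, h, add_neg_cancel]
  · obtain ⟨g2, hg, hgG⟩ := T_surj_symm 2 (hc 2 Gp) (homogeneousComponent_isHomogeneous 2 _)
    have h1 := quad_rel hd hb hg hbF hgG
    have h2 : emb (G 2 q) * (G 2 p * c2 + C (Polynomial.C c) * cd c2) =
        emb (G 2 q) * (emb (G 2 r) * g2) := by
      have e1 : emb (G 2 q) * cd c2 = emb (G 2 r) * cd b := by
        rw [← cub_cd_emb_mul, h, cub_cd_emb_mul]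
      linear_combination G 2 p * h + C (Polynomial.C c) * e1 - emb (G 2 r) * h1
    have h3 : emb (G 2 q) ≠ 0 := by
      rw [cub_emb_G]
      refine G_ne_zero 0 _ ?_
      rw [Polynomial.natDegree_map_eq_of_injective Polynomial.C_injective]
      exact le_trans (by norm_num) hd.dq
    have h4 := mul_left_cancel₀ h3 h2
    rw [hd.G1, ← hgG, br_ell_T, cub_br_T_ell, cd_T, cub_T_C_mul, ← cub_emb_G, ← h4, map_add]
    ring

end Pool.Agent.Helper96.FK
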