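import Pool.Agent.Helper96.FK.Cub

/-!
# FK-12b: degree three (proof in `Cub.lean`)
-/

set_option autoImplicit false

open MvPolynomial

namespace Pool.Agent.Helper96.FK

theorem cub2_cd_sb {σ : Type*} (P : MvPolynomial (Fin 2) L) {x y : MvPolynomial σ L}
    (hx : cd x = 0) (hy : cd y = 0) : cd (sb P x y) = sb (cd P) x y := by
  unfold sb
  induction P using MvPolynomial.induction_on with
  | C a => rw [cd_C, aeval_C, aeval_C, algebraMap_eq, cd_C]
  | add P Q hP hQ => rw [map_add, map_add, map_add, map_add, hP, hQ]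
  | mul_X P i hP =>
    have h : cd (![x, y] i) = 0 := by
      fin_cases i
      · exact hx
      · exact hy
    rw [map_mul, aeval_X, cd_mul, hP, h, cd_mul, cd_X, mul_zero, zero_add, mul_zero, zero_add,
      map_mul, aeval_X]

theorem cub2_sb_G {S : Type*} [CommRing S] [Algebra L S] (p : Polynomial L) (x y : S) :
    sb (G 2 p) x y = Polynomial.aeval x p + Polynomial.aeval y p -
      Polynomial.aeval (x + y) p := by
  unfold sb G
  rw [map_sub, map_sum, Fin.sum_univ_two, Fin.sum_univ_two, ← Polynomial.aeval_algHom_apply,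
    ← Polynomial.aeval_algHom_apply, ← Polynomial.aeval_algHom_apply, map_add, aeval_X, aeval_X]
  rfl

theorem cub2_G3 {S : Type*} [CommRing S] [Algebra L S] (p : Polynomial L) (x y z : S) :
    aeval ![x, y, z] (G 3 p) = Polynomial.aeval x p + Polynomial.aeval y p +
      Polynomial.aeval z p - Polynomial.aeval (x + y + z) p := by
  unfold G
  rw [map_sub, map_sum, Fin.sum_univ_three, Fin.sum_univ_three, ← Polynomial.aeval_algHom_apply,
    ← Polynomial.aeval_algHom_apply, ← Polynomial.aeval_algHom_apply,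
    ← Polynomial.aeval_algHom_apply, map_add, map_add, aeval_X, aeval_X, aeval_X]
  rfl

theorem cub2_G3' (p : Polynomial L) :
    G 3 p = Polynomial.aeval (X 0 : MvPolynomial (Fin 3) L) p +
      Polynomial.aeval (X 1 : MvPolynomial (Fin 3) L) p +
      Polynomial.aeval (X 2 : MvPolynomial (Fin 3) L) p -
      Polynomial.aeval (X 0 + X 1 + X 2 : MvPolynomial (Fin 3) L) p := by
  unfold G
  rw [Fin.sum_univ_three, Fin.sum_univ_three]

theorem cub2_split1 (p : Polynomial L) :
    sb (G 2 p) (X 0 + X 1 : MvPolynomial (Fin 3) L) (X 2) +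
      sb (G 2 p) (X 0 : MvPolynomial (Fin 3) L) (X 1) = G 3 p := by
  rw [cub2_sb_G, cub2_sb_G, cub2_G3']
  ring

theorem cub2_split2 (p : Polynomial L) :
    sb (G 2 p) (X 0 + X 2 : MvPolynomial (Fin 3) L) (X 1) +
      sb (G 2 p) (X 0 : MvPolynomial (Fin 3) L) (X 2) = G 3 p := by
  rw [cub2_sb_G, cub2_sb_G, cub2_G3',
    show (X 0 + X 2 + X 1 : MvPolynomial (Fin 3) L) = X 0 + X 1 + X 2 by ring]
  ring

theorem cub2_split3 (p : Polynomial L) :
    sb (G 2 p) (X 1 + X 2 : MvPolynomial (Fin 3) L) (X 0) +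
      sb (G 2 p) (X 1 : MvPolynomial (Fin 3) L) (X 2) = G 3 p := by
  rw [cub2_sb_G, cub2_sb_G, cub2_G3',
    show (X 1 + X 2 + X 0 : MvPolynomial (Fin 3) L) = X 0 + X 1 + X 2 by ring]
  ring

theorem cub2_pair {p q r : Polynomial L} {k : L} {b c2 g2 : MvPolynomial (Fin 2) L}
    (E1 : G 2 q * c2 = G 2 r * b) (E2 : G 2 q * g2 = G 2 p * b + C k * cd b)
    (E3 : G 2 p * c2 + C k * cd c2 = G 2 r * g2)
    {x y z : MvPolynomial (Fin 3) L} (hx : cd x = 0) (hy : cd y = 0) (hz : cd z = 0) :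
    (sb (G 2 p) (x + y) z + sb (G 2 p) x y) *
        (sb c2 (x + y) z * sb b x y - sb b (x + y) z * sb c2 x y) +
      C k * cd (sb c2 (x + y) z * sb b x y - sb b (x + y) z * sb c2 x y) =
    (sb (G 2 r) (x + y) z + sb (G 2 r) x y) *
        (sb g2 (x + y) z * sb b x y - sb b (x + y) z * sb g2 x y) +
      (sb (G 2 q) (x + y) z + sb (G 2 q) x y) *
        (sb c2 (x + y) z * sb g2 x y - sb g2 (x + y) z * sb c2 x y) := by
  have hxy : cd (x + y) = 0 := by rw [map_add, hx, hy, add_zero]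
  have f1 : ∀ u v : MvPolynomial (Fin 3) L,
      sb (G 2 q) u v * sb c2 u v = sb (G 2 r) u v * sb b u v := by
    intro u v
    have h := congrArg (aeval ![u, v]) E1
    rw [map_mul, map_mul] at h
    exact h
  have f2 : ∀ u v : MvPolynomial (Fin 3) L,
      sb (G 2 q) u v * sb g2 u v = sb (G 2 p) u v * sb b u v + C k * sb (cd b) u v := by
    intro u v
    have h := congrArg (aeval ![u, v]) E2
    rw [map_mul, map_add, map_mul, map_mul, aeval_C, algebraMap_eq] at h
    exact h
  have f3 : ∀ u v : MvPolynomial (Fin 3) L,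
      sb (G 2 p) u v * sb c2 u v + C k * sb (cd c2) u v = sb (G 2 r) u v * sb g2 u v := by
    intro u v
    have h := congrArg (aeval ![u, v]) E3
    rw [map_add, map_mul, map_mul, map_mul, aeval_C, algebraMap_eq] at h
    exact h
  rw [map_sub, cd_mul, cd_mul, cub2_cd_sb c2 hxy hz, cub2_cd_sb b hxy hz, cub2_cd_sb c2 hx hy,
    cub2_cd_sb b hx hy]
  linear_combination sb b x y * f3 (x + y) z - sb c2 (x + y) z * f2 x y +
    sb c2 x y * f2 (x + y) z - sb b (x + y) z * f3 x y - sb g2 x y * f1 (x + y) z +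
    sb g2 (x + y) z * f1 x y

theorem cub2_J {p q r : Polynomial L} {k : L} {b c2 g2 : MvPolynomial (Fin 2) L}
    (E1 : G 2 q * c2 = G 2 r * b) (E2 : G 2 q * g2 = G 2 p * b + C k * cd b)
    (E3 : G 2 p * c2 + C k * cd c2 = G 2 r * g2) :
    G 3 p * J c2 b + C k * cd (J c2 b) = G 3 r * J g2 b + G 3 q * J c2 g2 := by
  have h1 := cub2_pair E1 E2 E3 (x := X 0) (y := X 1) (z := X 2) (cd_X _) (cd_X _) (cd_X _)
  have h2 := cub2_pair E1 E2 E3 (x := X 0) (y := X 2) (z := X 1) (cd_X _) (cd_X _) (cd_X _)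
  have h3 := cub2_pair E1 E2 E3 (x := X 1) (y := X 2) (z := X 0) (cd_X _) (cd_X _) (cd_X _)
  rw [cub2_split1, cub2_split1, cub2_split1] at h1
  rw [cub2_split2, cub2_split2, cub2_split2] at h2
  rw [cub2_split3, cub2_split3, cub2_split3] at h3
  unfold J
  rw [map_add, map_add]
  linear_combination h1 + h2 + h3

theorem cub2_emb_G (s : ℕ) (q : Polynomial ℂ) : emb (G s q) = G s (q.map Polynomial.C) :=
  map_G Polynomial.C s q

theorem cub2_map_sb {S S' : Type*} [CommRing S] [Algebra L S] [CommRing S'] [Algebra L S']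
    (f : S →ₐ[L] S') (a : MvPolynomial (Fin 2) L) (u v : S) :
    f (sb a u v) = sb a (f u) (f v) := by
  unfold sb
  rw [comp_aeval_apply]
  congr 2
  funext i
  fin_cases i <;> rfl

theorem cub2_odd {S : Type*} [CommRing S] [Algebra L S] {r : Polynomial ℂ} (h : OddP r) (x : S) :
    Polynomial.aeval (-x) (r.map Polynomial.C : Polynomial L) =
      -Polynomial.aeval x (r.map Polynomial.C : Polynomial L) := by
  have h1 : (r.map Polynomial.C : Polynomial L).comp (-Polynomial.X) = -(r.map Polynomial.C) := by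
    have h2 := congrArg (Polynomial.map (Polynomial.C : ℂ →+* L)) h
    rw [Polynomial.map_comp, Polynomial.map_neg, Polynomial.map_neg, Polynomial.map_X] at h2
    exact h2
  have h3 := congrArg (Polynomial.aeval x) h1
  rw [Polynomial.aeval_comp, map_neg, map_neg, Polynomial.aeval_X] at h3
  exact h3

theorem cub2_odd0 {r : Polynomial ℂ} (h : OddP r) : r.coeff 0 = 0 := by
  have h1 := congrArg (Polynomial.eval 0) h
  rw [Polynomial.eval_comp, Polynomial.eval_neg, Polynomial.eval_neg, Polynomial.eval_X,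
    neg_zero] at h1
  rw [Polynomial.coeff_zero_eq_eval_zero]
  linear_combination (1 / 2 : ℂ) * h1

theorem cub2_pair2 {S : Type*} [CommRing S] [IsDomain S] [Algebra L S] {q r : Polynomial ℂ}
    (hqo : OddP q) (hro : OddP r) {b c2 : MvPolynomial (Fin 2) L}
    (E1 : G 2 (q.map Polynomial.C : Polynomial L) * c2 =
      G 2 (r.map Polynomial.C : Polynomial L) * b) (x z : S)
    (hne : sb (G 2 (q.map Polynomial.C : Polynomial L)) x z ≠ 0) :
    sb c2 (x + z) (-x) * sb b x z - sb b (x + z) (-x) * sb c2 x z = 0 := by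
  have f1 : ∀ u v : S, sb (G 2 (q.map Polynomial.C : Polynomial L)) u v * sb c2 u v =
      sb (G 2 (r.map Polynomial.C : Polynomial L)) u v * sb b u v := by
    intro u v
    have h := congrArg (aeval ![u, v]) E1
    rw [map_mul, map_mul] at h
    exact h
  have ho : ∀ {s : Polynomial ℂ}, OddP s →
      sb (G 2 (s.map Polynomial.C : Polynomial L)) (x + z) (-x) =
        -sb (G 2 (s.map Polynomial.C : Polynomial L)) x z := by
    intro s hs
    rw [cub2_sb_G, cub2_sb_G, cub2_odd hs, show x + z + -x = z by ring]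
    ring
  have h1 := f1 (x + z) (-x)
  have h2 := f1 x z
  rw [ho hqo, ho hro] at h1
  refine mul_left_cancel₀ hne ?_
  linear_combination (-sb b x z) * h1 - sb b (x + z) (-x) * h2

theorem cub2_ne {q : Polynomial ℂ} (hq : 2 ≤ q.natDegree) (n : ℕ) :
    G (n + 2) (q.map Polynomial.C : Polynomial L) ≠ 0 := by
  refine G_ne_zero n _ ?_
  rw [Polynomial.natDegree_map_eq_of_injective Polynomial.C_injective]
  exact hq

theorem cub2_num_symm {σ : Type*} (n : ℕ) [n.AtLeastTwo] :
    (OfNat.ofNat n : MvPolynomial σ L).IsSymmetric := by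
  intro e
  exact map_ofNat _ n

theorem cub2_cd3 {σ : Type*} (f : MvPolynomial σ L) : cd (3 * f) = 3 * cd f := by
  have h : 3 * f = f + f + f := by ring
  rw [h, map_add, map_add]
  ring

theorem cub2_cd2 {σ : Type*} (f : MvPolynomial σ L) : cd (2 * f) = 2 * cd f := by
  have h : 2 * f = f + f := by ring
  rw [h, map_add]
  ring

/-- the substitution `(x, -x, z)` in the bracket -/
theorem cub2_anti {q r : Polynomial ℂ} (hq : 2 ≤ q.natDegree) (hqo : OddP q) (hro : OddP r)
    {b c2 : MvPolynomial (Fin 2) L} (hb : b.IsSymmetric) (hc2 : c2.IsSymmetric)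
    (h : emb (G 2 q) * c2 = emb (G 2 r) * b)
    (h0 : sb b (0 : Polynomial L) Polynomial.X = 0 ∨
      sb b (Polynomial.X : Polynomial L) (-Polynomial.X) = 0) :
    aeval ![(X 0 : MvPolynomial (Fin 2) L), -X 0, X 1] (J c2 b) = 0 := by
  have E1 := h
  rw [cub2_emb_G, cub2_emb_G] at E1
  have hid : sb (G 2 (q.map Polynomial.C : Polynomial L)) (X 0 : MvPolynomial (Fin 2) L) (X 1) =
      G 2 (q.map Polynomial.C) := by
    unfold sb
    have h1 : (![X 0, X 1] : Fin 2 → MvPolynomial (Fin 2) L) = X := by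
      funext i
      fin_cases i <;> rfl
    rw [h1, aeval_X_left_apply]
  have p2 : sb c2 (X 0 + X 1 : MvPolynomial (Fin 2) L) (-X 0) *
      sb b (X 0 : MvPolynomial (Fin 2) L) (X 1) -
      sb b (X 0 + X 1 : MvPolynomial (Fin 2) L) (-X 0) *
      sb c2 (X 0 : MvPolynomial (Fin 2) L) (X 1) = 0 := by
    refine cub2_pair2 hqo hro E1 _ _ ?_
    rw [hid]
    exact cub2_ne hq 0
  have p3 : sb c2 (-X 0 + X 1 : MvPolynomial (Fin 2) L) (X 0) *
      sb b (-X 0 : MvPolynomial (Fin 2) L) (X 1) -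
      sb b (-X 0 + X 1 : MvPolynomial (Fin 2) L) (X 0) *
      sb c2 (-X 0 : MvPolynomial (Fin 2) L) (X 1) = 0 := by
    have h1 := congrArg (aeval (R := L) ![(-X 0 : MvPolynomial (Fin 2) L), X 1]) p2
    rw [map_sub, map_mul, map_mul, cub2_map_sb, cub2_map_sb, cub2_map_sb, cub2_map_sb, map_add,
      map_neg, aeval_X, aeval_X, map_zero] at h1
    have e0 : (![(-X 0 : MvPolynomial (Fin 2) L), X 1] 0) = -X 0 := rfl
    have e1 : (![(-X 0 : MvPolynomial (Fin 2) L), X 1] 1) = X 1 := rfl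
    rw [e0, e1, neg_neg] at h1
    exact h1
  have p1 : sb c2 (0 : MvPolynomial (Fin 2) L) (X 1) *
      sb b (X 0 : MvPolynomial (Fin 2) L) (-X 0) -
      sb b (0 : MvPolynomial (Fin 2) L) (X 1) *
      sb c2 (X 0 : MvPolynomial (Fin 2) L) (-X 0) = 0 := by
    rcases h0 with h0 | h0
    · have hr0 := cub2_odd0 hro
      have hz : sb c2 (0 : Polynomial L) Polynomial.X = 0 := by
        first
          | exact c2_zero hq hr0 hb hc2 h h0
          | exact c2_zero hq hb hc2 h h0
      have a1 : sb b (0 : MvPolynomial (Fin 2) L) (X 1) = 0 := by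
        have h1 := congrArg (Polynomial.aeval (X 1 : MvPolynomial (Fin 2) L)) h0
        rw [cub2_map_sb, map_zero, Polynomial.aeval_X] at h1
        exact h1
      have a2 : sb c2 (0 : MvPolynomial (Fin 2) L) (X 1) = 0 := by
        have h1 := congrArg (Polynomial.aeval (X 1 : MvPolynomial (Fin 2) L)) hz
        rw [cub2_map_sb, map_zero, Polynomial.aeval_X] at h1
        exact h1
      rw [a1, a2]
      ring
    · have hz := c2_anti hq hqo hro hb hc2 h h0
      have a1 : sb b (X 0 : MvPolynomial (Fin 2) L) (-X 0) = 0 := by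
        have h1 := congrArg (Polynomial.aeval (X 0 : MvPolynomial (Fin 2) L)) h0
        rw [cub2_map_sb, map_neg, map_zero, Polynomial.aeval_X] at h1
        exact h1
      have a2 : sb c2 (X 0 : MvPolynomial (Fin 2) L) (-X 0) = 0 := by
        have h1 := congrArg (Polynomial.aeval (X 0 : MvPolynomial (Fin 2) L)) hz
        rw [cub2_map_sb, map_neg, map_zero, Polynomial.aeval_X] at h1
        exact h1
      rw [a1, a2]
      ring
  unfold J
  simp only [map_add, map_sub, map_mul, cub2_map_sb, aeval_X]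
  have e0 : (![(X 0 : MvPolynomial (Fin 2) L), -X 0, X 1] 0) = X 0 := rfl
  have e1 : (![(X 0 : MvPolynomial (Fin 2) L), -X 0, X 1] 1) = -X 0 := rfl
  have e2 : (![(X 0 : MvPolynomial (Fin 2) L), -X 0, X 1] 2) = X 1 := rfl
  rw [e0, e1, e2, add_neg_cancel]
  linear_combination p1 + p2 + p3

theorem cub_exists {c : ℂ} {q : Polynomial ℂ} {p : Polynomial L} {F Gp : A L}
    (hd : Datum c q p F Gp) {b : MvPolynomial (Fin 2) L} (hb : b.IsSymmetric)
    (hbF : T 2 b = hc 2 F) (r : Polynomial ℂ) (c2 : MvPolynomial (Fin 2) L)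
    (hc2 : c2.IsSymmetric) (h : emb (G 2 q) * c2 = emb (G 2 r) * b)
    (hodd : OddP q → OddP (p0 p) → OddP r ∧
      (sb b (0 : Polynomial L) Polynomial.X = 0 ∨ sb b (Polynomial.X : Polynomial L) (-Polynomial.X) = 0)) :
    ∃ h3 : A L, h3.IsHomogeneous 3 ∧
      br (hc 1 F) h3 + br (hc 2 F) (T 2 c2) + br (hc 3 F) (ell (r.map Polynomial.C)) = 0 ∧
      br (hc 1 Gp) h3 + br (hc 2 Gp) (T 2 c2) + br (hc 3 Gp) (ell (r.map Polynomial.C)) +
        C (Polynomial.C c) * cd h3 = 0 := by
  have hq2 : 2 ≤ q.natDegree := le_trans (by norm_num) hd.dq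
  obtain ⟨g2, hg, hgG⟩ := T_surj_symm 2 (hc 2 Gp) (homogeneousComponent_isHomogeneous 2 Gp)
  obtain ⟨al, hal, halG⟩ := T_surj_symm 3 (hc 3 Gp) (homogeneousComponent_isHomogeneous 3 Gp)
  obtain ⟨be, hbe, hbeF⟩ := T_surj_symm 3 (hc 3 F) (homogeneousComponent_isHomogeneous 3 F)
  have E2' := quad_rel hd hb hg hbF hgG
  have E4' := cub_rel hd hb hg hbF hgG hal hbe halG hbeF
  have hQ2 : emb (G 2 q) ≠ 0 := by
    rw [cub2_emb_G]
    exact cub2_ne hq2 0
  have hQ3 : emb (G 3 q) ≠ 0 := by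
    rw [cub2_emb_G]
    exact cub2_ne hq2 1
  have E3' : G 2 p * c2 + C (Polynomial.C c) * cd c2 = emb (G 2 r) * g2 := by
    refine mul_left_cancel₀ hQ2 ?_
    have d1 : emb (G 2 q) * cd c2 = emb (G 2 r) * cd b := by
      rw [← cd_emb_mul, ← cd_emb_mul, h]
    linear_combination G 2 p * h + C (Polynomial.C c) * d1 - emb (G 2 r) * E2'
  have E1 := h
  have E2 := E2'
  have E3 := E3'
  rw [cub2_emb_G, cub2_emb_G] at E1
  rw [cub2_emb_G] at E2 E3
  have hJ := cub2_J E1 E2 E3
  rw [← cub2_emb_G, ← cub2_emb_G] at hJ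
  -- the relation
  have hrel : emb (G 3 q) * (3 * (emb (G 3 r) * al) - 2 * J c2 g2) =
      G 3 p * (3 * (emb (G 3 r) * be) - 2 * J c2 b) +
        C (Polynomial.C c) * cd (3 * (emb (G 3 r) * be) - 2 * J c2 b) := by
    have d1 : cd (3 * (emb (G 3 r) * be) - 2 * J c2 b) =
        3 * (emb (G 3 r) * cd be) - 2 * cd (J c2 b) := by
      rw [map_sub, cub2_cd3, cub2_cd2, cd_emb_mul]
    rw [d1]
    linear_combination emb (G 3 r) * E4' + 2 * hJ
  have hdvd : emb (G 3 q) ∣ 3 * (emb (G 3 r) * be) - 2 * J c2 b := by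
    by_cases ho : OddP q ∧ OddP (p0 p)
    · obtain ⟨hro, h0⟩ := hodd ho.1 ho.2
      refine step3_odd hd.toDegs c ho.1 ho.2 _ _ hrel ?_
      refine Pi3_dvd ?_ ?_
      · refine ((cub2_num_symm 3).mul (?_ : IsSymmetric _)).sub
          ((cub2_num_symm 2).mul (J_symm c2 b hc2 hb))
        rw [cub2_emb_G]
        exact (G_symm 3 _).mul hbe
      · rw [map_sub, map_mul, map_mul, map_mul, cub2_anti hq2 ho.1 hro hb hc2 h h0, cub2_emb_G,
          cub2_G3, cub2_odd hro]
        have e : (X 0 + -X 0 + X 1 : MvPolynomial (Fin 2) L) = X 1 := by ring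
        rw [e]
        ring
    · exact step3 hd.toDegs c ho _ _ hrel
  obtain ⟨S, hS⟩ := hdvd
  have hS2 : G 3 p * S + C (Polynomial.C c) * cd S = 3 * (emb (G 3 r) * al) - 2 * J c2 g2 := by
    refine mul_left_cancel₀ hQ3 ?_
    have d1 := cd_emb_mul (G 3 q) S
    rw [← hS] at d1
    linear_combination (-1 : MvPolynomial (Fin 3) L) * hrel - G 3 p * hS -
      C (Polynomial.C c) * d1
  -- the element
  have k3 : (3 : A L) * C (Polynomial.C (1 / 3 : ℂ)) = 1 := by
    have n3 : (3 : A L) = C (Polynomial.C (3 : ℂ)) := by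
      rw [map_ofNat, map_ofNat]
    rw [n3, ← C_mul, ← Polynomial.C_mul]
    norm_num
  have h30 : (3 : A L) ≠ 0 := by
    intro h0
    rw [h0, zero_mul] at k3
    exact zero_ne_one k3
  refine ⟨C (Polynomial.C (1 / 3 : ℂ)) * T 3 S, ?_, ?_, ?_⟩
  · have h1 := (isHomogeneous_C ℕ (Polynomial.C (1 / 3 : ℂ) : L)).mul (T_homog 3 S)
    rw [zero_add] at h1
    exact h1
  · refine mul_left_cancel₀ h30 ?_
    rw [hd.F1, ← hbF, ← hbeF, br_C_mul_right, br_ell_T, br_anti (T 3 be), br_ell_T]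
    have h2 := br_T2 c2 b hc2 hb
    have h4 : T 3 (G 3 (q.map Polynomial.C) * S) =
        3 * T 3 (G 3 (r.map Polynomial.C) * be) - 2 * T 3 (J c2 b) := by
      have h5 := congrArg (T 3) hS
      rw [map_sub] at h5
      have n3 : (3 : MvPolynomial (Fin 3) L) = C (3 : L) := by
        rw [map_ofNat]
      have n2 : (2 : MvPolynomial (Fin 3) L) = C (2 : L) := by
        rw [map_ofNat]
      rw [n3, n2, ← smul_eq_C_mul, ← smul_eq_C_mul, map_smul, map_smul, cub2_emb_G,
        cub2_emb_G, smul_eq_C_mul, smul_eq_C_mul, map_ofNat, map_ofNat] at h5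
      exact h5.symm
    linear_combination T 3 (G 3 (q.map Polynomial.C) * S) * k3 + h4 + h2
  · refine mul_left_cancel₀ h30 ?_
    have dC : cd (C (Polynomial.C (1 / 3 : ℂ)) * T 3 S) =
        C (Polynomial.C (1 / 3 : ℂ)) * T 3 (cd S) := by
      rw [cd_mul, cd_C, Polynomial.derivative_C, map_zero, mul_zero, add_zero, cd_T]
    rw [dC, hd.G1, ← hgG, ← halG, br_C_mul_right, br_ell_T, br_anti (T 3 al), br_ell_T]
    have h2 := br_T2 c2 g2 hc2 hg
    have h4 : T 3 (G 3 p * S) + C (Polynomial.C c) * T 3 (cd S) =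
        3 * T 3 (G 3 (r.map Polynomial.C) * al) - 2 * T 3 (J c2 g2) := by
      have h5 := congrArg (T 3) hS2
      rw [map_sub, map_add] at h5
      have n3 : (3 : MvPolynomial (Fin 3) L) = C (3 : L) := by
        rw [map_ofNat]
      have n2 : (2 : MvPolynomial (Fin 3) L) = C (2 : L) := by
        rw [map_ofNat]
      rw [n3, n2, ← smul_eq_C_mul, ← smul_eq_C_mul, ← smul_eq_C_mul, map_smul, map_smul,
        map_smul, cub2_emb_G, smul_eq_C_mul, smul_eq_C_mul, smul_eq_C_mul, map_ofNat,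
        map_ofNat] at h5
      exact h5
    linear_combination (T 3 (G 3 p * S) + C (Polynomial.C c) * T 3 (cd S)) * k3 + h4 + h2

end Pool.Agent.Helper96.FK
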