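import Pool.Agent.Helper96.FK.Basic

/-!
# Definitions for project FK (MP_ff793d: commuting pairs with constant separant)

`A R = R[u_0,u_1,...]`; `br p q = ev p q - ev q p`; `ell p = ∑ p_i u_i`;
`G s p = ∑_j p(x_j) - p(∑_j x_j)`; `T s` sends the monomial `x^e` to `∏_j u_{e_j}`.
`L = ℂ[a]`, `cd` is the coefficientwise derivative with respect to `a`.
-/

set_option autoImplicit false

open MvPolynomial

namespace Pool.Agent.Helper96.FK

section general

variable {R : Type*} [CommRing R]

/-- the bracket `{p, q} = ev p q - ev q p` -/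
noncomputable def br (p q : A R) : A R := ev p q - ev q p

/-- the linear element with symbol `p` -/
noncomputable def ell (p : Polynomial R) : A R := p.sum (fun i c => C c * X i)

/-- the symbol of `br (ell p)` in degree `s` -/
noncomputable def G (s : ℕ) (p : Polynomial R) : MvPolynomial (Fin s) R :=
  ∑ j : Fin s, Polynomial.aeval (X j : MvPolynomial (Fin s) R) p -
    Polynomial.aeval (∑ j : Fin s, (X j : MvPolynomial (Fin s) R)) p

/-- the map from symbols in `s` variables to homogeneous elements of degree `s` -/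
noncomputable def T (s : ℕ) : MvPolynomial (Fin s) R →ₗ[R] A R :=
  (MvPolynomial.basisMonomials (Fin s) R).constr R (fun e => ∏ j : Fin s, (X (e j) : A R))

/-- substitution of two elements of an algebra into a polynomial in two variables -/
noncomputable def sb {S : Type*} [CommRing S] [Algebra R S] (P : MvPolynomial (Fin 2) R)
    (a b : S) : S := aeval ![a, b] P

/-- the symbol of the bracket of two quadratic elements -/
noncomputable def J (a c : MvPolynomial (Fin 2) R) : MvPolynomial (Fin 3) R :=
  (sb a (X 0 + X 1 : MvPolynomial (Fin 3) R) (X 2) * sb c (X 0 : MvPolynomial (Fin 3) R) (X 1) -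
    sb c (X 0 + X 1 : MvPolynomial (Fin 3) R) (X 2) * sb a (X 0 : MvPolynomial (Fin 3) R) (X 1)) +
  (sb a (X 0 + X 2 : MvPolynomial (Fin 3) R) (X 1) * sb c (X 0 : MvPolynomial (Fin 3) R) (X 2) -
    sb c (X 0 + X 2 : MvPolynomial (Fin 3) R) (X 1) * sb a (X 0 : MvPolynomial (Fin 3) R) (X 2)) +
  (sb a (X 1 + X 2 : MvPolynomial (Fin 3) R) (X 0) * sb c (X 1 : MvPolynomial (Fin 3) R) (X 2) -
    sb c (X 1 + X 2 : MvPolynomial (Fin 3) R) (X 0) * sb a (X 1 : MvPolynomial (Fin 3) R) (X 2))

/-- `(x+y)(y+z)(x+z)` -/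
noncomputable def Pi3 : MvPolynomial (Fin 3) R := (X 0 + X 1) * (X 1 + X 2) * (X 0 + X 2)

/-- homogeneous components -/
noncomputable abbrev hc (n : ℕ) : A R →ₗ[R] A R := homogeneousComponent n

/-- a formal series `h = ∑ h s` (with `h s` homogeneous of degree `s`) commutes with `F` -/
def FC (F : A R) (h : ℕ → A R) : Prop :=
  ∀ s, ∑ x ∈ Finset.HasAntidiagonal.antidiagonal (s + 1), br (hc x.1 F) (h x.2) = 0

/-- formal series without constant term -/
def Ser (h : ℕ → A R) : Prop := (∀ s, (h s).IsHomogeneous s) ∧ h 0 = 0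

end general

/-- the coefficient ring `ℂ[a]` -/
abbrev L := Polynomial ℂ

/-- extension of coefficients from `ℂ` to `ℂ[a]` -/
noncomputable def emb {σ : Type*} : MvPolynomial σ ℂ →+* MvPolynomial σ L :=
  MvPolynomial.map Polynomial.C

/-- evaluation of the coefficients at `a = 0` -/
noncomputable def e0 {σ : Type*} : MvPolynomial σ L →+* MvPolynomial σ ℂ :=
  MvPolynomial.map (Polynomial.evalRingHom 0)

/-- the coefficientwise derivative, as a linear map -/
noncomputable def cdl {σ : Type*} : MvPolynomial σ L →ₗ[ℂ] MvPolynomial σ L where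
  toFun P := AddMonoidAlgebra.map (Polynomial.derivative (R := ℂ)).toAddMonoidHom P
  map_add' P Q := by
    ext e
    rw [coeff_add]
    erw [coeff_addMonoidAlgebraMap, coeff_addMonoidAlgebraMap, coeff_addMonoidAlgebraMap]
    rw [coeff_add]
    simp
  map_smul' r P := by
    ext e
    rw [RingHom.id_apply, coeff_smul]
    erw [coeff_addMonoidAlgebraMap, coeff_addMonoidAlgebraMap]
    rw [coeff_smul]
    simp

theorem coeff_cdl {σ : Type*} (e : σ →₀ ℕ) (P : MvPolynomial σ L) :
    coeff e (cdl P) = Polynomial.derivative (coeff e P) := by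
  show coeff e (AddMonoidAlgebra.map (Polynomial.derivative (R := ℂ)).toAddMonoidHom P) = _
  erw [coeff_addMonoidAlgebraMap]
  rfl

theorem cdl_monomial {σ : Type*} (e : σ →₀ ℕ) (a : L) :
    cdl (monomial e a) = monomial e (Polynomial.derivative a) := by
  classical
  ext f
  rw [coeff_cdl, coeff_monomial, coeff_monomial]
  split_ifs <;> simp

/-- the coefficientwise derivative with respect to `a`, as a derivation over `ℂ` -/
noncomputable def cd {σ : Type*} : Derivation ℂ (MvPolynomial σ L) (MvPolynomial σ L) :=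
  Derivation.mk' cdl (by
    intro P Q
    induction P using MvPolynomial.induction_on' with
    | monomial e a =>
      induction Q using MvPolynomial.induction_on' with
      | monomial f b =>
        rw [monomial_mul, cdl_monomial, cdl_monomial, cdl_monomial, smul_eq_mul, smul_eq_mul,
          monomial_mul, monomial_mul, Polynomial.derivative_mul, add_comm f e, ← map_add]
        congr 1
        ring
      | add Q1 Q2 h1 h2 =>
        rw [mul_add, map_add, h1, h2, map_add]
        simp only [smul_eq_mul]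
        ring
    | add P1 P2 h1 h2 =>
      rw [add_mul, map_add, h1, h2, map_add]
      simp only [smul_eq_mul]
      ring)

theorem coeff_cd {σ : Type*} (e : σ →₀ ℕ) (P : MvPolynomial σ L) :
    coeff e (cd P) = Polynomial.derivative (coeff e P) := coeff_cdl e P

theorem cd_monomial {σ : Type*} (e : σ →₀ ℕ) (a : L) :
    cd (monomial e a) = monomial e (Polynomial.derivative a) := cdl_monomial e a

@[simp] theorem cd_C {σ : Type*} (a : L) :
    cd (C a : MvPolynomial σ L) = C (Polynomial.derivative a) := cd_monomial 0 a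

@[simp] theorem cd_X {σ : Type*} (i : σ) : cd (X i : MvPolynomial σ L) = 0 := by
  unfold X
  rw [cd_monomial, Polynomial.derivative_one, monomial_zero]

theorem cd_mul {σ : Type*} (P Q : MvPolynomial σ L) : cd (P * Q) = P * cd Q + Q * cd P := by
  rw [Derivation.leibniz]; rfl

/-- odd polynomials -/
def OddP (p : Polynomial ℂ) : Prop := p.comp (-Polynomial.X) = -p

/-- the constant term of the coefficients -/
noncomputable abbrev p0 (p : Polynomial L) : Polynomial ℂ := p.map (Polynomial.evalRingHom 0)

/-- the two degrees are different and at least three -/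
structure Degs (q : Polynomial ℂ) (p : Polynomial L) : Prop where
  dq : 3 ≤ q.natDegree
  dp : 3 ≤ (p0 p).natDegree
  ne : q.natDegree ≠ (p0 p).natDegree

/-- `h` commutes with `c + Gp` in the sense `{Gp, h} + c ∂_a h = 0` -/
def FN (c : ℂ) (Gp : A L) (h : ℕ → A L) : Prop :=
  ∀ s, ∑ x ∈ Finset.HasAntidiagonal.antidiagonal (s + 1), br (hc x.1 Gp) (h x.2) +
    C (Polynomial.C c) * cd (h s) = 0

/-- The situation after expansion at a constant point: `{F, Gp} = c ∂_a F`, no constant terms,
linear parts `ell q` (with `q` over `ℂ`, `q(0) = 0`) and `ell p`. -/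
structure Datum (c : ℂ) (q : Polynomial ℂ) (p : Polynomial L) (F Gp : A L) : Prop
    extends Degs q p where
  comm : br F Gp = C (Polynomial.C c) * cd F
  F0 : hc 0 F = 0
  G0 : hc 0 Gp = 0
  F1 : hc 1 F = ell (q.map Polynomial.C)
  G1 : hc 1 Gp = ell p
  q0 : q.coeff 0 = 0

/-- top form -/
noncomputable def top (B : MvPolynomial (Fin 2) ℂ) : MvPolynomial (Fin 2) ℂ :=
  homogeneousComponent B.totalDegree B

/-- value of the top form -/
noncomputable def tv (B : MvPolynomial (Fin 2) ℂ) (α β : ℂ) : ℂ := sb (top B) α β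

/-- The outcome of the cubic relation, everything over `ℂ`: `Den` is the denominator of the
quadratic symbol divided by `G 2 q`, `N` its numerator at `a = 0`. -/
structure RData (p q : Polynomial ℂ) (Den N : MvPolynomial (Fin 2) ℂ) : Prop where
  dq : 3 ≤ q.natDegree
  dp : 3 ≤ p.natDegree
  ne : q.natDegree ≠ p.natDegree
  q0 : q.coeff 0 = 0
  den_q : Den ∣ G 2 q
  den_p : ∀ B, Prime B → B ∣ Den → B ∣ G 2 p
  den_N : ∀ B, Prime B → B ∣ Den → ¬ B ∣ N
  symm : Den ∣ rename (Equiv.swap 0 1) Den
  rel : ∀ B, Prime B → B ∣ Den → ¬ B ∣ X 0 → ∃ M : MvPolynomial (Fin 3) ℂ,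
    sb B (X 0 + X 1 : MvPolynomial (Fin 3) ℂ) (X 2) ∣
      sb Den (X 0 : MvPolynomial (Fin 3) ℂ) (X 1) * M +
      Pi3 * sb Den (X 0 + X 2 : MvPolynomial (Fin 3) ℂ) (X 1) *
        sb Den (X 1 + X 2 : MvPolynomial (Fin 3) ℂ) (X 0) *
        sb N (X 0 + X 1 : MvPolynomial (Fin 3) ℂ) (X 2) *
        sb N (X 0 : MvPolynomial (Fin 3) ℂ) (X 1)

/-- the valuation subring contains the constants -/
def Over {K : Type*} [Field K] [Algebra ℂ K] (V : ValuationSubring K) : Prop :=
  ∀ z : ℂ, algebraMap ℂ K z ∈ V

/-- congruence to a constant modulo the maximal ideal -/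
def Cg {K : Type*} [Field K] [Algebra ℂ K] (V : ValuationSubring K) (x : K) (α : ℂ) : Prop :=
  V.valuation (x - algebraMap ℂ K α) < 1

/-- the quadratic `x^2 + x y + y^2 + c` -/
noncomputable def hq (c : ℂ) : MvPolynomial (Fin 2) ℂ := X 0 ^ 2 + X 0 * X 1 + X 1 ^ 2 + C c

end Pool.Agent.Helper96.FK
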