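import Mathlib

/-!
# FK-20: a lemma on finite sets of complex numbers

Step 1: `|w|^M ≥ 0.6` on `P`. Let `p0 ∈ P` have minimal modulus `μ`; suppose `μ < 1`.
Closure with `(p0, p0)`: `p0^2` has modulus `μ^2 < μ`, so it is not in `P ∪ {1}`, and
`p1 = p0(1-p0) ∈ P ∪ {1}`; so `|1-p0| ≥ 1`, i.e. `Re p0 ≤ μ^2/2`.
If `|p1| < 1`: closure with `w = p1, q = p0`: `|p1 p0| < μ`, so `(1-p1)p0 ∈ P ∪ {1}`, `|1-p1| ≥ 1`,
`Re p1 ≤ |p1|^2/2`. With `p0 = μ e^{iθ}`, `c = cos θ`: `μc - μ^2(2c^2-1) ≤ μ^2(1-2μc+μ^2)/2`.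
If `c > 0` then `2c ≤ μ` gives `c(1+μ^2) ≤ μ^2 c - μ(1-μ^2)/2 < μ^2 c`, contradiction; so `c ≤ 0`,
`|1-p0|^2 ≥ 1+μ^2`, `|1-p0|^M ≥ (1+μ^2)^{M/2} ≥ 1+2μ^2 > 1+μ^M ≥ |1-p0^M| = |1-p0|^M`,
contradiction. If `|p1| ≥ 1`: `1 ≤ μ^M |1-p0|^M ≤ μ^M(1+μ^M)`, so `μ^M ≥ 0.6`.

Step 2: `|w|^M ≤ 2`. Let `w0` have maximal modulus `Λ`; suppose `Λ > 1`. Closure with `(w0,w0)`:
`|w0^2| > Λ`, so `w0(1-w0) ∈ P ∪ {1}`, `|1-w0| ≤ 1`, `Λ^M = |1-(1-w0)^M| ≤ 2`.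

Step 3: `A = |w|^2`, `B = |1-w|^2` are in `[0.77, 1.4143]` (as `M ≥ 4`).
`|1-w+w^2|^2 = (A-1)(B-1)+(A-B)^2 < 0.77` and `|1-w^2|^2 = B(2+2A-B) > 1.4143`. So `w^2 ∉ P ∪ {1}`
(else `1-w^2 ∈ P` or `= 0`), hence `w(1-w) ∈ P ∪ {1}`, and `w(1-w) ∈ P` is impossible as
`1-w(1-w) = 1-w+w^2`. So `w(1-w) = 1`.
-/

set_option autoImplicit false

namespace Pool.Agent.Helper96.FK

private theorem finset_nsq (z : ℂ) : ‖z‖ ^ 2 = z.re ^ 2 + z.im ^ 2 := by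
  rw [← Complex.normSq_eq_norm_sq, Complex.normSq_apply]; ring

/-- `|1 - z| ≥ 1` means `2 Re z ≤ |z|^2`. -/
private theorem finset_one_sub (z : ℂ) : ‖1 - z‖ ^ 2 = 1 - 2 * z.re + ‖z‖ ^ 2 := by
  rw [finset_nsq, finset_nsq]; simp; ring

private theorem finset_step1 (P : Finset ℂ) (h0 : (0 : ℂ) ∉ P)
    (hcl : ∀ w ∈ P, ∀ q ∈ P, (w * q ∈ P ∨ w * q = 1) ∨ ((1 - w) * q ∈ P ∨ (1 - w) * q = 1))
    (M : ℕ) (hM : 4 ≤ M) (hw : ∀ w ∈ P, w ^ M + (1 - w) ^ M = 1)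
    (p : ℂ) (hp : p ∈ P) (hmin : ∀ w ∈ P, ‖p‖ ≤ ‖w‖) : 3 / 5 ≤ ‖p‖ ^ M := by
  by_cases hlt : 1 ≤ ‖p‖
  · have := one_le_pow₀ (n := M) hlt
    linarith
  push Not at hlt
  have hp0 : 0 < ‖p‖ := by
    rw [norm_pos_iff]; intro h; exact h0 (h ▸ hp)
  have key : ∀ z : ℂ, (z ∈ P ∨ z = 1) → ‖p‖ ≤ ‖z‖ := by
    rintro z (hz | hz)
    · exact hmin z hz
    · rw [hz]; simpa using hlt.le
  have hM1 : (1 - p) ^ M = 1 - p ^ M := by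
    have := hw p hp
    linear_combination this
  have hup : ‖1 - p‖ ^ M ≤ 1 + ‖p‖ ^ M := by
    rw [← norm_pow, hM1]
    calc ‖1 - p ^ M‖ ≤ ‖(1 : ℂ)‖ + ‖p ^ M‖ := norm_sub_le _ _
      _ = 1 + ‖p‖ ^ M := by rw [norm_one, norm_pow]
  have h1 : (1 - p) * p ∈ P ∨ (1 - p) * p = 1 := by
    rcases hcl p hp p hp with h | h
    · exfalso
      have := key _ h
      rw [norm_mul] at this
      nlinarith
    · exact h
  have h1n : 1 ≤ ‖1 - p‖ := by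
    have := key _ h1
    rw [norm_mul] at this
    by_contra hc
    push Not at hc
    nlinarith
  have h1s := finset_one_sub p
  by_cases hq : 1 ≤ ‖(1 - p) * p‖
  · rw [norm_mul] at hq
    have h2 : 1 ≤ ‖1 - p‖ ^ M * ‖p‖ ^ M := by
      rw [← mul_pow]; exact one_le_pow₀ hq
    have h3 : 0 < ‖p‖ ^ M := pow_pos hp0 M
    by_contra hc
    push Not at hc
    nlinarith
  · push Not at hq
    exfalso
    have hqP : (1 - p) * p ∈ P := by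
      rcases h1 with h | h
      · exact h
      · rw [h] at hq; simp at hq
    have h2 : (1 - (1 - p) * p) * p ∈ P ∨ (1 - (1 - p) * p) * p = 1 := by
      rcases hcl _ hqP p hp with h | h
      · exfalso
        have h3 := key _ h
        rw [norm_mul] at h3
        nlinarith [norm_nonneg ((1 - p) * p)]
      · exact h
    have h2n : 1 ≤ ‖1 - (1 - p) * p‖ := by
      have := key _ h2
      rw [norm_mul] at this
      by_contra hc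
      push Not at hc
      nlinarith
    have h2s := finset_one_sub ((1 - p) * p)
    have hre : ((1 - p) * p).re = p.re - (2 * p.re ^ 2 - ‖p‖ ^ 2) := by
      rw [finset_nsq]; simp; ring
    have hpn : ‖(1 - p) * p‖ ^ 2 = (1 - 2 * p.re + ‖p‖ ^ 2) * ‖p‖ ^ 2 := by
      rw [norm_mul, mul_pow, h1s]
    have e1 : 1 ≤ ‖1 - p‖ ^ 2 := one_le_pow₀ h1n
    have e2 : 1 ≤ ‖1 - (1 - p) * p‖ ^ 2 := one_le_pow₀ h2n
    rw [h1s] at e1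
    rw [h2s, hre, hpn] at e2
    have hm1 : ‖p‖ ^ 2 < 1 := by nlinarith
    have hm0 : 0 < ‖p‖ ^ 2 := by positivity
    have ha : p.re ≤ 0 := by
      by_contra hc
      push Not at hc
      generalize ‖p‖ ^ 2 = m at *
      generalize p.re = a at *
      nlinarith [mul_pos hc hm0, mul_nonneg hc.le (by linarith : (0:ℝ) ≤ m - 2 * a)]
    have e3 : 1 + ‖p‖ ^ 2 ≤ ‖1 - p‖ ^ 2 := by rw [h1s]; linarith
    have e4 : ‖1 - p‖ ^ 4 ≤ ‖1 - p‖ ^ M := pow_le_pow_right₀ h1n hM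
    have e5 : ‖p‖ ^ M ≤ ‖p‖ ^ 4 := pow_le_pow_of_le_one hp0.le hlt.le hM
    have e6 : ‖1 - p‖ ^ 4 = (‖1 - p‖ ^ 2) ^ 2 := by ring
    have e7 : ‖p‖ ^ 4 = (‖p‖ ^ 2) ^ 2 := by ring
    rw [e6] at e4
    rw [e7] at e5
    nlinarith

private theorem finset_step2 (P : Finset ℂ)
    (hcl : ∀ w ∈ P, ∀ q ∈ P, (w * q ∈ P ∨ w * q = 1) ∨ ((1 - w) * q ∈ P ∨ (1 - w) * q = 1))
    (M : ℕ) (hw : ∀ w ∈ P, w ^ M + (1 - w) ^ M = 1)
    (p : ℂ) (hp : p ∈ P) (hmax : ∀ w ∈ P, ‖w‖ ≤ ‖p‖) : ‖p‖ ^ M ≤ 2 := by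
  by_cases hlt : ‖p‖ ≤ 1
  · have := pow_le_one₀ (n := M) (norm_nonneg p) hlt
    linarith
  push Not at hlt
  have key : ∀ z : ℂ, (z ∈ P ∨ z = 1) → ‖z‖ ≤ ‖p‖ := by
    rintro z (hz | hz)
    · exact hmax z hz
    · rw [hz]; simpa using hlt.le
  have h1 : (1 - p) * p ∈ P ∨ (1 - p) * p = 1 := by
    rcases hcl p hp p hp with h | h
    · exfalso
      have := key _ h
      rw [norm_mul] at this
      nlinarith
    · exact h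
  have h1n : ‖1 - p‖ ≤ 1 := by
    have := key _ h1
    rw [norm_mul] at this
    by_contra hc
    push Not at hc
    nlinarith
  have h2 : p ^ M = 1 - (1 - p) ^ M := by
    have := hw p hp
    linear_combination this
  calc ‖p‖ ^ M = ‖1 - (1 - p) ^ M‖ := by rw [← norm_pow, h2]
    _ ≤ ‖(1 : ℂ)‖ + ‖(1 - p) ^ M‖ := norm_sub_le _ _
    _ = 1 + ‖1 - p‖ ^ M := by rw [norm_one, norm_pow]
    _ ≤ 1 + 1 := by
        have := pow_le_one₀ (n := M) (norm_nonneg (1 - p)) h1n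
        linarith
    _ = 2 := by norm_num

theorem finset_lemma (P : Finset ℂ) (h0 : (0 : ℂ) ∉ P) (h1 : (1 : ℂ) ∉ P)
    (hs : ∀ w ∈ P, 1 - w ∈ P)
    (hcl : ∀ w ∈ P, ∀ q ∈ P, (w * q ∈ P ∨ w * q = 1) ∨ ((1 - w) * q ∈ P ∨ (1 - w) * q = 1))
    (M : ℕ) (hM : 4 ≤ M) (hw : ∀ w ∈ P, w ^ M + (1 - w) ^ M = 1) :
    ∀ w ∈ P, w ^ 2 - w + 1 = 0 := by
  intro w hwP
  have hne : P.Nonempty := ⟨w, hwP⟩
  obtain ⟨p, hpP, hpmin⟩ := P.exists_min_image (fun z : ℂ => ‖z‖) hne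
  obtain ⟨r, hrP, hrmax⟩ := P.exists_max_image (fun z : ℂ => ‖z‖) hne
  have hlow := finset_step1 P h0 hcl M hM hw p hpP hpmin
  have hup := finset_step2 P hcl M hw r hrP hrmax
  have lowA : ∀ z ∈ P, (3 / 5 : ℝ) ≤ (‖z‖ ^ 2) ^ 2 := by
    intro z hz
    have h2 : ‖p‖ ^ M ≤ ‖z‖ ^ M := pow_le_pow_left₀ (norm_nonneg _) (hpmin z hz) M
    have h3 : (‖z‖ ^ 2) ^ 2 = ‖z‖ ^ 4 := by ring
    rw [h3]
    by_cases hz1 : ‖z‖ ≤ 1
    · exact (hlow.trans h2).trans (pow_le_pow_of_le_one (norm_nonneg _) hz1 hM)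
    · push Not at hz1
      have := one_le_pow₀ (n := 4) hz1.le
      linarith
  have upA : ∀ z ∈ P, (‖z‖ ^ 2) ^ 2 ≤ 2 := by
    intro z hz
    have h2 : ‖z‖ ^ M ≤ ‖r‖ ^ M := pow_le_pow_left₀ (norm_nonneg _) (hrmax z hz) M
    have h3 : (‖z‖ ^ 2) ^ 2 = ‖z‖ ^ 4 := by ring
    rw [h3]
    by_cases hz1 : 1 ≤ ‖z‖
    · exact (pow_le_pow_right₀ hz1 hM).trans (h2.trans hup)
    · push Not at hz1
      have := pow_le_one₀ (n := 4) (norm_nonneg z) hz1.le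
      linarith
  have low : ∀ z ∈ P, (77 / 100 : ℝ) < ‖z‖ ^ 2 := by
    intro z hz
    have := lowA z hz
    have h3 : 0 ≤ ‖z‖ ^ 2 := by positivity
    by_contra hc
    push Not at hc
    nlinarith
  have up : ∀ z ∈ P, ‖z‖ ^ 2 < 14143 / 10000 := by
    intro z hz
    have := upA z hz
    have h3 : 0 ≤ ‖z‖ ^ 2 := by positivity
    by_contra hc
    push Not at hc
    nlinarith
  have hA1 := low w hwP
  have hA2 := up w hwP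
  have hB1 := low _ (hs w hwP)
  have hB2 := up _ (hs w hwP)
  have hBA := finset_one_sub w
  have hP2 : ‖1 - w * w‖ ^ 2 = ‖1 - w‖ ^ 2 * (2 + 2 * ‖w‖ ^ 2 - ‖1 - w‖ ^ 2) := by
    rw [finset_nsq, finset_nsq, finset_nsq]
    simp
    ring
  have hP3 : ‖1 - (1 - w) * w‖ ^ 2
      = (‖w‖ ^ 2 - 1) * (‖1 - w‖ ^ 2 - 1) + (‖w‖ ^ 2 - ‖1 - w‖ ^ 2) ^ 2 := by
    rw [finset_nsq, finset_nsq, finset_nsq]
    simp
    ring
  have hbig : 14143 / 10000 < ‖1 - w * w‖ ^ 2 := by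
    rw [hP2]
    generalize ‖w‖ ^ 2 = A at *
    generalize ‖1 - w‖ ^ 2 = B at *
    nlinarith
  have hsmall : ‖1 - (1 - w) * w‖ ^ 2 < 77 / 100 := by
    rw [hP3]
    generalize ‖w‖ ^ 2 = A at *
    generalize ‖1 - w‖ ^ 2 = B at *
    nlinarith
  rcases hcl w hwP w hwP with (h | h) | (h | h)
  · have := up _ (hs _ h)
    linarith
  · rw [h] at hbig
    norm_num at hbig
  · have := low _ (hs _ h)
    linarith
  · linear_combination -h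

end Pool.Agent.Helper96.FK
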