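import Pool.Agent.Helper96.FK.RelPt
import Pool.Agent.Helper96.FK.FinSet

/-!
# FK-21: the directions of `Den`

`rel_point`: evaluate `RData.rel` at a point. Given `y ∉ V`, `x` with `Den(x,y) = 0`, `x+y ∉ V`,
`z` with `Den(x+y,z) = 0`. Some prime factor `B` of `Den` vanishes at `(x,y)` and `B ∤ N`, so
`N(x,y) ≠ 0` by `elim` (`y ∉ V`, but constants are in `V`). Some prime factor `B'` vanishes at
`(x+y,z)`; `B' ∤ X 0` as `x+y ≠ 0`; `N(x+y,z) ≠ 0` by `elim`. So `rel` for `B'` gives
`(x+y)(y+z)(x+z) Den(x+z,y) Den(y+z,x) = 0`.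

`dirs`: let `α ≠ 0, -1` and `γ ≠ 0, -1` be directions (`tv Den α 1 = 0`). Take `exists_vf`,
`lift_left`, `lift_right` (with `tv Den 1 γ = 0`, from `symm`). The point has directions
`x : y : z = α : 1 : γ(1+α)`. With `w = 1/(1+α)`, `v = 1/(1+γ)`: `y+z = 0` or `Den(y+z,x) = 0` gives
`(1-w)v = 1` or `(1-w)v ∈ P`; `x+z = 0` or `Den(x+z,y) = 0` gives `wv = 1` or `wv ∈ P`, where
`P = {1/(1+α) : α a direction, α ≠ 0, -1}` (`tv_of_Cg`, `dir`). `P` is finite (`tv Den · 1` is a
nonzero polynomial), `P = 1 - P` by `symm` (`α ↦ 1/α`), and `w^M + (1-w)^M = 1` for `M = deg p` and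
`M = deg q` by `dirM` (`den_p` through a prime factor, `den_q`); one of them is `≥ 4`.
`finset_lemma`: `w^2-w+1 = 0`, i.e. `α^2+α+1 = 0`.
-/

set_option autoImplicit false

open MvPolynomial

namespace Pool.Agent.Helper96.FK

private theorem dirs_sb_dvd {K : Type} [CommRing K] [Algebra ℂ K] {B Q : MvPolynomial (Fin 2) ℂ}
    (h : B ∣ Q) (x y : K) (h0 : sb B x y = 0) : sb Q x y = 0 := by
  obtain ⟨R, rfl⟩ := h
  unfold sb at h0 ⊢
  rw [map_mul, h0, zero_mul]

private theorem dirs_sb_rename {K : Type} [CommRing K] [Algebra ℂ K]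
    (B : MvPolynomial (Fin 2) ℂ) (x y : K) :
    sb (rename (Equiv.swap 0 1) B) x y = sb B y x := by
  unfold sb
  rw [aeval_rename]
  congr 2
  funext i
  fin_cases i <;> simp

private theorem dirs_ne {K : Type} [Field K] (V : ValuationSubring K) {y : K} (hy : y ∉ V) :
    y ≠ 0 := by
  rintro rfl
  exact hy V.zero_mem

private theorem dirs_small {K : Type} [Field K] [Algebra ℂ K] (V : ValuationSubring K) {y : K}
    (hy : y ∉ V) : Cg V y⁻¹ 0 := by
  unfold Cg
  rw [map_zero, sub_zero, map_inv₀]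
  have h1 : 1 < V.valuation y := by
    by_contra h
    exact hy ((V.valuation_le_one_iff y).1 (not_lt.1 h))
  exact inv_lt_one_of_one_lt₀ h1

private theorem dirs_one {K : Type} [Field K] [Algebra ℂ K] (V : ValuationSubring K) :
    Cg V (1 : K) 1 := by
  have h := Cg.const V (1 : ℂ)
  rwa [map_one] at h

private theorem dirs_zero {K : Type} [Field K] [Algebra ℂ K] (V : ValuationSubring K) :
    Cg V (0 : K) 0 := by
  have h := Cg.const V (0 : ℂ)
  rwa [map_zero] at h

/-- if `x / y` is congruent to a nonzero constant and `y` is large then `x` is large -/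
private theorem dirs_large {K : Type} [Field K] [Algebra ℂ K] (V : ValuationSubring K)
    (hV : Over V) {x y : K} {α : ℂ} (hα : α ≠ 0) (hy : y ∉ V) (h : Cg V (x / y) α) : x ∉ V := by
  intro hx
  have hi := Cg.inv hV h hα
  have hm := Cg.mem hV hi
  have hxne : x ≠ 0 := by
    rintro rfl
    rw [zero_div] at h
    exact hα (Cg.unique hV h (dirs_zero V))
  have e : y = x * (x / y)⁻¹ := by
    have hy0 := dirs_ne V hy
    field_simp
  apply hy
  rw [e]
  exact V.mul_mem _ _ hx hm

private theorem dirs_Den {p q : Polynomial ℂ} {Den N : MvPolynomial (Fin 2) ℂ}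
    (hR : RData p q Den N) : Den ≠ 0 := by
  intro h0
  obtain ⟨K, _, _, _, V, hV, y, hy⟩ := exists_vf
  have hG : sb (G 2 q) (1 : K) y = 0 := by
    have h1 : G 2 q = 0 := by
      have := hR.den_q
      rw [h0] at this
      exact zero_dvd_iff.1 this
    rw [h1]
    unfold sb
    rw [map_zero]
  have hc : Cg V ((1 : K) / y) 0 := by
    rw [one_div]
    exact dirs_small V hy
  exact one_ne_zero (asym0 V hV q (le_trans (by norm_num) hR.dq) hR.q0 1 y hy hc hG)

/-- the direction equation, for both degrees -/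
private theorem dirs_eqM {p q : Polynomial ℂ} {Den N : MvPolynomial (Fin 2) ℂ}
    (hR : RData p q Den N) (α : ℂ) (hα : tv Den α 1 = 0) :
    α ^ q.natDegree + 1 = (α + 1) ^ q.natDegree ∧
      α ^ p.natDegree + 1 = (α + 1) ^ p.natDegree := by
  obtain ⟨K, _, _, _, V, hV, y, hy⟩ := exists_vf
  obtain ⟨x, hx, hc⟩ := lift_left V hV Den (dirs_Den hR) α hα y hy
  constructor
  · exact dirM V hV q (le_trans (by norm_num) hR.dq) x y hy α hc (dirs_sb_dvd hR.den_q x y hx)
  · obtain ⟨B, hB1, hB2, hB3⟩ := relpt_factor Den (dirs_Den hR) x y hx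
    exact dirM V hV p (le_trans (by norm_num) hR.dp) x y hy α hc
      (dirs_sb_dvd (hR.den_p B hB1 hB2) x y hB3)

private theorem dirs_exM {p q : Polynomial ℂ} {Den N : MvPolynomial (Fin 2) ℂ}
    (hR : RData p q Den N) : ∃ M : ℕ, 4 ≤ M ∧ ∀ α : ℂ, tv Den α 1 = 0 →
      α ^ M + 1 = (α + 1) ^ M := by
  by_cases h : 4 ≤ q.natDegree
  · exact ⟨q.natDegree, h, fun α hα => (dirs_eqM hR α hα).1⟩
  · refine ⟨p.natDegree, ?_, fun α hα => (dirs_eqM hR α hα).2⟩
    have h1 := hR.dq
    have h2 := hR.dp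
    have h3 := hR.ne
    omega

/-- the directions are closed under inversion -/
private theorem dirs_inv {p q : Polynomial ℂ} {Den N : MvPolynomial (Fin 2) ℂ}
    (hR : RData p q Den N) (α : ℂ) (h0 : α ≠ 0) (hα : tv Den α 1 = 0) : tv Den α⁻¹ 1 = 0 := by
  obtain ⟨K, _, _, _, V, hV, y, hy⟩ := exists_vf
  obtain ⟨x, hx, hc⟩ := lift_left V hV Den (dirs_Den hR) α hα y hy
  have h1 : sb Den y x = 0 := by
    have h2 := dirs_sb_dvd hR.symm x y hx
    rwa [dirs_sb_rename] at h2
  have hxV := dirs_large V hV h0 hy hc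
  have hi := Cg.inv hV hc h0
  rw [inv_div] at hi
  exact tv_of_Cg V hV Den (dirs_Den hR) y x hxV α⁻¹ hi h1

/-- the closure property -/
private theorem dirs_closure {p q : Polynomial ℂ} {Den N : MvPolynomial (Fin 2) ℂ}
    (hR : RData p q Den N) (w v : ℂ) (hw0 : w ≠ 0) (hw1 : w ≠ 1) (hw : tv Den (w⁻¹ - 1) 1 = 0)
    (hv0 : v ≠ 0) (hv : tv Den (v⁻¹ - 1) 1 = 0) :
    (tv Den ((w * v)⁻¹ - 1) 1 = 0 ∨ w * v = 1) ∨
      (tv Den (((1 - w) * v)⁻¹ - 1) 1 = 0 ∨ (1 - w) * v = 1) := by
  have hw1' : 1 - w ≠ 0 := sub_ne_zero.2 (Ne.symm hw1)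
  obtain ⟨K, _, _, _, V, hV, y, hy⟩ := exists_vf
  have hD := dirs_Den hR
  obtain ⟨x, hx, hc⟩ := lift_left V hV Den hD (w⁻¹ - 1) hw y hy
  have hy0 := dirs_ne V hy
  -- the sum
  have hs1 : Cg V ((x + y) / y) w⁻¹ := by
    have h1 := hc.add (dirs_one V)
    rw [sub_add_cancel] at h1
    have e : x / y + 1 = (x + y) / y := by
      rw [add_div, div_self hy0]
    rwa [e] at h1
  have hsV : x + y ∉ V := dirs_large V hV (inv_ne_zero hw0) hy hs1
  have hs0 := dirs_ne V hsV
  obtain ⟨z, hz, hcz⟩ := lift_left V hV Den hD (v⁻¹ - 1) hv (x + y) hsV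
  have hz' : sb Den (x + y) z = 0 := by
    have h2 := dirs_sb_dvd hR.symm z (x + y) hz
    rwa [dirs_sb_rename] at h2
  have hrel := rel_point hR V hV x y z hy hsV hx hz'
  -- directions with respect to the sum
  have hys : Cg V (y / (x + y)) w := by
    have h1 := Cg.inv hV hs1 (inv_ne_zero hw0)
    rwa [inv_div, inv_inv] at h1
  have hxs : Cg V (x / (x + y)) (1 - w) := by
    have h1 := (dirs_one V).add ((Cg.const V (-1 : ℂ)).mul hV hys)
    have e1 : (1 : K) + algebraMap ℂ K (-1) * (y / (x + y)) = x / (x + y) := by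
      rw [map_neg, map_one]
      field_simp
      ring
    have e2 : (1 : ℂ) + -1 * w = 1 - w := by ring
    rwa [e1, e2] at h1
  have hxV : x ∉ V := dirs_large V hV hw1' hsV hxs
  have hx0 := dirs_ne V hxV
  have hyz : Cg V ((y + z) / (x + y)) (w + (v⁻¹ - 1)) := by
    rw [add_div]
    exact hys.add hcz
  have hxz : Cg V ((x + z) / (x + y)) (1 - w + (v⁻¹ - 1)) := by
    rw [add_div]
    exact hxs.add hcz
  rcases mul_eq_zero.1 hrel with h1 | h1
  · rcases mul_eq_zero.1 h1 with h2 | h2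
    · rcases mul_eq_zero.1 h2 with h3 | h3
      · -- y + z = 0
        right
        right
        rw [h3, zero_div] at hyz
        have h4 := Cg.unique hV hyz (dirs_zero V)
        have h5 : v⁻¹ * v = 1 := inv_mul_cancel₀ hv0
        linear_combination (-v) * h4 + h5
      · -- x + z = 0
        left
        right
        rw [h3, zero_div] at hxz
        have h4 := Cg.unique hV hxz (dirs_zero V)
        have h5 : v⁻¹ * v = 1 := inv_mul_cancel₀ hv0
        linear_combination (-v) * h4 + h5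
    · -- Den(x+z, y) = 0
      left
      left
      refine tv_of_Cg V hV Den hD (x + z) y hy _ ?_ h2
      have h3 := hxz.mul hV (Cg.inv hV hys hw0)
      have e1 : (x + z) / (x + y) * (y / (x + y))⁻¹ = (x + z) / y := by
        field_simp
      have e2 : (1 - w + (v⁻¹ - 1)) * w⁻¹ = (w * v)⁻¹ - 1 := by
        field_simp
        ring
      rwa [e1, e2] at h3
  · -- Den(y+z, x) = 0
    right
    left
    refine tv_of_Cg V hV Den hD (y + z) x hxV _ ?_ h1
    have h3 := hyz.mul hV (Cg.inv hV hxs hw1')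
    have e1 : (y + z) / (x + y) * (x / (x + y))⁻¹ = (y + z) / x := by
      field_simp
    have e2 : (w + (v⁻¹ - 1)) * (1 - w)⁻¹ = ((1 - w) * v)⁻¹ - 1 := by
      field_simp
      ring
    rwa [e1, e2] at h3

private theorem dirs_finite (M : ℕ) (hM : 4 ≤ M) (S : Set ℂ)
    (hS : ∀ w ∈ S, w ^ M + (1 - w) ^ M = 1) : S.Finite := by
  have hne : (Polynomial.X ^ M + (1 - Polynomial.X) ^ M - 1 : Polynomial ℂ) ≠ 0 := by
    intro h
    have h1 := congrArg (Polynomial.eval 2) h
    simp only [Polynomial.eval_sub, Polynomial.eval_add, Polynomial.eval_pow, Polynomial.eval_X,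
      Polynomial.eval_one, Polynomial.eval_zero] at h1
    have h2 : (2 : ℂ) ^ M = 1 - (-1) ^ M := by
      have e : (1 - 2 : ℂ) = -1 := by norm_num
      rw [e] at h1
      linear_combination h1
    have h3 : ‖(2 : ℂ) ^ M‖ ≤ 2 := by
      rw [h2]
      calc ‖(1 : ℂ) - (-1) ^ M‖ ≤ ‖(1 : ℂ)‖ + ‖((-1 : ℂ)) ^ M‖ := norm_sub_le _ _
        _ = 2 := by
          rw [norm_pow, norm_neg, norm_one, one_pow]
          norm_num
    rw [norm_pow, Complex.norm_ofNat] at h3
    have h4 : (2 : ℝ) ^ 4 ≤ 2 ^ M := pow_le_pow_right₀ (by norm_num) hM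
    norm_num at h4
    linarith
  refine (Polynomial.finite_setOfPred_isRoot hne).subset ?_
  intro w hw
  have h1 := hS w hw
  show Polynomial.IsRoot _ w
  simp only [Polynomial.IsRoot, Polynomial.eval_sub, Polynomial.eval_add, Polynomial.eval_pow,
    Polynomial.eval_X, Polynomial.eval_one]
  linear_combination h1

theorem dirs {p q : Polynomial ℂ} {Den N : MvPolynomial (Fin 2) ℂ} (hR : RData p q Den N)
    (α : ℂ) (hα : tv Den α 1 = 0) : α = 0 ∨ α = -1 ∨ α ^ 2 + α + 1 = 0 := by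
  by_cases h0 : α = 0
  · exact Or.inl h0
  by_cases h1 : α = -1
  · exact Or.inr (Or.inl h1)
  right
  right
  obtain ⟨M, hM, hMd⟩ := dirs_exM hR
  set S : Set ℂ := {w | w ≠ 0 ∧ w ≠ 1 ∧ tv Den (w⁻¹ - 1) 1 = 0} with hSdef
  have hpow : ∀ w ∈ S, w ^ M + (1 - w) ^ M = 1 := by
    rintro w ⟨hw0, hw1, hw⟩
    have h2 := hMd _ hw
    rw [sub_add_cancel] at h2
    have h3 : w ^ M * ((w⁻¹ - 1) ^ M + 1) = w ^ M * w⁻¹ ^ M := by rw [h2]
    have h4 : w * (w⁻¹ - 1) = 1 - w := by
      field_simp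
    rw [mul_add, ← mul_pow, ← mul_pow, h4, mul_inv_cancel₀ hw0, one_pow, mul_one] at h3
    linear_combination h3
  have hfin : S.Finite := dirs_finite M hM S hpow
  have hmem : ∀ w, w ∈ hfin.toFinset ↔ w ∈ S := fun w => hfin.mem_toFinset
  have key := finset_lemma hfin.toFinset
    (by rw [hmem]; exact fun h => h.1 rfl) (by rw [hmem]; exact fun h => h.2.1 rfl)
    (by
      intro w hw
      rw [hmem] at hw ⊢
      obtain ⟨hw0, hw1, hw⟩ := hw
      have hw1' : 1 - w ≠ 0 := sub_ne_zero.2 (Ne.symm hw1)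
      refine ⟨hw1', ?_, ?_⟩
      · intro h
        apply hw0
        linear_combination -h
      · have h2 : w⁻¹ - 1 ≠ 0 := by
          intro h
          apply hw1
          have h3 : w⁻¹ = 1 := by linear_combination h
          rw [← inv_inv w, h3, inv_one]
        have h3 := dirs_inv hR _ h2 hw
        have e : (w⁻¹ - 1)⁻¹ = (1 - w)⁻¹ - 1 := by
          have h5 : w⁻¹ - 1 = (1 - w) / w := by
            field_simp
          rw [h5, inv_div]
          field_simp
          ring
        rwa [e] at h3)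
    (by
      intro w hw v hv
      rw [hmem] at hw hv
      obtain ⟨hw0, hw1, hw⟩ := hw
      obtain ⟨hv0, hv1, hv⟩ := hv
      have hw1' : 1 - w ≠ 0 := sub_ne_zero.2 (Ne.symm hw1)
      rcases dirs_closure hR w v hw0 hw1 hw hv0 hv with (h | h) | (h | h)
      · left
        by_cases h2 : w * v = 1
        · exact Or.inr h2
        · left
          rw [hmem]
          exact ⟨mul_ne_zero hw0 hv0, h2, h⟩
      · exact Or.inl (Or.inr h)
      · right
        by_cases h2 : (1 - w) * v = 1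
        · exact Or.inr h2
        · left
          rw [hmem]
          exact ⟨mul_ne_zero hw1' hv0, h2, h⟩
      · exact Or.inr (Or.inr h))
    M hM (by intro w hw; rw [hmem] at hw; exact hpow w hw)
  have hα1 : 1 + α ≠ 0 := by
    intro h
    apply h1
    linear_combination h
  have hwS : (1 + α)⁻¹ ∈ hfin.toFinset := by
    rw [hmem]
    refine ⟨inv_ne_zero hα1, ?_, ?_⟩
    · intro h
      apply h0
      have h2 : 1 + α = 1 := by rw [← inv_inv (1 + α), h, inv_one]
      linear_combination h2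
    · rw [inv_inv, add_sub_cancel_left]
      exact hα
  have h2 := key _ hwS
  have h3 : (1 + α) ^ 2 * ((1 + α)⁻¹ ^ 2 - (1 + α)⁻¹ + 1) = α ^ 2 + α + 1 := by
    field_simp
    ring
  rw [← h3, h2, mul_zero]

end Pool.Agent.Helper96.FK
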