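import Pool.Agent.Helper96.FK.TMap
import Pool.Agent.Helper96.FK.BrCd

/-!
# FK-3b: linear elements, base change of `T`, `ell`, `G`
-/

set_option autoImplicit false

open MvPolynomial

namespace Pool.Agent.Helper96.FK

variable {R : Type*} [CommRing R]

theorem ell_add (p q : Polynomial R) : ell (p + q) = ell p + ell q := by
  unfold ell
  apply Polynomial.sum_add_index
  · intro i
    rw [C_0, zero_mul]
  · intro i a b
    rw [C_add, add_mul]

theorem tmap2_ell_monomial (n : ℕ) (a : R) : ell (Polynomial.monomial n a) = C a * X n := by
  unfold ell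
  apply Polynomial.sum_monomial_index
  rw [C_0, zero_mul]

/-- degree one -/
theorem T_one (p : Polynomial R) :
    T 1 (Polynomial.aeval (X 0 : MvPolynomial (Fin 1) R) p) = ell p := by
  induction p using Polynomial.induction_on' with
  | add p q hp hq => rw [map_add, map_add, hp, hq, ell_add]
  | monomial n a =>
    have h1 : Polynomial.aeval (X 0 : MvPolynomial (Fin 1) R) (Polynomial.monomial n a) =
        monomial (Finsupp.single 0 n) a := by
      rw [Polynomial.aeval_monomial, MvPolynomial.algebraMap_eq, MvPolynomial.X_pow_eq_monomial,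
        C_mul_monomial, mul_one]
    rw [h1, T_monomial, tmap2_ell_monomial]
    simp

/-- every homogeneous element of degree one is some `ell p` -/
theorem exists_ell (h : A R) (hh : h.IsHomogeneous 1) : ∃ p : Polynomial R, h = ell p := by
  obtain ⟨P, hP⟩ := T_surj 1 h hh
  rw [← hP]
  clear hP
  induction P using MvPolynomial.induction_on' with
  | monomial e a =>
    refine ⟨Polynomial.monomial (e 0) a, ?_⟩
    rw [T_monomial, tmap2_ell_monomial]
    simp
  | add P Q hP hQ =>
    obtain ⟨p, hp⟩ := hP
    obtain ⟨q, hq⟩ := hQ
    exact ⟨p + q, by rw [map_add, hp, hq, ell_add]⟩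

theorem d_ell (i : ℕ) (p : Polynomial R) : d i (ell p) = C (p.coeff i) := by
  induction p using Polynomial.induction_on' with
  | add p q hp hq => rw [ell_add, map_add, hp, hq, Polynomial.coeff_add, C_add]
  | monomial n a =>
    rw [tmap2_ell_monomial, d_mul, Polynomial.coeff_monomial]
    by_cases h : n = i
    · subst h
      rw [pderiv_X_self, pderiv_C, mul_one, mul_zero, add_zero, if_pos rfl]
    · rw [pderiv_X_of_ne h, pderiv_C, mul_zero, mul_zero, add_zero, if_neg h, C_0]

theorem ell_inj {p q : Polynomial R} (h : ell p = ell q) : p = q := by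
  ext i
  apply C_injective ℕ R
  rw [← d_ell, ← d_ell, h]

theorem ell_C_mul (r : R) (p : Polynomial R) : ell (Polynomial.C r * p) = C r * ell p := by
  induction p using Polynomial.induction_on' with
  | add p q hp hq => rw [mul_add, ell_add, hp, hq, ell_add, mul_add]
  | monomial n a =>
    rw [Polynomial.C_mul_monomial, tmap2_ell_monomial, tmap2_ell_monomial, C_mul, mul_assoc]

theorem G_symm (s : ℕ) (p : Polynomial R) : (G s p).IsSymmetric := by
  intro e
  have h1 : ∀ x : MvPolynomial (Fin s) R, rename e (Polynomial.aeval x p) =
      Polynomial.aeval (rename e x) p := fun x => (Polynomial.aeval_algHom_apply _ _ _).symm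
  unfold G
  rw [map_sub, map_sum, h1, map_sum]
  simp only [h1, rename_X]
  rw [Equiv.sum_comp e (fun j => Polynomial.aeval (X j : MvPolynomial (Fin s) R) p),
    Equiv.sum_comp e (fun j => (X j : MvPolynomial (Fin s) R))]

/-- base change of `T`, `ell`, `G` -/
theorem map_T {R' : Type*} [CommRing R'] (φ : R →+* R') (s : ℕ) (P : MvPolynomial (Fin s) R) :
    MvPolynomial.map φ (T s P) = T s (MvPolynomial.map φ P) := by
  induction P using MvPolynomial.induction_on' with
  | monomial e a =>
    rw [T_monomial, map_monomial, T_monomial, map_mul, map_prod, map_C]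
    simp only [map_X]
  | add P Q hP hQ => rw [map_add, map_add, hP, hQ, map_add, map_add]

theorem map_ell {R' : Type*} [CommRing R'] (φ : R →+* R') (p : Polynomial R) :
    MvPolynomial.map φ (ell p) = ell (p.map φ) := by
  induction p using Polynomial.induction_on' with
  | add p q hp hq => rw [ell_add, map_add, hp, hq, Polynomial.map_add, ell_add]
  | monomial n a =>
    rw [Polynomial.map_monomial, tmap2_ell_monomial, tmap2_ell_monomial, map_mul, map_C, map_X]

theorem tmap2_map_aeval {R' : Type*} [CommRing R'] (φ : R →+* R') {s : ℕ}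
    (x : MvPolynomial (Fin s) R) (p : Polynomial R) :
    MvPolynomial.map φ (Polynomial.aeval x p) =
      Polynomial.aeval (MvPolynomial.map φ x) (p.map φ) := by
  induction p using Polynomial.induction_on' with
  | add p q hp hq => rw [map_add, map_add, hp, hq, Polynomial.map_add, map_add]
  | monomial n a =>
    rw [Polynomial.map_monomial, Polynomial.aeval_monomial, Polynomial.aeval_monomial, map_mul,
      map_pow, MvPolynomial.algebraMap_eq, MvPolynomial.algebraMap_eq, map_C]

theorem map_G {R' : Type*} [CommRing R'] (φ : R →+* R') (s : ℕ) (p : Polynomial R) :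
    MvPolynomial.map φ (G s p) = G s (p.map φ) := by
  unfold G
  rw [map_sub, map_sum, tmap2_map_aeval, map_sum]
  simp only [tmap2_map_aeval, map_X]

theorem tmap2_cd_prod {ι : Type*} (S : Finset ι) (e : ι → ℕ) :
    cd (∏ j ∈ S, (X (e j) : A L)) = 0 := by
  classical
  induction S using Finset.induction_on with
  | empty =>
    rw [Finset.prod_empty]
    exact cd.map_one_eq_zero
  | insert a S ha ih =>
    rw [Finset.prod_insert ha, cd_mul, ih, cd_X, mul_zero, mul_zero, add_zero]

theorem cd_T (s : ℕ) (P : MvPolynomial (Fin s) L) : cd (T s P) = T s (cd P) := by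
  induction P using MvPolynomial.induction_on' with
  | monomial e a =>
    rw [T_monomial, cd_monomial, T_monomial, cd_mul, cd_C, tmap2_cd_prod, mul_zero, zero_add,
      mul_comm]
  | add P Q hP hQ => rw [map_add, map_add, hP, hQ, map_add, map_add]

end Pool.Agent.Helper96.FK
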