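import Pool.Agent.Helper96.FK.PDiv
import Pool.Agent.Helper96.FK.TMap2
import Pool.Agent.Helper96.FK.GDvd

/-!
# FK-14: reduced fraction `b / G_q = N / Den`

`exists_den`: induction on the prime factorization of `Q`
(`UniqueFactorizationMonoid.induction_on_prime`). For `Q = B0 * Q'` take `(Den, E, N)` for `Q'`;
if `emb B0 ∣ N` then `N = emb B0 * N'` and `(Den, B0 * E, N')`, else `(B0 * Den, E, N)`.
`den_symm`: swapping variables, `N Den^σ = N^σ Den` (as `b`, `Q` are symmetric), and no prime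
factor of `Den` divides `N`, so `Den ∣ Den^σ` (induction on prime factors).
-/

set_option autoImplicit false

open MvPolynomial

namespace Pool.Agent.Helper96.FK

theorem exists_den (Q : MvPolynomial (Fin 2) ℂ) (hQ : Q ≠ 0) (b : MvPolynomial (Fin 2) L) :
    ∃ (Den E : MvPolynomial (Fin 2) ℂ) (N : MvPolynomial (Fin 2) L),
      Q = Den * E ∧ b = emb E * N ∧ ∀ B, Prime B → B ∣ Den → ¬ emb B ∣ N := by
  induction Q using UniqueFactorizationMonoid.induction_on_prime with
  | h₁ => exact absurd rfl hQ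
  | h₂ u hu =>
    refine ⟨u, 1, b, by rw [mul_one], by rw [map_one, one_mul], ?_⟩
    intro B hB hBu _
    exact hB.not_isUnit (isUnit_of_dvd_unit hBu hu)
  | h₃ Q B0 hQ0 hB0 ih =>
    obtain ⟨Den, E, N, h1, h2, h3⟩ := ih hQ0
    by_cases h : emb B0 ∣ N
    · obtain ⟨N', rfl⟩ := h
      refine ⟨Den, B0 * E, N', by rw [h1]; ring, by rw [h2, map_mul]; ring, ?_⟩
      intro B hB hBD hBN
      exact h3 B hB hBD (hBN.mul_left _)
    · refine ⟨B0 * Den, E, N, by rw [h1]; ring, h2, ?_⟩
      intro B hB hBD hBN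
      rcases hB.dvd_or_dvd hBD with h4 | h4
      · have h5 : B0 ∣ B := (hB.dvd_prime_iff_associated hB0).1 h4 |>.symm.dvd
        exact h (dvd_trans (map_dvd emb h5) hBN)
      · exact h3 B hB h4 hBN

theorem fact_emb_inj {σ : Type*} {P Q : MvPolynomial σ ℂ} (h : emb P = emb Q) : P = Q := by
  rw [← e0_emb P, h, e0_emb]

theorem fact_emb_ne {σ : Type*} {P : MvPolynomial σ ℂ} (h : P ≠ 0) : emb P ≠ 0 := by
  intro h0
  apply h
  apply fact_emb_inj
  rw [h0, map_zero]

theorem fact_prime_emb {σ : Type*} {B : MvPolynomial σ ℂ} (hB : Prime B) : Prime (emb B) := by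
  have h1 : Prime (Polynomial.C B) := Polynomial.prime_C_iff.2 hB
  have h2 : pdiv_E (emb B) = Polynomial.C B := by rw [pdiv_E_apply, pdiv_Phi_emb]
  rw [← h2] at h1
  exact (MulEquiv.prime_iff (pdiv_E : MvPolynomial σ L ≃+* _)).1 h1

theorem fact_dvd (Den : MvPolynomial (Fin 2) ℂ) (hD : Den ≠ 0) (N : MvPolynomial (Fin 2) L)
    (h3 : ∀ B, Prime B → B ∣ Den → ¬ emb B ∣ N) (Z : MvPolynomial (Fin 2) ℂ)
    (h : emb Den ∣ N * emb Z) : Den ∣ Z := by
  induction Den using UniqueFactorizationMonoid.induction_on_prime generalizing Z with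
  | h₁ => exact absurd rfl hD
  | h₂ u hu => exact hu.dvd
  | h₃ Q B hQ0 hB ih =>
    have h1 : emb B ∣ N * emb Z :=
      dvd_trans (by rw [map_mul]; exact dvd_mul_right _ _) h
    rcases (fact_prime_emb hB).dvd_or_dvd h1 with h2 | h2
    · exact absurd h2 (h3 B hB (dvd_mul_right _ _))
    · obtain ⟨Z', rfl⟩ := emb_dvd_emb.1 h2
      apply mul_dvd_mul_left
      apply ih hQ0 (fun B' hB' hd => h3 B' hB' (hd.mul_left _))
      have h4 : N * emb (B * Z') = emb B * (N * emb Z') := by rw [map_mul]; ring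
      rw [h4, map_mul] at h
      exact (mul_dvd_mul_iff_left (fact_emb_ne hB.ne_zero)).1 h

theorem fact_rename {σ : Type*} (e : Equiv.Perm σ) (P : MvPolynomial σ ℂ) :
    rename e (emb P) = emb (rename e P) := (map_rename _ _ _).symm

theorem den_symm (Q : MvPolynomial (Fin 2) ℂ) (hQ : Q ≠ 0) (hQs : Q.IsSymmetric)
    (b : MvPolynomial (Fin 2) L) (hb : b.IsSymmetric) (Den E : MvPolynomial (Fin 2) ℂ)
    (N : MvPolynomial (Fin 2) L) (h1 : Q = Den * E) (h2 : b = emb E * N)
    (h3 : ∀ B, Prime B → B ∣ Den → ¬ emb B ∣ N) : Den ∣ rename (Equiv.swap 0 1) Den := by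
  have hD : Den ≠ 0 := by
    rintro rfl
    exact hQ (by rw [h1, zero_mul])
  have hE : E ≠ 0 := by
    rintro rfl
    exact hQ (by rw [h1, mul_zero])
  apply fact_dvd Den hD N h3
  set s : Equiv.Perm (Fin 2) := Equiv.swap 0 1 with hs
  have hE' : rename s E ≠ 0 := by
    intro h0
    apply hE
    apply rename_injective s s.injective
    rw [h0, map_zero]
  have e1 : Den * E = rename s Den * rename s E := by
    rw [← map_mul, ← h1]
    exact (hQs s).symm
  have e2 : emb E * N = emb (rename s E) * rename s N := by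
    have h4 := hb s
    rw [h2, map_mul, fact_rename] at h4
    exact h4.symm
  have e3 : emb Den * emb E = emb (rename s Den) * emb (rename s E) := by
    rw [← map_mul, ← map_mul, e1]
  have e4 : N * emb (rename s Den) = emb Den * rename s N := by
    have h5 : emb E * emb (rename s E) ≠ 0 := mul_ne_zero (fact_emb_ne hE) (fact_emb_ne hE')
    apply mul_left_cancel₀ h5
    linear_combination (emb (rename s E) * emb (rename s Den)) * e2 -
      emb (rename s E) * rename s N * e3
  rw [e4]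
  exact dvd_mul_right _ _

/-- if `b = 0` the denominator is a unit -/
theorem den_unit (Den : MvPolynomial (Fin 2) ℂ) (hD : Den ≠ 0) (N : MvPolynomial (Fin 2) L)
    (h : ∀ B, Prime B → B ∣ Den → ¬ emb B ∣ N) (hN : N = 0) : IsUnit Den := by
  by_contra hu
  obtain ⟨B, hB, hBD⟩ := WfDvdMonoid.exists_irreducible_factor hu hD
  exact h B hB.prime hBD (by rw [hN]; exact dvd_zero _)

/-- the quadratic symbol of the symmetry with linear part `r` -/
theorem exists_c2 (q r : Polynomial ℂ) (hq : 2 ≤ q.natDegree) (b : MvPolynomial (Fin 2) L)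
    (hb : b.IsSymmetric) (Den E : MvPolynomial (Fin 2) ℂ) (N : MvPolynomial (Fin 2) L)
    (h1 : G 2 q = Den * E) (h2 : b = emb E * N) (hr : Den ∣ G 2 r) :
    ∃ c2 : MvPolynomial (Fin 2) L, c2.IsSymmetric ∧ emb (G 2 q) * c2 = emb (G 2 r) * b := by
  obtain ⟨S, hS⟩ := hr
  have hmain : emb (G 2 q) * (emb S * N) = emb (G 2 r) * b := by
    rw [h1, hS, h2, map_mul, map_mul]
    ring
  refine ⟨emb S * N, ?_, hmain⟩
  intro e
  have h3 : emb (G 2 q) ≠ 0 := fact_emb_ne (G_ne_zero 0 q hq)
  apply mul_left_cancel₀ h3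
  rw [hmain]
  have h4 : rename e (emb (G 2 q) * (emb S * N)) = rename e (emb (G 2 r) * b) := by rw [hmain]
  rw [map_mul (rename e) (emb (G 2 q)), map_mul (rename e) (emb (G 2 r)), fact_rename,
    fact_rename, G_symm 2 q e, G_symm 2 r e, hb e] at h4
  exact h4

end Pool.Agent.Helper96.FK
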