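import Pool.Agent.Helper96.FK.Defs

/-!
# FK-8: coprimality of the cofactors `H_p`, `H_q` for odd `p`, `q` of different degrees

Top forms reduce to powers. If the homogeneous `b` divides the cofactors of `x^m` and `x^k`
(up to constants), then `b (w,1,-1) = 0` for some `w`, where `w^{m-1} = 1 = w^{k-1}`, `w^2 ≠ 1`,
the root is simple, and the comparison of the two expansions along
`x = w + λ τ^2 - τ, y = 1 + τ, z = τ - 1` up to `τ^3` gives `m = k`.
-/

set_option autoImplicit false

open MvPolynomial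

namespace Pool.Agent.Helper96.FK

/-- `x^m + y^m + z^m - (x+y+z)^m` -/
noncomputable def hcop_g (m : ℕ) : MvPolynomial (Fin 3) ℂ :=
  X 0 ^ m + X 1 ^ m + X 2 ^ m - (X 0 + X 1 + X 2) ^ m

/-- the grading map `x_i ↦ x_i T` -/
noncomputable def hcop_T : MvPolynomial (Fin 3) ℂ →ₐ[ℂ] Polynomial (MvPolynomial (Fin 3) ℂ) :=
  aeval (fun i => Polynomial.C (X i) * Polynomial.X)

theorem hcop_T_X (i : Fin 3) : hcop_T (X i) = Polynomial.C (X i) * Polynomial.X := by
  simp [hcop_T]

theorem hcop_T_C (a : ℂ) : hcop_T (C a) = Polynomial.C (C a) := by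
  rw [hcop_T, aeval_C]
  rfl

theorem hcop_T_one (f : MvPolynomial (Fin 3) ℂ) : Polynomial.eval 1 (hcop_T f) = f := by
  induction f using MvPolynomial.induction_on with
  | C a => rw [hcop_T_C, Polynomial.eval_C]
  | add p q hp hq => rw [map_add, Polynomial.eval_add, hp, hq]
  | mul_X p i hp => rw [map_mul, Polynomial.eval_mul, hp, hcop_T_X]; simp

theorem hcop_T_zero (f : MvPolynomial (Fin 3) ℂ) :
    Polynomial.eval 0 (hcop_T f) = C (constantCoeff f) := by
  induction f using MvPolynomial.induction_on with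
  | C a => rw [hcop_T_C, Polynomial.eval_C]; simp
  | add p q hp hq => rw [map_add, Polynomial.eval_add, hp, hq]; simp
  | mul_X p i hp => rw [map_mul, Polynomial.eval_mul, hp, hcop_T_X]; simp

theorem hcop_T_inj (f : MvPolynomial (Fin 3) ℂ) (h : hcop_T f = 0) : f = 0 := by
  have := hcop_T_one f
  rw [h, Polynomial.eval_zero] at this
  exact this.symm

theorem hcop_hom (f : MvPolynomial (Fin 3) ℂ) (r : ℂ) (v : Fin 3 → ℂ) (n : ℕ) :
    eval (fun i => r * v i) ((hcop_T f).coeff n) = r ^ n * eval v ((hcop_T f).coeff n) := by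
  have h : (hcop_T f).map (eval (fun i => r * v i)) =
      ((hcop_T f).map (eval v)).comp (Polynomial.C r * Polynomial.X) := by
    induction f using MvPolynomial.induction_on with
    | C a => rw [hcop_T_C]; simp
    | add p q hp hq => rw [map_add, Polynomial.map_add, Polynomial.map_add, hp, hq,
        Polynomial.add_comp]
    | mul_X p i hp =>
      rw [map_mul, Polynomial.map_mul, Polynomial.map_mul, hp, Polynomial.mul_comp, hcop_T_X]
      congr 1
      simp
      ring
  have h2 := congrArg (fun q => Polynomial.coeff q n) h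
  simp only [Polynomial.coeff_map, Polynomial.comp_C_mul_X_coeff] at h2
  rw [h2]
  ring

theorem hcop_coeff_aeval (v : MvPolynomial (Fin 3) ℂ) (p : Polynomial ℂ) (i : ℕ) :
    (Polynomial.aeval (Polynomial.C v * Polynomial.X) p).coeff i = C (p.coeff i) * v ^ i := by
  induction p using Polynomial.induction_on' with
  | add p q hp hq => rw [map_add, Polynomial.coeff_add, hp, hq, Polynomial.coeff_add, map_add]; ring
  | monomial n a =>
    rw [Polynomial.aeval_monomial, mul_pow, ← Polynomial.C_pow]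
    have : (algebraMap ℂ (Polynomial (MvPolynomial (Fin 3) ℂ))) a = Polynomial.C (C a) := rfl
    rw [this, ← mul_assoc, ← Polynomial.C_mul, Polynomial.coeff_C_mul_X_pow,
      Polynomial.coeff_monomial]
    split_ifs with h1 h2 h2
    · rw [h1]
    · exact absurd h1.symm h2
    · exact absurd h2.symm h1
    · simp

theorem hcop_T_G (p : Polynomial ℂ) (i : ℕ) :
    (hcop_T (G 3 p)).coeff i = C (p.coeff i) * hcop_g i := by
  have h : ∀ v w, hcop_T v = Polynomial.C w * Polynomial.X →
      (hcop_T (Polynomial.aeval v p)).coeff i = C (p.coeff i) * w ^ i := by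
    intro v w h
    rw [← Polynomial.aeval_algHom_apply, h, hcop_coeff_aeval]
  unfold G
  rw [map_sub, map_sum, Polynomial.coeff_sub, Polynomial.finsetSum_coeff, Fin.sum_univ_three,
    Fin.sum_univ_three, h _ _ (hcop_T_X 0), h _ _ (hcop_T_X 1), h _ _ (hcop_T_X 2),
    h _ (X 0 + X 1 + X 2) (by rw [map_add, map_add, hcop_T_X, hcop_T_X, hcop_T_X]; simp; ring)]
  unfold hcop_g
  ring

theorem hcop_g_ne (m : ℕ) (hm : 3 ≤ m) : hcop_g m ≠ 0 := by
  intro h
  have h2 := congrArg (eval (fun _ => (1 : ℂ))) h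
  simp only [hcop_g, map_sub, map_add, map_pow, eval_X, one_pow, map_zero] at h2
  have h3 : ((3 : ℕ) : ℂ) ^ m = ((3 : ℕ) : ℂ) := by
    have : ((3 : ℕ) : ℂ) = 1 + 1 + 1 := by norm_num
    rw [this]
    linear_combination - h2
  rw [← Nat.cast_pow] at h3
  have h4 : 3 ^ m = 3 := by exact_mod_cast h3
  have h5 : 3 ^ 3 ≤ 3 ^ m := Nat.pow_le_pow_right (by norm_num) hm
  omega

theorem hcop_lead (p : Polynomial ℂ) (hp : 3 ≤ p.natDegree) :
    (hcop_T (G 3 p)).leadingCoeff = C p.leadingCoeff * hcop_g p.natDegree := by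
  have hp0 : p.leadingCoeff ≠ 0 := by
    rw [Ne, Polynomial.leadingCoeff_eq_zero]
    rintro rfl
    simp at hp
  have h1 : (hcop_T (G 3 p)).coeff p.natDegree ≠ 0 := by
    rw [hcop_T_G]
    exact mul_ne_zero (by simpa using hp0) (hcop_g_ne _ hp)
  have h2 : (hcop_T (G 3 p)).natDegree = p.natDegree := by
    apply le_antisymm
    · rw [Polynomial.natDegree_le_iff_coeff_eq_zero]
      intro N hN
      rw [hcop_T_G, Polynomial.coeff_eq_zero_of_natDegree_lt hN]
      simp
    · exact Polynomial.le_natDegree_of_ne_zero h1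
  rw [Polynomial.leadingCoeff, h2, hcop_T_G]
  rfl

theorem hcop_T_Pi3 : (hcop_T (Pi3 : MvPolynomial (Fin 3) ℂ)).leadingCoeff = Pi3 := by
  have : hcop_T (Pi3 : MvPolynomial (Fin 3) ℂ) = Polynomial.C Pi3 * Polynomial.X ^ 3 := by
    unfold Pi3
    simp only [map_mul, map_add, hcop_T_X]
    ring
  rw [this, Polynomial.leadingCoeff_mul_X_pow, Polynomial.leadingCoeff_C]

/-- evaluation along a curve -/
theorem hcop_ev (f : MvPolynomial (Fin 3) ℂ) (x y z : Polynomial ℂ) (s : ℂ) :
    Polynomial.eval s (aeval ![x, y, z] f) = eval ![x.eval s, y.eval s, z.eval s] f := by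
  induction f using MvPolynomial.induction_on with
  | C a => simp
  | add p q hp hq => rw [map_add, Polynomial.eval_add, hp, hq, map_add]
  | mul_X p i hp =>
    rw [map_mul, Polynomial.eval_mul, hp, map_mul, aeval_X, eval_X]
    fin_cases i <;> rfl

theorem hcop_binom {S : Type*} [CommRing S] (a b : S) (j : ℕ) : ∃ R : S,
    (a + b) ^ (j + 3) = a ^ (j + 3) + ((j + 3).choose 1 : S) * a ^ (j + 2) * b +
      ((j + 3).choose 2 : S) * a ^ (j + 1) * b ^ 2 + ((j + 3).choose 3 : S) * a ^ j * b ^ 3 +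
      b ^ 4 * R := by
  induction j with
  | zero =>
    refine ⟨0, ?_⟩
    simp [Nat.choose]
    ring
  | succ j ih =>
    obtain ⟨R, hR⟩ := ih
    refine ⟨((j + 3).choose 3 : S) * a ^ j + (a + b) * R, ?_⟩
    have e : j + 1 + 3 = (j + 3) + 1 := by ring
    rw [e, pow_succ (a + b), hR]
    rw [Nat.choose_succ_succ' (j + 3) 0, Nat.choose_succ_succ' (j + 3) 1,
      Nat.choose_succ_succ' (j + 3) 2]
    push_cast
    simp only [Nat.choose_zero_right, Nat.choose_one_right]
    push_cast
    ring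

/-- third order expansion along the curves through the line `y + z = 0` -/
theorem hcop_expand (j : ℕ) (hj : Odd (j + 3)) (w : Polynomial ℂ) : ∃ R : Polynomial ℂ,
    aeval ![w - Polynomial.X, 1 + Polynomial.X, Polynomial.X - 1] (hcop_g (j + 3)) =
      -2 * ((j + 3).choose 1 : Polynomial ℂ) * Polynomial.X * (w ^ (j + 2) - 1) -
      2 * ((j + 3).choose 3 : Polynomial ℂ) * Polynomial.X ^ 3 * (w ^ j - 1) +
      Polynomial.X ^ 4 * R := by
  obtain ⟨R1, h1⟩ := hcop_binom w (Polynomial.X : Polynomial ℂ) j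
  obtain ⟨R2, h2⟩ := hcop_binom w (-Polynomial.X : Polynomial ℂ) j
  obtain ⟨R3, h3⟩ := hcop_binom 1 (Polynomial.X : Polynomial ℂ) j
  obtain ⟨R4, h4⟩ := hcop_binom 1 (-Polynomial.X : Polynomial ℂ) j
  refine ⟨R2 - R1 + R3 - R4, ?_⟩
  have e0 : (Polynomial.X - 1 : Polynomial ℂ) ^ (j + 3) = -(1 + -Polynomial.X) ^ (j + 3) := by
    rw [← Odd.neg_pow hj]
    congr 1
    ring
  unfold hcop_g
  simp only [map_sub, map_add, map_pow, aeval_X]
  have e1 : (![w - Polynomial.X, 1 + Polynomial.X, Polynomial.X - 1] : Fin 3 → Polynomial ℂ) 0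
      = w + -Polynomial.X := by simp [sub_eq_add_neg]
  have e2 : (![w - Polynomial.X, 1 + Polynomial.X, Polynomial.X - 1] : Fin 3 → Polynomial ℂ) 1
      = 1 + Polynomial.X := rfl
  have e3 : (![w - Polynomial.X, 1 + Polynomial.X, Polynomial.X - 1] : Fin 3 → Polynomial ℂ) 2
      = Polynomial.X - 1 := rfl
  rw [e1, e2, e3]
  have e4 : (w + -Polynomial.X + (1 + Polynomial.X) + (Polynomial.X - 1) : Polynomial ℂ)
      = w + Polynomial.X := by ring
  rw [e4, e0, h1, h2, h3, h4]
  simp only [one_pow]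
  ring

/-- first order consequence, pointwise -/
theorem hcop_first (j : ℕ) (hj : Odd (j + 3)) (c : ℂ) (f : MvPolynomial (Fin 3) ℂ)
    (h : C c * hcop_g (j + 3) = Pi3 * f) (w : ℂ) :
    -(c * (j + 3) * (w ^ (j + 2) - 1)) = (w ^ 2 - 1) * eval ![w, 1, -1] f := by
  obtain ⟨R, hR⟩ := hcop_expand j hj (Polynomial.C w)
  have h2 := congrArg (aeval ![Polynomial.C w - Polynomial.X, 1 + Polynomial.X,
    (Polynomial.X - 1 : Polynomial ℂ)]) h
  rw [map_mul, map_mul, hR, aeval_C] at h2
  set F := aeval ![Polynomial.C w - Polynomial.X, 1 + Polynomial.X,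
    (Polynomial.X - 1 : Polynomial ℂ)] f with hF
  have e : aeval ![Polynomial.C w - Polynomial.X, 1 + Polynomial.X,
    (Polynomial.X - 1 : Polynomial ℂ)] (Pi3 : MvPolynomial (Fin 3) ℂ) =
      Polynomial.X * (2 * (Polynomial.C w ^ 2 - 1)) := by
    unfold Pi3
    simp only [map_mul, map_add, aeval_X]
    simp
    ring
  rw [e] at h2
  have h3 : (Polynomial.X : Polynomial ℂ) * (Polynomial.C c *
      (-2 * ((j + 3).choose 1 : Polynomial ℂ) * (Polynomial.C w ^ (j + 2) - 1) -
      2 * ((j + 3).choose 3 : Polynomial ℂ) * Polynomial.X ^ 2 * (Polynomial.C w ^ j - 1) +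
      Polynomial.X ^ 3 * R)) = Polynomial.X * ((2 * (Polynomial.C w ^ 2 - 1)) * F) := by
    have e5 : (algebraMap ℂ (Polynomial ℂ)) c = Polynomial.C c := rfl
    rw [e5] at h2
    linear_combination h2
  have h4 := mul_left_cancel₀ Polynomial.X_ne_zero h3
  have h5 := congrArg (Polynomial.eval 0) h4
  have h6 : Polynomial.eval 0 F = eval ![w, 1, -1] f := by
    rw [hF, hcop_ev]
    simp
  simp only [Polynomial.eval_mul, Polynomial.eval_add, Polynomial.eval_sub, Polynomial.eval_pow,
    Polynomial.eval_X, Polynomial.eval_C, Polynomial.eval_one, Polynomial.eval_neg,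
    Polynomial.eval_natCast, Polynomial.eval_ofNat, h6, Nat.choose_one_right] at h5
  push_cast at h5
  linear_combination (1 / 2) * h5

/-- third order consequence, along the curve with parameter `l` -/
theorem hcop_third (j k : ℕ) (hj : Odd (j + 3)) (hk : Odd (k + 3)) (c d : ℂ)
    (f g : MvPolynomial (Fin 3) ℂ)
    (h : C c * hcop_g (j + 3) * f = C d * hcop_g (k + 3) * g) (w l : ℂ)
    (hwj : w ^ (j + 2) = 1) (hwk : w ^ (k + 2) = 1) :
    c * ((j + 3) * (j + 2) * w ^ (j + 1) * l + ((j + 3).choose 3 : ℂ) * (w ^ j - 1)) *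
        eval ![w, 1, -1] f =
      d * ((k + 3) * (k + 2) * w ^ (k + 1) * l + ((k + 3).choose 3 : ℂ) * (w ^ k - 1)) *
        eval ![w, 1, -1] g := by
  set u : Polynomial ℂ := Polynomial.C w + Polynomial.C l * Polynomial.X ^ 2 with hu
  have key : ∀ i : ℕ, Odd (i + 3) → w ^ (i + 2) = 1 → ∃ R : Polynomial ℂ,
      aeval ![u - Polynomial.X, 1 + Polynomial.X, Polynomial.X - 1] (hcop_g (i + 3)) =
        Polynomial.X ^ 3 * R ∧ R.eval 0 =
        -2 * ((i + 3) * (i + 2) * w ^ (i + 1) * l + ((i + 3).choose 3 : ℂ) * (w ^ i - 1)) := by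
    intro i hi hw
    obtain ⟨R, hR⟩ := hcop_expand i hi u
    obtain ⟨Q, hQ⟩ : ∃ Q : Polynomial ℂ, u ^ (i + 2) = 1 +
        Polynomial.X ^ 2 * (Polynomial.C ((i + 2) * w ^ (i + 1) * l) + Polynomial.X ^ 2 * Q) := by
      obtain ⟨Q, hQ⟩ := Polynomial.powAddExpansion (Polynomial.C w)
        (Polynomial.C l * Polynomial.X ^ 2) (i + 2)
      refine ⟨Q * Polynomial.C l ^ 2, ?_⟩
      rw [hu, hQ, ← Polynomial.C_pow, hw]
      simp only [Polynomial.C_mul, Polynomial.C_pow, Polynomial.C_add, Polynomial.C_1]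
      push_cast
      rw [map_natCast Polynomial.C i, map_ofNat Polynomial.C 2]
      ring
    refine ⟨-2 * ((i + 3).choose 1 : Polynomial ℂ) * (Polynomial.C ((i + 2) * w ^ (i + 1) * l) +
      Polynomial.X ^ 2 * Q) - 2 * ((i + 3).choose 3 : Polynomial ℂ) * (u ^ i - 1) +
      Polynomial.X * R, ?_, ?_⟩
    · rw [hR, hQ]
      ring
    · simp [hu]
      ring
  obtain ⟨R1, h1, h1'⟩ := key j hj hwj
  obtain ⟨R2, h2, h2'⟩ := key k hk hwk
  have h3 := congrArg (aeval ![u - Polynomial.X, 1 + Polynomial.X,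
    (Polynomial.X - 1 : Polynomial ℂ)]) h
  rw [map_mul, map_mul, map_mul, map_mul, h1, h2, aeval_C, aeval_C] at h3
  have h4 : (Polynomial.X : Polynomial ℂ) ^ 3 * (algebraMap ℂ (Polynomial ℂ) c * R1 *
      aeval ![u - Polynomial.X, 1 + Polynomial.X, (Polynomial.X - 1 : Polynomial ℂ)] f) =
      Polynomial.X ^ 3 * (algebraMap ℂ (Polynomial ℂ) d * R2 *
      aeval ![u - Polynomial.X, 1 + Polynomial.X, (Polynomial.X - 1 : Polynomial ℂ)] g) := by
    linear_combination h3
  have h5 := congrArg (Polynomial.eval 0) (mul_left_cancel₀ (pow_ne_zero 3 Polynomial.X_ne_zero) h4)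
  rw [Polynomial.eval_mul, Polynomial.eval_mul, Polynomial.eval_mul, Polynomial.eval_mul,
    hcop_ev, hcop_ev, h1', h2'] at h5
  have e1 : (![Polynomial.eval 0 (u - Polynomial.X), Polynomial.eval 0 (1 + Polynomial.X),
      Polynomial.eval 0 (Polynomial.X - 1 : Polynomial ℂ)] : Fin 3 → ℂ) = ![w, 1, -1] := by
    simp [hu]
  rw [e1] at h5
  have e2 : ∀ z : ℂ, Polynomial.eval 0 (algebraMap ℂ (Polynomial ℂ) z) = z := by
    intro z
    simp
  rw [e2, e2] at h5
  linear_combination (-1 / 2) * h5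

/-- the top form of a cofactor -/
theorem hcop_top (p : Polynomial ℂ) (hpd : 3 ≤ p.natDegree) (H B A : MvPolynomial (Fin 3) ℂ)
    (h : G 3 p = Pi3 * H) (hH : H = B * A) :
    C p.leadingCoeff * hcop_g p.natDegree =
      Pi3 * ((hcop_T B).leadingCoeff * (hcop_T A).leadingCoeff) := by
  rw [← hcop_lead p hpd, h, hH, map_mul, map_mul, Polynomial.leadingCoeff_mul,
    Polynomial.leadingCoeff_mul, hcop_T_Pi3]

theorem hcop_odd (p : Polynomial ℂ) (hp : OddP p) (hpd : 3 ≤ p.natDegree) :
    Odd p.natDegree := by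
  have hp0 : p.leadingCoeff ≠ 0 := by
    rw [Ne, Polynomial.leadingCoeff_eq_zero]
    rintro rfl
    simp at hpd
  by_contra hodd
  rw [Nat.not_odd_iff_even] at hodd
  have h1 := congrArg (fun q => Polynomial.coeff q p.natDegree) hp
  simp only [Polynomial.coeff_neg] at h1
  have h2 : p.comp (-Polynomial.X) = p.comp (Polynomial.C (-1) * Polynomial.X) := by simp
  rw [h2, Polynomial.comp_C_mul_X_coeff, hodd.neg_one_pow, mul_one] at h1
  have h3 : p.coeff p.natDegree = 0 := by linear_combination (1 / 2) * h1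
  exact hp0 h3

/-- the top form of a common factor has a zero on the line `y = 1, z = -1` -/
theorem hcop_root (B A : MvPolynomial (Fin 3) ℂ) (hB : ¬ IsUnit B) (hB0 : B ≠ 0) (m : ℕ)
    (hm : 3 ≤ m) (c : ℂ) (hc : c ≠ 0)
    (h : C c * hcop_g m = Pi3 * ((hcop_T B).leadingCoeff * A)) :
    ∃ w : ℂ, eval ![w, 1, -1] (hcop_T B).leadingCoeff = 0 := by
  set b := (hcop_T B).leadingCoeff with hb
  set n := (hcop_T B).natDegree with hn
  have hn1 : n ≠ 0 := by
    intro h0
    have h1 := Polynomial.eq_C_of_natDegree_eq_zero (hn.symm.trans h0)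
    have h2 := hcop_T_zero B
    have h3 := hcop_T_one B
    rw [h1, Polynomial.eval_C] at h2 h3
    rw [h2] at h3
    apply hB
    rw [← h3]
    have h4 : constantCoeff B ≠ 0 := by
      intro h5
      rw [h5, map_zero] at h3
      exact hB0 h3.symm
    exact (IsUnit.mk0 _ h4).map C
  -- value at `(1,0,0)`
  have hb1 : eval ![1, 0, 0] b ≠ 0 := by
    intro h0
    have h1 := congrArg (aeval ![(1 : Polynomial ℂ), Polynomial.X, 0]) h
    rw [map_mul, map_mul, map_mul, aeval_C] at h1
    have e1 : aeval ![(1 : Polynomial ℂ), Polynomial.X, 0] (Pi3 : MvPolynomial (Fin 3) ℂ) =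
        Polynomial.X * (1 + Polynomial.X) := by
      unfold Pi3
      simp only [map_mul, map_add, aeval_X]
      simp
      ring
    have e2 : aeval ![(1 : Polynomial ℂ), Polynomial.X, 0] (hcop_g m) =
        1 + Polynomial.X ^ m - (Polynomial.X + 1) ^ m := by
      unfold hcop_g
      simp only [map_sub, map_add, map_pow, aeval_X]
      simp [zero_pow (show m ≠ 0 by omega)]
      ring
    rw [e1, e2] at h1
    have h2 : Polynomial.coeff _ 1 = Polynomial.coeff _ 1 := congrArg (fun q => Polynomial.coeff q 1) h1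
    rw [show (algebraMap ℂ (Polynomial ℂ)) c = Polynomial.C c from rfl, Polynomial.coeff_C_mul,
      mul_assoc, Polynomial.coeff_X_mul, Polynomial.coeff_zero_eq_eval_zero, Polynomial.eval_mul,
      Polynomial.eval_mul, hcop_ev] at h2
    have e3 : (![Polynomial.eval 0 (1 : Polynomial ℂ), Polynomial.eval 0 Polynomial.X,
        Polynomial.eval 0 (0 : Polynomial ℂ)] : Fin 3 → ℂ) = ![1, 0, 0] := by
      simp
    rw [e3, h0, zero_mul, mul_zero, Polynomial.coeff_sub, Polynomial.coeff_add,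
      Polynomial.coeff_X_pow, if_neg (by omega), Polynomial.coeff_X_add_one_pow] at h2
    rw [Polynomial.coeff_one, if_neg one_ne_zero, Nat.choose_one_right] at h2
    have h3 : (m : ℂ) ≠ 0 := by
      exact_mod_cast (show m ≠ 0 by omega)
    apply mul_ne_zero hc h3
    linear_combination - h2
  by_contra hno
  push Not at hno
  set r : Polynomial ℂ := aeval ![Polynomial.X, 1, -1] b with hr
  have hr1 : ∀ s, r.eval s = eval ![s, 1, -1] b := by
    intro s
    rw [hr, hcop_ev]
    simp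
  have hdeg : r.degree = 0 := by
    by_contra hd
    obtain ⟨s, hs⟩ := IsAlgClosed.exists_root r hd
    rw [Polynomial.IsRoot.def, hr1] at hs
    exact hno s hs
  have hr2 := Polynomial.eq_C_of_degree_eq_zero hdeg
  set r0 := r.coeff 0 with hr0
  have h5 : (aeval ![(1 : Polynomial ℂ), Polynomial.X, -Polynomial.X] b) =
      Polynomial.C r0 * Polynomial.X ^ n := by
    apply mul_left_cancel₀ (Polynomial.X_ne_zero (R := ℂ))
    apply Polynomial.funext
    intro s
    rw [Polynomial.eval_mul, Polynomial.eval_mul, Polynomial.eval_X]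
    by_cases hs : s = 0
    · rw [hs, zero_mul, zero_mul]
    · congr 1
      have e1 : (fun i => s * (![s⁻¹, 1, -1] : Fin 3 → ℂ) i) = ![1, s, -s] := by
        funext i
        fin_cases i
        · simp [hs]
        · simp
        · simp
      have e2 := hcop_hom B s ![s⁻¹, 1, -1] n
      rw [e1] at e2
      have e3 : (hcop_T B).coeff n = b := rfl
      rw [e3, ← hr1 s⁻¹] at e2
      rw [hcop_ev]
      simp only [Polynomial.eval_one, Polynomial.eval_X, Polynomial.eval_neg,
        Polynomial.eval_mul, Polynomial.eval_C, Polynomial.eval_pow]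
      rw [e2]
      nth_rewrite 1 [hr2]
      rw [Polynomial.eval_C]
      ring
  have h6 := congrArg (Polynomial.eval 0) h5
  rw [hcop_ev] at h6
  simp only [Polynomial.eval_one, Polynomial.eval_X, Polynomial.eval_neg, neg_zero,
    Polynomial.eval_mul, Polynomial.eval_C, Polynomial.eval_pow, zero_pow hn1, mul_zero] at h6
  exact hb1 h6

/-- the root is simple -/
theorem hcop_simple (j : ℕ) (hj : Odd (j + 3)) (c : ℂ) (hc : c ≠ 0)
    (b a : MvPolynomial (Fin 3) ℂ) (h : C c * hcop_g (j + 3) = Pi3 * (b * a)) (w : ℂ)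
    (hw : eval ![w, 1, -1] b = 0) :
    w ^ (j + 2) = 1 ∧ w ^ 2 ≠ 1 ∧ eval ![w, 1, -1] a ≠ 0 := by
  have hc3 : c * ((j : ℂ) + 3) ≠ 0 := by
    apply mul_ne_zero hc
    exact_mod_cast (show j + 3 ≠ 0 by omega)
  have h1 := hcop_first j hj c (b * a) h
  have hw1 : w ^ (j + 2) = 1 := by
    have h2 := h1 w
    rw [map_mul, hw, zero_mul, mul_zero] at h2
    have h3 : c * ((j : ℂ) + 3) * (w ^ (j + 2) - 1) = 0 := by linear_combination - h2
    rcases mul_eq_zero.1 h3 with h4 | h4
    · exact absurd h4 hc3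
    · linear_combination h4
  set P : Polynomial ℂ := aeval ![Polynomial.X, 1, -1] b with hP
  set Q : Polynomial ℂ := aeval ![Polynomial.X, 1, -1] a with hQ
  have hP1 : ∀ s, P.eval s = eval ![s, 1, -1] b := by
    intro s
    rw [hP, hcop_ev]
    simp
  have hQ1 : ∀ s, Q.eval s = eval ![s, 1, -1] a := by
    intro s
    rw [hQ, hcop_ev]
    simp
  have h2 : -(Polynomial.C (c * (j + 3)) * (Polynomial.X ^ (j + 2) - 1)) =
      (Polynomial.X ^ 2 - 1) * (P * Q) := by
    apply Polynomial.funext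
    intro s
    have := h1 s
    rw [map_mul, ← hP1, ← hQ1] at this
    simp only [Polynomial.eval_mul, Polynomial.eval_neg, Polynomial.eval_sub, Polynomial.eval_pow,
      Polynomial.eval_X, Polynomial.eval_C, Polynomial.eval_one]
    linear_combination this
  have h3 := congrArg (Polynomial.eval w) (congrArg Polynomial.derivative h2)
  simp only [Polynomial.derivative_neg, Polynomial.derivative_mul, Polynomial.derivative_C,
    Polynomial.derivative_sub, Polynomial.derivative_X_pow, Polynomial.derivative_one,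
    Polynomial.eval_mul, Polynomial.eval_neg, Polynomial.eval_sub, Polynomial.eval_pow,
    Polynomial.eval_add, Polynomial.eval_X, Polynomial.eval_C, Polynomial.eval_one,
    Polynomial.eval_zero, hP1 w, hw, hQ1 w] at h3
  have hw0 : w ≠ 0 := by
    rintro rfl
    rw [zero_pow (by omega)] at hw1
    exact zero_ne_one hw1
  have hj2 : ((j : ℂ) + 2) ≠ 0 := by
    exact_mod_cast (show j + 2 ≠ 0 by omega)
  have h4 : c * ((j : ℂ) + 3) * ((j + 2) * w ^ (j + 1)) ≠ 0 :=
    mul_ne_zero hc3 (mul_ne_zero hj2 (pow_ne_zero _ hw0))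
  have h5 : c * ((j : ℂ) + 3) * ((j + 2) * w ^ (j + 1)) =
      -((w ^ 2 - 1) * (Polynomial.eval w (Polynomial.derivative P) * eval ![w, 1, -1] a)) := by
    have e1 : j + 2 - 1 = j + 1 := by omega
    rw [e1] at h3
    push_cast at h3
    linear_combination - h3
  refine ⟨hw1, ?_, ?_⟩
  · intro h6
    apply h4
    rw [h5, h6]
    ring
  · intro h6
    apply h4
    rw [h5, h6]
    ring

theorem H_coprime (p q : Polynomial ℂ) (hp : OddP p) (hq : OddP q) (hpd : 3 ≤ p.natDegree)
    (hqd : 3 ≤ q.natDegree) (hne : q.natDegree ≠ p.natDegree) (Hp Hq : MvPolynomial (Fin 3) ℂ)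
    (h1 : G 3 p = Pi3 * Hp) (h2 : G 3 q = Pi3 * Hq) (B : MvPolynomial (Fin 3) ℂ) (hB : Prime B)
    (hBq : B ∣ Hq) : ¬ B ∣ Hp := by
  rintro ⟨A, hA⟩
  obtain ⟨D, hD⟩ := hBq
  have t1 := hcop_top p hpd Hp B A h1 hA
  have t2 := hcop_top q hqd Hq B D h2 hD
  have hp0 : p.leadingCoeff ≠ 0 := by
    rw [Ne, Polynomial.leadingCoeff_eq_zero]
    rintro rfl
    simp at hpd
  have hq0 : q.leadingCoeff ≠ 0 := by
    rw [Ne, Polynomial.leadingCoeff_eq_zero]
    rintro rfl
    simp at hqd
  have o1 := hcop_odd p hp hpd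
  have o2 := hcop_odd q hq hqd
  obtain ⟨w, hw⟩ := hcop_root B (hcop_T A).leadingCoeff hB.not_isUnit hB.ne_zero _ hpd _ hp0 t1
  obtain ⟨j, hj⟩ : ∃ j, p.natDegree = j + 3 := ⟨p.natDegree - 3, by omega⟩
  obtain ⟨k, hk⟩ : ∃ k, q.natDegree = k + 3 := ⟨q.natDegree - 3, by omega⟩
  rw [hj] at t1 o1
  rw [hk] at t2 o2
  set c := p.leadingCoeff with hc
  set d := q.leadingCoeff with hd
  set b := (hcop_T B).leadingCoeff with hb
  set a := (hcop_T A).leadingCoeff with ha
  set e := (hcop_T D).leadingCoeff with he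
  obtain ⟨s1, s2, s3⟩ := hcop_simple j o1 c hp0 b a t1 w hw
  obtain ⟨r1, r2, r3⟩ := hcop_simple k o2 d hq0 b e t2 w hw
  have h3 : C c * hcop_g (j + 3) * e = C d * hcop_g (k + 3) * a := by
    rw [t1, t2]
    ring
  have x0 := hcop_third j k o1 o2 c d e a h3 w 0 s1 r1
  have x1 := hcop_third j k o1 o2 c d e a h3 w 1 s1 r1
  set a0 := eval ![w, 1, -1] a with ha0
  set e0 := eval ![w, 1, -1] e with he0
  have ch : ∀ i : ℕ, 6 * (((i + 3).choose 3 : ℕ) : ℂ) = (i + 3) * (i + 2) * (i + 1) := by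
    intro i
    have h : 6 * (i + 3).choose 3 = (i + 3) * (i + 2) * (i + 1) := by
      induction i with
      | zero => rfl
      | succ i ih =>
        have e1 : i + 1 + 3 = (i + 3) + 1 := by ring
        rw [e1, Nat.choose_succ_succ' (i + 3) 2, mul_add, ih, Nat.choose_two_right]
        have h2 : 2 ∣ (i + 3) * (i + 3 - 1) := by
          have := Nat.even_mul_pred_self (i + 3)
          exact this.two_dvd
        obtain ⟨z, hz⟩ := h2
        rw [hz, Nat.mul_div_cancel_left z (by norm_num)]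
        have e3 : i + 3 - 1 = i + 2 := by omega
        rw [e3] at hz
        nlinarith
    exact_mod_cast h
  have hw0 : w ≠ 0 := by
    rintro rfl
    rw [zero_pow (by omega)] at s1
    exact zero_ne_one s1
  -- the differences
  have y1 : c * ((j + 3) * (j + 2)) * e0 = d * ((k + 3) * (k + 2)) * a0 := by
    have u1 : w * w ^ (j + 1) = 1 := by rw [← s1]; ring
    have u2 : w * w ^ (k + 1) = 1 := by rw [← r1]; ring
    linear_combination w * x1 - w * x0 - c * ((j + 3) * (j + 2)) * e0 * u1 +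
      d * ((k + 3) * (k + 2)) * a0 * u2
  have y2 : c * ((j + 3) * (j + 2) * (j + 1)) * e0 * (1 - w ^ 2) =
      d * ((k + 3) * (k + 2) * (k + 1)) * a0 * (1 - w ^ 2) := by
    have u1 : w ^ 2 * w ^ j = 1 := by rw [← s1]; ring
    have u2 : w ^ 2 * w ^ k = 1 := by rw [← r1]; ring
    rw [← ch j, ← ch k]
    linear_combination 6 * w ^ 2 * x0 - c * (6 * ((j + 3).choose 3 : ℂ)) * e0 * u1 +
      d * (6 * ((k + 3).choose 3 : ℂ)) * a0 * u2
  have y3 : (1 - w ^ 2) ≠ 0 := by
    intro h
    apply s2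
    linear_combination - h
  have y4 := mul_right_cancel₀ y3 y2
  have y5 : ((j : ℂ) - k) * (c * ((j + 3) * (j + 2)) * e0) = 0 := by
    linear_combination y4 - (k + 1) * y1
  have y6 : ((j : ℂ) - k) ≠ 0 := by
    intro h
    apply hne
    have : (j : ℂ) = k := by linear_combination h
    have h7 : j = k := by exact_mod_cast this
    omega
  have y7 : ((j : ℂ) + 3) ≠ 0 := by exact_mod_cast (show j + 3 ≠ 0 by omega)
  have y8 : ((j : ℂ) + 2) ≠ 0 := by exact_mod_cast (show j + 2 ≠ 0 by omega)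
  exact mul_ne_zero y6 (mul_ne_zero (mul_ne_zero hp0 (mul_ne_zero y7 y8)) r3) y5

end Pool.Agent.Helper96.FK
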