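import Pool.Agent.Helper96.FK.Ift1

/-!
# FK-11b: construction of the formal symmetry by recursion

Start with `h 0 = 0, h1, h2, h3` (all other `0`): the equations in degrees `0, 1, 2, 3` are the
hypotheses (`EqsAt` in degree `s` only involves `h j` for `j ≤ s`, because `hc 0 F = hc 0 Gp = 0`).
Iterate `next_step` (choice) and take the diagonal sequence.
-/

set_option autoImplicit false

open MvPolynomial

namespace Pool.Agent.Helper96.FK

private theorem ift_sum_congr (F : A L) (F0 : hc 0 F = 0) {h h' : ℕ → A L} {s : ℕ}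
    (hh : ∀ j, j ≤ s → h j = h' j) :
    ∑ x ∈ Finset.HasAntidiagonal.antidiagonal (s + 1), br (hc x.1 F) (h x.2) =
      ∑ x ∈ Finset.HasAntidiagonal.antidiagonal (s + 1), br (hc x.1 F) (h' x.2) := by
  refine Finset.sum_congr rfl fun x hx => ?_
  rw [Finset.HasAntidiagonal.mem_antidiagonal] at hx
  by_cases h1 : x.2 ≤ s
  · rw [hh _ h1]
  · have h2 : x.1 = 0 := by omega
    rw [h2, F0, br_zero_left, br_zero_left]

private theorem ift_congr {c : ℂ} {F Gp : A L} (F0 : hc 0 F = 0) (G0 : hc 0 Gp = 0)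
    {h h' : ℕ → A L} {s : ℕ} (hh : ∀ j, j ≤ s → h j = h' j) (he : EqsAt c F Gp h s) :
    EqsAt c F Gp h' s := by
  refine ⟨?_, ?_⟩
  · rw [← ift_sum_congr F F0 hh]
    exact he.1
  · rw [← ift_sum_congr Gp G0 hh, ← hh s le_rfl]
    exact he.2

theorem ift {c : ℂ} {q : Polynomial ℂ} {p : Polynomial L} {F Gp : A L}
    (hd : Datum c q p F Gp) (h1 h2 h3 : A L) (hh1 : h1.IsHomogeneous 1)
    (hh2 : h2.IsHomogeneous 2) (hh3 : h3.IsHomogeneous 3)
    (e1F : br (hc 1 F) h1 = 0)
    (e1G : br (hc 1 Gp) h1 + C (Polynomial.C c) * cd h1 = 0)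
    (e2F : br (hc 1 F) h2 + br (hc 2 F) h1 = 0)
    (e2G : br (hc 1 Gp) h2 + br (hc 2 Gp) h1 + C (Polynomial.C c) * cd h2 = 0)
    (e3F : br (hc 1 F) h3 + br (hc 2 F) h2 + br (hc 3 F) h1 = 0)
    (e3G : br (hc 1 Gp) h3 + br (hc 2 Gp) h2 + br (hc 3 Gp) h1 +
      C (Polynomial.C c) * cd h3 = 0) :
    ∃ h : ℕ → A L, Ser h ∧ h 1 = h1 ∧ h 2 = h2 ∧ FC F h ∧ FN c Gp h := by
  classical
  have F0 := hd.F0
  have G0 := hd.G0
  let P : ℕ → (ℕ → A L) → Prop := fun n h => Ser h ∧ (∀ s, s ≤ n + 3 → EqsAt c F Gp h s) ∧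
    h 1 = h1 ∧ h 2 = h2
  -- the start
  let g : ℕ → A L := fun s => if s = 1 then h1 else if s = 2 then h2 else if s = 3 then h3 else 0
  have g0 : g 0 = 0 := rfl
  have g1 : g 1 = h1 := rfl
  have g2 : g 2 = h2 := rfl
  have g3 : g 3 = h3 := rfl
  have hsum : ∀ (F' : A L) (s : ℕ), ∑ x ∈ Finset.HasAntidiagonal.antidiagonal (s + 1),
      br (hc x.1 F') (g x.2) = ∑ i ∈ Finset.range (s + 2), br (hc i F') (g (s + 1 - i)) := by
    intro F' s
    exact Finset.Nat.sum_antidiagonal_eq_sum_range_succ (fun i j => br (hc i F') (g j)) (s + 1)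
  have hstart : P 0 g := by
    refine ⟨⟨fun s => ?_, g0⟩, fun s hs => ?_, g1, g2⟩
    · show (g s).IsHomogeneous s
      by_cases k1 : s = 1
      · subst k1
        exact hh1
      by_cases k2 : s = 2
      · subst k2
        exact hh2
      by_cases k3 : s = 3
      · subst k3
        exact hh3
      · have : g s = 0 := by
          show (if s = 1 then h1 else if s = 2 then h2 else if s = 3 then h3 else 0) = 0
          rw [if_neg k1, if_neg k2, if_neg k3]
        rw [this]
        exact isHomogeneous_zero _ _ _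
    · have hs' : s = 0 ∨ s = 1 ∨ s = 2 ∨ s = 3 := by omega
      rcases hs' with rfl | rfl | rfl | rfl
      · refine ⟨?_, ?_⟩
        · rw [hsum]
          simp [Finset.sum_range_succ, F0, br_zero_left, g0, br_zero_right]
        · rw [hsum]
          simp [Finset.sum_range_succ, G0, br_zero_left, g0, br_zero_right]
      · refine ⟨?_, ?_⟩
        · rw [hsum]
          simp [Finset.sum_range_succ, F0, br_zero_left, g0, g1, br_zero_right, e1F]
        · rw [hsum]
          simp [Finset.sum_range_succ, G0, br_zero_left, g0, g1, br_zero_right]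
          exact e1G
      · refine ⟨?_, ?_⟩
        · rw [hsum]
          simp [Finset.sum_range_succ, F0, br_zero_left, g0, g1, g2, br_zero_right]
          exact e2F
        · rw [hsum]
          simp [Finset.sum_range_succ, G0, br_zero_left, g0, g1, g2, br_zero_right]
          exact e2G
      · refine ⟨?_, ?_⟩
        · rw [hsum]
          simp [Finset.sum_range_succ, F0, br_zero_left, g0, g1, g2, g3, br_zero_right]
          exact e3F
        · rw [hsum]
          simp [Finset.sum_range_succ, G0, br_zero_left, g0, g1, g2, g3, br_zero_right]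
          exact e3G
  -- one step
  have hnext : ∀ (n : ℕ) (h : {h : ℕ → A L // P n h}), ∃ h' : {h : ℕ → A L // P (n + 1) h},
      ∀ j, j < n + 4 → h'.1 j = h.1 j := by
    rintro n ⟨h, hser, heqs, k1, k2⟩
    obtain ⟨x, hx, hxe⟩ := next_step hd n h hser heqs
    have hag : ∀ j, j < n + 4 → Function.update h (n + 4) x j = h j := fun j hj =>
      Function.update_of_ne (by omega) _ _
    refine ⟨⟨Function.update h (n + 4) x, ⟨?_, ?_⟩, ?_, ?_, ?_⟩, hag⟩
    · intro s
      by_cases hs : s = n + 4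
      · subst hs
        rw [Function.update_self]
        exact hx
      · rw [Function.update_of_ne hs]
        exact hser.1 s
    · rw [hag 0 (by omega)]
      exact hser.2
    · intro s hs
      by_cases hs' : s = n + 4
      · subst hs'
        exact hxe
      · exact ift_congr F0 G0 (fun j hj => (hag j (by omega)).symm) (heqs s (by omega))
    · rw [hag 1 (by omega), k1]
    · rw [hag 2 (by omega), k2]
  choose nx hnx using hnext
  let sq : ∀ n : ℕ, {h : ℕ → A L // P n h} := fun n =>
    Nat.rec (motive := fun n => {h : ℕ → A L // P n h}) ⟨g, hstart⟩ (fun n h => nx n h) n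
  have hsq : ∀ n j, j < n + 4 → (sq (n + 1)).1 j = (sq n).1 j := fun n j hj =>
    hnx n (sq n) j hj
  have hsq2 : ∀ d n j, j < n + 4 → (sq (n + d)).1 j = (sq n).1 j := by
    intro d
    induction d with
    | zero => intro n j _; rfl
    | succ d ih =>
      intro n j hj
      have h5 : n + (d + 1) = (n + d) + 1 := by omega
      rw [h5, hsq (n + d) j (by omega), ih n j hj]
  let H : ℕ → A L := fun s => (sq s).1 s
  have hH : ∀ s j, j ≤ s → (sq s).1 j = H j := by
    intro s j hj
    obtain ⟨d, rfl⟩ := Nat.exists_eq_add_of_le hj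
    exact hsq2 d j j (by omega)
  have heq : ∀ s, EqsAt c F Gp H s := fun s =>
    ift_congr F0 G0 (fun j hj => hH s j hj) ((sq s).2.2.1 s (by omega))
  refine ⟨H, ⟨fun s => (sq s).2.1.1 s, (sq 0).2.1.2⟩, ?_, ?_, fun s => (heq s).1,
    fun s => (heq s).2⟩
  · exact (sq 1).2.2.2.1
  · exact (sq 2).2.2.2.2

end Pool.Agent.Helper96.FK
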