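import Pool.Agent.Helper96.FK.Step
import Pool.Agent.Helper96.FK.TInj

/-!
# FK-11a: the induction step

Induction step in degree `s = n + 4`: let `h` satisfy both equations in all degrees `≤ n + 3`, put
`H = ∑_{j ≤ n+3} h j`, `RF = hc s (br F H)`, `RG = hc s (br Gp H + c cd H)`; the components of
`br F H` and `br Gp H + c cd H` in degrees `< s` vanish. The operators `ad_F` and
`N = ad_Gp + c cd` commute (`jacobi`, `cd_br`, `comm`), so taking degree `s` components
`br (ell q) RG = br (ell p) RF + c cd RF`. With symmetric symbols `RF = T s PF`, `RG = T s PG`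
(`T_surj_symm`) and `T_inj` this is the hypothesis of `step4`, so `PF = emb (G s q) * Y`, `Y`
symmetric, and `x = -T s Y` satisfies `br (ell q) x = -RF`; then
`G_q ((G_p + c∂) Y - PG) = 0` gives the second equation.
Then build the sequence by recursion.
-/

set_option autoImplicit false

open MvPolynomial

namespace Pool.Agent.Helper96.FK

section general

variable {R : Type*} [CommRing R]

private theorem ift1_low {K U : A R} {s : ℕ} (hK : hc 0 K = 0)
    (hU : ∀ j, j < s → hc j U = 0) : hc s (br K U) = br (hc 1 K) (hc s U) := by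
  rw [hc_br, Finset.sum_eq_single (1, s)]
  · rintro ⟨i, j⟩ hx hne
    rw [Finset.HasAntidiagonal.mem_antidiagonal] at hx
    simp only at hx ⊢
    rcases lt_trichotomy j s with h | h | h
    · rw [hU j h, br_zero_right]
    · exfalso
      apply hne
      subst h
      have : i = 1 := by omega
      rw [this]
    · have : i = 0 := by omega
      rw [this, hK, br_zero_left]
  · intro h
    exfalso
    apply h
    rw [Finset.HasAntidiagonal.mem_antidiagonal]
    exact add_comm 1 s

private theorem ift1_hcH {h : ℕ → A R} (hh : ∀ s, (h s).IsHomogeneous s) (s j : ℕ) :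
    hc j (∑ i ∈ Finset.range s, h i) = if j < s then h j else 0 := by
  rw [map_sum]
  have h1 : ∀ i, hc j (h i) = if j = i then h i else 0 :=
    fun i => homogeneousComponent_of_mem (hh i)
  simp only [h1]
  rw [Finset.sum_ite_eq]
  simp only [Finset.mem_range]

private theorem ift1_lowH {K : A R} (hK : hc 0 K = 0) {h : ℕ → A R}
    (hh : ∀ s, (h s).IsHomogeneous s) {s k : ℕ} (hk : k < s) :
    hc k (br K (∑ i ∈ Finset.range s, h i)) =
      ∑ y ∈ Finset.HasAntidiagonal.antidiagonal (k + 1), br (hc y.1 K) (h y.2) := by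
  rw [hc_br]
  refine Finset.sum_congr rfl ?_
  rintro ⟨i, j⟩ hx
  rw [Finset.HasAntidiagonal.mem_antidiagonal] at hx
  simp only at hx ⊢
  rw [ift1_hcH hh]
  by_cases hj : j < s
  · rw [if_pos hj]
  · have : i = 0 := by omega
    rw [this, hK, br_zero_left, br_zero_left]

private theorem ift1_sum {K : A R} (hK : hc 0 K = 0) {h : ℕ → A R}
    (hh : ∀ s, (h s).IsHomogeneous s) (s : ℕ) (x : A R) :
    ∑ y ∈ Finset.HasAntidiagonal.antidiagonal (s + 1),
      br (hc y.1 K) (Function.update h s x y.2) =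
      hc s (br K (∑ i ∈ Finset.range s, h i)) + br (hc 1 K) x := by
  have h1 : ∀ y ∈ Finset.HasAntidiagonal.antidiagonal (s + 1),
      br (hc y.1 K) (Function.update h s x y.2) =
        br (hc y.1 K) (hc y.2 (∑ i ∈ Finset.range s, h i)) +
          if y = (1, s) then br (hc 1 K) x else 0 := by
    rintro ⟨i, j⟩ hx
    rw [Finset.HasAntidiagonal.mem_antidiagonal] at hx
    simp only at hx ⊢
    rw [ift1_hcH hh]
    rcases lt_trichotomy j s with h | h | h
    · rw [if_pos h, Function.update_of_ne h.ne, if_neg, add_zero]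
      intro h2
      exact h.ne (congrArg Prod.snd h2)
    · subst h
      have : i = 1 := by omega
      subst this
      rw [if_neg (lt_irrefl j), Function.update_self, if_pos rfl, br_zero_right, zero_add]
    · have : i = 0 := by omega
      subst this
      rw [hK, br_zero_left, br_zero_left, zero_add, if_neg]
      intro h2
      exact h.ne' (congrArg Prod.snd h2)
  rw [Finset.sum_congr rfl h1, Finset.sum_add_distrib, ← hc_br, Finset.sum_ite_eq', if_pos]
  rw [Finset.HasAntidiagonal.mem_antidiagonal]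
  exact add_comm 1 s

end general

/-- both equations in degree `s` -/
def EqsAt (c : ℂ) (F Gp : A L) (h : ℕ → A L) (s : ℕ) : Prop :=
  ∑ x ∈ Finset.HasAntidiagonal.antidiagonal (s + 1), br (hc x.1 F) (h x.2) = 0 ∧
  ∑ x ∈ Finset.HasAntidiagonal.antidiagonal (s + 1), br (hc x.1 Gp) (h x.2) +
    C (Polynomial.C c) * cd (h s) = 0

private theorem ift1_comm {c : ℂ} {F Gp : A L} (hcomm : br F Gp = C (Polynomial.C c) * cd F)
    (H : A L) : br F (br Gp H + C (Polynomial.C c) * cd H) =
      br Gp (br F H) + C (Polynomial.C c) * cd (br F H) := by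
  rw [br_add_right, jacobi F Gp H, hcomm, br_C_mul_left, br_C_mul_right, cd_br]
  ring

private theorem ift1_cd_symm {s : ℕ} {P : MvPolynomial (Fin s) L} (hP : P.IsSymmetric) :
    (cd P).IsSymmetric := fun e => by
  have h : ∀ Q : MvPolynomial (Fin s) L, cd (rename e Q) = rename e (cd Q) := by
    intro Q
    induction Q using MvPolynomial.induction_on' with
    | monomial u a => rw [rename_monomial, cd_monomial, cd_monomial, rename_monomial]
    | add P Q hP hQ => rw [map_add, map_add, hP, hQ, map_add, map_add]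
  rw [← h, hP e]

private theorem ift1_T_C_mul (s : ℕ) (r : L) (P : MvPolynomial (Fin s) L) :
    T s (C r * P) = C r * T s P := by
  rw [← smul_eq_C_mul, map_smul, smul_eq_C_mul]

private theorem ift1_hcom {c : ℂ} {F Gp H : A L} {s : ℕ}
    (hcomm : br F Gp = C (Polynomial.C c) * cd F) (hF0 : hc 0 F = 0) (hG0 : hc 0 Gp = 0)
    (hU0 : ∀ j, j < s → hc j (br F H) = 0)
    (hV0 : ∀ j, j < s → hc j (br Gp H + C (Polynomial.C c) * cd H) = 0) :
    br (hc 1 F) (hc s (br Gp H + C (Polynomial.C c) * cd H)) =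
      br (hc 1 Gp) (hc s (br F H)) + C (Polynomial.C c) * cd (hc s (br F H)) := by
  have e := congrArg (fun x => hc s x) (ift1_comm hcomm H)
  rw [map_add (hc s), homogeneousComponent_C_mul, hc_cd, ift1_low hF0 hV0,
    ift1_low hG0 hU0] at e
  exact e

private theorem ift1_symb {c : ℂ} {q : Polynomial ℂ} {p : Polynomial L} {s : ℕ}
    {PF PG : MvPolynomial (Fin s) L} (hPF : PF.IsSymmetric) (hPG : PG.IsSymmetric)
    (h : br (ell (q.map Polynomial.C)) (T s PG) =
      br (ell p) (T s PF) + C (Polynomial.C c) * cd (T s PF)) :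
    emb (G s q) * PG = G s p * PF + C (Polynomial.C c) * cd PF := by
  have hGe : G s (q.map Polynomial.C) = emb (G s q) := by
    unfold emb
    rw [map_G]
  rw [← hGe]
  apply T_inj' ((G_symm s _).mul hPG)
  · exact ((G_symm s p).mul hPF).add ((IsSymmetric.C _).mul (ift1_cd_symm hPF))
  · rw [← br_ell_T, map_add, ← br_ell_T, ift1_T_C_mul, ← cd_T]
    exact h

theorem next_step {c : ℂ} {q : Polynomial ℂ} {p : Polynomial L} {F Gp : A L}
    (hd : Datum c q p F Gp) (n : ℕ) (h : ℕ → A L) (hh : Ser h)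
    (hv : ∀ s, s ≤ n + 3 → EqsAt c F Gp h s) :
    ∃ x : A L, x.IsHomogeneous (n + 4) ∧ EqsAt c F Gp (Function.update h (n + 4) x) (n + 4) := by
  have hF0 := hd.F0
  have hG0 := hd.G0
  obtain ⟨s, hs⟩ : ∃ s, s = n + 4 := ⟨_, rfl⟩
  obtain ⟨H, hH⟩ : ∃ H, H = ∑ i ∈ Finset.range s, h i := ⟨_, rfl⟩
  have hU0 : ∀ j, j < s → hc j (br F H) = 0 := by
    intro j hj
    rw [hH, ift1_lowH hF0 hh.1 hj]
    exact (hv j (by omega)).1
  have hV0 : ∀ j, j < s → hc j (br Gp H + C (Polynomial.C c) * cd H) = 0 := by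
    intro j hj
    rw [map_add, homogeneousComponent_C_mul, hc_cd, hH, ift1_lowH hG0 hh.1 hj,
      ift1_hcH hh.1, if_pos hj]
    exact (hv j (by omega)).2
  have hVs : hc s (br Gp H + C (Polynomial.C c) * cd H) = hc s (br Gp H) := by
    rw [map_add, homogeneousComponent_C_mul, hc_cd, hH, ift1_hcH hh.1,
      if_neg (lt_irrefl s), map_zero, mul_zero, add_zero]
  have hcom := ift1_hcom hd.comm hF0 hG0 hU0 hV0
  obtain ⟨PF, hPF, hTF⟩ := T_surj_symm s (hc s (br F H))
    (homogeneousComponent_isHomogeneous s _)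
  obtain ⟨PG, hPG, hTG⟩ := T_surj_symm s (hc s (br Gp H + C (Polynomial.C c) * cd H))
    (homogeneousComponent_isHomogeneous s _)
  rw [← hTF, ← hTG, hd.F1, hd.G1] at hcom
  have hid := ift1_symb hPF hPG hcom
  have hGe : G s (q.map Polynomial.C) = emb (G s q) := by
    unfold emb
    rw [map_G]
  obtain ⟨Y, hY⟩ : emb (G s q) ∣ PF := by
    subst hs
    exact step4 hd.toDegs c n PF PG hid
  have hne : emb (G s q) ≠ 0 := by
    rw [← hGe, hs]
    refine G_ne_zero (n + 2) _ ?_
    rw [Polynomial.natDegree_map_eq_of_injective Polynomial.C_injective]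
    have := hd.dq
    omega
  have hPG2 : PG = G s p * Y + C (Polynomial.C c) * cd Y := by
    apply mul_left_cancel₀ hne
    rw [hid, hY, cd_emb_mul]
    ring
  rw [← hs]
  refine ⟨-T s Y, (T_homog s Y).neg, ?_, ?_⟩
  · rw [ift1_sum hF0 hh.1, br_neg_right, hd.F1, br_ell_T, hGe, ← hY, ← hH, ← hTF]
    exact add_neg_cancel _
  · rw [ift1_sum hG0 hh.1, Function.update_self, br_neg_right, hd.G1, br_ell_T, ← hH, ← hVs,
      ← hTG, hPG2, map_add, map_neg, cd_T, ift1_T_C_mul]
    ring

end Pool.Agent.Helper96.FK
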