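import Pool.Agent.Helper96.FK.Defs

/-!
# FK-6: irreducibility of `G s q`

Let `x` be the first variable and `σ` the sum of the others. `G s q = q(x) - q(x+σ) + ∑_{i>0} q(x_i)`.
As a polynomial in `x` (`MvPolynomial.finSuccEquiv`) over the domain `S = ℂ[x_1,...,x_{s-1}]`:
the coefficient of `x^j`, `j ≥ 1`, is divisible by `σ`; the leading coefficient is
`-k q_k σ` (`x^{k-1}`, `k = deg q`), not divisible by `σ^2`; the constant coefficient is
`≡ ∑_{i>0} q(x_i) mod σ`. The last one is nonzero mod `σ` if `s ≥ 4` and `q` is not linear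
(put `x_3 = -x_1-x_2`, other variables `0`), and for `s = 3` iff `q(x) + q(-x) ≠ 0`. `σ` is prime.
`irr_key` is the reversed Eisenstein criterion, proved by reduction mod `σ`.
-/

set_option autoImplicit false

open MvPolynomial

namespace Pool.Agent.Helper96.FK

/-- Reversed Eisenstein criterion over a domain. -/
private theorem irr_key {S : Type*} [CommRing S] [IsDomain S] {σ : S} (hσ : Prime σ)
    {f : Polynomial S} (hlc : Associated f.leadingCoeff σ) (hdeg : 1 ≤ f.natDegree)
    (h1 : ∀ j, 1 ≤ j → σ ∣ f.coeff j) (h0 : ¬ σ ∣ f.coeff 0) : Irreducible f := by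
  have hconst : ∀ a : S, Polynomial.C a ∣ f → IsUnit a := by
    intro a ha
    rw [Polynomial.C_dvd_iff_dvd_coeff] at ha
    have h2 : a ∣ σ := (ha f.natDegree).trans hlc.dvd
    obtain ⟨b, hb⟩ := h2
    rcases hσ.irreducible.isUnit_or_isUnit hb with h | h
    · exact h
    · exfalso
      apply h0
      refine Dvd.dvd.trans ?_ (ha 0)
      rw [hb]
      obtain ⟨u, hu⟩ := h
      exact ⟨(↑u⁻¹ : S), by rw [mul_assoc, ← hu, Units.mul_inv, mul_one]⟩
  refine ⟨fun hu => ?_, fun u v huv => ?_⟩
  · have := Polynomial.natDegree_eq_zero_of_isUnit hu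
    omega
  · by_cases hu0 : u.natDegree = 0
    · left
      rw [Polynomial.eq_C_of_natDegree_eq_zero hu0] at huv ⊢
      exact (hconst _ ⟨v, huv⟩).map Polynomial.C
    · by_cases hv0 : v.natDegree = 0
      · right
        rw [Polynomial.eq_C_of_natDegree_eq_zero hv0] at huv ⊢
        exact (hconst _ ⟨u, by rw [huv, mul_comm]⟩).map Polynomial.C
      · exfalso
        -- reduction modulo `σ`
        have hprime : (Ideal.span {σ}).IsPrime := (Ideal.span_singleton_prime hσ.ne_zero).2 hσ
        let π : S →+* S ⧸ Ideal.span {σ} := Ideal.Quotient.mk _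
        have hπ : ∀ x : S, π x = 0 ↔ σ ∣ x := by
          intro x
          rw [Ideal.Quotient.eq_zero_iff_mem, Ideal.mem_span_singleton]
        have hf : f.map π = Polynomial.C (π (f.coeff 0)) := by
          ext j
          rw [Polynomial.coeff_map, Polynomial.coeff_C]
          split_ifs with hj
          · rw [hj]
          · exact (hπ _).2 (h1 j (by omega))
        have hmul : u.map π * v.map π = Polynomial.C (π (f.coeff 0)) := by
          rw [← Polynomial.map_mul, ← huv, hf]
        have hne : π (f.coeff 0) ≠ 0 := fun h => h0 ((hπ _).1 h)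
        have hune : u.map π ≠ 0 := by
          intro h
          rw [h, zero_mul] at hmul
          exact hne (Polynomial.C_eq_zero.1 hmul.symm)
        have hvne : v.map π ≠ 0 := by
          intro h
          rw [h, mul_zero] at hmul
          exact hne (Polynomial.C_eq_zero.1 hmul.symm)
        have hd : (u.map π).natDegree + (v.map π).natDegree = 0 := by
          rw [← Polynomial.natDegree_mul hune hvne, hmul, Polynomial.natDegree_C]
        have hsu : σ ∣ u.leadingCoeff := by
          rw [← hπ]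
          have := Polynomial.coeff_eq_zero_of_natDegree_lt
            (show (u.map π).natDegree < u.natDegree by omega)
          rwa [Polynomial.coeff_map] at this
        have hsv : σ ∣ v.leadingCoeff := by
          rw [← hπ]
          have := Polynomial.coeff_eq_zero_of_natDegree_lt
            (show (v.map π).natDegree < v.natDegree by omega)
          rwa [Polynomial.coeff_map] at this
        have h2 : σ * σ ∣ σ * 1 := by
          rw [mul_one]
          refine (mul_dvd_mul hsu hsv).trans ?_
          rw [← Polynomial.leadingCoeff_mul, ← huv]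
          exact hlc.dvd
        exact hσ.not_isUnit (isUnit_of_dvd_one ((mul_dvd_mul_iff_left hσ.ne_zero).1 h2))

/-- The sum of the variables is prime. -/
private theorem irr_sum_prime (m : ℕ) :
    Prime (∑ j : Fin (m + 1), (X j : MvPolynomial (Fin (m + 1)) ℂ)) := by
  rw [← MulEquiv.prime_iff (finSuccEquiv ℂ m).toMulEquiv]
  have h : (finSuccEquiv ℂ m).toMulEquiv (∑ j : Fin (m + 1), (X j : MvPolynomial (Fin (m + 1)) ℂ)) =
      Polynomial.X - Polynomial.C (-(∑ j : Fin m, (X j : MvPolynomial (Fin m) ℂ))) := by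
    show finSuccEquiv ℂ m (∑ j : Fin (m + 1), (X j : MvPolynomial (Fin (m + 1)) ℂ)) = _
    rw [Fin.sum_univ_succ, map_add, map_sum, finSuccEquiv_X_zero, Polynomial.C_neg, sub_neg_eq_add,
      map_sum]
    congr 1
    refine Finset.sum_congr rfl fun j _ => ?_
    rw [finSuccEquiv_X_succ]
  rw [h]
  exact Polynomial.prime_X_sub_C _

/-- The difference `Q(x) - Q(x + σ) + τ`: coefficients. -/
private theorem irr_coeff {S : Type*} [CommRing S] (Q : Polynomial S) (σ : S) (j : ℕ) :
    σ ∣ (Q - Polynomial.taylor σ Q).coeff j := by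
  rw [Polynomial.coeff_sub, Polynomial.taylor_coeff]
  have h1 : Q.coeff j = (Polynomial.hasseDeriv j Q).eval 0 := by
    rw [← Polynomial.coeff_zero_eq_eval_zero, Polynomial.hasseDeriv_coeff]
    simp
  rw [h1]
  have h2 := Polynomial.sub_dvd_eval_sub (0 : S) σ (Polynomial.hasseDeriv j Q)
  rw [zero_sub, neg_dvd] at h2
  exact h2

private theorem irr_coeff_high {S : Type*} [CommRing S] (Q : Polynomial S) (σ : S) {k : ℕ}
    (hk : Q.natDegree ≤ k + 1) :
    (Q - Polynomial.taylor σ Q).coeff k = -(((k + 1 : ℕ) : S) * Q.coeff (k + 1) * σ) := by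
  rw [Polynomial.coeff_sub, Polynomial.taylor_coeff]
  have h1 : (Polynomial.hasseDeriv k Q).natDegree < 2 := by
    rw [Nat.lt_succ_iff, Polynomial.natDegree_le_iff_coeff_eq_zero]
    intro N hN
    rw [Polynomial.hasseDeriv_coeff, Polynomial.coeff_eq_zero_of_natDegree_lt (by omega), mul_zero]
  rw [Polynomial.eval_eq_sum_range' h1, Finset.sum_range_succ, Finset.sum_range_one,
    Polynomial.hasseDeriv_coeff, Polynomial.hasseDeriv_coeff, zero_add, Nat.choose_self,
    add_comm 1 k, Nat.choose_succ_self_right]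
  push_cast
  ring

/-- The main step. -/
private theorem irr_main (m : ℕ) (q : Polynomial ℂ) (hq : 2 ≤ q.natDegree)
    (hτ : ¬ (∑ j : Fin (m + 1), (X j : MvPolynomial (Fin (m + 1)) ℂ)) ∣
      ∑ j : Fin (m + 1), Polynomial.aeval (X j : MvPolynomial (Fin (m + 1)) ℂ) q) :
    Irreducible (G (m + 2) q) := by
  set σ : MvPolynomial (Fin (m + 1)) ℂ := ∑ j : Fin (m + 1), X j with hσdef
  set τ : MvPolynomial (Fin (m + 1)) ℂ :=
    ∑ j : Fin (m + 1), Polynomial.aeval (X j : MvPolynomial (Fin (m + 1)) ℂ) q with hτdef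
  set Q : Polynomial (MvPolynomial (Fin (m + 1)) ℂ) :=
    q.map (algebraMap ℂ (MvPolynomial (Fin (m + 1)) ℂ)) with hQdef
  have hσ : Prime σ := irr_sum_prime m
  have hinj : Function.Injective (algebraMap ℂ (MvPolynomial (Fin (m + 1)) ℂ)) :=
    MvPolynomial.C_injective _ _
  have hQdeg : Q.natDegree = q.natDegree := Polynomial.natDegree_map_eq_of_injective hinj q
  -- the image under `finSuccEquiv`
  have hφ : finSuccEquiv ℂ (m + 1) (G (m + 2) q) =
      Q - Polynomial.taylor σ Q + Polynomial.C τ := by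
    have e1 : Polynomial.aeval (Polynomial.X : Polynomial (MvPolynomial (Fin (m + 1)) ℂ)) q = Q := by
      rw [← Polynomial.aeval_map_algebraMap (MvPolynomial (Fin (m + 1)) ℂ),
        Polynomial.aeval_X_left_apply]
    have e2 : Polynomial.aeval (Polynomial.X + Polynomial.C σ :
        Polynomial (MvPolynomial (Fin (m + 1)) ℂ)) q = Polynomial.taylor σ Q := by
      rw [← Polynomial.aeval_map_algebraMap (MvPolynomial (Fin (m + 1)) ℂ),
        ← Polynomial.comp_eq_aeval, Polynomial.taylor_apply]
    have e3 : ∀ x : MvPolynomial (Fin (m + 1)) ℂ,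
        Polynomial.aeval (Polynomial.C x : Polynomial (MvPolynomial (Fin (m + 1)) ℂ)) q =
          Polynomial.C (Polynomial.aeval x q) := by
      intro x
      exact Polynomial.aeval_algHom_apply
        (Polynomial.CAlgHom : MvPolynomial (Fin (m + 1)) ℂ →ₐ[ℂ] _) x q
    have e4 : ∀ y : MvPolynomial (Fin (m + 2)) ℂ,
        finSuccEquiv ℂ (m + 1) (Polynomial.aeval y q) =
          Polynomial.aeval (finSuccEquiv ℂ (m + 1) y) q := fun y =>
      (Polynomial.aeval_algHom_apply (finSuccEquiv ℂ (m + 1)).toAlgHom y q).symm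
    unfold G
    have e5 : ∀ j : Fin (m + 1), finSuccEquiv ℂ (m + 1)
        (Polynomial.aeval (X j.succ : MvPolynomial (Fin (m + 2)) ℂ) q) =
          Polynomial.C (Polynomial.aeval (X j : MvPolynomial (Fin (m + 1)) ℂ) q) := by
      intro j
      rw [e4, finSuccEquiv_X_succ, e3]
    have e6 : ∑ j : Fin (m + 1), finSuccEquiv ℂ (m + 1)
        (X j.succ : MvPolynomial (Fin (m + 2)) ℂ) = Polynomial.C σ := by
      rw [hσdef, map_sum]
      exact Finset.sum_congr rfl fun j _ => finSuccEquiv_X_succ
    have e7 : ∑ j : Fin (m + 2), finSuccEquiv ℂ (m + 1)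
        (Polynomial.aeval (X j : MvPolynomial (Fin (m + 2)) ℂ) q) = Q + Polynomial.C τ := by
      rw [Fin.sum_univ_succ, Finset.sum_congr rfl fun j _ => e5 j, e4, finSuccEquiv_X_zero, e1,
        hτdef, map_sum]
    have e8 : ∑ j : Fin (m + 2), finSuccEquiv ℂ (m + 1)
        (X j : MvPolynomial (Fin (m + 2)) ℂ) = Polynomial.X + Polynomial.C σ := by
      rw [Fin.sum_univ_succ, e6, finSuccEquiv_X_zero]
    have e9 : finSuccEquiv ℂ (m + 1) (∑ j : Fin (m + 2), (X j : MvPolynomial (Fin (m + 2)) ℂ)) =
        Polynomial.X + Polynomial.C σ := by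
      rw [map_sum, e8]
    rw [map_sub, map_sum, e7, e4, e9, e2]
    ring
  have hlow : ∀ j, 1 ≤ j → (Q - Polynomial.taylor σ Q + Polynomial.C τ).coeff j =
      (Q - Polynomial.taylor σ Q).coeff j := by
    intro j hj
    rw [Polynomial.coeff_add, Polynomial.coeff_C, if_neg (by omega), add_zero]
  obtain ⟨k, hk⟩ : ∃ k, q.natDegree = k + 1 := ⟨q.natDegree - 1, by omega⟩
  have hk1 : 1 ≤ k := by omega
  have hck : (Q - Polynomial.taylor σ Q + Polynomial.C τ).coeff k =
      algebraMap ℂ (MvPolynomial (Fin (m + 1)) ℂ) (-(((k + 1 : ℕ) : ℂ) * q.coeff (k + 1))) * σ := by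
    rw [hlow k hk1, irr_coeff_high Q σ (by omega), hQdef, Polynomial.coeff_map, map_neg, map_mul,
      map_natCast]
    ring
  have hcne : -(((k + 1 : ℕ) : ℂ) * q.coeff (k + 1)) ≠ 0 := by
    rw [neg_ne_zero]
    refine mul_ne_zero (Nat.cast_ne_zero.2 (Nat.succ_ne_zero k)) ?_
    rw [← hk]
    have : q ≠ 0 := by
      rintro rfl
      simp at hq
    exact Polynomial.leadingCoeff_ne_zero.2 this
  have hunit : IsUnit (algebraMap ℂ (MvPolynomial (Fin (m + 1)) ℂ)
      (-(((k + 1 : ℕ) : ℂ) * q.coeff (k + 1)))) :=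
    (IsUnit.mk0 _ hcne).map (algebraMap ℂ (MvPolynomial (Fin (m + 1)) ℂ))
  have hfdeg : (Q - Polynomial.taylor σ Q + Polynomial.C τ).natDegree = k := by
    refine Polynomial.natDegree_eq_of_le_of_coeff_ne_zero ?_ ?_
    · rw [Polynomial.natDegree_le_iff_coeff_eq_zero]
      intro N hN
      rw [hlow N (by omega), irr_coeff_high Q σ (by omega),
        Polynomial.coeff_eq_zero_of_natDegree_lt (by omega)]
      ring
    · rw [hck]
      exact mul_ne_zero hunit.ne_zero hσ.ne_zero
  have hirr : Irreducible (finSuccEquiv ℂ (m + 1) (G (m + 2) q)) := by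
    rw [hφ]
    refine irr_key hσ ?_ (by omega) ?_ ?_
    · rw [Polynomial.leadingCoeff, hfdeg, hck]
      exact associated_unit_mul_left _ _ hunit
    · intro j hj
      rw [hlow j hj]
      exact irr_coeff Q σ j
    · intro h
      rw [Polynomial.coeff_add, Polynomial.coeff_C_zero] at h
      exact hτ ((dvd_add_right (irr_coeff Q σ 0)).1 h)
  exact (MulEquiv.irreducible_iff (finSuccEquiv ℂ (m + 1)).toMulEquiv).1 hirr

theorem irr_G (n : ℕ) (q : Polynomial ℂ) (hq : 2 ≤ q.natDegree) : Irreducible (G (n + 4) q) := by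
  refine irr_main (n + 2) q hq ?_
  rintro ⟨g, hg⟩
  -- evaluate at `(a, b, -a-b, 0, ..., 0)`
  have hev : ∀ a b : ℂ, q.eval a + q.eval b + q.eval (-a - b) + n * q.eval 0 = 0 := by
    intro a b
    let v : Fin (n + 3) → ℂ := Fin.cons a (Fin.cons b (Fin.cons (-a - b) fun _ => 0))
    have h1 := congrArg (MvPolynomial.aeval v) hg
    rw [map_sum, map_mul, map_sum] at h1
    have h2 : ∀ j : Fin (n + 3), MvPolynomial.aeval v
        (Polynomial.aeval (X j : MvPolynomial (Fin (n + 3)) ℂ) q) = q.eval (v j) := by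
      intro j
      rw [← Polynomial.aeval_algHom_apply, MvPolynomial.aeval_X, Polynomial.coe_aeval_eq_eval]
    have h3 : ∑ j : Fin (n + 3), MvPolynomial.aeval v (X j : MvPolynomial (Fin (n + 3)) ℂ) = 0 := by
      simp only [MvPolynomial.aeval_X]
      rw [Fin.sum_univ_succ, Fin.sum_univ_succ, Fin.sum_univ_succ]
      simp only [v, Fin.cons_zero, Fin.cons_succ, Finset.sum_const_zero]
      ring
    rw [h3, zero_mul, Finset.sum_congr rfl fun j _ => h2 j, Fin.sum_univ_succ, Fin.sum_univ_succ,
      Fin.sum_univ_succ] at h1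
    simp only [v, Fin.cons_zero, Fin.cons_succ, Finset.sum_const, Finset.card_univ,
      Fintype.card_fin, nsmul_eq_mul] at h1
    linear_combination h1
  have hadd : ∀ a b : ℂ, q.eval (a + b) = q.eval a + q.eval b - q.eval 0 := by
    intro a b
    have h1 := hev a b
    have h2 := hev (a + b) 0
    rw [sub_zero] at h2
    have h3 : -a - b = -(a + b) := by ring
    rw [h3] at h1
    linear_combination h2 - h1
  have hder : ∀ b : ℂ, (Polynomial.derivative q).eval b = (Polynomial.derivative q).eval 0 := by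
    intro b
    have h1 : q.comp (Polynomial.X + Polynomial.C b) = q + Polynomial.C (q.eval b - q.eval 0) := by
      apply Polynomial.funext
      intro a
      simp only [Polynomial.eval_comp, Polynomial.eval_add, Polynomial.eval_X, Polynomial.eval_C]
      rw [hadd a b]
      ring
    have h2 := congrArg Polynomial.derivative h1
    rw [Polynomial.derivative_comp] at h2
    have h3 := congrArg (Polynomial.eval (0 : ℂ)) h2
    simpa using h3
  have hconst : Polynomial.derivative q = Polynomial.C ((Polynomial.derivative q).eval 0) := by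
    apply Polynomial.funext
    intro b
    rw [hder b, Polynomial.eval_C]
  have hdeg : (Polynomial.derivative q).natDegree = q.natDegree - 1 :=
    Polynomial.natDegree_derivative q
  rw [hconst, Polynomial.natDegree_C] at hdeg
  omega

theorem irr_G3 (q : Polynomial ℂ) (hq : 2 ≤ q.natDegree) (ho : ¬ OddP q) :
    Irreducible (G 3 q) := by
  refine irr_main 1 q hq ?_
  rintro ⟨g, hg⟩
  apply ho
  unfold OddP
  apply Polynomial.funext
  intro a
  have h1 := congrArg (MvPolynomial.aeval (![a, -a] : Fin 2 → ℂ)) hg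
  rw [map_sum, map_mul, map_sum] at h1
  have h2 : ∀ j : Fin 2, MvPolynomial.aeval (![a, -a] : Fin 2 → ℂ)
      (Polynomial.aeval (X j : MvPolynomial (Fin 2) ℂ) q) =
        q.eval ((![a, -a] : Fin 2 → ℂ) j) := by
    intro j
    rw [← Polynomial.aeval_algHom_apply, MvPolynomial.aeval_X, Polynomial.coe_aeval_eq_eval]
  rw [Finset.sum_congr rfl fun j _ => h2 j] at h1
  have h3 : ∑ j : Fin 2, MvPolynomial.aeval (![a, -a] : Fin 2 → ℂ)
      (X j : MvPolynomial (Fin 2) ℂ) = 0 := by
    simp only [MvPolynomial.aeval_X, Fin.sum_univ_two, Matrix.cons_val_zero, Matrix.cons_val_one,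
      add_neg_cancel]
  have h4 : ∑ j : Fin 2, q.eval ((![a, -a] : Fin 2 → ℂ) j) = q.eval a + q.eval (-a) := by
    simp only [Fin.sum_univ_two, Matrix.cons_val_zero, Matrix.cons_val_one]
  change ∑ j : Fin 2, q.eval ((![a, -a] : Fin 2 → ℂ) j) =
    (∑ j : Fin 2, MvPolynomial.aeval (![a, -a] : Fin 2 → ℂ)
      (X j : MvPolynomial (Fin 2) ℂ)) * _ at h1
  rw [h3, h4, zero_mul] at h1
  simp only [Polynomial.eval_comp, Polynomial.eval_neg, Polynomial.eval_X]
  linear_combination h1

end Pool.Agent.Helper96.FK
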