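import Pool.Agent.Helper96.FK.Defs

/-!
# FK-7: three variables, odd symbols

`q` odd: `G 3 q = q(x)+q(y)+q(z)-q(x+y+z)` vanishes for `z = -y` etc., so `Pi3 ∣ G 3 q`
(three pairwise non-associated primes `X 0 + X 1`, ... ; to see divisibility by `y+z` substitute
`z = -y`). Write `G 3 q = Pi3 * H`. Then `H(x,y,-y) (x^2 - y^2) = -(q'(x) - q'(y))`, nonzero for
`deg q ≥ 3`: so `y+z ∤ H`, and the other two by symmetry (`G 3 q`, `Pi3` symmetric, hence `H`).

`not_dvd_odd` (`q` odd, `p` not odd): `G 3 p` is irreducible (`irr_G3`). If it divides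
`G 3 q = Pi3 * H` then it divides `H` (it is prime of total degree `deg p ≥ 3`, so it does not
divide a linear form). Restrict to `z = -y`: `e(y) := p(y) + p(-y)` is the restriction of `G 3 p`,
nonzero. `H = G 3 p * W`. If `e` is not constant, let `y0` be a root: `q'(x) = q'(y0)` for all `x`,
impossible. If `e` is constant, compare degrees in `x` or total degrees: the restriction of `H` has
total degree `k - 3` (`k = deg q`), while the restriction of `W` has total degree `≤ k - 3 - m`,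
`m = deg p ≥ 3` (total degree of `G 3 p` is `m`, of `H` is `k-3`), contradiction.
-/

set_option autoImplicit false

open MvPolynomial

namespace Pool.Agent.Helper96.FK

section odd3

variable {R : Type*} [CommRing R] {σ : Type*} [DecidableEq σ]

/-- the substitution `x_j = -x_i` -/
noncomputable def odd3_sub (i j : σ) : MvPolynomial σ R →ₐ[R] MvPolynomial σ R :=
  aeval (fun k => if k = j then -X i else X k)

theorem odd3_sub_sub (i j : σ) (P : MvPolynomial σ R) :
    (X i + X j) ∣ P - odd3_sub i j P := by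
  induction P using MvPolynomial.induction_on with
  | C a => simp [odd3_sub]
  | add p q hp hq =>
    rw [map_add]
    have e : p + q - (odd3_sub i j p + odd3_sub i j q) =
      (p - odd3_sub i j p) + (q - odd3_sub i j q) := by ring
    rw [e]
    exact dvd_add hp hq
  | mul_X p k hp =>
    rw [map_mul]
    have h1 : (X i + X j : MvPolynomial σ R) ∣ X k - odd3_sub i j (X k) := by
      unfold odd3_sub
      rw [aeval_X]
      split_ifs with h
      · subst h
        exact ⟨1, by ring⟩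
      · simp
    have e : p * X k - odd3_sub i j p * odd3_sub i j (X k) =
      (p - odd3_sub i j p) * X k + odd3_sub i j p * (X k - odd3_sub i j (X k)) := by ring
    rw [e]
    exact dvd_add (Dvd.dvd.mul_right hp _) (Dvd.dvd.mul_left h1 _)

theorem odd3_dvd_iff {i j : σ} (hij : i ≠ j) (P : MvPolynomial σ R) :
    (X i + X j) ∣ P ↔ odd3_sub i j P = 0 := by
  constructor
  · rintro ⟨W, rfl⟩
    rw [map_mul, map_add]
    simp [odd3_sub, hij]
  · intro h
    have := odd3_sub_sub i j P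
    rwa [h, sub_zero] at this

theorem odd3_prime [IsDomain R] {i j : σ} (hij : i ≠ j) :
    Prime (X i + X j : MvPolynomial σ R) := by
  refine ⟨?_, ?_, ?_⟩
  · intro h
    have h1 := congrArg (aeval (fun k : σ => if k = i then (1 : R) else 0)) h
    rw [map_add, aeval_X, aeval_X, if_pos rfl, if_neg (Ne.symm hij), map_zero, add_zero] at h1
    exact one_ne_zero h1
  · intro h
    have h1 := h.map (aeval (fun _ : σ => (0 : R)))
    rw [map_add, aeval_X, aeval_X, add_zero] at h1
    exact not_isUnit_zero h1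
  · intro P Q h
    rw [odd3_dvd_iff hij] at h ⊢
    rw [odd3_dvd_iff hij]
    rw [map_mul] at h
    exact mul_eq_zero.1 h

theorem odd3_Pi3_dvd_of [IsDomain R] {P : MvPolynomial (Fin 3) R}
    (h01 : (X 0 + X 1) ∣ P) (h12 : (X 1 + X 2) ∣ P) (h02 : (X 0 + X 2) ∣ P) : Pi3 ∣ P := by
  obtain ⟨Q, rfl⟩ := h01
  have a1 : ¬ (X 1 + X 2 : MvPolynomial (Fin 3) R) ∣ X 0 + X 1 := by
    rw [odd3_dvd_iff (by decide)]
    intro h
    have h1 := congrArg (aeval (fun k : Fin 3 => if k = 0 then (1 : R) else 0)) h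
    simp [odd3_sub] at h1
  have a2 : ¬ (X 0 + X 2 : MvPolynomial (Fin 3) R) ∣ X 0 + X 1 := by
    rw [odd3_dvd_iff (by decide)]
    intro h
    have h1 := congrArg (aeval (fun k : Fin 3 => if k = 0 then (1 : R) else 0)) h
    simp [odd3_sub] at h1
  have a3 : ¬ (X 0 + X 2 : MvPolynomial (Fin 3) R) ∣ X 1 + X 2 := by
    rw [odd3_dvd_iff (by decide)]
    intro h
    have h1 := congrArg (aeval (fun k : Fin 3 => if k = 1 then (1 : R) else 0)) h
    simp [odd3_sub] at h1
  have h1 := ((odd3_prime (R := R) (i := (1 : Fin 3)) (j := 2) (by decide)).dvd_or_dvd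
    h12).resolve_left a1
  obtain ⟨W, rfl⟩ := h1
  have h3 := ((odd3_prime (R := R) (i := (0 : Fin 3)) (j := 2) (by decide)).dvd_or_dvd
    h02).resolve_left a2
  have h4 := ((odd3_prime (R := R) (i := (0 : Fin 3)) (j := 2) (by decide)).dvd_or_dvd
    h3).resolve_left a3
  obtain ⟨V, rfl⟩ := h4
  exact ⟨V, by unfold Pi3; ring⟩

end odd3

theorem odd3_aeval_neg {A : Type*} [CommRing A] [Algebra ℂ A] (q : Polynomial ℂ) (hq : OddP q)
    (a : A) : Polynomial.aeval (-a) q = -Polynomial.aeval a q := by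
  have h := congrArg (Polynomial.aeval a) hq
  rw [Polynomial.aeval_comp, map_neg, map_neg, Polynomial.aeval_X] at h
  exact h

theorem odd3_sub_aeval {σ : Type*} [DecidableEq σ] {R : Type*} [CommRing R] (i j : σ)
    (q : Polynomial R) (a : MvPolynomial σ R) :
    odd3_sub i j (Polynomial.aeval a q) = Polynomial.aeval (odd3_sub i j a) q :=
  (Polynomial.aeval_algHom_apply _ _ _).symm

theorem exists_H (q : Polynomial ℂ) (hq : OddP q) :
    ∃ H : MvPolynomial (Fin 3) ℂ, G 3 q = Pi3 * H := by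
  refine odd3_Pi3_dvd_of ?_ ?_ ?_
  · rw [odd3_dvd_iff (by decide)]
    unfold G
    rw [map_sub, map_sum, odd3_sub_aeval, Fin.sum_univ_three, Fin.sum_univ_three, odd3_sub_aeval,
      odd3_sub_aeval, odd3_sub_aeval, map_add, map_add]
    have e0 : odd3_sub (R := ℂ) (0 : Fin 3) 1 (X 0) = X 0 := by simp [odd3_sub]
    have e1 : odd3_sub (R := ℂ) (0 : Fin 3) 1 (X 1) = -X 0 := by simp [odd3_sub]
    have e2 : odd3_sub (R := ℂ) (0 : Fin 3) 1 (X 2) = X 2 := by simp [odd3_sub]
    rw [e0, e1, e2, odd3_aeval_neg q hq, show (X 0 + -X 0 + X 2 : MvPolynomial (Fin 3) ℂ) = X 2 by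
      ring]
    ring
  · rw [odd3_dvd_iff (by decide)]
    unfold G
    rw [map_sub, map_sum, odd3_sub_aeval, Fin.sum_univ_three, Fin.sum_univ_three, odd3_sub_aeval,
      odd3_sub_aeval, odd3_sub_aeval, map_add, map_add]
    have e0 : odd3_sub (R := ℂ) (1 : Fin 3) 2 (X 0) = X 0 := by simp [odd3_sub]
    have e1 : odd3_sub (R := ℂ) (1 : Fin 3) 2 (X 1) = X 1 := by simp [odd3_sub]
    have e2 : odd3_sub (R := ℂ) (1 : Fin 3) 2 (X 2) = -X 1 := by simp [odd3_sub]
    rw [e0, e1, e2, odd3_aeval_neg q hq, show (X 0 + X 1 + -X 1 : MvPolynomial (Fin 3) ℂ) = X 0 by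
      ring]
    ring
  · rw [odd3_dvd_iff (by decide)]
    unfold G
    rw [map_sub, map_sum, odd3_sub_aeval, Fin.sum_univ_three, Fin.sum_univ_three, odd3_sub_aeval,
      odd3_sub_aeval, odd3_sub_aeval, map_add, map_add]
    have e0 : odd3_sub (R := ℂ) (0 : Fin 3) 2 (X 0) = X 0 := by simp [odd3_sub]
    have e1 : odd3_sub (R := ℂ) (0 : Fin 3) 2 (X 1) = X 1 := by simp [odd3_sub]
    have e2 : odd3_sub (R := ℂ) (0 : Fin 3) 2 (X 2) = -X 0 := by simp [odd3_sub]
    rw [e0, e1, e2, odd3_aeval_neg q hq, show (X 0 + X 1 + -X 0 : MvPolynomial (Fin 3) ℂ) = X 1 by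
      ring]
    ring

/-- the derivative of the symbol -/
theorem odd3_pderiv (q : Polynomial ℂ) (i : Fin 3) :
    pderiv i (G 3 q) = Polynomial.aeval (X i : MvPolynomial (Fin 3) ℂ) (Polynomial.derivative q) -
      Polynomial.aeval (∑ j : Fin 3, (X j : MvPolynomial (Fin 3) ℂ))
        (Polynomial.derivative q) := by
  unfold G
  rw [map_sub, map_sum, Derivation.map_aeval, map_sum]
  have h : ∀ j : Fin 3, pderiv i (X j : MvPolynomial (Fin 3) ℂ) = if j = i then 1 else 0 := by
    intro j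
    rw [pderiv_X, Pi.single_apply]
  simp only [Derivation.map_aeval, h]
  simp

theorem odd3_not_sq_dvd (q : Polynomial ℂ) (hd : 3 ≤ q.natDegree) {i j k : Fin 3} (hij : i ≠ j)
    (hik : i ≠ k) (hjk : j ≠ k) :
    ¬ (X i + X j) ^ 2 ∣ G 3 q := by
  rintro ⟨W, hW⟩
  have h1 : (X i + X j : MvPolynomial (Fin 3) ℂ) ∣ pderiv i (G 3 q) := by
    rw [hW, Derivation.leibniz, Derivation.leibniz_pow]
    refine dvd_add ?_ ?_
    · exact ⟨(X i + X j) * pderiv i W, by rw [smul_eq_mul]; ring⟩
    · exact ⟨W * (2 * pderiv i (X i + X j)), by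
        simp only [smul_eq_mul, nsmul_eq_mul]; push_cast; ring⟩
  rw [odd3_dvd_iff hij, odd3_pderiv, map_sub, odd3_sub_aeval, odd3_sub_aeval] at h1
  have e0 : odd3_sub (R := ℂ) i j (X i) = X i := by simp [odd3_sub, hij]
  have e1 : odd3_sub (R := ℂ) i j (∑ l : Fin 3, X l) = X k := by
    have : (∑ l : Fin 3, X l : MvPolynomial (Fin 3) ℂ) = X i + X j + X k := by
      fin_cases i <;> fin_cases j <;> fin_cases k <;>
        simp_all [Fin.sum_univ_three] <;> ring
    rw [this, map_add, map_add]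
    simp [odd3_sub, hij, Ne.symm hjk]
  rw [e0, e1] at h1
  have h2 := congrArg (aeval (fun l : Fin 3 => if l = i then (Polynomial.X : Polynomial ℂ) else 0))
    h1
  rw [map_sub, map_zero, ← Polynomial.aeval_algHom_apply, ← Polynomial.aeval_algHom_apply,
    aeval_X, aeval_X, if_pos rfl, if_neg (Ne.symm hik), Polynomial.aeval_X_left_apply, sub_eq_zero]
    at h2
  have h3 : Polynomial.aeval (0 : Polynomial ℂ) (Polynomial.derivative q) =
      Polynomial.C ((Polynomial.derivative q).coeff 0) := by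
    rw [← Polynomial.coeff_zero_eq_aeval_zero']
    rfl
  rw [h3] at h2
  have h4 := Polynomial.natDegree_derivative q
  rw [h2, Polynomial.natDegree_C] at h4
  omega

theorem odd3_not_dvd_H (q : Polynomial ℂ) (hd : 3 ≤ q.natDegree)
    (H : MvPolynomial (Fin 3) ℂ) (hH : G 3 q = Pi3 * H) {i j k : Fin 3} (hij : i ≠ j)
    (hik : i ≠ k) (hjk : j ≠ k) (h : (X i + X j : MvPolynomial (Fin 3) ℂ) ∣ Pi3)
    {B : MvPolynomial (Fin 3) ℂ} (hB : Prime B) (hBP : B ∣ X i + X j) : ¬ B ∣ H := by
  intro hBH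
  have h1 : (X i + X j : MvPolynomial (Fin 3) ℂ) ∣ B :=
    (hB.irreducible.dvd_symm (odd3_prime hij).irreducible) hBP
  apply odd3_not_sq_dvd q hd hij hik hjk
  rw [hH, sq]
  exact mul_dvd_mul h (h1.trans hBH)

theorem not_dvd_H_of_dvd_Pi (q : Polynomial ℂ) (hq : OddP q) (hd : 3 ≤ q.natDegree)
    (H : MvPolynomial (Fin 3) ℂ) (hH : G 3 q = Pi3 * H) (B : MvPolynomial (Fin 3) ℂ)
    (hB : Prime B) (hBP : B ∣ Pi3) : ¬ B ∣ H := by
  have h0 := hBP
  unfold Pi3 at h0
  rcases hB.dvd_or_dvd h0 with h1 | h1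
  · rcases hB.dvd_or_dvd h1 with h2 | h2
    · exact odd3_not_dvd_H q hd H hH (i := 0) (j := 1) (k := 2) (by decide) (by decide)
        (by decide) ⟨(X 1 + X 2) * (X 0 + X 2), by unfold Pi3; ring⟩ hB h2
    · exact odd3_not_dvd_H q hd H hH (i := 1) (j := 2) (k := 0) (by decide) (by decide)
        (by decide) ⟨(X 0 + X 1) * (X 0 + X 2), by unfold Pi3; ring⟩ hB h2
  · exact odd3_not_dvd_H q hd H hH (i := 0) (j := 2) (k := 1) (by decide) (by decide)
      (by decide) ⟨(X 0 + X 1) * (X 1 + X 2), by unfold Pi3; ring⟩ hB h1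

/-- `y + z` divides the symbol iff it vanishes on `z = -y`; stated for an arbitrary symmetric
polynomial over `L`: if `P(x,-x,z) = 0` then `Pi3 ∣ P` -/
theorem Pi3_dvd {P : MvPolynomial (Fin 3) L} (hP : P.IsSymmetric)
    (h : aeval ![(X 0 : MvPolynomial (Fin 2) L), -X 0, X 1] P = 0) : Pi3 ∣ P := by
  have h01 : (X 0 + X 1 : MvPolynomial (Fin 3) L) ∣ P := by
    rw [odd3_dvd_iff (by decide)]
    have h1 := congrArg (rename (R := L) (![0, 2] : Fin 2 → Fin 3)) h
    rw [map_zero, ← AlgHom.comp_apply] at h1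
    rw [← h1]
    congr 1
    apply MvPolynomial.algHom_ext
    intro k
    fin_cases k <;> simp [odd3_sub]
  have hp : ∀ e : Equiv.Perm (Fin 3), (X (e 0) + X (e 1) : MvPolynomial (Fin 3) L) ∣ P := by
    intro e
    have h2 := map_dvd (rename (R := L) e) h01
    rw [hP e, map_add, rename_X, rename_X] at h2
    exact h2
  refine odd3_Pi3_dvd_of h01 ?_ ?_
  · have h3 := hp (Equiv.swap 0 2)
    have e1 : (Equiv.swap (0 : Fin 3) 2) 0 = 2 := by decide
    have e2 : (Equiv.swap (0 : Fin 3) 2) 1 = 1 := by decide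
    rw [e1, e2, add_comm] at h3
    exact h3
  · have h3 := hp (Equiv.swap 1 2)
    have e1 : (Equiv.swap (1 : Fin 3) 2) 0 = 0 := by decide
    have e2 : (Equiv.swap (1 : Fin 3) 2) 1 = 2 := by decide
    rw [e1, e2] at h3
    exact h3

end Pool.Agent.Helper96.FK
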