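import Pool.Agent.Helper96.FK.Cub
import Pool.Agent.Helper96.FK.Odd3

/-!
# FK-13: both symbols odd, commuting pair over `ℂ`

`p, q` odd with different degrees. Restrict `cub_rel` (with `c = 0`) to `y = -x`:
`G_p(x,-x,z) = G_q(x,-x,z) = 0`, so `J(g2,b)(x,-x,z) = 0`; the two cross pairings vanish
separately as in FK-12 (`G_q g2 = G_p b`), so `g2(0,z) b(x,-x) = b(0,z) g2(x,-x)`.
With `π_q(t) = q'(0)-q'(t)`: `π_q(z) g2(0,z) = π_p(z) b(0,z)` and
`π_q(x) g2(x,-x) = π_p(x) b(x,-x)`. If `b(0,z) ≠ 0` and `b(x,-x) ≠ 0` then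
`π_p(z) π_q(x) = π_q(z) π_p(x)`, so `deg p = deg q`, contradiction.
-/

set_option autoImplicit false

open MvPolynomial

namespace Pool.Agent.Helper96.FK

/-- substitution commutes with algebra maps -/
theorem ob_map_sb {R S S' : Type*} [CommRing R] [CommRing S] [CommRing S'] [Algebra R S]
    [Algebra R S'] (φ : S →ₐ[R] S') (P : MvPolynomial (Fin 2) R) (a b : S) :
    φ (sb P a b) = sb P (φ a) (φ b) := by
  unfold sb
  have h : φ.comp (aeval ![a, b]) = aeval ![φ a, φ b] := by
    apply MvPolynomial.algHom_ext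
    intro i
    fin_cases i <;> simp
  exact DFunLike.congr_fun h P

theorem ob_sb_mul {R S : Type*} [CommRing R] [CommRing S] [Algebra R S]
    (P Q : MvPolynomial (Fin 2) R) (a b : S) : sb (P * Q) a b = sb P a b * sb Q a b := by
  unfold sb
  exact map_mul _ _ _

/-- value of `G 2` -/
theorem ob_sb_G {R S : Type*} [CommRing R] [CommRing S] [Algebra R S] (p : Polynomial R)
    (a b : S) :
    sb (G 2 p) a b = Polynomial.aeval a p + Polynomial.aeval b p -
      Polynomial.aeval (a + b) p := by
  unfold sb G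
  rw [Fin.sum_univ_two, Fin.sum_univ_two, map_sub, map_add, ← Polynomial.aeval_algHom_apply,
    ← Polynomial.aeval_algHom_apply, ← Polynomial.aeval_algHom_apply]
  simp

theorem ob_odd_map {q : Polynomial ℂ} (hq : OddP q) :
    (q.map (Polynomial.C : ℂ →+* L)).comp (-Polynomial.X) = -(q.map Polynomial.C) := by
  have h := congrArg (Polynomial.map (Polynomial.C : ℂ →+* L)) hq
  rw [Polynomial.map_comp] at h
  simpa using h

theorem ob_aeval_neg {R S : Type*} [CommRing R] [CommRing S] [Algebra R S] {q : Polynomial R}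
    (hq : q.comp (-Polynomial.X) = -q) (x : S) :
    Polynomial.aeval (-x) q = -Polynomial.aeval x q := by
  have h := congrArg (Polynomial.aeval x) hq
  rw [Polynomial.aeval_comp] at h
  simpa using h

theorem ob_aeval_zero {R S : Type*} [CommRing R] [CommRing S] [Algebra R S] {q : Polynomial R}
    (hq : q.coeff 0 = 0) : Polynomial.aeval (0 : S) q = 0 := by
  rw [← map_zero (algebraMap R S), Polynomial.aeval_algebraMap_apply,
    Polynomial.coe_aeval_eq_eval, ← Polynomial.coeff_zero_eq_eval_zero, hq]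

/-- the cross pairing vanishes -/
theorem ob_cross {S : Type*} [CommRing S] [IsDomain S] [Algebra L S] {q p : Polynomial L}
    (hq : q.comp (-Polynomial.X) = -q) (hp : p.comp (-Polynomial.X) = -p)
    {g b : MvPolynomial (Fin 2) L} (h : G 2 q * g = G 2 p * b) (x z : S)
    (hne : sb (G 2 q) x z ≠ 0) :
    sb g (x + z) (-x) * sb b x z - sb b (x + z) (-x) * sb g x z = 0 := by
  have h1 : sb (G 2 q) x z * sb g x z = sb (G 2 p) x z * sb b x z := by
    rw [← ob_sb_mul, h, ob_sb_mul]
  have h2 : sb (G 2 q) (x + z) (-x) * sb g (x + z) (-x) =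
      sb (G 2 p) (x + z) (-x) * sb b (x + z) (-x) := by
    rw [← ob_sb_mul, h, ob_sb_mul]
  have e : x + z + -x = z := by ring
  have h3 : sb (G 2 q) (x + z) (-x) = -sb (G 2 q) x z := by
    rw [ob_sb_G, ob_sb_G, ob_aeval_neg hq, e]; ring
  have h4 : sb (G 2 p) (x + z) (-x) = -sb (G 2 p) x z := by
    rw [ob_sb_G, ob_sb_G, ob_aeval_neg hp, e]; ring
  rw [h3, h4] at h2
  have h5 : sb (G 2 q) x z *
      (sb g (x + z) (-x) * sb b x z - sb b (x + z) (-x) * sb g x z) = 0 := by
    linear_combination (-(sb b x z)) * h2 - sb b (x + z) (-x) * h1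
  exact (mul_eq_zero.1 h5).resolve_left hne

/-- restriction of `G 3` to `(x, -x, z)` -/
theorem ob_G3 {S : Type*} [CommRing S] [Algebra L S] {q : Polynomial L}
    (hq : q.comp (-Polynomial.X) = -q) (x z : S) :
    aeval ![x, -x, z] (G 3 q) = 0 := by
  unfold G
  rw [Fin.sum_univ_three, Fin.sum_univ_three, map_sub, map_add, map_add,
    ← Polynomial.aeval_algHom_apply, ← Polynomial.aeval_algHom_apply,
    ← Polynomial.aeval_algHom_apply, ← Polynomial.aeval_algHom_apply]
  simp only [map_add, aeval_X]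
  have e0 : (![x, -x, z] : Fin 3 → S) 0 = x := rfl
  have e1 : (![x, -x, z] : Fin 3 → S) 1 = -x := rfl
  have e2 : (![x, -x, z] : Fin 3 → S) 2 = z := rfl
  rw [e0, e1, e2, ob_aeval_neg hq, show x + -x + z = z by ring]
  ring

/-- restriction of `J` to `(x, -x, z)` -/
theorem ob_J {S : Type*} [CommRing S] [Algebra L S] (g b : MvPolynomial (Fin 2) L) (x z : S) :
    aeval ![x, -x, z] (J g b) =
      (sb g 0 z * sb b x (-x) - sb b 0 z * sb g x (-x)) +
      (sb g (x + z) (-x) * sb b x z - sb b (x + z) (-x) * sb g x z) +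
      (sb g (-x + z) x * sb b (-x) z - sb b (-x + z) x * sb g (-x) z) := by
  unfold J
  simp only [map_add, map_sub, map_mul, ob_map_sb, aeval_X]
  have e0 : (![x, -x, z] : Fin 3 → S) 0 = x := rfl
  have e1 : (![x, -x, z] : Fin 3 → S) 1 = -x := rfl
  have e2 : (![x, -x, z] : Fin 3 → S) 2 = z := rfl
  rw [e0, e1, e2, show x + -x = 0 by ring]

/-- differentiation of the quadratic relation in the first variable at a common zero -/
theorem ob_diff {S : Type*} [CommRing S] [Algebra L S] {q p : Polynomial L}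
    {g b : MvPolynomial (Fin 2) L} (h : G 2 q * g = G 2 p * b) (x y : S)
    (hq : sb (G 2 q) x y = 0) (hp : sb (G 2 p) x y = 0) :
    (Polynomial.aeval x (Polynomial.derivative q) -
        Polynomial.aeval (x + y) (Polynomial.derivative q)) * sb g x y =
      (Polynomial.aeval x (Polynomial.derivative p) -
        Polynomial.aeval (x + y) (Polynomial.derivative p)) * sb b x y := by
  have hd : ∀ r : Polynomial L, sb (pderiv 0 (G 2 r)) x y =
      Polynomial.aeval x (Polynomial.derivative r) -
        Polynomial.aeval (x + y) (Polynomial.derivative r) := by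
    intro r
    unfold G
    rw [Fin.sum_univ_two, Fin.sum_univ_two, map_sub, map_add, Derivation.map_aeval,
      Derivation.map_aeval, Derivation.map_aeval, map_add, pderiv_X_self,
      pderiv_X_of_ne (by decide : (1 : Fin 2) ≠ 0)]
    unfold sb
    simp only [smul_eq_mul, mul_one, mul_zero, add_zero, map_sub]
    rw [← Polynomial.aeval_algHom_apply, ← Polynomial.aeval_algHom_apply]
    simp
  have h1 : sb (pderiv 0 (G 2 q * g)) x y = sb (pderiv 0 (G 2 p * b)) x y := by rw [h]
  rw [Derivation.leibniz, Derivation.leibniz] at h1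
  simp only [smul_eq_mul] at h1
  have hadd : ∀ P Q : MvPolynomial (Fin 2) L, sb (P + Q) x y = sb P x y + sb Q x y := by
    intro P Q
    unfold sb
    exact map_add _ _ _
  rw [hadd, hadd, ob_sb_mul, ob_sb_mul, ob_sb_mul, ob_sb_mul, hd, hd, hq, hp] at h1
  linear_combination h1

/-- degree of `q' - q'(0)` -/
theorem ob_deg {q : Polynomial L} (hq : 2 ≤ q.natDegree) :
    (Polynomial.C ((Polynomial.derivative q).eval 0) - Polynomial.derivative q).natDegree =
      q.natDegree - 1 := by
  have h1 : (Polynomial.derivative q).natDegree = q.natDegree - 1 :=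
    Polynomial.natDegree_derivative q
  rw [Polynomial.natDegree_sub_eq_right_of_natDegree_lt, h1]
  rw [Polynomial.natDegree_C, h1]
  omega

theorem ob {q : Polynomial ℂ} {p : Polynomial L} {F Gp : A L} (hd : Datum 0 q p F Gp)
    (hp : ∃ p' : Polynomial ℂ, p = p'.map Polynomial.C)
    (hq : OddP q) (hpo : OddP (p0 p)) (b : MvPolynomial (Fin 2) L) (hb : b.IsSymmetric)
    (hbF : T 2 b = hc 2 F) :
    sb b (0 : Polynomial L) Polynomial.X = 0 ∨
      sb b (Polynomial.X : Polynomial L) (-Polynomial.X) = 0 := by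
  obtain ⟨p', hp'⟩ := hp
  have hp0 : p0 p = p' := by
    rw [hp', p0, Polynomial.map_map]
    have : (Polynomial.evalRingHom (0 : ℂ)).comp (Polynomial.C : ℂ →+* L) = RingHom.id ℂ := by
      ext x <;> simp
    rw [this, Polynomial.map_id]
  have hdq := hd.dq
  have hdp := hd.dp
  have hne := hd.ne
  rw [hp0] at hpo hdp hne
  have hinj : Function.Injective (Polynomial.C : ℂ →+* L) := Polynomial.C_injective
  have hQd : (q.map (Polynomial.C : ℂ →+* L)).natDegree = q.natDegree :=
    Polynomial.natDegree_map_eq_of_injective hinj q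
  have hPd : p.natDegree = p'.natDegree := by
    rw [hp']
    exact Polynomial.natDegree_map_eq_of_injective hinj p'
  have hQo := ob_odd_map hq
  have hPo : p.comp (-Polynomial.X) = -p := by
    rw [hp']
    exact ob_odd_map hpo
  obtain ⟨g2, hg2, hgG⟩ := T_surj_symm 2 (hc 2 Gp) (homogeneousComponent_isHomogeneous 2 Gp)
  obtain ⟨al, hal, halG⟩ := T_surj_symm 3 (hc 3 Gp) (homogeneousComponent_isHomogeneous 3 Gp)
  obtain ⟨be, hbe, hbeF⟩ := T_surj_symm 3 (hc 3 F) (homogeneousComponent_isHomogeneous 3 F)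
  have hquad := quad_rel hd hb hg2 hbF hgG
  have hcub := cub_rel hd hb hg2 hbF hgG hal hbe halG hbeF
  have hemb : ∀ s : ℕ, emb (G s q) = G s (q.map (Polynomial.C : ℂ →+* L)) := fun s =>
    map_G Polynomial.C s q
  rw [hemb] at hquad hcub
  rw [map_zero, map_zero, zero_mul, add_zero] at hquad hcub
  -- restriction to (x, -x, z)
  have hres := congrArg (aeval ![(X 0 : MvPolynomial (Fin 2) L), -X 0, X 1]) hcub
  rw [map_add, map_mul, map_mul, map_mul, map_mul, map_mul, ob_G3 hQo, ob_G3 hPo] at hres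
  rw [zero_mul, zero_mul, mul_zero, zero_add] at hres
  have h2 : aeval ![(X 0 : MvPolynomial (Fin 2) L), -X 0, X 1] (2 : MvPolynomial (Fin 3) L) ≠ 0 := by
    rw [map_ofNat]
    exact two_ne_zero
  have hJ := (mul_eq_zero.1 hres).resolve_left h2
  rw [ob_J] at hJ
  have hG0 : sb (G 2 (q.map (Polynomial.C : ℂ →+* L))) (X 0 : MvPolynomial (Fin 2) L) (X 1) ≠ 0 := by
    have e : (![X 0, X 1] : Fin 2 → MvPolynomial (Fin 2) L) = X := by
      ext i
      fin_cases i <;> rfl
    unfold sb
    rw [e, aeval_X_left, AlgHom.id_apply]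
    exact G_ne_zero 0 _ (by omega)
  have hG1 : sb (G 2 (q.map (Polynomial.C : ℂ →+* L))) (-X 0 : MvPolynomial (Fin 2) L) (X 1) ≠ 0 := by
    intro h0
    apply hG0
    have h1 := congrArg (aeval ![(-X 0 : MvPolynomial (Fin 2) L), X 1]) h0
    rw [ob_map_sb, map_zero] at h1
    simpa using h1
  have hc1 := ob_cross hQo hPo hquad (X 0 : MvPolynomial (Fin 2) L) (X 1) hG0
  have hc2 := ob_cross hQo hPo hquad (-X 0 : MvPolynomial (Fin 2) L) (X 1) hG1
  rw [neg_neg] at hc2
  rw [hc1, hc2, add_zero, add_zero] at hJ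
  -- now pass to one variable, `x = X`, `z = X ^ 2`
  have hJ2 := congrArg (aeval ![(Polynomial.X : Polynomial L), Polynomial.X ^ 2]) hJ
  rw [map_sub, map_mul, map_mul, ob_map_sb, ob_map_sb, ob_map_sb, ob_map_sb, map_zero,
    map_neg, aeval_X, aeval_X] at hJ2
  have hJ2 : sb g2 (0 : Polynomial L) (Polynomial.X ^ 2) *
      sb b (Polynomial.X : Polynomial L) (-Polynomial.X) -
      sb b (0 : Polynomial L) (Polynomial.X ^ 2) *
      sb g2 (Polynomial.X : Polynomial L) (-Polynomial.X) = 0 := hJ2
  by_contra hcon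
  rw [not_or] at hcon
  obtain ⟨hu, hv⟩ := hcon
  have ha0 : ∀ r : Polynomial L, Polynomial.aeval (0 : Polynomial L) r =
      Polynomial.C (r.eval 0) := by
    intro r
    rw [← map_zero (algebraMap L (Polynomial L)), Polynomial.aeval_algebraMap_apply,
      Polynomial.coe_aeval_eq_eval]
    rfl
  have haX : ∀ r : Polynomial L, Polynomial.aeval (Polynomial.X : Polynomial L) r = r :=
    fun r => Polynomial.aeval_X_left_apply r
  have hc0 : ∀ r : Polynomial L, r.comp (-Polynomial.X) = -r → r.coeff 0 = 0 := by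
    intro r hr
    have h := congrArg (Polynomial.eval 0) hr
    rw [Polynomial.eval_comp] at h
    simp only [Polynomial.eval_neg, Polynomial.eval_X, neg_zero] at h
    rw [Polynomial.coeff_zero_eq_eval_zero]
    have h3 : (2 : L) * Polynomial.eval 0 r = 0 := by linear_combination h
    exact (mul_eq_zero.1 h3).resolve_left two_ne_zero
  have hz1 : ∀ r : Polynomial L, r.comp (-Polynomial.X) = -r →
      sb (G 2 r) (0 : Polynomial L) Polynomial.X = 0 := by
    intro r hr
    rw [ob_sb_G, zero_add, ob_aeval_zero (hc0 r hr)]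
    ring
  have hz2 : ∀ r : Polynomial L, r.comp (-Polynomial.X) = -r →
      sb (G 2 r) (Polynomial.X : Polynomial L) (-Polynomial.X) = 0 := by
    intro r hr
    rw [ob_sb_G, ob_aeval_neg hr, add_neg_cancel (Polynomial.X : Polynomial L),
      ob_aeval_zero (hc0 r hr)]
    ring
  have h0 := ob_diff hquad (0 : Polynomial L) Polynomial.X (hz1 _ hQo) (hz1 _ hPo)
  have h1 := ob_diff hquad (Polynomial.X : Polynomial L) (-Polynomial.X) (hz2 _ hQo)
    (hz2 _ hPo)
  rw [zero_add, haX, haX, ha0, ha0] at h0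
  rw [add_neg_cancel (Polynomial.X : Polynomial L), haX, haX, ha0, ha0] at h1
  have hdQ := ob_deg (q := q.map (Polynomial.C : ℂ →+* L)) (by omega)
  have hdP := ob_deg (q := p) (by omega)
  set piQ : Polynomial L := Polynomial.C (Polynomial.eval 0 (Polynomial.derivative
    (q.map (Polynomial.C : ℂ →+* L)))) - Polynomial.derivative (q.map Polynomial.C) with hpiQ
  set piP : Polynomial L := Polynomial.C (Polynomial.eval 0 (Polynomial.derivative p)) -
    Polynomial.derivative p with hpiP
  have hpiQ0 : piQ ≠ 0 := by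
    intro h
    rw [h, Polynomial.natDegree_zero] at hdQ
    omega
  have hpiP0 : piP ≠ 0 := by
    intro h
    rw [h, Polynomial.natDegree_zero] at hdP
    omega
  have h1' : piQ * sb g2 (Polynomial.X : Polynomial L) (-Polynomial.X) =
      piP * sb b (Polynomial.X : Polynomial L) (-Polynomial.X) := by
    linear_combination -h1
  have h0' := congrArg (Polynomial.expand L 2) h0
  rw [map_mul, map_mul, ob_map_sb, ob_map_sb, map_zero, Polynomial.expand_X] at h0'
  have hU : sb b (0 : Polynomial L) (Polynomial.X ^ 2) ≠ 0 := by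
    intro h
    apply hu
    have h3 : Polynomial.expand L 2 (sb b (0 : Polynomial L) Polynomial.X) = 0 := by
      rw [ob_map_sb, map_zero, Polynomial.expand_X, h]
    exact (Polynomial.expand_eq_zero (by norm_num)).1 h3
  have hfin : (sb b (0 : Polynomial L) (Polynomial.X ^ 2) *
      sb b (Polynomial.X : Polynomial L) (-Polynomial.X)) *
      (piQ * Polynomial.expand L 2 piP - Polynomial.expand L 2 piQ * piP) = 0 := by
    linear_combination (-(piQ * sb b (Polynomial.X : Polynomial L) (-Polynomial.X))) * h0' +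
      (piQ * Polynomial.expand L 2 piQ) * hJ2 +
      (Polynomial.expand L 2 piQ * sb b (0 : Polynomial L) (Polynomial.X ^ 2)) * h1'
  have hfin2 := (mul_eq_zero.1 hfin).resolve_left (mul_ne_zero hU hv)
  have hfin3 := congrArg Polynomial.natDegree (sub_eq_zero.1 hfin2)
  rw [Polynomial.natDegree_mul hpiQ0 ((Polynomial.expand_ne_zero (by norm_num)).2 hpiP0),
    Polynomial.natDegree_mul ((Polynomial.expand_ne_zero (by norm_num)).2 hpiQ0) hpiP0,
    Polynomial.natDegree_expand, Polynomial.natDegree_expand, hdQ, hdP, hQd, hPd] at hfin3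
  omega

end Pool.Agent.Helper96.FK
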