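import Pool.Agent.Helper96.FK.RelR0

/-!
# FK-15: the relation from the cubic obstruction

`G 2 q = Den E`, `b = E N`; `quad_rel`: `G_q g2 = (G_p + c∂) b`, so `Den g2 = (G_p + c∂) N`.
Write `P1 = Den(x+y,z)`, `P2 = Den(x+z,y)`, `P3 = Den(y+z,x)`, `N1 = N(x+y,z)`, ... For one
pairing: `P1 [g2(x+y,z) b(x,y) - b(x+y,z) g2(x,y)] = (G_p^{(3)} + c∂)(N1 b(x,y)) - G_q^{(3)} N1 g2(x,y)`
(use `G_p^{(3)}(x,y,z) = G_p(x+y,z) + G_p(x,y)`, the same for `q`, and
`G_q g2 = (G_p + c∂) b` at `(x,y)`). Multiply `cub_rel` by `P1 P2 P3` and divide by 3, with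
`β' = (3/2) β`: `(G_p^{(3)} + c∂) R2 = G_q^{(3)} R1`,
`R2 = P1 P2 P3 β' - ∑ P2 P3 N1 b(x,y)`. By `step3'`, `Pi3 R2 = G_q^{(3)} M`.
Modulo `P1`: `Pi3 R2 ≡ -Pi3 P2 P3 N1 b(x,y)`, `G_q^{(3)} ≡ G_q(x,y)` since `Den ∣ G 2 q`. So
`P1 ∣ G_q(x,y) M + Pi3 P2 P3 N1 b(x,y) = E(x,y) [Den(x,y) M + Pi3 P2 P3 N1 N(x,y)]`.
For a prime `B ∣ Den` with `B ∤ X 0`: `B(x+y,z)` is prime (linear automorphism of `ℂ[x,y,z]`),
divides `P1`, and does not divide `E(x,y)`: otherwise `B(x+y,z)` does not involve `z`, so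
`B = κ(X 0 - c)`, and `B ∣ G 2 q` gives `q(c)+q(y)-q(c+y) = 0`, `q' ` periodic, `c = 0`.
Apply `e0`. `den_p`: by `pdiv_prime'`, from `emb B ∣ (G_p + c∂) N` and `¬ emb B ∣ N`.
`den_N`: if `c ≠ 0` by `pdiv_prime'`; if `N = emb N'` directly.
-/

set_option autoImplicit false

open MvPolynomial

namespace Pool.Agent.Helper96.FK

private theorem relr_e0_X {σ : Type*} (i : σ) : e0 (X i : MvPolynomial σ L) = X i := by
  simp [e0]

private theorem relr_e0_sb {σ : Type*} (N : MvPolynomial (Fin 2) L) (a b : MvPolynomial σ L) :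
    e0 (sb N a b) = sb (e0 N) (e0 a) (e0 b) := by
  unfold sb
  induction N using MvPolynomial.induction_on with
  | C r => simp [e0, algebraMap_eq]
  | add p q hp hq => rw [map_add, map_add, hp, hq, map_add, map_add]
  | mul_X p i hp =>
    rw [map_mul, map_mul, hp, map_mul, map_mul, aeval_X, relr_e0_X, aeval_X]
    congr 1
    fin_cases i <;> rfl

/-- the automorphism `X 0 + X 1 ↦ X 1` -/
private noncomputable def relr_rho : MvPolynomial (Fin 3) ℂ ≃ₐ[ℂ] MvPolynomial (Fin 3) ℂ :=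
  AlgEquiv.ofAlgHom (aeval ![X 1 - X 0, X 0, X 2]) (aeval ![X 1, X 0 + X 1, X 2])
    (by
      apply MvPolynomial.algHom_ext
      intro i
      fin_cases i <;> simp)
    (by
      apply MvPolynomial.algHom_ext
      intro i
      fin_cases i <;> simp)

private theorem relr_rho_B (B : MvPolynomial (Fin 2) ℂ) :
    relr_rho (sb B (X 0 + X 1 : MvPolynomial (Fin 3) ℂ) (X 2)) = rename Fin.succ B := by
  have h : (relr_rho.toAlgHom.comp (aeval ![(X 0 + X 1 : MvPolynomial (Fin 3) ℂ), X 2])) =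
      rename Fin.succ := by
    apply MvPolynomial.algHom_ext
    intro i
    fin_cases i <;> simp [relr_rho]
  exact congrArg (fun f => f B) h

private theorem relr_rho_E (E : MvPolynomial (Fin 2) ℂ) :
    relr_rho (sb E (X 0 : MvPolynomial (Fin 3) ℂ) (X 1)) =
      rename Fin.castSucc (aeval ![(X 1 - X 0 : MvPolynomial (Fin 2) ℂ), X 0] E) := by
  have h : (relr_rho.toAlgHom.comp (aeval ![(X 0 : MvPolynomial (Fin 3) ℂ), X 1])) =
      (rename (Fin.castSucc : Fin 2 → Fin 3)).comp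
        (aeval ![(X 1 - X 0 : MvPolynomial (Fin 2) ℂ), X 0]) := by
    apply MvPolynomial.algHom_ext
    intro i
    fin_cases i <;> simp [relr_rho]
  exact congrArg (fun f => f E) h

private theorem relr_prime {B : MvPolynomial (Fin 2) ℂ} (hB : Prime B) :
    Prime (sb B (X 0 + X 1 : MvPolynomial (Fin 3) ℂ) (X 2)) := by
  have h1 : finSuccEquiv ℂ 2 (rename Fin.succ B) = Polynomial.C B := by
    have h : ((finSuccEquiv ℂ 2).toAlgHom.comp (rename Fin.succ)) =
        (Polynomial.CAlgHom : MvPolynomial (Fin 2) ℂ →ₐ[ℂ] _) := by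
      apply MvPolynomial.algHom_ext
      intro i
      simp [finSuccEquiv_X_succ]
    exact congrArg (fun f => f B) h
  have h2 : Prime (finSuccEquiv ℂ 2 (rename Fin.succ B)) := by
    rw [h1]
    exact Polynomial.prime_C_iff.2 hB
  have h3 : Prime (rename (Fin.succ : Fin 2 → Fin 3) B) :=
    (MulEquiv.prime_iff (finSuccEquiv ℂ 2 : MvPolynomial (Fin 3) ℂ ≃ₐ[ℂ] _)).1 h2
  rw [← relr_rho_B] at h3
  exact (MulEquiv.prime_iff (relr_rho : MvPolynomial (Fin 3) ℂ ≃ₐ[ℂ] _)).1 h3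

private theorem relr_sb_ne {E : MvPolynomial (Fin 2) ℂ} (hE : E ≠ 0) :
    sb E (X 0 : MvPolynomial (Fin 3) ℂ) (X 1) ≠ 0 := by
  have h : sb E (X 0 : MvPolynomial (Fin 3) ℂ) (X 1) = rename Fin.castSucc E := by
    have h : (aeval ![(X 0 : MvPolynomial (Fin 3) ℂ), X 1]) =
        (rename (Fin.castSucc : Fin 2 → Fin 3)) := by
      apply MvPolynomial.algHom_ext
      intro i
      fin_cases i <;> simp
    exact congrArg (fun f => f E) h
  rw [h]
  intro h0
  apply hE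
  apply rename_injective Fin.castSucc (Fin.castSucc_injective 2)
  rw [h0, map_zero]

private theorem relr_degree {B E : MvPolynomial (Fin 2) ℂ} (hE : E ≠ 0)
    (h : sb B (X 0 + X 1 : MvPolynomial (Fin 3) ℂ) (X 2) ∣
      sb E (X 0 : MvPolynomial (Fin 3) ℂ) (X 1)) : degreeOf 1 B = 0 := by
  classical
  have hne : relr_rho (sb E (X 0 : MvPolynomial (Fin 3) ℂ) (X 1)) ≠ 0 := by
    intro h0
    apply relr_sb_ne hE
    apply relr_rho.injective
    rw [h0, map_zero]
  obtain ⟨r, hr⟩ := h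
  have h1 : rename (Fin.castSucc : Fin 2 → Fin 3)
      (aeval ![(X 1 - X 0 : MvPolynomial (Fin 2) ℂ), X 0] E) =
      rename Fin.succ B * relr_rho r := by
    rw [← relr_rho_E, hr, map_mul, relr_rho_B]
  rw [relr_rho_E] at hne
  have h2 : rename (Fin.succ : Fin 2 → Fin 3) B ≠ 0 := by
    intro h0
    rw [h1, h0, zero_mul] at hne
    exact hne rfl
  have h3 : relr_rho r ≠ 0 := by
    intro h0
    rw [h1, h0, mul_zero] at hne
    exact hne rfl
  have h4 : degreeOf 2 (rename (Fin.castSucc : Fin 2 → Fin 3)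
      (aeval ![(X 1 - X 0 : MvPolynomial (Fin 2) ℂ), X 0] E)) = 0 := by
    by_contra h5
    have h6 := mem_vars_iff_degreeOf_ne_zero.2 h5
    have h7 := vars_rename (Fin.castSucc : Fin 2 → Fin 3) _ h6
    rw [Finset.mem_image] at h7
    obtain ⟨i, -, hi⟩ := h7
    fin_cases i <;> simp at hi
  rw [h1, degreeOf_mul_eq h2 h3] at h4
  have h5 : degreeOf (Fin.succ (1 : Fin 2)) (rename (Fin.succ : Fin 2 → Fin 3) B) =
      degreeOf 1 B := degreeOf_rename_of_injective (Fin.succ_injective 2) 1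
  have h6 : (Fin.succ (1 : Fin 2) : Fin 3) = 2 := rfl
  rw [h6] at h5
  omega

private theorem relr_poly {B : MvPolynomial (Fin 2) ℂ} (h : degreeOf 1 B = 0) :
    ∃ β : Polynomial ℂ, B = Polynomial.aeval (X 0 : MvPolynomial (Fin 2) ℂ) β := by
  refine ⟨aeval ![Polynomial.X, 0] B, ?_⟩
  have h1 : (Polynomial.aeval (X 0 : MvPolynomial (Fin 2) ℂ))
      (aeval ![Polynomial.X, (0 : Polynomial ℂ)] B) =
      aeval (![X 0, 0] : Fin 2 → MvPolynomial (Fin 2) ℂ) B := by
    have h : ((Polynomial.aeval (X 0 : MvPolynomial (Fin 2) ℂ)).comp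
        (aeval ![Polynomial.X, (0 : Polynomial ℂ)])) =
        aeval (![X 0, 0] : Fin 2 → MvPolynomial (Fin 2) ℂ) := by
      apply MvPolynomial.algHom_ext
      intro i
      fin_cases i <;> simp
    exact congrArg (fun f => f B) h
  have h2 : aeval (![X 0, 0] : Fin 2 → MvPolynomial (Fin 2) ℂ) B = aeval X B := by
    apply eval₂Hom_congr' rfl _ rfl
    intro i hi _
    fin_cases i
    · rfl
    · exact absurd h (mem_vars_iff_degreeOf_ne_zero.1 hi)
  rw [h1, h2, aeval_X_left]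
  rfl

private theorem relr_add {q : Polynomial ℂ} (hq : 3 ≤ q.natDegree) {u : ℂ} (hu : u ≠ 0)
    (h : ∀ y, q.eval u + q.eval y - q.eval (u + y) = 0) : False := by
  have h0 : q.eval 0 = 0 := by
    have := h 0
    rw [add_zero] at this
    linear_combination this
  have hk : ∀ k : ℕ, q.eval (u * k) = q.eval u * k := by
    intro k
    induction k with
    | zero => simp [h0]
    | succ k ih =>
      have := h (u * k)
      rw [ih] at this
      have e : u * ((k + 1 : ℕ) : ℂ) = u + u * k := by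
        push_cast
        ring
      rw [e]
      push_cast
      linear_combination -this
  have hz : q.comp (Polynomial.C u * Polynomial.X) - Polynomial.C (q.eval u) * Polynomial.X = 0 := by
    apply Polynomial.eq_zero_of_infinite_isRoot
    apply Set.infinite_of_injective_forall_mem (f := fun k : ℕ => (k : ℂ)) Nat.cast_injective
    intro k
    show Polynomial.IsRoot _ _
    simp [Polynomial.IsRoot.def, Polynomial.eval_comp, hk k]
  have h1 : q.comp (Polynomial.C u * Polynomial.X) = Polynomial.C (q.eval u) * Polynomial.X :=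
    sub_eq_zero.1 hz
  have h2 := congrArg Polynomial.natDegree h1
  rw [Polynomial.natDegree_comp, Polynomial.natDegree_C_mul_X u hu, mul_one] at h2
  have h3 : (Polynomial.C (q.eval u) * Polynomial.X).natDegree ≤ 1 := by
    simpa using Polynomial.natDegree_C_mul_X_pow_le (q.eval u) 1
  omega

private theorem relr_eval_G (q : Polynomial ℂ) (u y : ℂ) :
    aeval ![u, y] (G 2 q) = q.eval u + q.eval y - q.eval (u + y) := by
  unfold G
  rw [Fin.sum_univ_two, Fin.sum_univ_two, map_sub, map_add, ← Polynomial.aeval_algHom_apply,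
    ← Polynomial.aeval_algHom_apply, ← Polynomial.aeval_algHom_apply, map_add, aeval_X, aeval_X]
  simp

private theorem relr_not_dvd {q : Polynomial ℂ} (hq : 3 ≤ q.natDegree)
    {B E : MvPolynomial (Fin 2) ℂ} (hB : Prime B) (hBG : B ∣ G 2 q) (hX : ¬ B ∣ X 0)
    (hE : E ≠ 0) : ¬ sb B (X 0 + X 1 : MvPolynomial (Fin 3) ℂ) (X 2) ∣
      sb E (X 0 : MvPolynomial (Fin 3) ℂ) (X 1) := by
  intro h
  obtain ⟨β, hβ⟩ := relr_poly (relr_degree hE h)
  have hdeg : β.degree ≠ 0 := by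
    intro h0
    rw [Polynomial.eq_C_of_degree_eq_zero h0, Polynomial.aeval_C] at hβ
    have hne : β.coeff 0 ≠ 0 := by
      intro h1
      rw [h1, map_zero] at hβ
      exact hB.ne_zero hβ
    apply hB.not_isUnit
    rw [hβ]
    exact (isUnit_iff_ne_zero.2 hne).map _
  obtain ⟨u, hu⟩ := IsAlgClosed.exists_root β hdeg
  obtain ⟨γ, hγ⟩ := Polynomial.dvd_iff_isRoot.2 hu
  have h1 : B = (X 0 - C u) * Polynomial.aeval (X 0 : MvPolynomial (Fin 2) ℂ) γ := by
    rw [hβ, hγ, map_mul, map_sub, Polynomial.aeval_X, Polynomial.aeval_C, algebraMap_eq]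
  have h2 : ¬ IsUnit (X 0 - C u : MvPolynomial (Fin 2) ℂ) := by
    intro h3
    have h4 := h3.map (aeval ![u, (0 : ℂ)] : MvPolynomial (Fin 2) ℂ →ₐ[ℂ] ℂ)
    simp at h4
  have h3 : IsUnit (Polynomial.aeval (X 0 : MvPolynomial (Fin 2) ℂ) γ) :=
    (hB.irreducible.isUnit_or_isUnit h1).resolve_left h2
  have h4 : B ∣ X 0 - C u := by
    obtain ⟨v, hv⟩ := h3
    rw [← hv] at h1
    exact ⟨(v⁻¹ : (MvPolynomial (Fin 2) ℂ)ˣ), by rw [h1, mul_assoc, Units.mul_inv, mul_one]⟩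
  by_cases hu0 : u = 0
  · rw [hu0, C_0, sub_zero] at h4
    exact hX h4
  · apply relr_add hq hu0
    intro y
    rw [← relr_eval_G]
    obtain ⟨r, hr⟩ := hBG
    rw [hr, h1, map_mul, map_mul]
    simp

theorem rdata {c : ℂ} {q : Polynomial ℂ} {p : Polynomial L} {F Gp : A L}
    (hd : Datum c q p F Gp) (b : MvPolynomial (Fin 2) L) (hb : b.IsSymmetric)
    (hbF : T 2 b = hc 2 F) (Den E : MvPolynomial (Fin 2) ℂ) (N : MvPolynomial (Fin 2) L)
    (h1 : G 2 q = Den * E) (h2 : b = emb E * N)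
    (h3 : ∀ B, Prime B → B ∣ Den → ¬ emb B ∣ N)
    (h4 : c ≠ 0 ∨ ∃ N' : MvPolynomial (Fin 2) ℂ, N = emb N') :
    RData (p0 p) q Den (e0 N) := by
  have hq2 : G 2 q ≠ 0 := G_ne_zero 0 q (by have := hd.dq; omega)
  have hD : Den ≠ 0 := by
    rintro rfl
    exact hq2 (by rw [h1, zero_mul])
  have hE : E ≠ 0 := by
    rintro rfl
    exact hq2 (by rw [h1, mul_zero])
  obtain ⟨g2, hg, hgG⟩ := T_surj_symm 2 (hc 2 Gp) (homogeneousComponent_isHomogeneous 2 Gp)
  have hquad := quad_rel hd hb hg hbF hgG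
  have hmain : emb Den * g2 = G 2 p * N + C (Polynomial.C c) * cd N := by
    apply mul_left_cancel₀ (fact_emb_ne hE)
    rw [h1, h2, cd_emb_mul, map_mul] at hquad
    linear_combination hquad
  have hp : ∀ B, Prime B → B ∣ Den → emb B ∣ G 2 p ∧ (c ≠ 0 → emb B ∣ cd N ∧ ¬ B ∣ e0 N) := by
    intro B hB hBD
    apply pdiv_prime' B hB (G 2 p) c N (h3 B hB hBD)
    rw [← hmain]
    exact (emb_dvd_emb.2 hBD).mul_right _
  refine ⟨hd.dq, hd.dp, hd.ne, hd.q0, ⟨E, h1⟩, ?_, ?_, ?_, ?_⟩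
  · intro B hB hBD
    obtain ⟨g', hg'⟩ := (hp B hB hBD).1
    have h5 : e0 (G 2 p) = G 2 (p0 p) := map_G _ 2 p
    rw [← h5, hg', map_mul, e0_emb]
    exact dvd_mul_right _ _
  · intro B hB hBD
    rcases h4 with hc | ⟨N', hN'⟩
    · exact ((hp B hB hBD).2 hc).2
    · rw [hN', e0_emb]
      intro h5
      apply h3 B hB hBD
      rw [hN']
      exact emb_dvd_emb.2 h5
  · exact den_symm (G 2 q) hq2 (G_symm 2 q) b hb Den E N h1 h2 h3
  · intro B hB hBD hX
    obtain ⟨M, hM⟩ := rel_core hd b hb hbF Den E N h1 h2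
    refine ⟨e0 M, ?_⟩
    have h5 := map_dvd e0 hM
    have h6 : (e0 (Pi3 : MvPolynomial (Fin 3) L)) = Pi3 := by
      simp only [Pi3, map_mul, map_add, relr_e0_X]
    rw [e0_emb, map_mul, map_add, map_mul, e0_emb, e0_emb, map_mul, map_mul, map_mul, map_mul,
      e0_emb, e0_emb, relr_e0_sb, relr_e0_sb, h6, map_add, relr_e0_X, relr_e0_X, relr_e0_X] at h5
    have h7 : sb B (X 0 + X 1 : MvPolynomial (Fin 3) ℂ) (X 2) ∣
        sb Den (X 0 + X 1 : MvPolynomial (Fin 3) ℂ) (X 2) :=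
      map_dvd (aeval ![(X 0 + X 1 : MvPolynomial (Fin 3) ℂ), X 2]) hBD
    exact ((relr_prime hB).dvd_or_dvd (h7.trans h5)).resolve_left
      (relr_not_dvd hd.dq hB (hBD.trans ⟨E, h1⟩) hX hE)

end Pool.Agent.Helper96.FK
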