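import Pool.Agent.Helper96.FK.Shift
import Pool.Agent.Helper96.FK.Combos
import Pool.Agent.Helper96.FK.Covar
import Pool.Agent.Helper96.FK.Ift
import Pool.Agent.Helper96.FK.OB
import Pool.Agent.Helper96.FK.Cub2
import Pool.Agent.Helper96.FK.RelR
import Pool.Agent.Helper96.FK.Adm

/-!
# FK-31: the theorem over `ℂ`

Commuting `F, Gt` of different orders `≥ 3` with constant separants have common symmetries of
arbitrarily high order.
-/

set_option autoImplicit false

open MvPolynomial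

namespace Pool.Agent.Helper96.FK

theorem emb_inj {σ : Type*} {P Q : MvPolynomial σ ℂ} (h : emb P = emb Q) : P = Q := by
  rw [← e0_emb P, h, e0_emb]

theorem emb_br (F H : A ℂ) : emb (br F H) = br (emb F) (emb H) := map_br _ F H

theorem e0_br (F H : A L) : e0 (br F H) = br (e0 F) (e0 H) := map_br _ F H

theorem emb_hc (s : ℕ) (F : A ℂ) : emb (hc s F) = hc s (emb F) := map_hc _ s F

theorem e0_hc (s : ℕ) (F : A L) : e0 (hc s F) = hc s (e0 F) := map_hc _ s F

theorem emb_T (s : ℕ) (P : MvPolynomial (Fin s) ℂ) : emb (T s P) = T s (emb P) := map_T _ s P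

theorem emb_ell (p : Polynomial ℂ) : emb (ell p) = ell (p.map Polynomial.C) := map_ell _ p

theorem e0_ell (p : Polynomial L) : e0 (ell p) = ell (p0 p) := map_ell _ p

theorem emb_G (s : ℕ) (p : Polynomial ℂ) : emb (G s p) = G s (p.map Polynomial.C) := map_G _ s p

theorem p0_map (p : Polynomial ℂ) : p0 (p.map Polynomial.C) = p := by
  unfold p0
  rw [Polynomial.map_map]
  convert Polynomial.map_id
  ext z
  simp

theorem cd_emb {σ : Type*} (P : MvPolynomial σ ℂ) : cd (emb P) = 0 :=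
  (cd_eq_zero_iff _).2 ⟨P, rfl⟩

/-- the linear part of a polynomial of order `k` with constant separant -/
theorem lin_natDegree {k : ℕ} {c0 : ℂ} {F : A ℂ} (hF : Ord k F) (hs : d k F = C c0)
    (h0 : c0 ≠ 0) {q : Polynomial ℂ} (hq : hc 1 F = ell q) : q.natDegree = k := by
  have h1 : ∀ i, C (q.coeff i) = hc 0 (d i F) := by
    intro i
    rw [← d_ell, ← hq, hc_d]
  apply Polynomial.natDegree_eq_of_le_of_coeff_ne_zero
  · rw [Polynomial.natDegree_le_iff_coeff_eq_zero]
    intro j hj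
    have h2 := h1 j
    rw [hF j hj, map_zero] at h2
    exact (C_eq_zero (σ := ℕ)).1 h2
  · have h2 := h1 k
    rw [hs] at h2
    intro h3
    rw [h3, C_0] at h2
    apply h0
    rw [homogeneousComponent_zero] at h2
    have h4 := (C_eq_zero (σ := ℕ)).1 h2.symm
    simpa using h4

theorem lin_coeff0 {F : A ℂ} (hsc : sc F = 0) {q : Polynomial ℂ} (hq : hc 1 F = ell q) :
    q.coeff 0 = 0 := by
  have h1 : C (q.coeff 0) = hc 0 (d 0 F) := by rw [← d_ell, ← hq, hc_d]
  rw [sc_of_hc0, sc_d0, hsc, Polynomial.derivative_zero, Polynomial.eval_zero, C_0] at h1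
  exact (C_eq_zero (σ := ℕ)).1 h1

theorem sb_zero_iff {b : MvPolynomial (Fin 2) L} (hb : b.IsSymmetric) :
    sb b (X 0 : MvPolynomial (Fin 1) L) 0 = 0 ↔ sb b (0 : Polynomial L) Polynomial.X = 0 := by
  have hsw : ∀ {S : Type} [CommRing S] [Algebra L S] (u v : S), sb b u v = sb b v u := by
    intro S _ _ u v
    have h1 := hb (Equiv.swap 0 1)
    unfold sb
    conv_rhs => rw [← h1]
    rw [aeval_rename]
    congr 2
    ext i
    fin_cases i <;> simp
  have hmap : ∀ {S S' : Type} [CommRing S] [Algebra L S] [CommRing S'] [Algebra L S']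
      (f : S →ₐ[L] S') (u v : S), f (sb b u v) = sb b (f u) (f v) := by
    intro S S' _ _ _ _ f u v
    unfold sb
    rw [← AlgHom.comp_apply, comp_aeval]
    congr 2
    ext i
    fin_cases i <;> simp
  constructor
  · intro h
    have h1 := congrArg (aeval (fun _ => Polynomial.X) :
      MvPolynomial (Fin 1) L →ₐ[L] Polynomial L) h
    rw [hmap, aeval_X, map_zero] at h1
    rw [hsw]
    exact h1
  · intro h
    have h1 := congrArg (Polynomial.aeval (X 0 : MvPolynomial (Fin 1) L) :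
      Polynomial L →ₐ[L] MvPolynomial (Fin 1) L) h
    rw [hmap, Polynomial.aeval_X, map_zero] at h1
    rw [hsw]
    exact h1

/-- the core: a datum gives formal symmetries over `L` -/
theorem core {c : ℂ} {q : Polynomial ℂ} {p : Polynomial L} {F Gp : A L}
    (hd : Datum c q p F Gp) (b : MvPolynomial (Fin 2) L) (hb : b.IsSymmetric)
    (hbF : T 2 b = hc 2 F)
    (h4 : c ≠ 0 ∨ ∃ b' : MvPolynomial (Fin 2) ℂ, b = emb b')
    (hob : OddP q → OddP (p0 p) →
      (sb b (0 : Polynomial L) Polynomial.X = 0 ∨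
        sb b (Polynomial.X : Polynomial L) (-Polynomial.X) = 0)) (n : ℕ) :
    ∃ (r : Polynomial ℂ) (c2 : MvPolynomial (Fin 2) L) (h : ℕ → A L), n ≤ r.natDegree ∧
      r.coeff 0 = 0 ∧ emb (G 2 q) * c2 = emb (G 2 r) * b ∧ c2.IsSymmetric ∧ Ser h ∧
      h 1 = ell (r.map Polynomial.C) ∧ h 2 = T 2 c2 ∧ FC F h ∧ FN c Gp h := by
  have hq2 : 2 ≤ q.natDegree := le_trans (by norm_num) hd.dq
  have hG0 : G 2 q ≠ 0 := G_ne_zero 0 q hq2
  obtain ⟨Den, E, N, h1, h2, h3⟩ := exists_den (G 2 q) hG0 b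
  have hE0 : E ≠ 0 := by
    rintro rfl
    rw [mul_zero] at h1
    exact hG0 h1
  have h4' : c ≠ 0 ∨ ∃ N' : MvPolynomial (Fin 2) ℂ, N = emb N' := by
    rcases h4 with h4 | ⟨b', hb'⟩
    · exact Or.inl h4
    · right
      apply (cd_eq_zero_iff N).1
      have h5 : cd b = 0 := by rw [hb', cd_emb]
      rw [h2, cd_emb_mul] at h5
      rcases mul_eq_zero.1 h5 with h6 | h6
      · exact absurd (emb_inj (P := E) (Q := 0) (by rw [h6, map_zero])) hE0
      · exact h6
  have hR := rdata hd b hb hbF Den E N h1 h2 h3 h4'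
  obtain ⟨r, hr1, hr2, hr3, hr4⟩ := exists_adm hR n
  obtain ⟨c2, hc2, hc3⟩ := exists_c2 q r hq2 b hb Den E N h1 h2 hr3
  obtain ⟨e2F, e2G⟩ := quad_exists hd hb hbF r c2 hc2 hc3
  obtain ⟨x3, hx3, e3F, e3G⟩ := cub_exists hd hb hbF r c2 hc2 hc3
    (fun ho1 ho2 => ⟨hr4 ho1 ho2, hob ho1 ho2⟩)
  have e1F : br (hc 1 F) (ell (r.map Polynomial.C)) = 0 := by rw [hd.F1, br_ell_ell]
  have e1G : br (hc 1 Gp) (ell (r.map Polynomial.C)) +
      C (Polynomial.C c) * cd (ell (r.map Polynomial.C)) = 0 := by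
    rw [hd.G1, br_ell_ell, ← emb_ell, cd_emb, mul_zero, add_zero]
  obtain ⟨h, hS, hh1, hh2, hFC, hFN⟩ := ift hd (ell (r.map Polynomial.C)) (T 2 c2) x3
    (ell_homog _) (T_homog 2 _) hx3 e1F e1G e2F e2G e3F e3G
  exact ⟨r, c2, h, hr1, hr2, hc3, hc2, hS, hh1, hh2, hFC, hFN⟩

theorem ser_e0 {h : ℕ → A L} (hS : Ser h) : Ser (fun s => e0 (h s)) := by
  refine ⟨fun s => ?_, ?_⟩
  · exact (hS.1 s).map _
  · show e0 (h 0) = 0
    rw [hS.2, map_zero]

theorem fc_e0 {F : A L} {h : ℕ → A L} (hF : FC F h) : FC (e0 F) (fun s => e0 (h s)) := by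
  intro s
  have h1 := congrArg e0 (hF s)
  rw [map_sum, map_zero] at h1
  rw [← h1]
  refine Finset.sum_congr rfl fun x _ => ?_
  rw [e0_br, e0_hc]

theorem main_I {k m : ℕ} {cF cG : ℂ} {F Gt : A ℂ} (hF : CS k cF F) (hG : CS m cG Gt)
    (hkm : k ≠ m) (comm : br F Gt = 0) (hsc : sc F = 0) :
    ∀ N : ℕ, ∃ h : A ℂ, br F h = 0 ∧ br Gt h = 0 ∧ ∃ j, N ≤ j ∧ d j h ≠ 0 := by
  obtain ⟨q, hq⟩ := exists_ell (hc 1 F) (homogeneousComponent_isHomogeneous 1 F)
  obtain ⟨p', hp'⟩ := exists_ell (hc 1 Gt) (homogeneousComponent_isHomogeneous 1 Gt)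
  have hqk := lin_natDegree hF.ord hF.sep hF.ne hq
  have hpm := lin_natDegree hG.ord hG.sep hG.ne hp'
  have hd : Datum 0 q (p'.map Polynomial.C) (emb F) (emb Gt) :=
    { dq := by rw [hqk]; exact hF.hk
      dp := by rw [p0_map, hpm]; exact hG.hk
      ne := by rw [p0_map, hqk, hpm]; exact hkm
      comm := by rw [← emb_br, comm, map_zero, cd_emb, mul_zero]
      F0 := by rw [← emb_hc, hF.F0, map_zero]
      G0 := by rw [← emb_hc, hG.F0, map_zero]
      F1 := by rw [← emb_hc, hq, emb_ell]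
      G1 := by rw [← emb_hc, hp', emb_ell]
      q0 := lin_coeff0 hsc hq }
  obtain ⟨b', hb', hbF'⟩ := T_surj_symm 2 (hc 2 F) (homogeneousComponent_isHomogeneous 2 F)
  have hb : (emb b').IsSymmetric := hb'.map _
  have hbF : T 2 (emb b') = hc 2 (emb F) := by rw [← emb_T, hbF', emb_hc]
  apply combos hF Gt
  intro n
  obtain ⟨r, c2, h, hr1, hr2, hc3, hc2, hS, hh1, hh2, hFC, hFN⟩ := core hd (emb b') hb hbF
    (Or.inr ⟨b', rfl⟩) (fun ho1 ho2 => ob hd ⟨p', rfl⟩ ho1 ho2 (emb b') hb hbF) n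
  refine ⟨r, fun s => e0 (h s), hr1, ser_e0 hS, ?_, ?_, ?_⟩
  · show e0 (h 1) = ell r
    rw [hh1, ← emb_ell, e0_emb]
  · have h5 := fc_e0 hFC
    rwa [e0_emb] at h5
  · have h6 : FC (emb Gt) h := by
      intro s
      have h7 := hFN s
      rw [Polynomial.C_0, C_0, zero_mul, add_zero] at h7
      exact h7
    have h5 := fc_e0 h6
    rwa [e0_emb] at h5

theorem main_II {k m : ℕ} {cF cG c : ℂ} {F Gt : A ℂ} (hk : 3 ≤ k) (hm : 3 ≤ m)
    (hFo : Ord k F) (hFs : d k F = C cF) (hcF : cF ≠ 0)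
    (hGo : Ord m Gt) (hGs : d m Gt = C cG) (hcG : cG ≠ 0)
    (hkm : k ≠ m) (comm : br F Gt = 0) (hsc : sc F = 0) (hscG : sc Gt = Polynomial.C c)
    (hc0 : c ≠ 0) :
    ∀ N : ℕ, ∃ h : A ℂ, br F h = 0 ∧ br Gt h = 0 ∧ ∃ j, N ≤ j ∧ d j h ≠ 0 := by
  obtain ⟨qL, hqL⟩ := exists_ell (hc 1 (shL F)) (homogeneousComponent_isHomogeneous 1 _)
  obtain ⟨p, hp⟩ := exists_ell (hc 1 (shL Gt)) (homogeneousComponent_isHomogeneous 1 _)
  have hcC : ∀ i, 1 ≤ i → hc i (C (Polynomial.C c) : A L) = 0 := by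
    intro i hi
    have h := homogeneousComponent_of_mem (m := i)
      ((mem_homogeneousSubmodule 0 (C (Polynomial.C c) : A L)).2 (isHomogeneous_C _ _))
    rwa [if_neg (by omega)] at h
  have hF1e : e0 (shL F) = F := e0_shL F
  have hG1e : e0 (shL Gt) = Gt := e0_shL Gt
  have hcd : cd (shL F) = d 0 (shL F) := cd_shL F
  have hF0 : hc 0 (shL F) = 0 := by rw [hc0_shL, hsc, C_0]
  have hG0 : hc 0 (shL Gt - C (Polynomial.C c)) = 0 := by
    rw [map_sub, hc0_shL, hscG, homogeneousComponent_zero, coeff_C, if_pos rfl, sub_self]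
  have hG1 : hc 1 (shL Gt - C (Polynomial.C c)) = ell p := by
    rw [map_sub, hcC 1 le_rfl, sub_zero, hp]
  have hcomm : br (shL F) (shL Gt - C (Polynomial.C c)) =
      C (Polynomial.C c) * cd (shL F) := by
    rw [br_sub_right, ← shL_br, comm, map_zero, br_anti, br_C_left, hcd]
    ring
  -- the linear part of `shL F` has constant coefficients
  have hlin : cd (ell qL) = 0 := by
    have h1 := congrArg (hc 1) hcomm
    rw [hc_br] at h1
    have h2 : ∑ x ∈ Finset.HasAntidiagonal.antidiagonal (1 + 1),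
        br (hc x.1 (shL F)) (hc x.2 (shL Gt - C (Polynomial.C c))) = 0 := by
      apply Finset.sum_eq_zero
      intro x hx
      rw [Finset.HasAntidiagonal.mem_antidiagonal] at hx
      obtain ⟨i, j⟩ := x
      simp only at hx ⊢
      have : i = 0 ∨ (i = 1 ∧ j = 1) ∨ j = 0 := by omega
      rcases this with rfl | ⟨rfl, rfl⟩ | rfl
      · rw [hF0, br_zero_left]
      · rw [hqL, hG1, br_ell_ell]
      · rw [hG0, br_zero_right]
    rw [h2] at h1
    have h3 : hc 1 (C (Polynomial.C c) * cd (shL F)) = C (Polynomial.C c) * cd (hc 1 (shL F)) := by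
      rw [← hc_cd]
      exact homogeneousComponent_C_mul _ _ _
    rw [h3, hqL] at h1
    rcases mul_eq_zero.1 h1.symm with h4 | h4
    · exfalso
      rw [C_eq_zero] at h4
      rw [Polynomial.C_eq_zero] at h4
      exact hc0 h4
    · exact h4
  obtain ⟨y, hy⟩ := (cd_eq_zero_iff _).1 hlin
  have hq1 : hc 1 F = ell (p0 qL) := by
    rw [← hF1e, ← e0_hc, hqL, e0_ell]
  have hq2 : ell qL = ell ((p0 qL).map Polynomial.C) := by
    rw [← emb_ell, ← e0_ell, hy, e0_emb]
  have hp1 : hc 1 Gt = ell (p0 p) := by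
    rw [← hG1e, ← e0_hc, hp, e0_ell]
  have hqk := lin_natDegree hFo hFs hcF hq1
  have hpm := lin_natDegree hGo hGs hcG hp1
  have hd : Datum c (p0 qL) p (shL F) (shL Gt - C (Polynomial.C c)) :=
    { dq := by rw [hqk]; exact hk
      dp := by rw [hpm]; exact hm
      ne := by rw [hqk, hpm]; exact hkm
      comm := hcomm
      F0 := hF0
      G0 := hG0
      F1 := by rw [hqL, hq2]
      G1 := hG1
      q0 := lin_coeff0 hsc hq1 }
  obtain ⟨b, hb, hbF⟩ := T_surj_symm 2 (hc 2 (shL F)) (homogeneousComponent_isHomogeneous 2 _)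
  -- `b(x,0) = 0`
  have hb0 : sb b (X 0 : MvPolynomial (Fin 1) L) 0 = 0 := by
    have h1 : d 0 (T 2 b) = 0 := by
      rw [hbF, ← hc_d, ← hcd, hc_cd, hqL, hlin]
    rw [d0_T2 b hb] at h1
    have h2 : T 1 (sb b (X 0 : MvPolynomial (Fin 1) L) 0) = 0 := by
      rcases mul_eq_zero.1 h1 with h3 | h3
      · exact absurd h3 two_ne_zero
      · exact h3
    refine T_inj ?_ h2
    intro σ
    have : σ = 1 := Subsingleton.elim _ _
    subst this
    simp
  have hb0' : sb b (0 : Polynomial L) Polynomial.X = 0 := (sb_zero_iff hb).1 hb0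
  have hF' : CS k cF F := ⟨hk, hFo, hFs, hcF, by rw [sc_of_hc0, hsc]; simp⟩
  apply combos hF' Gt
  intro n
  obtain ⟨r, c2, h, hr1, hr2, hc3, hc2, hS, hh1, hh2, hFC, hFN⟩ := core hd b hb hbF
    (Or.inl hc0) (fun _ _ => Or.inl hb0') n
  have hc20 : d 0 (h 2) = 0 := by
    have h1 : sb c2 (0 : Polynomial L) Polynomial.X = 0 := by
      first
      | exact c2_zero (le_trans (by norm_num) hd.dq) hr2 hb hc2 hc3 hb0'
      | exact c2_zero (le_trans (by norm_num) hd.dq) hb hc2 hc3 hb0'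
    rw [hh2, d0_T2 c2 hc2, (sb_zero_iff hc2).2 h1, map_zero, mul_zero]
  have hcov := covar (le_trans (by norm_num) hd.dq) hF0 hd.F1 hcd.symm h hS r hr2 hh1 hc20 hFC
  refine ⟨r, fun s => e0 (h s), hr1, ser_e0 hS, ?_, ?_, ?_⟩
  · show e0 (h 1) = ell r
    rw [hh1, ← emb_ell, e0_emb]
  · have h5 := fc_e0 hFC
    rwa [e0_shL] at h5
  · have h6 : FC (shL Gt) h := by
      intro s
      have h7 := hFN s
      have h8 : ∀ i, hc i (shL Gt) = hc i (shL Gt - C (Polynomial.C c)) +
          (if i = 0 then C (Polynomial.C c) else 0) := by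
        intro i
        rw [map_sub]
        rcases Nat.eq_zero_or_pos i with rfl | hi
        · rw [if_pos rfl, homogeneousComponent_zero (C (Polynomial.C c)), coeff_C, if_pos rfl]
          ring
        · rw [if_neg (by omega), hcC i hi]
          ring
      have h9 : ∑ x ∈ Finset.HasAntidiagonal.antidiagonal (s + 1),
          br (hc x.1 (shL Gt)) (h x.2) =
          ∑ x ∈ Finset.HasAntidiagonal.antidiagonal (s + 1),
            br (hc x.1 (shL Gt - C (Polynomial.C c))) (h x.2) +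
          ∑ x ∈ Finset.HasAntidiagonal.antidiagonal (s + 1),
            br (if x.1 = 0 then C (Polynomial.C c) else 0) (h x.2) := by
        rw [← Finset.sum_add_distrib]
        refine Finset.sum_congr rfl fun x _ => ?_
        rw [h8, br_add_left]
      have h10 : ∑ x ∈ Finset.HasAntidiagonal.antidiagonal (s + 1),
            br (if x.1 = 0 then C (Polynomial.C c) else 0) (h x.2) =
          C (Polynomial.C c) * d 0 (h (s + 1)) := by
        rw [Finset.sum_eq_single (0, s + 1)]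
        · simp only [if_true]
          rw [br_C_left]
        · rintro ⟨i, j⟩ hx hne
          rw [Finset.HasAntidiagonal.mem_antidiagonal] at hx
          have : i ≠ 0 := by
            rintro rfl
            apply hne
            simp only at hx
            rw [show j = s + 1 by omega]
          simp only
          rw [if_neg this, br_zero_left]
        · intro h11
          exact absurd (by simp) h11
      rw [h9, h10, hcov s]
      exact h7
    have h5 := fc_e0 h6
    rwa [e0_shL] at h5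

end Pool.Agent.Helper96.FK
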