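import Pool.Agent.Helper96.FK.Main

/-!
# FK-32: two commuting elements of different orders `≥ 3` with constant separants
-/

set_option autoImplicit false

open MvPolynomial

namespace Pool.Agent.Helper96.FK

/-- proportionality of polynomials with vanishing Wronskian -/
theorem wronski {φ γ : Polynomial ℂ} (hφ : φ ≠ 0)
    (h : Polynomial.derivative γ * φ = Polynomial.derivative φ * γ) :
    ∃ μ : ℂ, γ = Polynomial.C μ * φ := by
  by_cases hγ : γ = 0
  · exact ⟨0, by rw [hγ]; simp⟩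
  -- leading coefficients of `γ' φ = φ' γ`
  have key : ∀ δ : Polynomial ℂ, δ ≠ 0 →
      Polynomial.derivative δ * φ = Polynomial.derivative φ * δ → δ.natDegree = φ.natDegree := by
    intro δ hδ hw
    by_contra hne
    have h1 : (Polynomial.derivative δ * φ).coeff (δ.natDegree + φ.natDegree - 1) =
        δ.natDegree * (δ.leadingCoeff * φ.leadingCoeff) := by
      rcases Nat.eq_zero_or_pos δ.natDegree with h0 | h0
      · rw [Polynomial.eq_C_of_natDegree_eq_zero h0]
        simp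
      · obtain ⟨a, ha⟩ : ∃ a, δ.natDegree = a + 1 := ⟨δ.natDegree - 1, by omega⟩
        have h2 : (Polynomial.derivative δ).natDegree ≤ a := by
          have := Polynomial.natDegree_derivative_le δ
          omega
        rw [show δ.natDegree + φ.natDegree - 1 = a + φ.natDegree by omega,
          Polynomial.coeff_mul_add_eq_of_natDegree_le h2 le_rfl, Polynomial.coeff_derivative, ← ha,
          Polynomial.leadingCoeff, Polynomial.leadingCoeff, ha]
        push_cast
        ring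
    have h1' : (Polynomial.derivative φ * δ).coeff (δ.natDegree + φ.natDegree - 1) =
        φ.natDegree * (δ.leadingCoeff * φ.leadingCoeff) := by
      rcases Nat.eq_zero_or_pos φ.natDegree with h0 | h0
      · rw [Polynomial.eq_C_of_natDegree_eq_zero h0]
        simp
      · obtain ⟨a, ha⟩ : ∃ a, φ.natDegree = a + 1 := ⟨φ.natDegree - 1, by omega⟩
        have h2 : (Polynomial.derivative φ).natDegree ≤ a := by
          have := Polynomial.natDegree_derivative_le φ
          omega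
        rw [show δ.natDegree + φ.natDegree - 1 = a + δ.natDegree by omega,
          Polynomial.coeff_mul_add_eq_of_natDegree_le h2 le_rfl, Polynomial.coeff_derivative, ← ha,
          Polynomial.leadingCoeff, Polynomial.leadingCoeff, ha]
        push_cast
        ring
    rw [hw, h1'] at h1
    have h3 : δ.leadingCoeff * φ.leadingCoeff ≠ 0 :=
      mul_ne_zero (by simpa using hδ) (by simpa using hφ)
    have h4 := mul_right_cancel₀ h3 h1
    exact hne (by exact_mod_cast h4.symm)
  refine ⟨γ.leadingCoeff / φ.leadingCoeff, ?_⟩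
  by_contra hne
  have hφl : φ.leadingCoeff ≠ 0 := by simpa using hφ
  have hdeg := key γ hγ h
  set μ := γ.leadingCoeff / φ.leadingCoeff with hμ
  have h5 : γ - Polynomial.C μ * φ ≠ 0 := sub_ne_zero.2 hne
  have h6 := key _ h5 (by
    rw [Polynomial.derivative_sub, Polynomial.derivative_C_mul]
    linear_combination h)
  have h7 : (γ - Polynomial.C μ * φ).coeff φ.natDegree = 0 := by
    rw [Polynomial.coeff_sub, Polynomial.coeff_C_mul, ← hdeg]
    show γ.leadingCoeff - μ * φ.coeff γ.natDegree = 0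
    rw [hdeg]
    show γ.leadingCoeff - μ * φ.leadingCoeff = 0
    rw [hμ, div_mul_cancel₀ _ hφl, sub_self]
  rw [← h6] at h7
  exact h5 (by simpa using h7)

/-- order `≥ 3` with constant separant -/
structure CO (k : ℕ) (c0 : ℂ) (F : A ℂ) : Prop where
  hk : 3 ≤ k
  ord : Ord k F
  sep : d k F = C c0
  ne : c0 ≠ 0

theorem CO.shift {k : ℕ} {c0 : ℂ} {F : A ℂ} (h : CO k c0 F) (a : ℂ) : CO k c0 (sh a F) := by
  refine ⟨h.hk, fun j hj => ?_, ?_, h.ne⟩
  · rw [← sh_d, h.ord j hj, map_zero]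
  · rw [← sh_d, h.sep, sh_C]

/-- case `F = 0` on constants -/
theorem main_z {k m : ℕ} {cF cG : ℂ} {F Gt : A ℂ} (hF : CO k cF F) (hG : CO m cG Gt)
    (hkm : k ≠ m) (comm : br F Gt = 0) (hsc : sc F = 0) :
    ∀ N : ℕ, ∃ h : A ℂ, br F h = 0 ∧ br Gt h = 0 ∧ ∃ j, N ≤ j ∧ d j h ≠ 0 := by
  by_cases hroot : ∃ a : ℂ, (sc Gt).eval a = 0
  · obtain ⟨a, ha⟩ := hroot
    have hF1 : sc (sh a F) = 0 := by rw [sc_sh, hsc, Polynomial.zero_comp]
    have hF2 := hF.shift a
    have hG2 := hG.shift a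
    have h1 := main_I (F := sh a F) (Gt := sh a Gt) ⟨hF2.hk, hF2.ord, hF2.sep, hF2.ne, by
        rw [sc_of_hc0, hF1, Polynomial.eval_zero, C_0]⟩
      ⟨hG2.hk, hG2.ord, hG2.sep, hG2.ne, by
        rw [sc_of_hc0, sc_sh, Polynomial.eval_comp]
        simp [ha]⟩ hkm (by rw [← sh_br, comm, map_zero]) hF1
    intro N
    obtain ⟨h, h2, h3, j, hj, h4⟩ := h1 N
    refine ⟨sh (-a) h, ?_, ?_, j, hj, ?_⟩
    · rw [← sh_sh a F, ← sh_br, h2, map_zero]
    · rw [← sh_sh a Gt, ← sh_br, h3, map_zero]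
    · rw [← sh_d]
      intro h5
      apply h4
      have h6 := congrArg (sh a) h5
      rw [map_zero] at h6
      have h7 := sh_sh (-a) (d j h)
      rw [neg_neg] at h7
      rw [← h7, h6]
  · have hdeg : (sc Gt).natDegree = 0 := by
      by_contra hd
      apply hroot
      have h1 : (sc Gt).degree ≠ 0 := by
        intro h2
        exact hd (Polynomial.natDegree_eq_of_degree_eq_some h2)
      obtain ⟨a, ha⟩ := IsAlgClosed.exists_root (sc Gt) h1
      exact ⟨a, ha⟩
    rw [Polynomial.natDegree_eq_zero] at hdeg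
    obtain ⟨c, hc⟩ := hdeg
    have hc0 : c ≠ 0 := by
      rintro rfl
      exact hroot ⟨0, by rw [← hc]; simp⟩
    exact main_II hF.hk hG.hk hF.ord hF.sep hF.ne hG.ord hG.sep hG.ne hkm comm hsc hc.symm hc0

/-- the lower order element is `F` -/
theorem main_lt {k m : ℕ} {cF cG : ℂ} {F Gt : A ℂ} (hF : CO k cF F) (hG : CO m cG Gt)
    (hkm : k < m) (comm : br F Gt = 0) :
    ∀ N : ℕ, ∃ h : A ℂ, br F h = 0 ∧ br Gt h = 0 ∧ ∃ j, N ≤ j ∧ d j h ≠ 0 := by
  by_cases hsc : sc F = 0
  · exact main_z hF hG (by omega) comm hsc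
  obtain ⟨μ, hμ⟩ := wronski hsc (sc_br comm)
  have hd : ∀ j, d j (Gt - C μ * F) = d j Gt - C μ * d j F := by
    intro j
    rw [map_sub, d_mul, show d j (C μ : A ℂ) = 0 from pderiv_C]
    ring
  have hG' : CO m cG (Gt - C μ * F) := by
    refine ⟨hG.hk, fun j hj => ?_, ?_, hG.ne⟩
    · rw [hd, hG.ord j hj, hF.ord j (by omega), mul_zero, sub_zero]
    · rw [hd, hG.sep, hF.ord m hkm, mul_zero, sub_zero]
  have hc' : br (Gt - C μ * F) F = 0 := by
    rw [br_sub_left, br_C_mul_left, br_self, mul_zero, sub_zero, br_anti, comm, neg_zero]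
  have hs' : sc (Gt - C μ * F) = 0 := by
    rw [map_sub, map_mul, sc_C, ← hμ, sub_self]
  intro N
  obtain ⟨h, h1, h2, j, hj, h3⟩ := main_z hG' hF (by omega) hc' hs' N
  refine ⟨h, h2, ?_, j, hj, h3⟩
  have h4 : Gt = (Gt - C μ * F) + C μ * F := by ring
  rw [h4, br_add_left, h1, br_C_mul_left, h2, mul_zero, add_zero]

theorem main_C {k m : ℕ} {cF cG : ℂ} {F Gt : A ℂ} (hF : CO k cF F) (hG : CO m cG Gt)
    (hkm : k ≠ m) (comm : br F Gt = 0) :
    ∀ N : ℕ, ∃ h : A ℂ, br F h = 0 ∧ br Gt h = 0 ∧ ∃ j, N ≤ j ∧ d j h ≠ 0 := by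
  rcases Nat.lt_or_gt_of_ne hkm with h | h
  · exact main_lt hF hG h comm
  · intro N
    obtain ⟨x, h1, h2, h3⟩ := main_lt hG hF h (by rw [br_anti, comm, neg_zero]) N
    exact ⟨x, h2, h1, h3⟩

end Pool.Agent.Helper96.FK
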