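import Pool.Agent.Helper96.FK.Odd3
import Pool.Agent.Helper96.FK.Irr

/-!
# FK-7b: `G 3 p` does not divide `G 3 q` for `q` odd, `p` not odd (proof in `Odd3.lean`)
-/

set_option autoImplicit false

open MvPolynomial

namespace Pool.Agent.Helper96.FK

private theorem ndvd_eval {S : Type*} [CommRing S] [Algebra ℂ S] (q : Polynomial ℂ)
    (a : Fin 3 → S) : aeval a (G 3 q) = Polynomial.aeval (a 0) q + Polynomial.aeval (a 1) q +
      Polynomial.aeval (a 2) q - Polynomial.aeval (a 0 + a 1 + a 2) q := by
  unfold G
  rw [map_sub, map_sum]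
  simp only [← Polynomial.aeval_algHom_apply, map_add, aeval_X, Fin.sum_univ_three]

private theorem ndvd_oddP (p : Polynomial ℂ) (h : ∀ x : ℂ, p.eval x + p.eval (-x) = 0) :
    OddP p := by
  unfold OddP
  apply Polynomial.funext
  intro x
  rw [Polynomial.eval_comp, Polynomial.eval_neg, Polynomial.eval_neg, Polynomial.eval_X]
  linear_combination h x

private theorem ndvd_pos (p : Polynomial ℂ) (hi : Irreducible (G 3 p)) :
    1 ≤ (G 3 p).totalDegree := by
  by_contra h
  have h0 : (G 3 p).totalDegree = 0 := by omega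
  rw [totalDegree_eq_zero_iff_eq_C] at h0
  apply hi.not_isUnit
  rw [h0]
  have h1 : coeff 0 (G 3 p) ≠ 0 := by
    intro h1
    rw [h1, map_zero] at h0
    exact hi.ne_zero h0
  exact (isUnit_iff_ne_zero.2 h1).map C

private theorem ndvd_lin (p : Polynomial ℂ) (hi : Irreducible (G 3 p)) (hp : ¬ OddP p)
    (i j : Fin 3) (hij : i ≠ j) : ¬ G 3 p ∣ (X i + X j : MvPolynomial (Fin 3) ℂ) := by
  rintro ⟨V, hV⟩
  have hne : (X i + X j : MvPolynomial (Fin 3) ℂ) ≠ 0 := by
    intro h
    have h1 := congrArg (aeval (Pi.single i (1 : ℂ))) h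
    rw [map_add, aeval_X, aeval_X, map_zero, Pi.single_eq_same, Pi.single_eq_of_ne (Ne.symm hij)]
      at h1
    simp at h1
  have hV0 : V ≠ 0 := by
    rintro rfl
    rw [mul_zero] at hV
    exact hne hV
  have h1 := ndvd_pos p hi
  have h2 : (X i + X j : MvPolynomial (Fin 3) ℂ).totalDegree ≤ 1 :=
    (IsHomogeneous.add (isHomogeneous_X ℂ i) (isHomogeneous_X ℂ j)).totalDegree_le
  rw [hV, totalDegree_mul_of_isDomain hi.ne_zero hV0] at h2
  have h3 : V.totalDegree = 0 := by omega
  rw [totalDegree_eq_zero_iff_eq_C] at h3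
  apply hp
  apply ndvd_oddP
  intro x
  have h4 := congrArg (aeval (fun k : Fin 3 => if k = i then x else if k = j then -x else 0)) hV
  rw [map_mul, ndvd_eval, map_add, aeval_X, aeval_X, h3, aeval_C] at h4
  have h5 : coeff 0 V ≠ 0 := by
    intro h5
    rw [h5, map_zero] at h3
    exact hV0 h3
  simp only [Polynomial.coe_aeval_eq_eval, Algebra.algebraMap_self, RingHom.id_apply] at h4
  have h6 : Polynomial.eval x p + Polynomial.eval (-x) p = 0 ∨ coeff 0 V = 0 := by
    rw [← mul_eq_zero]
    fin_cases i <;> fin_cases j <;> simp at hij h4 ⊢ <;>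
      exact h4.imp (fun h => by linear_combination h) id
  exact h6.resolve_right h5

private theorem ndvd_deg (q : Polynomial ℂ) : (G 3 q).totalDegree ≤ q.natDegree := by
  have key : ∀ P : MvPolynomial (Fin 3) ℂ, P.totalDegree ≤ 1 →
      (Polynomial.aeval P q).totalDegree ≤ q.natDegree := by
    intro P hP
    rw [Polynomial.aeval_eq_sum_range]
    refine totalDegree_finsetSum_le ?_
    intro i hi
    refine (totalDegree_smul_le _ _).trans ((totalDegree_pow _ _).trans ?_)
    rw [Finset.mem_range] at hi
    calc i * P.totalDegree ≤ i * 1 := Nat.mul_le_mul_left _ hP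
      _ ≤ q.natDegree := by omega
  unfold G
  refine (totalDegree_sub _ _).trans (max_le (totalDegree_finsetSum_le ?_) ?_)
  · intro i _
    exact key _ (totalDegree_X i).le
  · apply key
    exact totalDegree_finsetSum_le fun i _ => (totalDegree_X i).le

private theorem ndvd_der (p q : Polynomial ℂ) (W : MvPolynomial (Fin 3) ℂ)
    (hW : G 3 q = Pi3 * (G 3 p * W)) (x y : ℂ) :
    (Polynomial.derivative q).eval (-y) - (Polynomial.derivative q).eval x =
      (x + y) * (x - y) * ((p.eval y + p.eval (-y)) * aeval ![x, y, -y] W) := by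
  have h := congrArg (aeval (![Polynomial.C x, Polynomial.C y, Polynomial.X - Polynomial.C y] :
    Fin 3 → Polynomial ℂ)) hW
  rw [map_mul, map_mul, ndvd_eval, ndvd_eval] at h
  unfold Pi3 at h
  simp only [map_mul, map_add, aeval_X] at h
  have h2 := congrArg (fun r : Polynomial ℂ => (Polynomial.derivative r).eval 0) h
  simp [Polynomial.aeval_def, Polynomial.eval₂_eq_eval_map] at h2
  have hc : ∀ r P : Polynomial ℂ, Polynomial.eval P (Polynomial.map Polynomial.C r) =
      r.comp P := by
    intro r P
    rw [Polynomial.eval_map]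
    rfl
  have hw : Polynomial.eval 0 ((aeval ![Polynomial.C x, Polynomial.C y,
      Polynomial.X - Polynomial.C y]) W) = aeval ![x, y, -y] W := by
    have h3 : (Polynomial.aeval (0 : ℂ)) ((aeval (![Polynomial.C x, Polynomial.C y,
      Polynomial.X - Polynomial.C y] : Fin 3 → Polynomial ℂ)) W) =
        ((Polynomial.aeval (0 : ℂ)).comp (aeval (![Polynomial.C x, Polynomial.C y,
      Polynomial.X - Polynomial.C y] : Fin 3 → Polynomial ℂ))) W := rfl
    rw [Polynomial.coe_aeval_eq_eval] at h3
    rw [h3]
    congr 1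
    apply algHom_ext
    intro i
    rw [AlgHom.comp_apply, aeval_X, aeval_X]
    fin_cases i <;> simp
  rw [hw] at h2
  generalize aeval ![x, y, -y] W = w0 at h2 ⊢
  simp only [hc, Polynomial.derivative_comp, Polynomial.eval_mul, Polynomial.eval_comp] at h2
  simp at h2
  linear_combination h2

theorem not_dvd_odd (p q : Polynomial ℂ) (hq : OddP q) (hp : ¬ OddP p) (hqd : 3 ≤ q.natDegree)
    (hpd : 3 ≤ p.natDegree) : ¬ G 3 p ∣ G 3 q := by
  intro hdvd
  have hi : Irreducible (G 3 p) := irr_G3 p (by omega) hp
  have hpr : Prime (G 3 p) := hi.prime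
  obtain ⟨H, hH⟩ := exists_H q hq
  have hGH : G 3 p ∣ H := by
    rw [hH] at hdvd
    refine (hpr.dvd_or_dvd hdvd).resolve_left ?_
    unfold Pi3
    intro h
    rcases hpr.dvd_or_dvd h with h | h
    · rcases hpr.dvd_or_dvd h with h | h
      · exact ndvd_lin p hi hp 0 1 (by decide) h
      · exact ndvd_lin p hi hp 1 2 (by decide) h
    · exact ndvd_lin p hi hp 0 2 (by decide) h
  obtain ⟨W, rfl⟩ := hGH
  have hder := ndvd_der p q W hH
  -- `p(y) + p(-y)` has no root
  have hroot : ∀ y : ℂ, p.eval y + p.eval (-y) ≠ 0 := by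
    intro y hy
    have h1 : Polynomial.derivative q =
        Polynomial.C ((Polynomial.derivative q).eval (-y)) := by
      apply Polynomial.funext
      intro x
      rw [Polynomial.eval_C]
      have h2 := hder x y
      rw [hy] at h2
      linear_combination -h2
    have h2 := congrArg Polynomial.natDegree h1
    rw [Polynomial.natDegree_C, Polynomial.natDegree_derivative] at h2
    omega
  have hW0 : W ≠ 0 := by
    rintro rfl
    have h1 : Polynomial.derivative q =
        Polynomial.C ((Polynomial.derivative q).eval (-0)) := by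
      apply Polynomial.funext
      intro x
      rw [Polynomial.eval_C]
      have h2 := hder x 0
      rw [map_zero] at h2
      linear_combination -h2
    have h2 := congrArg Polynomial.natDegree h1
    rw [Polynomial.natDegree_C, Polynomial.natDegree_derivative] at h2
    omega
  have hPi : (Pi3 : MvPolynomial (Fin 3) ℂ).totalDegree = 3 := by
    have h1 : (Pi3 : MvPolynomial (Fin 3) ℂ).IsHomogeneous 3 := by
      unfold Pi3
      exact ((IsHomogeneous.add (isHomogeneous_X ℂ 0) (isHomogeneous_X ℂ 1)).mul
        (IsHomogeneous.add (isHomogeneous_X ℂ 1) (isHomogeneous_X ℂ 2))).mul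
        (IsHomogeneous.add (isHomogeneous_X ℂ 0) (isHomogeneous_X ℂ 2))
    apply h1.totalDegree
    intro h2
    have h3 := congrArg (aeval (fun _ : Fin 3 => (1 : ℂ))) h2
    unfold Pi3 at h3
    simp at h3
  have hPi0 : (Pi3 : MvPolynomial (Fin 3) ℂ) ≠ 0 := by
    intro h
    rw [h] at hPi
    simp at hPi
  have hd1 := ndvd_deg q
  rw [hH, totalDegree_mul_of_isDomain hPi0 (mul_ne_zero hi.ne_zero hW0),
    totalDegree_mul_of_isDomain hi.ne_zero hW0, hPi] at hd1
  have hd2 := ndvd_pos p hi
  -- put `y = 0`
  set w : Polynomial ℂ := aeval (![Polynomial.X, 0, 0] : Fin 3 → Polynomial ℂ) W with hw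
  have hwd : w.natDegree ≤ W.totalDegree * 1 := by
    apply aeval_natDegree_le W le_rfl
    intro i
    fin_cases i <;> simp
  have hwe : ∀ x : ℂ, w.eval x = aeval ![x, 0, 0] W := by
    intro x
    have h3 : (Polynomial.aeval x) w =
        ((Polynomial.aeval x).comp (aeval (![Polynomial.X, 0, 0] : Fin 3 → Polynomial ℂ))) W := rfl
    rw [Polynomial.coe_aeval_eq_eval] at h3
    rw [h3]
    congr 1
    apply algHom_ext
    intro i
    rw [AlgHom.comp_apply, aeval_X, aeval_X]
    fin_cases i <;> simp
  have h1 : Polynomial.derivative q = Polynomial.C ((Polynomial.derivative q).eval 0) -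
      Polynomial.X ^ 2 * (Polynomial.C (p.eval 0 + p.eval 0) * w) := by
    apply Polynomial.funext
    intro x
    have h2 := hder x 0
    simp only [Polynomial.eval_sub, Polynomial.eval_C, Polynomial.eval_mul, Polynomial.eval_pow,
      Polynomial.eval_X, hwe]
    rw [neg_zero] at h2
    linear_combination -h2
  have h2 : (Polynomial.derivative q).natDegree ≤ max 0 (2 + (0 + W.totalDegree * 1)) := by
    rw [h1]
    refine (Polynomial.natDegree_sub_le _ _).trans (max_le_max (Polynomial.natDegree_C _).le ?_)
    refine Polynomial.natDegree_mul_le.trans (add_le_add (Polynomial.natDegree_X_pow 2).le ?_)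
    exact Polynomial.natDegree_mul_le.trans (add_le_add (Polynomial.natDegree_C _).le hwd)
  rw [Polynomial.natDegree_derivative] at h2
  omega

end Pool.Agent.Helper96.FK
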