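import Pool.Agent.Helper96.FK.OmegaA
import Pool.Agent.Helper96.FK.Const
import Pool.Agent.Helper96.FK.AsymW

/-!
# FK-22: the factors of `Den` in the directions of the cube roots of unity

Let `B, B'` be prime factors of `Den` with `tv B α 1 = 0 = tv B' α 1`, `α^2+α+1 = 0`.
`exists_vf`, `lift_left` for `B`: `(x,y)`, `y ∉ V`, `x/y ≡ α`, `B(x,y) = 0`;
`tv B' 1 α⁻¹ = 0` (homogeneity), `lift_right` for `B'` at `x+y`: `B'(x+y,z) = 0`,
`z/(x+y) ≡ α⁻¹`. So `x : y : z = α : 1 : -α`. `rel_point`: `y+z ≠ 0` (direction `1-α`),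
`Den(y+z,x) ≠ 0` (direction `(1-α)/α = α^2-1`, not allowed by `dirs`), so `x+z = 0` or
`Den(x+z,y) = 0`; the latter gives `x+z = 0` by `asym0` (`G 2 q` vanishes as `Den ∣ G 2 q`).
So `z = -x` and `B'(x+y,-x) = 0`; by `elim` `B ∣ B'∘τ`, `τ(X,Y) = (X+Y,-X)`.

(1) With `B' = B`: `B ∣ G 2 p` and `B ∣ (G 2 p)∘τ`, whose sum is `p(X)+p(-X)`; evaluate at
`(x,y)`, `x ∉ V`: `p(X)+p(-X) = 0`. So `p` is odd; the same for `q`.

(2) `B ∣ hq c` for some `c`: `const_of_bounded` with `P = X^2+XY+Y^2`. At a point `(x,y)` of the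
generic curve `B = 0` with `x ∉ V` or `y ∉ V`: if `x/y ∈ V`, `dir` gives a direction `β` of `B`
(so of `Den`): `β = 0` gives `x = 0` (`asym0`), so `B ∣ X 0`, impossible as `tv B α 1 = 0`,
`α ≠ 0`; `β = -1`: the point `(x+y,-x)` is also on `B` (as `B ∣ B∘τ`) and on `G 2 q`, and has
direction `0`, so `x+y = 0`, `B ∣ X 0 + X 1`, impossible; `β^2+β+1 = 0`: `asymW`. If `x/y ∉ V` then
`y/x` is small and `asym0` with exchanged variables gives `y = 0`, `B ∣ X 1`, impossible.

(3) one `c` for all: if `B, B'` have a common direction `α`, then `B ∣ B'∘τ ∣ (hq c')∘τ = hq c'`;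
if `B'` has the other direction, replace `B` by `B^σ = rename (swap 0 1) B`, which divides `Den`
(by `symm`) and `hq c` (symmetric). From `B ∣ hq c`, `B ∣ hq c'` get `c = c'`.
-/

set_option autoImplicit false

open MvPolynomial

namespace Pool.Agent.Helper96.FK

private theorem omega_sb_dvd {K : Type} [CommRing K] [Algebra ℂ K] {B Q : MvPolynomial (Fin 2) ℂ}
    (h : B ∣ Q) (x y : K) (h0 : sb B x y = 0) : sb Q x y = 0 := by
  obtain ⟨R, rfl⟩ := h
  unfold sb at h0 ⊢
  rw [map_mul, h0, zero_mul]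

private theorem omega_sb_sb {K : Type} [CommRing K] [Algebra ℂ K] (B : MvPolynomial (Fin 2) ℂ)
    (P Q : MvPolynomial (Fin 2) ℂ) (x y : K) :
    sb (sb B P Q) x y = sb B (sb P x y) (sb Q x y) := by
  unfold sb
  have h : (aeval ![x, y] : MvPolynomial (Fin 2) ℂ →ₐ[ℂ] K).comp (aeval ![P, Q]) =
      aeval ![aeval ![x, y] P, aeval ![x, y] Q] := by
    apply MvPolynomial.algHom_ext
    intro i
    fin_cases i <;> simp
  exact DFunLike.congr_fun h B

private theorem omega_sb_rename {K : Type} [CommRing K] [Algebra ℂ K]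
    (B : MvPolynomial (Fin 2) ℂ) (x y : K) :
    sb (rename (Equiv.swap 0 1) B) x y = sb B y x := by
  unfold sb
  rw [aeval_rename]
  congr 2
  funext i
  fin_cases i <;> simp

private theorem omega_small {K : Type} [Field K] (V : ValuationSubring K) {y : K} (hy : y ∉ V) :
    V.valuation y⁻¹ < 1 := by
  have h1 : 1 < V.valuation y := by
    rw [← ValuationSubring.valuation_le_one_iff] at hy
    exact not_le.1 hy
  rw [map_inv₀]
  exact inv_lt_one_of_one_lt₀ h1

private theorem omega_Den {p q : Polynomial ℂ} {Den N : MvPolynomial (Fin 2) ℂ}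
    (hR : RData p q Den N) : Den ≠ 0 := by
  intro h0
  obtain ⟨K, _, _, _, V, hV, y, hy⟩ := exists_vf
  have hG : sb (G 2 q) (1 : K) y = 0 := by
    have h1 : G 2 q = 0 := by
      have := hR.den_q
      rw [h0] at this
      exact zero_dvd_iff.1 this
    rw [h1]
    unfold sb
    rw [map_zero]
  have hc : Cg V ((1 : K) / y) 0 := by
    unfold Cg
    rw [map_zero, sub_zero, one_div]
    exact omega_small V hy
  exact one_ne_zero (asym0 V hV q (le_trans (by norm_num) hR.dq) hR.q0 1 y hy hc hG)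

/-- a point of `B` in the direction `α` -/
private theorem omega_pt (B : MvPolynomial (Fin 2) ℂ) (hB : Prime B) (α : ℂ)
    (h : tv B α 1 = 0) : ∃ (K : Type) (_ : Field K) (_ : Algebra ℂ K) (V : ValuationSubring K),
      Over V ∧ ∃ x y : K, y ∉ V ∧ sb B x y = 0 ∧ Cg V (x / y) α := by
  obtain ⟨K, _, _, _, V, hV, y, hy⟩ := exists_vf
  obtain ⟨x, hx, hc⟩ := lift_left V hV B hB.ne_zero α h y hy
  exact ⟨K, _, _, V, hV, x, y, hy, hx, hc⟩

private theorem omega_root_ne {α : ℂ} (hα : α ^ 2 + α + 1 = 0) : α ≠ 0 ∧ α ≠ -1 := by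
  constructor
  · rintro rfl
    norm_num at hα
  · rintro rfl
    norm_num at hα

private theorem omega_X0 (B : MvPolynomial (Fin 2) ℂ) (hB : Prime B) (α : ℂ)
    (hα : α ^ 2 + α + 1 = 0) (h : tv B α 1 = 0) : ¬ B ∣ X 0 := by
  intro hd
  obtain ⟨K, _, _, V, hV, x, y, hy, hx, hc⟩ := omega_pt B hB α h
  have h0 := omega_sb_dvd hd x y hx
  have h1 : x = 0 := by simpa [sb] using h0
  rw [h1, zero_div] at hc
  have h2 : Cg V (0 : K) 0 := by simpa using Cg.const V (0 : ℂ)
  exact (omega_root_ne hα).1 (Cg.unique hV hc h2)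

private theorem omega_X01 (B : MvPolynomial (Fin 2) ℂ) (hB : Prime B) (α : ℂ)
    (hα : α ^ 2 + α + 1 = 0) (h : tv B α 1 = 0) : ¬ B ∣ X 0 + X 1 := by
  intro hd
  obtain ⟨K, _, _, V, hV, x, y, hy, hx, hc⟩ := omega_pt B hB α h
  have h0 := omega_sb_dvd hd x y hx
  have h1 : x + y = 0 := by simpa [sb] using h0
  have hy0 : y ≠ 0 := by
    rintro rfl
    exact hy V.zero_mem
  have h3 : x / y = -1 := by
    rw [eq_neg_of_add_eq_zero_left h1, neg_div, div_self hy0]
  rw [h3] at hc
  have h2 : Cg V (-1 : K) (-1) := by simpa using Cg.const V (-1 : ℂ)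
  exact (omega_root_ne hα).2 (Cg.unique hV hc h2)

private theorem omega_X1 (B : MvPolynomial (Fin 2) ℂ) (hB : Prime B) (α : ℂ)
    (h : tv B α 1 = 0) : ¬ B ∣ X 1 := by
  intro hd
  obtain ⟨K, _, _, V, hV, x, y, hy, hx, hc⟩ := omega_pt B hB α h
  have h0 := omega_sb_dvd hd x y hx
  have h1 : y = 0 := by simpa [sb] using h0
  rw [h1] at hy
  exact hy V.zero_mem

theorem omega_hq {p q : Polynomial ℂ} {Den N : MvPolynomial (Fin 2) ℂ} (hR : RData p q Den N)
    (B : MvPolynomial (Fin 2) ℂ) (hB : Prime B) (hBD : B ∣ Den) (α : ℂ)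
    (hα : α ^ 2 + α + 1 = 0) (h : tv B α 1 = 0) : ∃ c : ℂ, B ∣ hq c := by
  obtain ⟨-, hqo⟩ := omega_odd hR B hB hBD α hα h
  have hτ := omega_tau hR B B hB hB hBD hBD α hα h h
  have hBG : B ∣ G 2 q := hBD.trans hR.den_q
  have hq2 : 2 ≤ q.natDegree := le_trans (by norm_num) hR.dq
  have key : ∀ (K : Type) [Field K] [Algebra ℂ K] (V : ValuationSubring K) (x y : K), Over V →
      sb B x y = 0 → (∀ Q : MvPolynomial (Fin 2) ℂ, sb Q x y = 0 → B ∣ Q) →
      (x ∉ V ∨ y ∉ V) → sb (X 0 ^ 2 + X 0 * X 1 + X 1 ^ 2 : MvPolynomial (Fin 2) ℂ) x y ∈ V := by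
    intro K _ _ V x y hV hxy hgen hor
    have hG : sb (G 2 q) x y = 0 := omega_sb_dvd hBG x y hxy
    have hP : sb (X 0 ^ 2 + X 0 * X 1 + X 1 ^ 2 : MvPolynomial (Fin 2) ℂ) x y =
        x ^ 2 + x * y + y ^ 2 := by simp [sb]
    rw [hP]
    by_cases hcase : y ∉ V ∧ x / y ∈ V
    · obtain ⟨hy, hxyV⟩ := hcase
      have hy0 : y ≠ 0 := by
        rintro rfl
        exact hy V.zero_mem
      obtain ⟨β, hβ, hcβ⟩ := dir V hV B hB.ne_zero x y hy hxyV hxy
      have hDen : tv Den β 1 = 0 := tv_of_Cg V hV Den (omega_Den hR) x y hy β hcβ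
        (omega_sb_dvd hBD x y hxy)
      rcases dirs hR β hDen with h0 | h1 | h2
      · rw [h0] at hcβ
        have hx0 := asym0 V hV q hq2 hR.q0 x y hy hcβ hG
        exact absurd (hgen (X 0) (by simp [sb, hx0])) (omega_X0 B hB α hα h)
      · rw [h1] at hcβ
        -- the point (x+y, -x)
        have hx : x ∉ V := by
          intro hx
          apply hy
          have hi : Cg V (x / y)⁻¹ (-1)⁻¹ := Cg.inv hV hcβ (by norm_num)
          have hm := Cg.mem hV hi
          have hx0 : x / y ≠ 0 := by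
            intro h00
            rw [h00] at hcβ
            have h2 : Cg V (0 : K) 0 := by simpa using Cg.const V (0 : ℂ)
            have := Cg.unique hV hcβ h2
            norm_num at this
          have hxne : x ≠ 0 := by
            rintro rfl
            exact hx0 (zero_div _)
          have : y = x * (x / y)⁻¹ := by
            field_simp
          rw [this]
          exact V.mul_mem _ _ hx hm
        have hxne : x ≠ 0 := by
          rintro rfl
          exact hx V.zero_mem
        have h2 : sb B (x + y) (-x) = 0 := by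
          have h3 := omega_sb_dvd hτ x y hxy
          rw [omega_sb_sb] at h3
          have e1 : sb (X 0 + X 1 : MvPolynomial (Fin 2) ℂ) x y = x + y := by simp [sb]
          have e2 : sb (-X 0 : MvPolynomial (Fin 2) ℂ) x y = -x := by simp [sb]
          rwa [e1, e2] at h3
        have hG2 : sb (G 2 q) (x + y) (-x) = 0 := omega_sb_dvd hBG _ _ h2
        have hnx : -x ∉ V := by
          intro hh
          apply hx
          have := V.neg_mem _ hh
          rwa [neg_neg] at this
        have hc2 : Cg V ((x + y) / (-x)) 0 := by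
          have hi : Cg V (x / y)⁻¹ (-1)⁻¹ := Cg.inv hV hcβ (by norm_num)
          have hs : Cg V (algebraMap ℂ K 1 + (x / y)⁻¹) (1 + (-1)⁻¹) := Cg.add (Cg.const V 1) hi
          have hm : Cg V (algebraMap ℂ K (-1) * (algebraMap ℂ K 1 + (x / y)⁻¹))
              ((-1) * (1 + (-1)⁻¹)) := Cg.mul hV (Cg.const V (-1)) hs
          have e1 : algebraMap ℂ K (-1) * (algebraMap ℂ K 1 + (x / y)⁻¹) = (x + y) / (-x) := by
            rw [map_neg, map_one]
            field_simp
          have e2 : ((-1) * (1 + (-1)⁻¹) : ℂ) = 0 := by norm_num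
          rw [e1, e2] at hm
          exact hm
        have hx0 := asym0 V hV q hq2 hR.q0 (x + y) (-x) hnx hc2 hG2
        exact absurd (hgen (X 0 + X 1) (by simp [sb, hx0])) (omega_X01 B hB α hα h)
      · exact asymW V hV q hqo hR.dq β h2 x y hy hcβ hG
    · -- x is large and y / x is small
      have hx : x ∉ V := by
        rcases hor with hx | hy
        · exact hx
        · intro hx
          apply hcase
          refine ⟨hy, ?_⟩
          rw [div_eq_mul_inv]
          have h1 := omega_small V hy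
          exact V.mul_mem _ _ hx ((V.valuation_le_one_iff _).1 h1.le)
      have hsm : V.valuation (y / x) < 1 := by
        by_cases hy : y ∈ V
        · rw [div_eq_mul_inv, map_mul]
          have h1 := omega_small V hx
          have h2 : V.valuation y ≤ 1 := (V.valuation_le_one_iff _).2 hy
          calc V.valuation y * V.valuation x⁻¹ ≤ 1 * V.valuation x⁻¹ := mul_le_mul_left h2 _
            _ < 1 := by rw [one_mul]; exact h1
        · have h1 : x / y ∉ V := fun hh => hcase ⟨hy, hh⟩
          have h2 := omega_small V h1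
          rwa [inv_div] at h2
      have hc : Cg V (y / x) 0 := by
        unfold Cg
        rw [map_zero, sub_zero]
        exact hsm
      have hG' : sb (G 2 q) y x = 0 := by
        rw [sb_G2] at hG ⊢
        rw [add_comm y x, add_comm (Polynomial.aeval y q)]
        exact hG
      have hy0 := asym0 V hV q hq2 hR.q0 y x hx hc hG'
      exact absurd (hgen (X 1) (by simp [sb, hy0])) (omega_X1 B hB α h)
  obtain ⟨c, hc⟩ := const_of_bounded B hB _ key
  refine ⟨-c, ?_⟩
  unfold hq
  rw [map_neg, ← sub_eq_add_neg]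
  exact hc

private theorem omega_const_unique (B : MvPolynomial (Fin 2) ℂ) (hB : Prime B) (c c' : ℂ)
    (h : B ∣ hq c) (h' : B ∣ hq c') : c = c' := by
  by_contra hne
  have h1 : B ∣ hq c - hq c' := dvd_sub h h'
  have h2 : hq c - hq c' = C (c - c') := by
    unfold hq
    rw [map_sub]
    ring
  rw [h2] at h1
  have hu : IsUnit (C (c - c') : MvPolynomial (Fin 2) ℂ) :=
    (IsUnit.mk0 (c - c') (sub_ne_zero.2 hne)).map C
  exact hB.not_isUnit (isUnit_of_dvd_unit h1 hu)

/-- same direction: `B ∣ hq c'` when `B' ∣ hq c'` -/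
private theorem omega_same {p q : Polynomial ℂ} {Den N : MvPolynomial (Fin 2) ℂ}
    (hR : RData p q Den N) (B B' : MvPolynomial (Fin 2) ℂ) (hB : Prime B) (hB' : Prime B')
    (hBD : B ∣ Den) (hBD' : B' ∣ Den) (α : ℂ) (hα : α ^ 2 + α + 1 = 0) (h : tv B α 1 = 0)
    (h' : tv B' α 1 = 0) (c' : ℂ) (hc' : B' ∣ hq c') : B ∣ hq c' := by
  have hτ := omega_tau hR B B' hB hB' hBD hBD' α hα h h'
  refine hτ.trans ?_
  obtain ⟨Q, hQ⟩ := hc'
  have h1 : sb (hq c') (X 0 + X 1 : MvPolynomial (Fin 2) ℂ) (-X 0) = hq c' := by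
    unfold sb hq
    simp only [map_add, map_mul, map_pow, aeval_X, aeval_C, Matrix.cons_val_zero,
      Matrix.cons_val_one, algebraMap_eq]
    ring
  refine ⟨sb Q (X 0 + X 1 : MvPolynomial (Fin 2) ℂ) (-X 0), ?_⟩
  rw [← h1, hQ]
  unfold sb
  rw [map_mul]

theorem omega {p q : Polynomial ℂ} {Den N : MvPolynomial (Fin 2) ℂ} (hR : RData p q Den N) :
    (∀ B, Prime B → B ∣ Den → ∀ α : ℂ, α ^ 2 + α + 1 = 0 → tv B α 1 ≠ 0) ∨
    (OddP p ∧ OddP q ∧ ∃ c : ℂ, ∀ B, Prime B → B ∣ Den → ∀ α : ℂ, α ^ 2 + α + 1 = 0 →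
      tv B α 1 = 0 → B ∣ hq c) := by
  by_cases hex : ∀ B, Prime B → B ∣ Den → ∀ α : ℂ, α ^ 2 + α + 1 = 0 → tv B α 1 ≠ 0
  · exact Or.inl hex
  · right
    push Not at hex
    obtain ⟨B, hB, hBD, α, hα, h⟩ := hex
    obtain ⟨hpo, hqo⟩ := omega_odd hR B hB hBD α hα h
    refine ⟨hpo, hqo, ?_⟩
    obtain ⟨c, hc⟩ := omega_hq hR B hB hBD α hα h
    refine ⟨c, ?_⟩
    intro B' hB' hBD' α' hα' h'
    obtain ⟨c', hc'⟩ := omega_hq hR B' hB' hBD' α' hα' h'
    by_cases hαα : α' = α
    · rw [hαα] at h'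
      have h1 := omega_same hR B B' hB hB' hBD hBD' α hα h h' c' hc'
      rw [omega_const_unique B hB c c' hc h1]
      exact hc'
    · -- the other direction
      set σB : MvPolynomial (Fin 2) ℂ := rename (Equiv.swap 0 1) B with hσ
      have hinv : α * α' = 1 := by
        have h1 : (α' - α) * (α' + α + 1) = 0 := by linear_combination hα' - hα
        rcases mul_eq_zero.1 h1 with h2 | h2
        · exact absurd (sub_eq_zero.1 h2) hαα
        · have h3 : α' = -1 - α := by linear_combination h2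
          rw [h3]
          linear_combination -hα
      have hprime : Prime σB := by
        have := (MulEquiv.prime_iff (renameEquiv ℂ (Equiv.swap (0 : Fin 2) 1)).toMulEquiv
          (p := B)).2 hB
        simpa [hσ] using this
      have hinvol : ∀ P : MvPolynomial (Fin 2) ℂ,
          rename (Equiv.swap (0 : Fin 2) 1) (rename (Equiv.swap (0 : Fin 2) 1) P) = P := by
        intro P
        rw [rename_rename]
        have : (⇑(Equiv.swap (0 : Fin 2) 1) ∘ ⇑(Equiv.swap (0 : Fin 2) 1)) = id := by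
          funext i
          simp
        rw [this, rename_id]
        rfl
      have hσD : σB ∣ Den := by
        have h1 : rename (Equiv.swap (0 : Fin 2) 1) Den ∣ Den := by
          have := map_dvd (rename (Equiv.swap (0 : Fin 2) 1) :
            MvPolynomial (Fin 2) ℂ →ₐ[ℂ] MvPolynomial (Fin 2) ℂ) hR.symm
          rwa [hinvol] at this
        have h2 : σB ∣ rename (Equiv.swap (0 : Fin 2) 1) Den :=
          map_dvd (rename (Equiv.swap (0 : Fin 2) 1) :
            MvPolynomial (Fin 2) ℂ →ₐ[ℂ] MvPolynomial (Fin 2) ℂ) hBD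
        exact h2.trans h1
      have hσc : σB ∣ hq c := by
        have h2 := map_dvd (rename (Equiv.swap (0 : Fin 2) 1) :
            MvPolynomial (Fin 2) ℂ →ₐ[ℂ] MvPolynomial (Fin 2) ℂ) hc
        have h3 : rename (Equiv.swap (0 : Fin 2) 1) (hq c) = hq c := by
          unfold hq
          simp only [map_add, map_mul, map_pow, rename_X, rename_C, Equiv.swap_apply_left,
            Equiv.swap_apply_right]
          ring
        rwa [h3] at h2
      have hσtv : tv σB α' 1 = 0 := by
        obtain ⟨K, _, _, V, hV, x, y, hy, hx, hcg⟩ := omega_pt B hB α h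
        have hα0 := (omega_root_ne hα).1
        have hi : Cg V (x / y)⁻¹ α⁻¹ := Cg.inv hV hcg hα0
        rw [inv_div] at hi
        have hα'' : α⁻¹ = α' := inv_eq_of_mul_eq_one_right hinv
        rw [hα''] at hi
        have hxV : x ∉ V := by
          intro hxV
          apply hy
          have hm := Cg.mem hV hi
          have hxne : x ≠ 0 := by
            rintro rfl
            rw [zero_div] at hcg
            have h2 : Cg V (0 : K) 0 := by simpa using Cg.const V (0 : ℂ)
            exact hα0 (Cg.unique hV hcg h2)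
          have : y = x * (y / x) := by
            field_simp
          rw [this]
          exact V.mul_mem _ _ hxV hm
        refine tv_of_Cg V hV σB hprime.ne_zero y x hxV α' hi ?_
        rw [hσ, omega_sb_rename]
        exact hx
      have h1 := omega_same hR σB B' hprime hB' hσD hBD' α' hα' hσtv h' c' hc'
      rw [omega_const_unique σB hprime c c' hσc h1]
      exact hc'

end Pool.Agent.Helper96.FK
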