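import Pool.Agent.Helper96.FK.Dirs

/-!
# FK-22a: see the comment in `Omega.lean`
-/

set_option autoImplicit false

open MvPolynomial

namespace Pool.Agent.Helper96.FK

private theorem omegaa_sb_dvd {K : Type} [CommRing K] [Algebra ℂ K]
    {B Q : MvPolynomial (Fin 2) ℂ} (h : B ∣ Q) (x y : K) (h0 : sb B x y = 0) : sb Q x y = 0 := by
  obtain ⟨R, rfl⟩ := h
  unfold sb at h0 ⊢
  rw [map_mul, h0, zero_mul]

private theorem omegaa_sb_sb {K : Type} [CommRing K] [Algebra ℂ K] (B : MvPolynomial (Fin 2) ℂ)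
    (P Q : MvPolynomial (Fin 2) ℂ) (x y : K) :
    sb (sb B P Q) x y = sb B (sb P x y) (sb Q x y) := by
  unfold sb
  have h : (aeval ![x, y] : MvPolynomial (Fin 2) ℂ →ₐ[ℂ] K).comp (aeval ![P, Q]) =
      aeval ![aeval ![x, y] P, aeval ![x, y] Q] := by
    apply MvPolynomial.algHom_ext
    intro i
    fin_cases i <;> simp
  exact DFunLike.congr_fun h B

private theorem omegaa_ne {K : Type} [Field K] (V : ValuationSubring K) {y : K} (hy : y ∉ V) :
    y ≠ 0 := by
  rintro rfl
  exact hy V.zero_mem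

private theorem omegaa_one {K : Type} [Field K] [Algebra ℂ K] (V : ValuationSubring K) :
    Cg V (1 : K) 1 := by
  have h := Cg.const V (1 : ℂ)
  rwa [map_one] at h

private theorem omegaa_zero {K : Type} [Field K] [Algebra ℂ K] (V : ValuationSubring K) :
    Cg V (0 : K) 0 := by
  have h := Cg.const V (0 : ℂ)
  rwa [map_zero] at h

private theorem omegaa_large {K : Type} [Field K] [Algebra ℂ K] (V : ValuationSubring K)
    (hV : Over V) {x y : K} {α : ℂ} (hα : α ≠ 0) (hy : y ∉ V) (h : Cg V (x / y) α) : x ∉ V := by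
  intro hx
  have hi := Cg.inv hV h hα
  have hm := Cg.mem hV hi
  have hxne : x ≠ 0 := by
    rintro rfl
    rw [zero_div] at h
    exact hα (Cg.unique hV h (omegaa_zero V))
  have e : y = x * (x / y)⁻¹ := by
    have hy0 := omegaa_ne V hy
    field_simp
  apply hy
  rw [e]
  exact V.mul_mem _ _ hx hm

private theorem omegaa_hom (P : MvPolynomial (Fin 2) ℂ) (n : ℕ) (hP : P.IsHomogeneous n)
    (c a b : ℂ) : sb P (c * a) (c * b) = c ^ n * sb P a b := by
  unfold sb
  rw [aeval_def, aeval_def, eval₂_eq, eval₂_eq, Finset.mul_sum]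
  apply Finset.sum_congr rfl
  intro d hd
  have h1 := hP (mem_support_iff.1 hd)
  have h2 : ∑ i ∈ d.support, d i = n := by
    rw [← h1, Finsupp.weight_apply]
    simp [Finsupp.sum]
  have h3 : ∏ i ∈ d.support, (![c * a, c * b] : Fin 2 → ℂ) i ^ d i =
      c ^ n * ∏ i ∈ d.support, (![a, b] : Fin 2 → ℂ) i ^ d i := by
    rw [← h2, ← Finset.prod_pow_eq_pow_sum, ← Finset.prod_mul_distrib]
    apply Finset.prod_congr rfl
    intro i _
    rw [← mul_pow]
    congr 1
    fin_cases i <;> simp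
  rw [h3]
  ring

private theorem omegaa_tv (B : MvPolynomial (Fin 2) ℂ) (α : ℂ) (h0 : α ≠ 0)
    (h : tv B α 1 = 0) : tv B 1 α⁻¹ = 0 := by
  unfold tv top at h ⊢
  have h1 := omegaa_hom (homogeneousComponent B.totalDegree B) B.totalDegree
    (homogeneousComponent_isHomogeneous _ _) α⁻¹ α 1
  rw [h, inv_mul_cancel₀ h0, mul_one, mul_zero] at h1
  exact h1

private theorem omegaa_alg {K : Type} [Field K] [Algebra ℂ K] (V : ValuationSubring K)
    (hV : Over V) (E : Polynomial ℂ) (x : K) (hx : x ∉ V) (h : Polynomial.aeval x E = 0) :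
    E = 0 := by
  by_contra hE
  have h1 : IsIntegral ℂ x := IsAlgebraic.isIntegral ⟨E, hE, h⟩
  obtain ⟨c, hc⟩ := minpoly.mem_range_of_degree_eq_one ℂ x
    (IsAlgClosed.degree_eq_one_of_irreducible ℂ (minpoly.irreducible h1))
  apply hx
  rw [← hc]
  exact hV c

private theorem omegaa_Den {p q : Polynomial ℂ} {Den N : MvPolynomial (Fin 2) ℂ}
    (hR : RData p q Den N) : Den ≠ 0 := by
  intro h0
  have h1 : tv Den 1 1 = 0 := by
    rw [h0]
    unfold tv top sb
    rw [map_zero, map_zero]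
  rcases dirs hR 1 h1 with h | h | h <;> norm_num at h

/-- the basic point -/
private theorem omegaa_pt {p q : Polynomial ℂ} {Den N : MvPolynomial (Fin 2) ℂ}
    (hR : RData p q Den N) (B B' : MvPolynomial (Fin 2) ℂ) (hB : Prime B) (hB' : Prime B')
    (hBD : B ∣ Den) (hBD' : B' ∣ Den) (α : ℂ) (hα : α ^ 2 + α + 1 = 0) (h : tv B α 1 = 0)
    (h' : tv B' α 1 = 0) : ∃ (K : Type) (_ : Field K) (_ : Algebra ℂ K) (V : ValuationSubring K),
      Over V ∧ ∃ x y : K, x ∉ V ∧ y ∉ V ∧ sb B x y = 0 ∧ sb B' (x + y) (-x) = 0 := by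
  have hα0 : α ≠ 0 := by
    rintro rfl
    norm_num at hα
  have hα3 : α ^ 3 = 1 := by linear_combination (α - 1) * hα
  have hαi : α⁻¹ = α ^ 2 := inv_eq_of_mul_eq_one_right (by rw [← hα3]; ring)
  have hα1 : 1 + α ≠ 0 := by
    intro hh
    have : α = -1 := by linear_combination hh
    rw [this] at hα
    norm_num at hα
  obtain ⟨K, _, _, _, V, hV, y, hy⟩ := exists_vf
  have hD := omegaa_Den hR
  obtain ⟨x, hx, hc⟩ := lift_left V hV B hB.ne_zero α h y hy
  have hy0 := omegaa_ne V hy
  have hxV : x ∉ V := omegaa_large V hV hα0 hy hc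
  have hx0 := omegaa_ne V hxV
  have hs1 : Cg V ((x + y) / y) (1 + α) := by
    have h1 := hc.add (omegaa_one V)
    have e : x / y + 1 = (x + y) / y := by
      rw [add_div, div_self hy0]
    rwa [e, add_comm α 1] at h1
  have hsV : x + y ∉ V := omegaa_large V hV hα1 hy hs1
  have hs0 := omegaa_ne V hsV
  obtain ⟨z, hz, hcz⟩ := lift_right V hV B' hB'.ne_zero α⁻¹ (omegaa_tv B' α hα0 h') (x + y) hsV
  have hrel := rel_point hR V hV x y z hy hsV (omegaa_sb_dvd hBD _ _ hx)
    (omegaa_sb_dvd hBD' _ _ hz)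
  have hzy : Cg V (z / y) (-α) := by
    have h1 := hcz.mul hV hs1
    have e1 : z / (x + y) * ((x + y) / y) = z / y := by
      field_simp
    have e2 : α⁻¹ * (1 + α) = -α := by
      rw [hαi]
      linear_combination (α : ℂ) * hα
    rwa [e1, e2] at h1
  have hyz : Cg V ((y + z) / y) (1 + -α) := by
    have h1 := (omegaa_one V).add hzy
    have e1 : 1 + z / y = (y + z) / y := by
      rw [add_div, div_self hy0]
    rwa [e1] at h1
  have hxz : Cg V ((x + z) / y) 0 := by
    have h1 := hc.add hzy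
    have e1 : x / y + z / y = (x + z) / y := by
      rw [add_div]
    rwa [e1, add_neg_cancel] at h1
  have hxz0 : x + z = 0 := by
    rcases mul_eq_zero.1 hrel with h1 | h1
    · rcases mul_eq_zero.1 h1 with h2 | h2
      · rcases mul_eq_zero.1 h2 with h3 | h3
        · exfalso
          rw [h3, zero_div] at hyz
          have h4 := Cg.unique hV hyz (omegaa_zero V)
          have h5 : α = 1 := by linear_combination -h4
          rw [h5] at hα
          norm_num at hα
        · exact h3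
      · exact asym0 V hV q (le_trans (by norm_num) hR.dq) hR.q0 (x + z) y hy hxz
          (omegaa_sb_dvd hR.den_q _ _ h2)
    · exfalso
      have h3 := hyz.mul hV (Cg.inv hV hc hα0)
      have e1 : (y + z) / y * (x / y)⁻¹ = (y + z) / x := by
        field_simp
      have e2 : (1 + -α) * α⁻¹ = α ^ 2 - 1 := by
        rw [hαi]
        linear_combination -hα3
      rw [e1, e2] at h3
      have h4 := tv_of_Cg V hV Den hD (y + z) x hxV _ h3 h1
      rcases dirs hR _ h4 with h5 | h5 | h5
      · have h6 : α = -2 := by linear_combination hα - h5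
        rw [h6] at hα
        norm_num at hα
      · have h6 : α ^ 2 = 0 := by linear_combination h5
        exact hα0 (pow_eq_zero_iff (by norm_num) |>.1 h6)
      · have h6 : α ^ 2 = 0 := by
          have h7 : (2 : ℂ) * α ^ 2 = 0 := by
            linear_combination α * hα3 + hα - h5
          rcases mul_eq_zero.1 h7 with h8 | h8
          · norm_num at h8
          · exact h8
        exact hα0 (pow_eq_zero_iff (by norm_num) |>.1 h6)
  have hz' : z = -x := by linear_combination hxz0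
  refine ⟨K, _, _, V, hV, x, y, hxV, hy, hx, ?_⟩
  rw [← hz']
  exact hz

theorem omega_tau {p q : Polynomial ℂ} {Den N : MvPolynomial (Fin 2) ℂ} (hR : RData p q Den N)
    (B B' : MvPolynomial (Fin 2) ℂ) (hB : Prime B) (hB' : Prime B') (hBD : B ∣ Den)
    (hBD' : B' ∣ Den) (α : ℂ) (hα : α ^ 2 + α + 1 = 0) (h : tv B α 1 = 0)
    (h' : tv B' α 1 = 0) :
    B ∣ sb B' (X 0 + X 1 : MvPolynomial (Fin 2) ℂ) (-X 0) := by
  by_contra hnd
  obtain ⟨K, _, _, V, hV, x, y, hxV, hy, h1, h2⟩ :=
    omegaa_pt hR B B' hB hB' hBD hBD' α hα h h'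
  apply relpt_ne V hV B _ hB hnd x y (Or.inr hy) h1
  rw [omegaa_sb_sb]
  have e1 : sb (X 0 + X 1 : MvPolynomial (Fin 2) ℂ) x y = x + y := by simp [sb]
  have e2 : sb (-X 0 : MvPolynomial (Fin 2) ℂ) x y = -x := by simp [sb]
  rw [e1, e2]
  exact h2

theorem omega_odd {p q : Polynomial ℂ} {Den N : MvPolynomial (Fin 2) ℂ} (hR : RData p q Den N)
    (B : MvPolynomial (Fin 2) ℂ) (hB : Prime B) (hBD : B ∣ Den) (α : ℂ)
    (hα : α ^ 2 + α + 1 = 0) (h : tv B α 1 = 0) : OddP p ∧ OddP q := by
  obtain ⟨K, _, _, V, hV, x, y, hxV, hy, h1, h2⟩ :=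
    omegaa_pt hR B B hB hB hBD hBD α hα h h
  have key : ∀ r : Polynomial ℂ, B ∣ G 2 r → OddP r := by
    intro r hr
    have h3 := omegaa_sb_dvd hr x y h1
    have h4 := omegaa_sb_dvd hr (x + y) (-x) h2
    rw [sb_G2] at h3 h4
    have e : x + y + -x = y := by ring
    rw [e] at h4
    have h5 : Polynomial.aeval x (r.comp (-Polynomial.X) + r) = 0 := by
      rw [map_add, Polynomial.aeval_comp, map_neg, Polynomial.aeval_X]
      linear_combination h3 + h4
    have h6 := omegaa_alg V hV _ x hxV h5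
    unfold OddP
    exact eq_neg_of_add_eq_zero_left h6
  exact ⟨key p (hR.den_p B hB hBD), key q (hBD.trans hR.den_q)⟩

end Pool.Agent.Helper96.FK
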