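import Pool.Agent.Helper96.FK.Top
import Pool.Agent.Helper96.FK.TMap2

/-!
# FK-27: order bound and shape of the tail

`F` has order `k ≥ 3`, constant separant `c0 ≠ 0`, no constant term; `h` a formal series with
`FC F h`, `h 1` of order `≤ ρ`, `ρ ≥ 1`.
`ord_bound`: strong induction on `s`: all terms `br (hc i F) (h j)` with `i ≥ 2` of the degree `s`
equation have order `≤ k + ρ - 1` (`ord_br`), so has `br (hc 1 F) (h s)`. If `h s` had exact order
`n > ρ`, `d_top_br` for `hc 1 F` (order exactly `k`, separant `c0`) gives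
`d (k+n-1) (br (hc 1 F) (h s)) = -k c0 D (d n (h s))`, so `D (d n (h s)) = 0`, `d n (h s)` is a
constant, homogeneous of degree `s - 1 ≥ 1`, so zero.
`tail_form`: by downward induction on `j` from `ρ` to `0`: `h s` has order `≤ j` for all large `s`.
For large `s` all `h l` occurring in the degree `s` equation have order `≤ j` (`j ≥ 1`), and
applying `d (k+j-1)`: for `i ≥ 2` `hc i F` has order `≤ k-1` (separant constant), so only `i = 1`
contributes: `-k c0 D (d j (h s)) = 0`. At the end `h s` has order `0`, so `h s = ζ u_0^s`.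
-/

set_option autoImplicit false

open MvPolynomial

namespace Pool.Agent.Helper96.FK

/-- order `k ≥ 3`, constant separant, no constant term -/
structure CS (k : ℕ) (c0 : ℂ) (F : A ℂ) : Prop where
  hk : 3 ≤ k
  ord : Ord k F
  sep : d k F = C c0
  ne : c0 ≠ 0
  F0 : hc 0 F = 0

private theorem ordb_ord_hc {k : ℕ} {c0 : ℂ} {F : A ℂ} (hF : CS k c0 F) (i : ℕ) :
    Ord k (hc i F) := by
  intro j hj
  cases i with
  | zero => rw [hF.F0, map_zero]
  | succ i => rw [← hc_d, hF.ord j hj, map_zero]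

private theorem ordb_sep1 {k : ℕ} {c0 : ℂ} {F : A ℂ} (hF : CS k c0 F) :
    d k (hc 1 F) = C c0 := by
  have h := hc_d k 0 F
  rw [zero_add] at h
  rw [← h, hF.sep]
  exact homogeneousComponent_of_mem (isHomogeneous_C ℕ c0)

private theorem ordb_sep2 {k : ℕ} {c0 : ℂ} {F : A ℂ} (hF : CS k c0 F) {i : ℕ} (hi : 2 ≤ i) :
    d k (hc i F) = 0 := by
  obtain ⟨i, rfl⟩ : ∃ l, i = l + 2 := ⟨i - 2, by omega⟩
  have h := hc_d k (i + 1) F
  rw [← h, hF.sep]
  have := homogeneousComponent_of_mem (m := i + 1) (isHomogeneous_C ℕ c0)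
  rw [if_neg (by omega)] at this
  exact this

private theorem ordb_ord_hc2 {k : ℕ} {c0 : ℂ} {F : A ℂ} (hF : CS k c0 F) {i : ℕ} (hi : 2 ≤ i) :
    Ord (k - 1) (hc i F) := by
  intro j hj
  rcases eq_or_lt_of_le (show k ≤ j by omega) with rfl | h
  · exact ordb_sep2 hF hi
  · exact ordb_ord_hc hF i j h

private theorem ordb_zero {f : A ℂ} {n : ℕ} (hn : 1 ≤ n) (hf : f.IsHomogeneous n)
    (hD : D f = 0) : f = 0 := by
  obtain ⟨r, hr⟩ := eq_C_of_D hD
  by_contra hne
  have h0 : f.IsHomogeneous 0 := by rw [hr]; exact isHomogeneous_C ℕ r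
  have := hf.inj_right h0 hne
  omega

/-- the degree `s` equation solved for the first term -/
private theorem ordb_eq {k : ℕ} {c0 : ℂ} {F : A ℂ} (hF : CS k c0 F) (h : ℕ → A ℂ)
    (hFC : FC F h) (s : ℕ) (P : A ℂ → Prop) (hP0 : P 0) (hPa : ∀ f g, P f → P g → P (f + g))
    (hPn : ∀ f, P f → P (-f))
    (hP : ∀ i j, 2 ≤ i → i + j = s + 1 → P (br (hc i F) (h j))) :
    P (br (hc 1 F) (h s)) := by
  classical
  have h1 := hFC s
  have hm : ((1, s) : ℕ × ℕ) ∈ Finset.HasAntidiagonal.antidiagonal (s + 1) := by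
    rw [Finset.HasAntidiagonal.mem_antidiagonal]; simp [add_comm]
  rw [← Finset.add_sum_erase _ _ hm] at h1
  have h2 : br (hc 1 F) (h s) =
      -∑ x ∈ (Finset.HasAntidiagonal.antidiagonal (s + 1)).erase (1, s),
        br (hc x.1 F) (h x.2) := by
    linear_combination h1
  rw [h2]
  apply hPn
  refine Finset.sum_induction _ P hPa hP0 ?_
  rintro ⟨i, j⟩ hx
  rw [Finset.mem_erase, Finset.HasAntidiagonal.mem_antidiagonal] at hx
  obtain ⟨hx1, hx2⟩ := hx
  simp only at hx2 ⊢
  rcases Nat.lt_or_ge i 2 with hi | hi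
  · interval_cases i
    · rw [hF.F0, br_zero_left]; exact hP0
    · exact absurd (by rw [Prod.mk.injEq]; exact ⟨rfl, by omega⟩) hx1
  · exact hP i j hi hx2

private theorem ordb_top {k : ℕ} {c0 : ℂ} {F : A ℂ} (hF : CS k c0 F) {g : A ℂ} {s N : ℕ}
    (hs : 2 ≤ s) (hg : g.IsHomogeneous s) (hN : 1 ≤ N) (hO : Ord N g)
    (hz : d (k + N - 1) (br (hc 1 F) g) = 0) : Ord (N - 1) g := by
  have hk := hF.hk
  have h1 := d_top_br (m := k) (j := N) (by omega) hN (ordb_ord_hc hF 1) hO
    (Or.inr (fun i => by rw [ordb_sep1 hF]; exact pderiv_C))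
  rw [hz, ordb_sep1 hF, D_C, mul_zero, mul_zero, zero_sub] at h1
  have h2 : (C ((k : ℂ) * c0) : A ℂ) * D (d N g) = 0 := by
    rw [C_mul, map_natCast]
    linear_combination h1
  have h3 : D (d N g) = 0 := by
    rcases mul_eq_zero.1 h2 with h | h
    · rw [C_eq_zero] at h
      rcases mul_eq_zero.1 h with h | h
      · exact absurd (Nat.cast_eq_zero.1 h) (by omega)
      · exact absurd h hF.ne
    · exact h
  obtain ⟨s, rfl⟩ : ∃ l, s = l + 1 := ⟨s - 1, by omega⟩
  have h4 := ordb_zero (n := s) (by omega) (isHomogeneous_d N hg) h3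
  intro j hj
  rcases eq_or_lt_of_le (show N ≤ j by omega) with rfl | h
  · exact h4
  · exact hO j h

theorem ord_bound {k : ℕ} {c0 : ℂ} {F : A ℂ} (hF : CS k c0 F) (h : ℕ → A ℂ) (hS : Ser h)
    (hFC : FC F h) (ρ : ℕ) (hρ : 1 ≤ ρ) (h1 : Ord ρ (h 1)) : ∀ s, Ord ρ (h s) := by
  have hk := hF.hk
  intro s
  induction s using Nat.strong_induction_on with
  | _ s ih =>
    rcases Nat.lt_or_ge s 2 with hs | hs
    · interval_cases s
      · rw [hS.2]; intro j _; exact map_zero _
      · exact h1
    · have hB : Ord (k + ρ - 1) (br (hc 1 F) (h s)) := by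
        refine ordb_eq hF h hFC s (Ord (k + ρ - 1)) (fun j _ => map_zero _)
          (fun f g hf hg => hf.add hg) (fun f hf j hj => by rw [map_neg, hf j hj, neg_zero]) ?_
        intro i j hi hij
        exact ord_br (by omega) hρ (ordb_ord_hc hF i) (ih j (by omega))
      have key : ∀ n, Ord (ρ + n) (h s) → Ord ρ (h s) := by
        intro n
        induction n with
        | zero => exact fun h => h
        | succ n ihn =>
          intro hn
          apply ihn
          have := ordb_top hF hs (hS.1 s) (N := ρ + (n + 1)) (by omega) hn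
            (hB _ (by omega))
          exact this
      obtain ⟨n, hn⟩ := exists_ord (h s)
      exact key n (hn.mono (by omega))

private theorem ordb_shape {f : A ℂ} {s : ℕ} (hf : f.IsHomogeneous s) (hO : Ord 0 f) :
    ∃ ζ : ℂ, f = C ζ * X 0 ^ s := by
  classical
  refine ⟨coeff (Finsupp.single 0 s) f, ?_⟩
  rw [C_mul_X_pow_eq_monomial]
  ext m
  by_cases hm : coeff m f = 0
  · rw [hm, coeff_monomial]
    split_ifs with h
    · rw [h, hm]
    · rfl
  · have hdeg := hf hm
    have h0 : ∀ i, i ≠ 0 → m i = 0 := by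
      intro i hi
      by_contra hne
      have h1 : i ∉ f.vars := hO.notMem (by omega)
      apply h1
      rw [mem_vars_iff_mem_support]
      exact ⟨m, by rwa [mem_support_iff], by rwa [Finsupp.mem_support_iff]⟩
    have h2 : m = Finsupp.single 0 (m 0) := by
      ext i
      by_cases hi : i = 0
      · subst hi; simp
      · rw [h0 i hi, Finsupp.single_eq_of_ne hi]
    have h3 : m 0 = s := by
      rw [h2, Finsupp.weight_apply, Finsupp.sum_single_index (by simp)] at hdeg
      simpa using hdeg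
    rw [h2, h3, coeff_monomial, if_pos rfl]

theorem tail_form {k : ℕ} {c0 : ℂ} {F : A ℂ} (hF : CS k c0 F) (h : ℕ → A ℂ) (hS : Ser h)
    (hFC : FC F h) : ∃ S : ℕ, ∀ s, S ≤ s → ∃ ζ : ℂ, h s = C ζ * X 0 ^ s := by
  have hk := hF.hk
  obtain ⟨n, hn⟩ := exists_ord (h 1)
  have hb := ord_bound hF h hS hFC (n + 1) (by omega) (hn.mono (by omega))
  have key : ∀ m j, m + j = n + 1 → ∃ S, ∀ s, S ≤ s → Ord j (h s) := by
    intro m
    induction m with
    | zero =>
      intro j hj
      exact ⟨0, fun s _ => (hb s).mono (by omega)⟩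
    | succ m ih =>
      intro j hj
      obtain ⟨S, hSS⟩ := ih (j + 1) (by omega)
      refine ⟨S + F.totalDegree + 2, fun s hs => ?_⟩
      have hB : d (k + (j + 1) - 1) (br (hc 1 F) (h s)) = 0 := by
        refine ordb_eq hF h hFC s (fun f => d (k + (j + 1) - 1) f = 0) (map_zero _)
          (fun f g hf hg => by rw [map_add, hf, hg, add_zero])
          (fun f hf => by rw [map_neg, hf, neg_zero]) ?_
        intro i l hi hil
        rcases Nat.lt_or_ge F.totalDegree i with hd | hd
        · have : hc i F = 0 := homogeneousComponent_eq_zero _ _ hd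
          rw [this, br_zero_left, map_zero]
        · exact ord_br (m := k - 1) (j := j + 1) (by omega) (by omega) (ordb_ord_hc2 hF hi)
            (hSS l (by omega)) _ (by omega)
      exact ordb_top hF (by omega) (hS.1 s) (N := j + 1) (by omega) (hSS s (by omega)) hB
  obtain ⟨S, hSS⟩ := key (n + 1) 0 (by omega)
  exact ⟨S, fun s hs => ordb_shape (hS.1 s) (hSS s hs)⟩

end Pool.Agent.Helper96.FK
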