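import Pool.Agent.Helper96.FK.Defs

/-!
# FK-9: divisibility and the operator `g + c ∂_a`

`emb B ∣ Y` iff `B` divides all `a`-coefficients of `Y`. Modulo a prime `B` the ring
`(ℂ[x]/B)[a]` is a domain, and `(g + c ∂_a) Y ≡ 0` with `g ≢ 0` forces `Y ≡ 0` by comparing degrees
in `a`. (`e0 g` is the `a^0`-coefficient of `g`, so `¬ B ∣ e0 g` gives `g ≢ 0`.)
For composite `Q` use induction on prime factors (`UniqueFactorizationMonoid.induction_on_prime`):
if `emb (B * Q) ∣ g Y + c ∂Y` then `Y = emb B * Y'` and `emb Q ∣ g Y' + c ∂Y'`.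
-/

set_option autoImplicit false

open MvPolynomial

namespace Pool.Agent.Helper96.FK

/-- interchange of the variables -/
noncomputable def pdiv_Phi {σ : Type*} : MvPolynomial σ L →+* Polynomial (MvPolynomial σ ℂ) :=
  eval₂Hom (Polynomial.mapRingHom (C : ℂ →+* MvPolynomial σ ℂ)) (fun i => Polynomial.C (X i))

/-- the inverse of the interchange -/
noncomputable def pdiv_Psi {σ : Type*} : Polynomial (MvPolynomial σ ℂ) →+* MvPolynomial σ L :=
  Polynomial.eval₂RingHom emb (C Polynomial.X)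

theorem pdiv_Phi_emb {σ : Type*} (B : MvPolynomial σ ℂ) : pdiv_Phi (emb B) = Polynomial.C B := by
  induction B using MvPolynomial.induction_on with
  | C a => simp [pdiv_Phi, emb]
  | add p q hp hq => rw [map_add, map_add, hp, hq, map_add]
  | mul_X p i hp =>
    rw [map_mul, map_mul, hp, map_mul]
    simp [pdiv_Phi, emb]

theorem pdiv_Psi_Phi {σ : Type*} (Y : MvPolynomial σ L) : pdiv_Psi (pdiv_Phi Y) = Y := by
  induction Y using MvPolynomial.induction_on with
  | C a =>
    induction a using Polynomial.induction_on' with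
    | add p q hp hq => rw [map_add, map_add, map_add, hp, hq]
    | monomial n c =>
      simp only [pdiv_Phi, pdiv_Psi, coe_eval₂Hom, eval₂_C, Polynomial.coe_mapRingHom,
        Polynomial.map_monomial, Polynomial.coe_eval₂RingHom, Polynomial.eval₂_monomial]
      rw [emb, map_C, ← map_pow, ← map_mul, Polynomial.C_mul_X_pow_eq_monomial]
  | add p q hp hq => rw [map_add, map_add, hp, hq]
  | mul_X p i hp =>
    rw [map_mul, map_mul, hp]
    simp [pdiv_Phi, pdiv_Psi, emb]

theorem pdiv_Phi_Psi {σ : Type*} (Y : Polynomial (MvPolynomial σ ℂ)) :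
    pdiv_Phi (pdiv_Psi Y) = Y := by
  induction Y using Polynomial.induction_on' with
  | add p q hp hq => rw [map_add, map_add, hp, hq]
  | monomial n c =>
    simp only [pdiv_Psi, Polynomial.coe_eval₂RingHom, Polynomial.eval₂_monomial]
    rw [map_mul, pdiv_Phi_emb, map_pow]
    simp only [pdiv_Phi, coe_eval₂Hom, eval₂_C, Polynomial.coe_mapRingHom, Polynomial.map_X]
    rw [Polynomial.C_mul_X_pow_eq_monomial]

/-- the interchange as an equivalence -/
noncomputable def pdiv_E {σ : Type*} : MvPolynomial σ L ≃+* Polynomial (MvPolynomial σ ℂ) where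
  toFun := pdiv_Phi
  invFun := pdiv_Psi
  left_inv := pdiv_Psi_Phi
  right_inv := pdiv_Phi_Psi
  map_mul' := map_mul _
  map_add' := map_add _

theorem pdiv_E_apply {σ : Type*} (Y : MvPolynomial σ L) : pdiv_E Y = pdiv_Phi Y := rfl

theorem pdiv_dvd {σ : Type*} (P Q : MvPolynomial σ L) : pdiv_Phi P ∣ pdiv_Phi Q ↔ P ∣ Q := by
  rw [← pdiv_E_apply, ← pdiv_E_apply]
  exact map_dvd_iff pdiv_E

theorem pdiv_cd {σ : Type*} (Y : MvPolynomial σ L) :
    pdiv_Phi (cd Y) = Polynomial.derivative (pdiv_Phi Y) := by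
  induction Y using MvPolynomial.induction_on with
  | C a =>
    rw [cd_C]
    simp only [pdiv_Phi, coe_eval₂Hom, eval₂_C, Polynomial.coe_mapRingHom]
    rw [Polynomial.derivative_map]
  | add p q hp hq => rw [map_add, map_add, map_add, hp, hq, map_add]
  | mul_X p i hp =>
    rw [cd_mul, cd_X, mul_zero, zero_add, map_mul, hp, map_mul, Polynomial.derivative_mul]
    have : pdiv_Phi (X i : MvPolynomial σ L) = Polynomial.C (X i) := by simp [pdiv_Phi]
    rw [this, Polynomial.derivative_C, mul_zero, add_zero, mul_comm]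

theorem pdiv_e0 {σ : Type*} (Y : MvPolynomial σ L) : e0 Y = (pdiv_Phi Y).coeff 0 := by
  have h : (e0 : MvPolynomial σ L →+* MvPolynomial σ ℂ) =
      (Polynomial.evalRingHom 0).comp pdiv_Phi := by
    apply MvPolynomial.ringHom_ext
    · intro a
      simp only [e0, map_C, RingHom.comp_apply, pdiv_Phi, coe_eval₂Hom, eval₂_C,
        Polynomial.coe_mapRingHom, Polynomial.coe_evalRingHom]
      rw [Polynomial.eval_map, Polynomial.eval₂_at_zero, ← Polynomial.coeff_zero_eq_eval_zero]
    · intro i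
      simp [e0, pdiv_Phi]
  rw [Polynomial.coeff_zero_eq_eval_zero, h]
  rfl

theorem cd_emb_mul {σ : Type*} (B : MvPolynomial σ ℂ) (Y : MvPolynomial σ L) :
    cd (emb B * Y) = emb B * cd Y := by
  apply pdiv_E.injective
  rw [pdiv_E_apply, pdiv_E_apply, pdiv_cd, map_mul pdiv_Phi, map_mul pdiv_Phi, pdiv_cd,
    pdiv_Phi_emb, Polynomial.derivative_C_mul]

theorem e0_emb {σ : Type*} (B : MvPolynomial σ ℂ) : e0 (emb B) = B := by
  rw [pdiv_e0, pdiv_Phi_emb, Polynomial.coeff_C_zero]

theorem emb_dvd_emb {σ : Type*} {B Y : MvPolynomial σ ℂ} : emb B ∣ emb Y ↔ B ∣ Y := by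
  rw [← pdiv_dvd, pdiv_Phi_emb, pdiv_Phi_emb, Polynomial.C_dvd_iff_dvd_coeff]
  constructor
  · intro h
    simpa using h 0
  · intro h i
    rw [Polynomial.coeff_C]
    split_ifs
    · exact h
    · exact dvd_zero _

theorem cd_eq_zero_iff {σ : Type*} (Y : MvPolynomial σ L) :
    cd Y = 0 ↔ ∃ Y' : MvPolynomial σ ℂ, Y = emb Y' := by
  constructor
  · intro h
    have h1 : Polynomial.derivative (pdiv_Phi Y) = 0 := by rw [← pdiv_cd, h, map_zero]
    refine ⟨(pdiv_Phi Y).coeff 0, ?_⟩
    apply pdiv_E.injective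
    rw [pdiv_E_apply, pdiv_E_apply, pdiv_Phi_emb]
    exact Polynomial.eq_C_of_derivative_eq_zero h1
  · rintro ⟨Y', rfl⟩
    apply pdiv_E.injective
    rw [pdiv_E_apply, pdiv_E_apply, pdiv_cd, pdiv_Phi_emb, Polynomial.derivative_C, map_zero]

theorem pdiv_mod {R : Type*} [CommRing R] [IsDomain R] (g Y : Polynomial R) (c : R) (hg : g ≠ 0)
    (h : g * Y + Polynomial.C c * Polynomial.derivative Y = 0) :
    Y = 0 := by
  by_contra hY
  have h1 : (g * Y).degree = g.degree + Y.degree := Polynomial.degree_mul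
  have h2 : Y.degree ≤ (g * Y).degree := by
    rw [h1]
    have : 0 ≤ g.degree := Polynomial.zero_le_degree_iff.2 hg
    calc Y.degree = 0 + Y.degree := (zero_add _).symm
      _ ≤ _ := by gcongr
  have h3 : (Polynomial.C c * Polynomial.derivative Y).degree < Y.degree := by
    refine lt_of_le_of_lt ?_ (Polynomial.degree_derivative_lt hY)
    refine le_trans (Polynomial.degree_mul_le _ _) ?_
    calc (Polynomial.C c).degree + (Polynomial.derivative Y).degree
        ≤ 0 + (Polynomial.derivative Y).degree := by gcongr; exact Polynomial.degree_C_le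
      _ = _ := zero_add _
  have h4 : g * Y = -(Polynomial.C c * Polynomial.derivative Y) := eq_neg_of_add_eq_zero_left h
  rw [h4, Polynomial.degree_neg] at h2
  exact absurd (lt_of_le_of_lt h2 h3) (lt_irrefl _)

theorem pdiv_mod_map {S : Type*} [CommRing S] (B : S) (P : Polynomial S) :
    P.map (Ideal.Quotient.mk (Ideal.span {B})) = 0 ↔ Polynomial.C B ∣ P := by
  rw [Polynomial.C_dvd_iff_dvd_coeff, Polynomial.ext_iff]
  apply forall_congr'
  intro n
  rw [Polynomial.coeff_map, Polynomial.coeff_zero, Ideal.Quotient.eq_zero_iff_mem,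
    Ideal.mem_span_singleton]

theorem pdiv_alt {σ : Type*} (B : MvPolynomial σ ℂ) (hB : Prime B)
    (g : MvPolynomial σ L) (c : ℂ) (Y : MvPolynomial σ L)
    (h : emb B ∣ g * Y + C (Polynomial.C c) * cd Y) : emb B ∣ g ∨ emb B ∣ Y := by
  rw [← pdiv_dvd, map_add, map_mul, map_mul, pdiv_cd, pdiv_Phi_emb, ← pdiv_mod_map] at h
  rw [← pdiv_dvd (emb B) g, ← pdiv_dvd (emb B) Y, pdiv_Phi_emb, ← pdiv_mod_map, ← pdiv_mod_map]
  have : (Ideal.span {B}).IsPrime := (Ideal.span_singleton_prime hB.ne_zero).2 hB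
  have hdom : IsDomain (MvPolynomial σ ℂ ⧸ Ideal.span {B}) := Ideal.Quotient.isDomain _
  by_cases hg : (pdiv_Phi g).map (Ideal.Quotient.mk (Ideal.span {B})) = 0
  · exact Or.inl hg
  · right
    have hc : pdiv_Phi (C (Polynomial.C c) : MvPolynomial σ L) = Polynomial.C (C c) := by
      simp [pdiv_Phi]
    rw [hc, Polynomial.map_add, Polynomial.map_mul, Polynomial.map_mul, Polynomial.map_C,
      ← Polynomial.derivative_map] at h
    exact pdiv_mod _ _ _ hg h

theorem pdiv_prime {σ : Type*} (B : MvPolynomial σ ℂ) (hB : Prime B)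
    (g : MvPolynomial σ L) (hg : ¬ B ∣ e0 g) (c : ℂ) (Y : MvPolynomial σ L)
    (h : emb B ∣ g * Y + C (Polynomial.C c) * cd Y) : emb B ∣ Y := by
  rcases pdiv_alt B hB g c Y h with h1 | h1
  · exfalso
    apply hg
    obtain ⟨g', rfl⟩ := h1
    rw [map_mul, e0_emb]
    exact dvd_mul_right _ _
  · exact h1

/-- a prime that divides `(g + c ∂) Y` but not `Y` divides `g`, and then `∂ Y ≡ 0` if `c ≠ 0` -/
theorem pdiv_prime' {σ : Type*} (B : MvPolynomial σ ℂ) (hB : Prime B)
    (g : MvPolynomial σ L) (c : ℂ) (Y : MvPolynomial σ L) (hY : ¬ emb B ∣ Y)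
    (h : emb B ∣ g * Y + C (Polynomial.C c) * cd Y) :
    emb B ∣ g ∧ (c ≠ 0 → emb B ∣ cd Y ∧ ¬ B ∣ e0 Y) := by
  rcases pdiv_alt B hB g c Y h with h1 | h1
  · refine ⟨h1, fun hc => ?_⟩
    have h2 : emb B ∣ C (Polynomial.C c) * cd Y := by
      rw [← dvd_add_right (h1.mul_right Y)]
      exact h
    have h3 : emb B ∣ cd Y := by
      have h4 : cd Y = C (Polynomial.C c⁻¹) * (C (Polynomial.C c) * cd Y) := by
        rw [← mul_assoc, ← map_mul, ← map_mul, inv_mul_cancel₀ hc, map_one, map_one, one_mul]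
      rw [h4]
      exact h2.mul_left _
    refine ⟨h3, fun h5 => hY ?_⟩
    rw [← pdiv_dvd, pdiv_Phi_emb, Polynomial.C_dvd_iff_dvd_coeff] at h3 ⊢
    rw [pdiv_e0] at h5
    intro n
    rcases n with _ | n
    · exact h5
    · have h6 := h3 n
      rw [pdiv_cd, Polynomial.coeff_derivative] at h6
      have h7 : (pdiv_Phi Y).coeff (n + 1) =
          C ((n : ℂ) + 1)⁻¹ * ((pdiv_Phi Y).coeff (n + 1) * ((n : MvPolynomial σ ℂ) + 1)) := by
        have h8 : ((n : MvPolynomial σ ℂ) + 1) = C ((n : ℂ) + 1) := by simp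
        rw [h8, mul_comm ((pdiv_Phi Y).coeff (n + 1)), ← mul_assoc, ← map_mul,
          inv_mul_cancel₀ (by exact_mod_cast Nat.succ_ne_zero n), map_one, one_mul]
      rw [h7]
      exact h6.mul_left _
  · exact absurd h1 hY

theorem pdiv {σ : Type*} [Finite σ] (Q : MvPolynomial σ ℂ) (hQ : Q ≠ 0) (g : MvPolynomial σ L)
    (hg : ∀ B, Prime B → B ∣ Q → ¬ B ∣ e0 g) (c : ℂ) (Y : MvPolynomial σ L)
    (h : emb Q ∣ g * Y + C (Polynomial.C c) * cd Y) : emb Q ∣ Y := by
  induction Q using UniqueFactorizationMonoid.induction_on_prime generalizing Y with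
  | h₁ => exact absurd rfl hQ
  | h₂ u hu => exact (hu.map emb).dvd
  | h₃ Q B hQ0 hB ih =>
    have h1 : emb B ∣ Y := pdiv_prime B hB g (hg B hB (dvd_mul_right _ _)) c Y
      (dvd_trans (by rw [map_mul]; exact dvd_mul_right _ _) h)
    obtain ⟨Y', rfl⟩ := h1
    have h2 : emb B ≠ 0 := by
      intro h0
      apply hB.ne_zero
      rw [← e0_emb B, h0, map_zero]
    rw [map_mul]
    apply mul_dvd_mul_left
    apply ih hQ0 (fun B' hB' hd => hg B' hB' (hd.mul_left _))
    have h3 : g * (emb B * Y') + C (Polynomial.C c) * cd (emb B * Y') =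
        emb B * (g * Y' + C (Polynomial.C c) * cd Y') := by
      rw [cd_emb_mul]; ring
    rw [h3, map_mul] at h
    exact (mul_dvd_mul_iff_left h2).1 h

end Pool.Agent.Helper96.FK
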