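import Pool.Agent.Helper96.FK.Br

/-!
# FK-2: the top derivative of a bracket

Let `g` have order `≤ m` and `h` order `≤ j`. With `∂_n D = D ∂_n + ∂_{n-1}`
(`d_succ_D`, `d_zero_D`), so `∂_n D^i = ∑_l C(i,l) D^{i-l} ∂_{n-l}`, one gets for `n = m + j - 1`
`∂_n (ev g h) = h_j (g_{m-1} + j D g_m) + h_{j-1} g_m` and
`∂_n (ev h g) = g_m (h_{j-1} + m D h_j) + g_{m-1} h_j` (plus `∑ g_{i,m} D^i h` if `j = 1`).
-/

set_option autoImplicit false

open MvPolynomial

namespace Pool.Agent.Helper96.FK

section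

variable {R : Type*} [CommRing R]

theorem top_iter_top {k : ℕ} {f : A R} (hf : Ord k f) (i : ℕ) :
    d (k + i) ((⇑D)^[i] f) = d k f := by
  induction i with
  | zero => rfl
  | succ i ih =>
    rw [iter_succ, ← add_assoc, d_succ_D, hf.iter i (k + i + 1) (by omega), map_zero, zero_add, ih]

theorem top_iter_sub {k : ℕ} {f : A R} (hf : Ord (k + 1) f) (i : ℕ) :
    d (k + i) ((⇑D)^[i] f) = d k f + (i : A R) * D (d (k + 1) f) := by
  induction i with
  | zero => simp
  | succ i ih =>
    rw [iter_succ, ← add_assoc, d_succ_D, ih]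
    have h1 := top_iter_top hf i
    rw [show k + 1 + i = k + i + 1 by omega] at h1
    rw [h1]
    push_cast
    ring

end

variable {R : Type*} [CommRing R] [IsDomain R] [CharZero R]

theorem top_ev_sub {k l : ℕ} {p q : A R} (hp : Ord (k + 1) p) (hq : Ord (l + 1) q)
    (h0 : ev p (d (k + l + 1) q) = 0) :
    d (k + l + 1) (ev p q) =
      d (l + 1) q * (d k p + ((l + 1 : ℕ) : A R) * D (d (k + 1) p)) + d l q * d (k + 1) p := by
  rw [d_ev _ p hq, h0, zero_add, Finset.sum_range_succ, Finset.sum_range_succ,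
    Finset.sum_eq_zero, zero_add]
  · have h1 := top_iter_top hp l
    rw [show k + 1 + l = k + l + 1 by omega] at h1
    have h2 := top_iter_sub hp (l + 1)
    rw [← add_assoc] at h2
    rw [h1, h2]
    ring
  · intro i hi
    rw [Finset.mem_range] at hi
    rw [hp.iter i (k + l + 1) (by omega), mul_zero]

theorem top_ev_big {k l n : ℕ} {p q : A R} (hp : Ord k p) (hq : Ord l q) (hn : k + l < n) :
    d n (ev p q) = 0 := by
  rw [d_ev _ p hq, hq n (by omega), map_zero, zero_add]
  apply Finset.sum_eq_zero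
  intro i hi
  rw [Finset.mem_range] at hi
  rw [hp.iter i n (by omega), mul_zero]

theorem top_ev_top {k l : ℕ} {p q : A R} (hp : Ord k p) (hq : Ord l q) (hk : 1 ≤ k) :
    d (k + l) (ev p q) = d l q * d k p := by
  rw [d_ev _ p hq, hq (k + l) (by omega), map_zero, zero_add, Finset.sum_range_succ,
    Finset.sum_eq_zero, zero_add, top_iter_top hp l]
  intro i hi
  rw [Finset.mem_range] at hi
  rw [hp.iter i (k + l) (by omega), mul_zero]

theorem d_top_br {m j : ℕ} {g h : A R} (hm : 2 ≤ m) (hj : 1 ≤ j) (hg : Ord m g) (hh : Ord j h)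
    (hx : 2 ≤ j ∨ ∀ i, d i (d m g) = 0) :
    d (m + j - 1) (br g h) =
      (j : A R) * (d j h * D (d m g)) - (m : A R) * (d m g * D (d j h)) := by
  obtain ⟨k, rfl⟩ : ∃ k, m = k + 1 := ⟨m - 1, by omega⟩
  obtain ⟨l, rfl⟩ : ∃ l, j = l + 1 := ⟨j - 1, by omega⟩
  have e : k + 1 + (l + 1) - 1 = k + l + 1 := by omega
  rw [e]
  have h1 := top_ev_sub hg hh (by rw [hh (k + l + 1) (by omega), map_zero])
  have h2 := top_ev_sub (k := l) (l := k) hh hg (by
    rcases hx with hx | hx
    · rw [hg (l + k + 1) (by omega), map_zero]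
    · by_cases hl : l = 0
      · subst hl
        rw [zero_add]
        rw [eq_C_of_d hx, ev_C]
      · rw [hg (l + k + 1) (by omega), map_zero])
  rw [show l + k + 1 = k + l + 1 by omega] at h2
  unfold br
  rw [map_sub, h1, h2]
  ring

theorem ord_br {m j : ℕ} {g h : A R} (hm : 2 ≤ m) (hj : 1 ≤ j) (hg : Ord m g) (hh : Ord j h) :
    Ord (m + j - 1) (br g h) := by
  intro n hn
  unfold br
  rw [map_sub]
  by_cases e : n = m + j
  · subst e
    rw [top_ev_top hg hh (by omega)]
    have h2 := top_ev_top hh hg hj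
    rw [add_comm j m] at h2
    rw [h2]
    ring
  · rw [top_ev_big hg hh (by omega), top_ev_big hh hg (by omega), sub_zero]

end Pool.Agent.Helper96.FK
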