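import Pool.Agent.Helper96.FK.MainC
import Pool.Agent.Helper96.FK.Top
import Pool.Agent.Helper90.Evo.Final

/-!
# FK-33: from complex to real symmetries, and the reductions
-/

set_option autoImplicit false

open MvPolynomial

namespace Pool.Agent.Helper96.FK

/-- complexification -/
noncomputable def cx : A ℝ →+* A ℂ := MvPolynomial.map (algebraMap ℝ ℂ)

theorem cx_br (f g : A ℝ) : cx (br f g) = br (cx f) (cx g) := map_br _ f g

theorem cx_C (r : ℝ) : cx (C r) = C (r : ℂ) := by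
  unfold cx
  rw [map_C]
  rfl

theorem cx_d (j : ℕ) (f : A ℝ) : cx (d j f) = d j (cx f) := by
  induction f using MvPolynomial.induction_on with
  | C r => rw [cx_C]; simp
  | add P Q hP hQ => rw [map_add, map_add, hP, hQ, map_add, map_add]
  | mul_X P i hP =>
    have h : cx (X i : A ℝ) = X i := by
      unfold cx
      rw [map_X]
    rw [d_mul, map_add, map_mul, map_mul, hP, map_mul, d_mul, h]
    by_cases hi : i = j
    · subst hi
      rw [pderiv_X_self, pderiv_X_self, map_one]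
    · rw [pderiv_X_of_ne hi, pderiv_X_of_ne hi, map_zero]

theorem exists_reim (h : A ℂ) : ∃ P Q : A ℝ, h = cx P + C Complex.I * cx Q := by
  induction h using MvPolynomial.induction_on with
  | C z =>
    refine ⟨C z.re, C z.im, ?_⟩
    rw [cx_C, cx_C, ← C_mul, ← C_add]
    congr 1
    rw [mul_comm]
    exact (Complex.re_add_im z).symm
  | add P Q hP hQ =>
    obtain ⟨P1, P2, h1⟩ := hP
    obtain ⟨Q1, Q2, h2⟩ := hQ
    refine ⟨P1 + Q1, P2 + Q2, ?_⟩
    rw [h1, h2, map_add, map_add]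
    ring
  | mul_X P i hP =>
    obtain ⟨P1, P2, h1⟩ := hP
    have h : cx (X i : A ℝ) = X i := by
      unfold cx
      rw [map_X]
    refine ⟨P1 * X i, P2 * X i, ?_⟩
    rw [h1, map_mul, map_mul, h]
    ring

theorem reim_zero {P Q : A ℝ} (h : cx P + C Complex.I * cx Q = 0) : P = 0 ∧ Q = 0 := by
  have key : ∀ e, coeff e P = 0 ∧ coeff e Q = 0 := by
    intro e
    have h1 := congrArg (coeff e) h
    unfold cx at h1
    rw [coeff_add, coeff_C_mul, coeff_map, coeff_map, coeff_zero] at h1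
    have h2 := congrArg Complex.re h1
    have h3 := congrArg Complex.im h1
    simp at h2 h3
    exact ⟨h2, h3⟩
  constructor
  · ext e
    rw [(key e).1, coeff_zero]
  · ext e
    rw [(key e).2, coeff_zero]

/-- real and imaginary parts of a common symmetry -/
theorem real_of_complex {f g : A ℝ}
    (H : ∀ N : ℕ, ∃ h : A ℂ, br (cx f) h = 0 ∧ br (cx g) h = 0 ∧ ∃ j, N ≤ j ∧ d j h ≠ 0) :
    ∀ N : ℕ, ∃ h : A ℝ, br f h = 0 ∧ br g h = 0 ∧ ∃ j, N ≤ j ∧ d j h ≠ 0 := by
  intro N
  obtain ⟨h, h1, h2, j, hj, h3⟩ := H N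
  obtain ⟨P, Q, rfl⟩ := exists_reim h
  rw [br_add_right, br_C_mul_right, ← cx_br, ← cx_br] at h1 h2
  obtain ⟨hP1, hQ1⟩ := reim_zero h1
  obtain ⟨hP2, hQ2⟩ := reim_zero h2
  by_cases hP : d j P = 0
  · refine ⟨Q, hQ1, hQ2, j, hj, ?_⟩
    intro hQ
    apply h3
    rw [map_add, d_mul, show d j (C Complex.I : A ℂ) = 0 from pderiv_C, ← cx_d, ← cx_d, hP, hQ,
      map_zero]
    ring
  · exact ⟨P, hP1, hP2, j, hj, hP⟩

/-- exact order at least two -/
theorem exact_ord {f : A ℝ} (hf2 : ∃ k, 1 < k ∧ d k f ≠ 0) :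
    ∃ m, 2 ≤ m ∧ Ord m f ∧ d m f ≠ 0 := by
  obtain ⟨N, hN⟩ := exists_ord f
  obtain ⟨k, hk, hkf⟩ := hf2
  have key : ∀ n, Ord (n + 1) f → ∃ m, 2 ≤ m ∧ Ord m f ∧ d m f ≠ 0 := by
    intro n
    induction n with
    | zero => intro h; exact absurd (h k hk) hkf
    | succ n ih =>
      intro h
      by_cases h0 : d (n + 2) f = 0
      · apply ih
        intro j hj
        rcases Nat.lt_or_ge (n + 2) j with h1 | h1
        · exact h j h1
        · obtain rfl : j = n + 2 := by omega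
          exact h0
      · exact ⟨n + 2, by omega, h, h0⟩
  exact key N (hN.mono (by omega))

/-- commuting with an element of constant separant -/
theorem sep_const {m k : ℕ} {f g : A ℝ} (hm : 2 ≤ m) (hk : 1 ≤ k) (hg : Ord m g) {c : ℝ}
    (hc : d m g = C c) (hc0 : c ≠ 0) (hf : Ord k f) (h : br g f = 0) :
    ∃ r : ℝ, d k f = C r := by
  have h1 := d_top_br hm hk hg hf (Or.inr (fun i => by rw [hc]; exact pderiv_C))
  rw [h, map_zero, hc, D_C, mul_zero, mul_zero, zero_sub, eq_comm, neg_eq_zero] at h1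
  have h2 : D (d k f) = 0 := by
    rcases mul_eq_zero.1 h1 with h3 | h3
    · exfalso
      have : (m : A ℝ) = C (m : ℝ) := by simp
      rw [this, C_eq_zero] at h3
      have : m = 0 := by exact_mod_cast h3
      omega
    · rcases mul_eq_zero.1 h3 with h4 | h4
      · exact absurd ((C_eq_zero (σ := ℕ)).1 h4) hc0
      · exact h4
  exact eq_C_of_D h2

/-- the exact order and separant of an element all of whose low order is excluded -/
theorem exact_ord3 {f : A ℝ} (h : ¬ Ord 2 f) : ∃ m, 3 ≤ m ∧ Ord m f ∧ d m f ≠ 0 := by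
  have h1 : ∃ k, 1 < k ∧ d k f ≠ 0 := by
    unfold Ord at h
    push Not at h
    obtain ⟨j, hj, h2⟩ := h
    exact ⟨j, by omega, h2⟩
  obtain ⟨m, hm, h2, h3⟩ := exact_ord h1
  refine ⟨m, ?_, h2, h3⟩
  by_contra h4
  apply h
  exact h2.mono (by omega)

theorem cx_CO {k : ℕ} {c : ℝ} {f : A ℝ} (hk : 3 ≤ k) (hf : Ord k f) (hs : d k f = C c)
    (hc : c ≠ 0) : CO k (c : ℂ) (cx f) := by
  refine ⟨hk, fun j hj => ?_, ?_, ?_⟩
  · rw [← cx_d, hf j hj, map_zero]
  · rw [← cx_d, hs, cx_C]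
  · exact_mod_cast hc

/-- all combinations of order at least three -/
theorem main_R {f g : A ℝ} (hcomm : br g f = 0)
    (hcomb : ∀ x y : ℝ, (x ≠ 0 ∨ y ≠ 0) → ¬ Ord 2 (C x * f + C y * g))
    (hsep : ∃ (m : ℕ) (c : ℝ), c ≠ 0 ∧ d m g = C c ∧ Ord m g) :
    ∀ N : ℕ, ∃ h : A ℝ, br f h = 0 ∧ br g h = 0 ∧ ∃ j, N ≤ j ∧ d j h ≠ 0 := by
  obtain ⟨m, c, hc0, hc, hg⟩ := hsep
  have hm3 : 3 ≤ m := by
    by_contra h
    apply hcomb 0 1 (Or.inr one_ne_zero)
    rw [C_0, C_1, zero_mul, one_mul, zero_add]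
    exact hg.mono (by omega)
  have hf2 : ¬ Ord 2 f := by
    have h := hcomb 1 0 (Or.inl one_ne_zero)
    rwa [C_0, C_1, zero_mul, one_mul, add_zero] at h
  obtain ⟨k, hk3, hf, hfk⟩ := exact_ord3 hf2
  obtain ⟨r, hr⟩ := sep_const (by omega) (by omega) hg hc hc0 hf hcomm
  have hr0 : r ≠ 0 := by
    rintro rfl
    rw [C_0] at hr
    exact hfk hr
  by_cases hkm : k = m
  · subst hkm
    -- subtract a multiple
    set f' := C c * f + C (-r) * g with hf'
    have h1 : ¬ Ord 2 f' := hcomb c (-r) (Or.inl hc0)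
    have hfo : Ord (k - 1) f' := by
      intro j hj
      rw [hf', map_add, d_mul, d_mul, show d j (C c : A ℝ) = 0 from pderiv_C,
        show d j (C (-r) : A ℝ) = 0 from pderiv_C]
      rcases Nat.lt_or_ge k j with h2 | h2
      · rw [hf j h2, hg j h2]; ring
      · obtain rfl : j = k := by omega
        rw [hr, hc, C_neg]; ring
    obtain ⟨k', hk3', hfo', hfk'⟩ := exact_ord3 h1
    have hk' : k' < k := by
      by_contra h3
      exact hfk' (hfo k' (by omega))
    have hcomm' : br g f' = 0 := by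
      rw [hf', br_add_right, br_C_mul_right, br_C_mul_right, hcomm, br_self]; ring
    obtain ⟨r', hr'⟩ := sep_const (by omega) (by omega) hg hc hc0 hfo' hcomm'
    have hr0' : r' ≠ 0 := by
      rintro rfl
      rw [C_0] at hr'
      exact hfk' hr'
    have h4 := real_of_complex (main_C (cx_CO hk3' hfo' hr' hr0') (cx_CO hk3 hg hc hc0)
      (by omega) (by rw [← cx_br, br_anti, hcomm', neg_zero, map_zero]))
    intro N
    obtain ⟨h, h5, h6, j, hj, h7⟩ := h4 N
    refine ⟨h, ?_, h6, j, hj, h7⟩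
    have h8 : C c * br f h = 0 := by
      rw [hf', br_add_left, br_C_mul_left, br_C_mul_left, h6] at h5
      simpa using h5
    rcases mul_eq_zero.1 h8 with h9 | h9
    · exact absurd ((C_eq_zero (σ := ℕ)).1 h9) hc0
    · exact h9
  · exact real_of_complex (main_C (cx_CO hk3 hf hr hr0) (cx_CO hm3 hg hc hc0) hkm
      (by rw [← cx_br, br_anti, hcomm, neg_zero, map_zero]))

end Pool.Agent.Helper96.FK
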