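import Pool.Agent.Helper96.FK.Asym
import Pool.Agent.Helper96.FK.Elim

/-!
# FK-21a: the relation at a point (proof in `Dirs.lean`)
-/

set_option autoImplicit false

open MvPolynomial

namespace Pool.Agent.Helper96.FK

/-- a prime factor vanishes where the polynomial vanishes -/
theorem relpt_factor {K : Type} [Field K] [Algebra ℂ K] (P : MvPolynomial (Fin 2) ℂ) (hP : P ≠ 0)
    (x y : K) (h : sb P x y = 0) : ∃ B, Prime B ∧ B ∣ P ∧ sb B x y = 0 := by
  obtain ⟨f, hf1, hf2⟩ := UniqueFactorizationMonoid.exists_prime_factors P hP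
  obtain ⟨u, hu⟩ := hf2
  have h1 : sb f.prod x y * sb (u : MvPolynomial (Fin 2) ℂ) x y = 0 := by
    have h2 : sb (f.prod * (u : MvPolynomial (Fin 2) ℂ)) x y =
        sb f.prod x y * sb (u : MvPolynomial (Fin 2) ℂ) x y := by
      unfold sb
      rw [map_mul]
    rw [← h2, hu]
    exact h
  have h3 : sb (u : MvPolynomial (Fin 2) ℂ) x y ≠ 0 := by
    have h4 : IsUnit (sb (u : MvPolynomial (Fin 2) ℂ) x y) := by
      unfold sb
      exact (Units.isUnit u).map (aeval ![x, y])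
    exact h4.ne_zero
  have h5 : sb f.prod x y = 0 := by
    rcases mul_eq_zero.1 h1 with h6 | h6
    · exact h6
    · exact absurd h6 h3
  have h7 : ∃ B ∈ f, sb B x y = 0 := by
    unfold sb at h5
    rw [map_multiset_prod, Multiset.prod_eq_zero_iff, Multiset.mem_map] at h5
    obtain ⟨B, hB1, hB2⟩ := h5
    exact ⟨B, hB1, hB2⟩
  obtain ⟨B, hB1, hB2⟩ := h7
  refine ⟨B, hf1 B hB1, ?_, hB2⟩
  have h8 : B ∣ f.prod := Multiset.dvd_prod hB1
  rw [← hu]
  exact Dvd.dvd.mul_right h8 _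

/-- substitution commutes with algebra homomorphisms -/
theorem relpt_map {S K : Type} [CommRing S] [Algebra ℂ S] [CommRing K] [Algebra ℂ K]
    (f : S →ₐ[ℂ] K) (P : MvPolynomial (Fin 2) ℂ) (a b : S) :
    f (sb P a b) = sb P (f a) (f b) := by
  unfold sb
  rw [← AlgHom.comp_apply]
  have h : f.comp (aeval ![a, b]) = (aeval ![f a, f b] : MvPolynomial (Fin 2) ℂ →ₐ[ℂ] K) := by
    ext i
    fin_cases i <;> simp
  rw [h]

/-- a polynomial without a common factor does not vanish -/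
theorem relpt_ne {K : Type} [Field K] [Algebra ℂ K] (V : ValuationSubring K) (hV : Over V)
    (B N : MvPolynomial (Fin 2) ℂ) (hB : Prime B) (hN : ¬ B ∣ N) (x y : K)
    (hxy : x ∉ V ∨ y ∉ V) (h1 : sb B x y = 0) : sb N x y ≠ 0 := by
  intro h2
  obtain ⟨α, β, h3, h4⟩ := elim B N hB hN x y h1 h2
  rcases hxy with h | h
  · apply h
    rw [h3]
    exact hV α
  · apply h
    rw [h4]
    exact hV β

theorem rel_point {p q : Polynomial ℂ} {Den N : MvPolynomial (Fin 2) ℂ} (hR : RData p q Den N)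
    {K : Type} [Field K] [Algebra ℂ K] (V : ValuationSubring K) (hV : Over V) (x y z : K)
    (hy : y ∉ V) (hxy : x + y ∉ V) (h1 : sb Den x y = 0) (h2 : sb Den (x + y) z = 0) :
    (y + z) * (x + z) * sb Den (x + z) y * sb Den (y + z) x = 0 := by
  by_cases hD : Den = 0
  · rw [hD]
    unfold sb
    rw [map_zero, map_zero, mul_zero]
  obtain ⟨B, hB1, hB2, hB3⟩ := relpt_factor Den hD x y h1
  obtain ⟨E, hE1, hE2, hE3⟩ := relpt_factor Den hD (x + y) z h2
  have hN1 : sb N x y ≠ 0 := relpt_ne V hV B N hB1 (hR.den_N B hB1 hB2) x y (Or.inr hy) hB3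
  have hN2 : sb N (x + y) z ≠ 0 :=
    relpt_ne V hV E N hE1 (hR.den_N E hE1 hE2) (x + y) z (Or.inl hxy) hE3
  have hs : x + y ≠ 0 := by
    intro h
    apply hxy
    rw [h]
    exact V.zero_mem
  have hX : ¬ E ∣ X 0 := by
    rintro ⟨Q, hQ⟩
    apply hs
    have h3 : sb (X 0 : MvPolynomial (Fin 2) ℂ) (x + y) z = x + y := by
      unfold sb
      simp
    have h4 : sb (E * Q) (x + y) z = sb E (x + y) z * sb Q (x + y) z := by
      unfold sb
      rw [map_mul]
    rw [← h3, hQ, h4, hE3, zero_mul]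
  obtain ⟨M, W, hW⟩ := hR.rel E hE1 hE2 hX
  have h5 := congrArg (aeval ![x, y, z] : MvPolynomial (Fin 3) ℂ →ₐ[ℂ] K) hW
  unfold Pi3 at h5
  simp only [map_add, map_mul, relpt_map, aeval_X, Matrix.cons_val_zero, Matrix.cons_val_one,
    Matrix.cons_val] at h5
  rw [h1, hE3] at h5
  have h6 : (x + y) * sb N (x + y) z * sb N x y ≠ 0 := mul_ne_zero (mul_ne_zero hs hN2) hN1
  have h7 : (x + y) * sb N (x + y) z * sb N x y *
      ((y + z) * (x + z) * sb Den (x + z) y * sb Den (y + z) x) = 0 := by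
    linear_combination h5
  rcases mul_eq_zero.1 h7 with h8 | h8
  · exact absurd h8 h6
  · exact h8

end Pool.Agent.Helper96.FK
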