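import Pool.Agent.Helper96.FK.Cub
import Pool.Agent.Helper96.FK.Fact

/-!
# FK-15a: the divisibility from the cubic obstruction (proof in `RelR.lean`)
-/

set_option autoImplicit false

open MvPolynomial

namespace Pool.Agent.Helper96.FK

private theorem relr0_sb_mul {R S : Type*} [CommRing R] [CommRing S] [Algebra R S]
    (P Q : MvPolynomial (Fin 2) R) (a b : S) : sb (P * Q) a b = sb P a b * sb Q a b := by
  unfold sb; rw [map_mul]

private theorem relr0_sb_add {R S : Type*} [CommRing R] [CommRing S] [Algebra R S]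
    (P Q : MvPolynomial (Fin 2) R) (a b : S) : sb (P + Q) a b = sb P a b + sb Q a b := by
  unfold sb; rw [map_add]

private theorem relr0_sb_C {R : Type*} [CommRing R] (r : R)
    (a b : MvPolynomial (Fin 3) R) : sb (C r : MvPolynomial (Fin 2) R) a b = C r := by
  unfold sb; rw [aeval_C]; rfl

private theorem relr0_sb_G2 {R : Type*} [CommRing R] (p : Polynomial R)
    (a b : MvPolynomial (Fin 3) R) :
    sb (G 2 p) a b = Polynomial.aeval a p + Polynomial.aeval b p - Polynomial.aeval (a + b) p := by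
  unfold sb G
  rw [Fin.sum_univ_two, Fin.sum_univ_two, map_sub, map_add, ← Polynomial.aeval_algHom_apply,
    ← Polynomial.aeval_algHom_apply, ← Polynomial.aeval_algHom_apply, map_add, aeval_X, aeval_X]
  rfl

private theorem relr0_G3 {R : Type*} [CommRing R] (p : Polynomial R) :
    G 3 p = Polynomial.aeval (X 0 : MvPolynomial (Fin 3) R) p + Polynomial.aeval (X 1) p +
      Polynomial.aeval (X 2) p - Polynomial.aeval (X 0 + X 1 + X 2) p := by
  unfold G
  rw [Fin.sum_univ_three, Fin.sum_univ_three]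

private theorem relr0_G3a {R : Type*} [CommRing R] (p : Polynomial R) :
    G 3 p = sb (G 2 p) (X 0 + X 1 : MvPolynomial (Fin 3) R) (X 2) +
      sb (G 2 p) (X 0 : MvPolynomial (Fin 3) R) (X 1) := by
  rw [relr0_sb_G2, relr0_sb_G2, relr0_G3]; ring

private theorem relr0_G3b {R : Type*} [CommRing R] (p : Polynomial R) :
    G 3 p = sb (G 2 p) (X 0 + X 2 : MvPolynomial (Fin 3) R) (X 1) +
      sb (G 2 p) (X 0 : MvPolynomial (Fin 3) R) (X 2) := by
  rw [relr0_sb_G2, relr0_sb_G2, relr0_G3,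
    show (X 0 + X 2 + X 1 : MvPolynomial (Fin 3) R) = X 0 + X 1 + X 2 by ring]; ring

private theorem relr0_G3c {R : Type*} [CommRing R] (p : Polynomial R) :
    G 3 p = sb (G 2 p) (X 1 + X 2 : MvPolynomial (Fin 3) R) (X 0) +
      sb (G 2 p) (X 1 : MvPolynomial (Fin 3) R) (X 2) := by
  rw [relr0_sb_G2, relr0_sb_G2, relr0_G3,
    show (X 1 + X 2 + X 0 : MvPolynomial (Fin 3) R) = X 0 + X 1 + X 2 by ring]; ring

private theorem relr0_cd_sb (P : MvPolynomial (Fin 2) L) (a b : MvPolynomial (Fin 3) L)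
    (ha : cd a = 0) (hb : cd b = 0) : cd (sb P a b) = sb (cd P) a b := by
  induction P using MvPolynomial.induction_on with
  | C r => rw [relr0_sb_C, cd_C, cd_C, relr0_sb_C]
  | add p q hp hq => rw [relr0_sb_add, map_add, hp, hq, map_add, relr0_sb_add]
  | mul_X p i hp =>
    have hX : ∃ u : MvPolynomial (Fin 3) L, sb (X i : MvPolynomial (Fin 2) L) a b = u ∧
        cd u = 0 := by
      refine ⟨![a, b] i, ?_, ?_⟩
      · unfold sb; rw [aeval_X]
      · revert i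
        rw [Fin.forall_fin_two]
        exact ⟨ha, hb⟩
    obtain ⟨u, hu, hu0⟩ := hX
    have h0 : sb (0 : MvPolynomial (Fin 2) L) a b = 0 := by unfold sb; rw [map_zero]
    rw [relr0_sb_mul, hu, cd_mul, hp, hu0, cd_mul, cd_X, relr0_sb_add, relr0_sb_mul,
      relr0_sb_mul, hu, h0]

private theorem relr0_emb_sb (P : MvPolynomial (Fin 2) ℂ) (a b : MvPolynomial (Fin 3) ℂ) :
    emb (sb P a b) = sb (emb P) (emb a) (emb b) := by
  induction P using MvPolynomial.induction_on with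
  | C r =>
    unfold sb
    rw [aeval_C]
    simp [emb]
  | add p q hp hq => rw [relr0_sb_add, map_add, hp, hq, map_add, relr0_sb_add]
  | mul_X p i hp =>
    rw [relr0_sb_mul, map_mul, hp, map_mul, relr0_sb_mul]
    congr 1
    unfold sb
    rw [aeval_X]
    have : (emb (X i : MvPolynomial (Fin 2) ℂ) : MvPolynomial (Fin 2) L) = X i := by
      simp [emb]
    rw [this, aeval_X]
    fin_cases i <;> simp

private theorem relr0_emb_X {σ : Type*} (i : σ) :
    (emb (X i : MvPolynomial σ ℂ) : MvPolynomial σ L) = X i := by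
  simp [emb]

private theorem relr0_emb_ne {σ : Type*} {P : MvPolynomial σ ℂ} (h : P ≠ 0) : emb P ≠ 0 := by
  intro h0
  apply h
  rw [← e0_emb P, h0, map_zero]

theorem rel_core {c : ℂ} {q : Polynomial ℂ} {p : Polynomial L} {F Gp : A L}
    (hd : Datum c q p F Gp) (b : MvPolynomial (Fin 2) L) (hb : b.IsSymmetric)
    (hbF : T 2 b = hc 2 F) (Den E : MvPolynomial (Fin 2) ℂ) (N : MvPolynomial (Fin 2) L)
    (h1 : G 2 q = Den * E) (h2 : b = emb E * N) :
    ∃ M : MvPolynomial (Fin 3) L,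
      emb (sb Den (X 0 + X 1 : MvPolynomial (Fin 3) ℂ) (X 2)) ∣
        emb (sb E (X 0 : MvPolynomial (Fin 3) ℂ) (X 1)) *
          (emb (sb Den (X 0 : MvPolynomial (Fin 3) ℂ) (X 1)) * M +
            Pi3 * emb (sb Den (X 0 + X 2 : MvPolynomial (Fin 3) ℂ) (X 1)) *
              emb (sb Den (X 1 + X 2 : MvPolynomial (Fin 3) ℂ) (X 0)) *
              sb N (X 0 + X 1 : MvPolynomial (Fin 3) L) (X 2) *
              sb N (X 0 : MvPolynomial (Fin 3) L) (X 1)) := by
  obtain ⟨g2, hg, hgG⟩ := T_surj_symm 2 (hc 2 Gp) (homogeneousComponent_isHomogeneous 2 Gp)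
  obtain ⟨al, hal, halG⟩ := T_surj_symm 3 (hc 3 Gp) (homogeneousComponent_isHomogeneous 3 Gp)
  obtain ⟨be, hbe, hbeF⟩ := T_surj_symm 3 (hc 3 F) (homogeneousComponent_isHomogeneous 3 F)
  have hq := quad_rel hd hb hg hbF hgG
  have hcub := cub_rel hd hb hg hbF hgG hal hbe halG hbeF
  have hG2 : G 2 q ≠ 0 := G_ne_zero 0 q (by have := hd.dq; omega)
  have hE : E ≠ 0 := by
    rintro rfl
    exact hG2 (by rw [h1, mul_zero])
  -- the reduced quadratic relation
  have hred : emb Den * g2 = G 2 p * N + C (Polynomial.C c) * cd N := by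
    apply mul_left_cancel₀ (relr0_emb_ne hE)
    have h3 : emb E * (emb Den * g2) = emb (G 2 q) * g2 := by rw [h1, map_mul]; ring
    rw [h3, hq, h2, cd_emb_mul]
    ring
  have hX : ∀ i : Fin 3, cd (X i : MvPolynomial (Fin 3) L) = 0 := fun i => cd_X i
  have hXX : ∀ i j : Fin 3, cd (X i + X j : MvPolynomial (Fin 3) L) = 0 := by
    intro i j; rw [map_add, hX, hX, add_zero]
  -- substitution into the reduced relation
  have hS1 : ∀ u v : MvPolynomial (Fin 3) L, cd u = 0 → cd v = 0 →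
      sb (emb Den) u v * sb g2 u v = sb (G 2 p) u v * sb N u v +
        C (Polynomial.C c) * cd (sb N u v) := by
    intro u v hu hv
    rw [← relr0_sb_mul, hred, relr0_sb_add, relr0_sb_mul, relr0_sb_mul, relr0_sb_C,
      relr0_cd_sb N u v hu hv]
  have hS2 : ∀ u v : MvPolynomial (Fin 3) L, cd u = 0 → cd v = 0 →
      sb (emb (G 2 q)) u v * sb g2 u v = sb (G 2 p) u v * sb b u v +
        C (Polynomial.C c) * cd (sb b u v) := by
    intro u v hu hv
    rw [← relr0_sb_mul, hq, relr0_sb_add, relr0_sb_mul, relr0_sb_mul, relr0_sb_C,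
      relr0_cd_sb b u v hu hv]
  have hbS : ∀ u v : MvPolynomial (Fin 3) L, sb b u v = sb (emb E) u v * sb N u v := by
    intro u v; rw [h2, relr0_sb_mul]
  have hqS : ∀ u v : MvPolynomial (Fin 3) L,
      sb (emb (G 2 q)) u v = sb (emb Den) u v * sb (emb E) u v := by
    intro u v; rw [h1, map_mul, relr0_sb_mul]
  have hGq : ∀ s : ℕ, emb (G s q) = G s (q.map Polynomial.C) := fun s => map_G _ s q
  -- abbreviations
  rw [relr0_emb_sb, relr0_emb_sb, relr0_emb_sb, relr0_emb_sb, relr0_emb_sb]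
  simp only [map_add, relr0_emb_X]
  have hP : ∀ u v : MvPolynomial (Fin 3) L, cd u = 0 → cd v = 0 → cd (sb (emb Den) u v) = 0 := by
    intro u v hu hv
    rw [relr0_cd_sb _ u v hu hv, (cd_eq_zero_iff _).2 ⟨Den, rfl⟩]
    unfold sb; rw [map_zero]
  have a1 := hS1 (X 0 + X 1) (X 2) (hXX 0 1) (hX 2)
  have a2 := hS1 (X 0 + X 2) (X 1) (hXX 0 2) (hX 1)
  have a3 := hS1 (X 1 + X 2) (X 0) (hXX 1 2) (hX 0)
  have c1 := hS2 (X 0) (X 1) (hX 0) (hX 1)
  have c2 := hS2 (X 0) (X 2) (hX 0) (hX 2)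
  have c3 := hS2 (X 1) (X 2) (hX 1) (hX 2)
  have p1 := relr0_G3a p
  have p2 := relr0_G3b p
  have p3 := relr0_G3c p
  have q1 : emb (G 3 q) = sb (emb (G 2 q)) (X 0 + X 1 : MvPolynomial (Fin 3) L) (X 2) +
      sb (emb (G 2 q)) (X 0 : MvPolynomial (Fin 3) L) (X 1) := by
    rw [hGq, hGq]; exact relr0_G3a _
  have q2 : emb (G 3 q) = sb (emb (G 2 q)) (X 0 + X 2 : MvPolynomial (Fin 3) L) (X 1) +
      sb (emb (G 2 q)) (X 0 : MvPolynomial (Fin 3) L) (X 2) := by
    rw [hGq, hGq]; exact relr0_G3b _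
  have q3 : emb (G 3 q) = sb (emb (G 2 q)) (X 1 + X 2 : MvPolynomial (Fin 3) L) (X 0) +
      sb (emb (G 2 q)) (X 1 : MvPolynomial (Fin 3) L) (X 2) := by
    rw [hGq, hGq]; exact relr0_G3c _
  have hJ : J g2 b =
      (sb g2 (X 0 + X 1 : MvPolynomial (Fin 3) L) (X 2) * sb b (X 0) (X 1) -
        sb b (X 0 + X 1) (X 2) * sb g2 (X 0) (X 1)) +
      (sb g2 (X 0 + X 2) (X 1) * sb b (X 0) (X 2) -
        sb b (X 0 + X 2) (X 1) * sb g2 (X 0) (X 2)) +
      (sb g2 (X 1 + X 2) (X 0) * sb b (X 1) (X 2) -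
        sb b (X 1 + X 2) (X 0) * sb g2 (X 1) (X 2)) := rfl
  have b1 := hbS (X 0 + X 1) (X 2)
  have b2 := hbS (X 0 + X 2) (X 1)
  have b3 := hbS (X 1 + X 2) (X 0)
  have e1 := hqS (X 0 + X 1) (X 2)
  have e2 := hqS (X 0 + X 2) (X 1)
  have e3 := hqS (X 1 + X 2) (X 0)
  have e12 := hqS (X 0) (X 1)
  have b12 := hbS (X 0) (X 1)
  have d1 := hP (X 0 + X 1) (X 2) (hXX 0 1) (hX 2)
  have d2 := hP (X 0 + X 2) (X 1) (hXX 0 2) (hX 1)
  have d3 := hP (X 1 + X 2) (X 0) (hXX 1 2) (hX 0)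
  set P1 := sb (emb Den) (X 0 + X 1 : MvPolynomial (Fin 3) L) (X 2) with hP1
  set P2 := sb (emb Den) (X 0 + X 2 : MvPolynomial (Fin 3) L) (X 1) with hP2
  set P3 := sb (emb Den) (X 1 + X 2 : MvPolynomial (Fin 3) L) (X 0) with hP3
  set N1 := sb N (X 0 + X 1 : MvPolynomial (Fin 3) L) (X 2) with hN1
  set N2 := sb N (X 0 + X 2 : MvPolynomial (Fin 3) L) (X 1) with hN2
  set N3 := sb N (X 1 + X 2 : MvPolynomial (Fin 3) L) (X 0) with hN3
  set B1 := sb b (X 0 + X 1 : MvPolynomial (Fin 3) L) (X 2) with hB1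
  set B2 := sb b (X 0 + X 2 : MvPolynomial (Fin 3) L) (X 1) with hB2
  set B3 := sb b (X 1 + X 2 : MvPolynomial (Fin 3) L) (X 0) with hB3
  set b' := sb b (X 0 : MvPolynomial (Fin 3) L) (X 1) with hb'
  set b'' := sb b (X 0 : MvPolynomial (Fin 3) L) (X 2) with hb''
  set b''' := sb b (X 1 : MvPolynomial (Fin 3) L) (X 2) with hb'''
  set g1 := sb g2 (X 0 + X 1 : MvPolynomial (Fin 3) L) (X 2) with hg1
  set g2' := sb g2 (X 0 + X 2 : MvPolynomial (Fin 3) L) (X 1) with hg2'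
  set g3 := sb g2 (X 1 + X 2 : MvPolynomial (Fin 3) L) (X 0) with hg3
  set g' := sb g2 (X 0 : MvPolynomial (Fin 3) L) (X 1) with hg'
  set g'' := sb g2 (X 0 : MvPolynomial (Fin 3) L) (X 2) with hg''
  set g''' := sb g2 (X 1 : MvPolynomial (Fin 3) L) (X 2) with hg'''
  set R2 := 3 * (P1 * P2 * P3) * be - 2 * (P2 * P3 * (N1 * b') + P1 * P3 * (N2 * b'') +
    P1 * P2 * (N3 * b''')) with hR2
  set R1 := 3 * (P1 * P2 * P3) * al - 2 * (P2 * P3 * (N1 * g') + P1 * P3 * (N2 * g'') +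
    P1 * P2 * (N3 * g''')) with hR1
  have hcd0 : cd (3 : MvPolynomial (Fin 3) L) = 0 := by
    have : (3 : MvPolynomial (Fin 3) L) = C 3 := (map_ofNat C 3).symm
    rw [this, cd_C, Polynomial.derivative_ofNat, map_zero]
  have hcd2 : cd (2 : MvPolynomial (Fin 3) L) = 0 := by
    have : (2 : MvPolynomial (Fin 3) L) = C 2 := (map_ofNat C 2).symm
    rw [this, cd_C, Polynomial.derivative_ofNat, map_zero]
  have hcdR2 : cd R2 = 3 * (P1 * P2 * P3) * cd be - 2 * (P2 * P3 * (N1 * cd b' + b' * cd N1) +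
      P1 * P3 * (N2 * cd b'' + b'' * cd N2) + P1 * P2 * (N3 * cd b''' + b''' * cd N3)) := by
    rw [hR2, map_sub, cd_mul, cd_mul, cd_mul, cd_mul, cd_mul, hcd0, hcd2, d1, d2, d3, map_add,
      map_add, cd_mul, cd_mul, cd_mul, cd_mul, cd_mul, cd_mul, cd_mul, cd_mul, cd_mul, d1, d2, d3]
    ring
  -- the three pairings
  have k1 : P1 * (g1 * b' - B1 * g') = G 3 p * (N1 * b') +
      C (Polynomial.C c) * (N1 * cd b' + b' * cd N1) - emb (G 3 q) * (N1 * g') := by
    rw [p1, q1, e1, b1]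
    linear_combination b' * a1 + N1 * c1
  have k2 : P2 * (g2' * b'' - B2 * g'') = G 3 p * (N2 * b'') +
      C (Polynomial.C c) * (N2 * cd b'' + b'' * cd N2) - emb (G 3 q) * (N2 * g'') := by
    rw [p2, q2, e2, b2]
    linear_combination b'' * a2 + N2 * c2
  have k3 : P3 * (g3 * b''' - B3 * g''') = G 3 p * (N3 * b''') +
      C (Polynomial.C c) * (N3 * cd b''' + b''' * cd N3) - emb (G 3 q) * (N3 * g''') := by
    rw [p3, q3, e3, b3]
    linear_combination b''' * a3 + N3 * c3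
  have hmain : emb (G 3 q) * R1 = G 3 p * R2 + C (Polynomial.C c) * cd R2 := by
    rw [hcdR2, hR1, hR2]
    rw [hJ] at hcub
    linear_combination (P1 * P2 * P3) * hcub - 2 * (P2 * P3) * k1 - 2 * (P1 * P3) * k2 -
      2 * (P1 * P2) * k3
  obtain ⟨M, hM⟩ := step3' hd.toDegs c R2 R1 hmain
  have hhalf : (C (Polynomial.C (2⁻¹ : ℂ)) : MvPolynomial (Fin 3) L) * 2 = 1 := by
    have : (2 : MvPolynomial (Fin 3) L) = C (Polynomial.C 2) := by
      rw [map_ofNat Polynomial.C 2, map_ofNat C 2]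
    rw [this, ← map_mul, ← map_mul, inv_mul_cancel₀ (by norm_num), map_one, map_one]
  refine ⟨C (Polynomial.C (2⁻¹ : ℂ)) * M, ?_⟩
  rw [q1, e1, e12] at hM
  refine ⟨C (Polynomial.C (2⁻¹ : ℂ)) * (Pi3 * (3 * (P2 * P3) * be - 2 * (P3 * (N2 * b'') +
    P2 * (N3 * b'''))) - sb (emb E) (X 0 + X 1) (X 2) * M), ?_⟩
  rw [hR2] at hM
  linear_combination (-C (Polynomial.C (2⁻¹ : ℂ))) * hM +
    (-Pi3 * P2 * P3 * N1 * sb (emb E) (X 0) (X 1) * sb N (X 0) (X 1)) * hhalf -
    (2 * C (Polynomial.C (2⁻¹ : ℂ)) * Pi3 * P2 * P3 * N1) * b12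

end Pool.Agent.Helper96.FK
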