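import Pool.Agent.Helper96.FK.Cg

/-!
# FK-16b: lifting of roots (proof in `VF.lean`)
-/

set_option autoImplicit false

open MvPolynomial

namespace Pool.Agent.Helper96.FK

/-- a product of `X - y` with all `y` of valuation at least one has its largest coefficient at
the constant term -/
private theorem rootlift_prod {K : Type} [Field K] (V : ValuationSubring K)
    (s : Multiset K) (hs : ∀ y ∈ s, 1 ≤ V.valuation y) (j : ℕ) :
    V.valuation (((s.map (fun y => Polynomial.X - Polynomial.C y)).prod).coeff j) ≤
      V.valuation (((s.map (fun y => Polynomial.X - Polynomial.C y)).prod).coeff 0) := by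
  induction s using Multiset.induction_on generalizing j with
  | empty =>
    simp only [Multiset.map_zero, Multiset.prod_zero, Polynomial.coeff_one]
    by_cases hj : j = 0
    · simp [hj]
    · simp [hj]
  | cons y s ih =>
    have hs' : ∀ z ∈ s, 1 ≤ V.valuation z := fun z hz => hs z (Multiset.mem_cons_of_mem hz)
    have hy : 1 ≤ V.valuation y := hs y (Multiset.mem_cons_self y s)
    have ih' := ih hs'
    simp only [Multiset.map_cons, Multiset.prod_cons]
    set Q := (s.map (fun y => Polynomial.X - Polynomial.C y)).prod with hQ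
    have h0 : ((Polynomial.X - Polynomial.C y) * Q).coeff 0 = -(y * Q.coeff 0) := by
      rw [sub_mul, Polynomial.coeff_sub, Polynomial.coeff_X_mul_zero, Polynomial.coeff_C_mul,
        zero_sub]
    rw [h0, Valuation.map_neg, map_mul]
    have hbase : V.valuation (Q.coeff 0) ≤ V.valuation y * V.valuation (Q.coeff 0) := by
      calc V.valuation (Q.coeff 0) = 1 * V.valuation (Q.coeff 0) := (one_mul _).symm
        _ ≤ V.valuation y * V.valuation (Q.coeff 0) := mul_le_mul_left hy _
    cases j with
    | zero => rw [h0, Valuation.map_neg, map_mul]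
    | succ j =>
      rw [sub_mul, Polynomial.coeff_sub, Polynomial.coeff_X_mul, Polynomial.coeff_C_mul]
      refine le_trans (Valuation.map_sub _ _ _) (max_le ?_ ?_)
      · exact le_trans (ih' j) hbase
      · rw [map_mul]
        exact mul_le_mul_right (ih' (j + 1)) _

/-- coefficients of `taylor` of a polynomial with small coefficients are small -/
private theorem rootlift_taylor {K : Type} [Field K] (V : ValuationSubring K)
    (a : K) (ha : a ∈ V) (h : Polynomial K) (hh : ∀ i, V.valuation (h.coeff i) < 1) (j : ℕ) :
    V.valuation ((h.comp (Polynomial.X + Polynomial.C a)).coeff j) < 1 := by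
  classical
  have hpow : ∀ i j : ℕ, V.valuation (((Polynomial.X + Polynomial.C a : Polynomial K) ^ i).coeff j)
      ≤ 1 := by
    intro i j
    have e : ((Polynomial.X + Polynomial.C a : Polynomial K) ^ i) =
        ((Polynomial.X + Polynomial.C (⟨a, ha⟩ : V)) ^ i : Polynomial V).map (algebraMap V K) := by
      rw [Polynomial.map_pow, Polynomial.map_add, Polynomial.map_X, Polynomial.map_C]
      rfl
    rw [e, Polynomial.coeff_map]
    exact V.valuation_le_one _
  rw [Polynomial.comp_eq_sum_left, Polynomial.sum_def, Polynomial.finsetSum_coeff]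
  refine Valuation.map_sum_lt _ one_ne_zero (fun i _ => ?_)
  rw [Polynomial.coeff_C_mul, map_mul]
  calc V.valuation (h.coeff i) * V.valuation (((Polynomial.X + Polynomial.C a) ^ i).coeff j)
      ≤ V.valuation (h.coeff i) * 1 := mul_le_mul_right (hpow i j) _
    _ < 1 := by rw [mul_one]; exact hh i

theorem root_lift {K : Type} [Field K] [Algebra ℂ K] [IsAlgClosed K] (V : ValuationSubring K)
    (hV : Over V) (f : Polynomial K) (f0 : Polynomial ℂ)
    (hf : ∀ i, V.valuation (f.coeff i - algebraMap ℂ K (f0.coeff i)) < 1) (hf0 : f0 ≠ 0)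
    (α : ℂ) (hα : f0.eval α = 0) : ∃ x : K, f.eval x = 0 ∧ Cg V x α := by
  classical
  by_contra hno
  push Not at hno
  set a : K := algebraMap ℂ K α with ha
  set g : Polynomial K := f.comp (Polynomial.X + Polynomial.C a) with hg
  set g0 : Polynomial ℂ := f0.comp (Polynomial.X + Polynomial.C α) with hg0
  have hconst : ∀ z : ℂ, z ≠ 0 → V.valuation (algebraMap ℂ K z) = 1 := by
    intro z hz
    have h1 : V.valuation (algebraMap ℂ K z) ≤ 1 := (V.valuation_le_one_iff _).2 (hV z)
    have h2 : V.valuation (algebraMap ℂ K z⁻¹) ≤ 1 := (V.valuation_le_one_iff _).2 (hV z⁻¹)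
    have h3 : V.valuation (algebraMap ℂ K z) * V.valuation (algebraMap ℂ K z⁻¹) = 1 := by
      rw [← map_mul, ← map_mul, mul_inv_cancel₀ hz, map_one, map_one]
    refine le_antisymm h1 ?_
    calc (1 : V.ValueGroup) = V.valuation (algebraMap ℂ K z) * V.valuation (algebraMap ℂ K z⁻¹) :=
          h3.symm
      _ ≤ V.valuation (algebraMap ℂ K z) * 1 := mul_le_mul_right h2 _
      _ = V.valuation (algebraMap ℂ K z) := mul_one _
  have hcong : ∀ j, V.valuation (g.coeff j - algebraMap ℂ K (g0.coeff j)) < 1 := by
    intro j
    have e : g.coeff j - algebraMap ℂ K (g0.coeff j) =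
        ((f - f0.map (algebraMap ℂ K)).comp (Polynomial.X + Polynomial.C a)).coeff j := by
      rw [Polynomial.sub_comp, Polynomial.coeff_sub, ← Polynomial.coeff_map, hg0,
        Polynomial.map_comp, Polynomial.map_add, Polynomial.map_X, Polynomial.map_C]
    rw [e]
    refine rootlift_taylor V a (hV α) _ (fun i => ?_) j
    rw [Polynomial.coeff_sub, Polynomial.coeff_map]
    exact hf i
  have hg0ne : g0 ≠ 0 := by
    intro h
    apply hf0
    have : (g0.comp (Polynomial.X - Polynomial.C α)) = f0 := by
      rw [hg0, Polynomial.comp_assoc]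
      simp
    rw [← this, h, Polynomial.zero_comp]
  obtain ⟨i, hi⟩ : ∃ i, g0.coeff i ≠ 0 := by
    by_contra hcon
    push Not at hcon
    exact hg0ne (Polynomial.ext (fun i => by rw [hcon i, Polynomial.coeff_zero]))
  have hgi : V.valuation (g.coeff i) = 1 := by
    have h1 := hconst _ hi
    have h2 := hcong i
    have h3 : g.coeff i = (g.coeff i - algebraMap ℂ K (g0.coeff i)) +
        algebraMap ℂ K (g0.coeff i) := by ring
    rw [h3]
    rw [Valuation.map_add_eq_of_lt_right _ (by rw [h1]; exact h2)]
    exact h1
  have hgne : g ≠ 0 := by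
    intro h
    rw [h, Polynomial.coeff_zero, map_zero] at hgi
    exact zero_ne_one hgi
  have hzero : V.valuation (g.coeff 0) < 1 := by
    have h1 := hcong 0
    have h2 : g0.coeff 0 = 0 := by
      rw [Polynomial.coeff_zero_eq_eval_zero, hg0, Polynomial.eval_comp]
      simpa using hα
    rwa [h2, map_zero, sub_zero] at h1
  have hsplit : g.Splits := IsAlgClosed.splits g
  have hprod := hsplit.eq_prod_roots
  have hroots : ∀ y ∈ g.roots, 1 ≤ V.valuation y := by
    intro y hy
    have hy0 : g.eval y = 0 := (Polynomial.mem_roots hgne).1 hy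
    rw [hg, Polynomial.eval_comp] at hy0
    simp only [Polynomial.eval_add, Polynomial.eval_X, Polynomial.eval_C] at hy0
    have h1 := hno (y + a) hy0
    unfold Cg at h1
    rw [← ha, add_sub_cancel_right] at h1
    exact not_lt.1 h1
  have hfin := rootlift_prod V g.roots hroots i
  have key : V.valuation (g.coeff i) ≤ V.valuation (g.coeff 0) := by
    rw [hprod, Polynomial.coeff_C_mul, Polynomial.coeff_C_mul, map_mul, map_mul]
    exact mul_le_mul_right hfin _
  rw [hgi] at key
  exact absurd hzero (not_lt.2 key)

end Pool.Agent.Helper96.FK
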