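import Pool.Agent.Helper96.FK.TMap2

/-!
# FK-30: translations of `u_0` and restriction to constants

`sc f = f(a,0,0,...)` as a polynomial in `a`; `sh a` substitutes `u_0 + a` for `u_0`;
`shL` does the same with the generic constant `a ∈ L = ℂ[a]`.
-/

set_option autoImplicit false

open MvPolynomial

namespace Pool.Agent.Helper96.FK

/-- restriction to constants `u_0 = a`, `u_i = 0` -/
noncomputable def sc : A ℂ →ₐ[ℂ] Polynomial ℂ :=
  aeval (fun i : ℕ => if i = 0 then Polynomial.X else 0)

/-- translation by a complex number -/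
noncomputable def sh (a : ℂ) : A ℂ →ₐ[ℂ] A ℂ :=
  aeval (fun i : ℕ => if i = 0 then X 0 + C a else X i)

/-- translation by the generic constant -/
noncomputable def shL : A ℂ →+* A L :=
  eval₂Hom (C.comp Polynomial.C) (fun i : ℕ => if i = 0 then X 0 + C Polynomial.X else X i)

@[simp] theorem sc_X0 : sc (X 0) = Polynomial.X := by
  simp [sc]

@[simp] theorem sc_Xs (i : ℕ) : sc (X (i + 1)) = 0 := by
  simp [sc]

@[simp] theorem sc_C (z : ℂ) : sc (C z) = Polynomial.C z := by
  unfold sc
  rw [aeval_C]
  rfl

@[simp] theorem sh_X0 (a : ℂ) : sh a (X 0) = X 0 + C a := by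
  simp [sh]

@[simp] theorem sh_Xs (a : ℂ) (i : ℕ) : sh a (X (i + 1)) = X (i + 1) := by
  simp [sh]

theorem sh_C (a z : ℂ) : sh a (C z) = C z := by
  unfold sh
  rw [aeval_C]
  rfl

@[simp] theorem shL_X0 : shL (X 0) = X 0 + C Polynomial.X := by
  simp [shL]

@[simp] theorem shL_Xs (i : ℕ) : shL (X (i + 1)) = X (i + 1) := by
  simp [shL]

theorem shL_C (z : ℂ) : shL (C z) = C (Polynomial.C z) := by
  unfold shL
  rw [eval₂Hom_C]
  rfl

/-- `sc` kills total derivatives -/
theorem sc_D (F : A ℂ) : sc (D F) = 0 := by
  induction F using MvPolynomial.induction_on with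
  | C z => rw [D_C, map_zero]
  | add P Q hP hQ => rw [map_add, map_add, hP, hQ, add_zero]
  | mul_X P i hP =>
    rw [D_mul, D_X, map_add, map_mul, map_mul, sc_Xs, hP, mul_zero, mul_zero, add_zero]

theorem sc_ev (p F : A ℂ) : sc (ev p F) = Polynomial.derivative (sc F) * sc p := by
  induction F using MvPolynomial.induction_on with
  | C z => rw [ev_C, map_zero, sc_C, Polynomial.derivative_C, zero_mul]
  | add P Q hP hQ => rw [map_add, map_add, hP, hQ, map_add, Polynomial.derivative_add, add_mul]
  | mul_X P i hP =>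
    rw [ev_mul, ev_X, map_add, map_mul, map_mul, hP, map_mul, Polynomial.derivative_mul]
    cases i with
    | zero =>
      rw [sc_X0, Polynomial.derivative_X]
      simp only [Function.iterate_zero, id]
      ring
    | succ i =>
      rw [iter_succ, sc_D, sc_Xs, Polynomial.derivative_zero]
      ring

/-- apply `sc` to `ev F G = ev G F`; `sc (D^i F) = 0` for `i ≥ 1`, `sc (d 0 F) = (sc F)'` -/
theorem sc_br {F G : A ℂ} (h : br F G = 0) :
    Polynomial.derivative (sc G) * sc F = Polynomial.derivative (sc F) * sc G := by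
  have h1 := congrArg sc h
  unfold br at h1
  rw [map_sub, sc_ev, sc_ev, map_zero, sub_eq_zero] at h1
  exact h1

theorem sc_d0 (F : A ℂ) : sc (d 0 F) = Polynomial.derivative (sc F) := by
  have h := sc_ev 1 F
  rw [ev_one_left, map_one, mul_one] at h
  exact h

theorem sc_of_hc0 (F : A ℂ) : hc 0 F = C ((sc F).eval 0) := by
  rw [homogeneousComponent_zero]
  congr 1
  have h : (constantCoeff : A ℂ →+* ℂ) = ((Polynomial.evalRingHom 0).comp
      (sc : A ℂ →ₐ[ℂ] Polynomial ℂ).toRingHom) := by
    apply ringHom_ext
    · intro r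
      simp
    · intro i
      cases i with
      | zero => simp
      | succ i => simp
  have h2 := congrArg (fun f : A ℂ →+* ℂ => f F) h
  simp only [RingHom.coe_comp, Function.comp_apply, Polynomial.coe_evalRingHom] at h2
  rw [constantCoeff_eq] at h2
  exact h2

theorem sh_D (a : ℂ) (F : A ℂ) : sh a (D F) = D (sh a F) := by
  induction F using MvPolynomial.induction_on with
  | C z => rw [D_C, map_zero, sh_C, D_C]
  | add P Q hP hQ => rw [map_add, map_add, hP, hQ, map_add, map_add]
  | mul_X P i hP =>
    rw [D_mul, D_X, map_add, map_mul, map_mul, hP, map_mul, D_mul]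
    cases i with
    | zero => rw [sh_X0, map_add, D_X, D_C, add_zero, sh_Xs]
    | succ i => rw [sh_Xs, sh_Xs, D_X]

theorem sh_iter (a : ℂ) (n : ℕ) (F : A ℂ) : sh a ((⇑D)^[n] F) = (⇑D)^[n] (sh a F) := by
  induction n with
  | zero => rfl
  | succ n ih => rw [iter_succ, sh_D, ih, iter_succ]

theorem sh_ev (a : ℂ) (p F : A ℂ) : sh a (ev p F) = ev (sh a p) (sh a F) := by
  induction F using MvPolynomial.induction_on with
  | C z => rw [ev_C, map_zero, sh_C, ev_C]
  | add P Q hP hQ => rw [map_add, map_add, hP, hQ, map_add, map_add]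
  | mul_X P i hP =>
    rw [ev_mul, ev_X, map_add, map_mul, map_mul, hP, map_mul, ev_mul]
    cases i with
    | zero =>
      rw [sh_X0, map_add, ev_X, ev_C, add_zero, sh_iter]
    | succ i => rw [sh_Xs, ev_X, sh_iter]

theorem sh_br (a : ℂ) (F G : A ℂ) : sh a (br F G) = br (sh a F) (sh a G) := by
  unfold br
  rw [map_sub, sh_ev, sh_ev]

theorem sh_d (a : ℂ) (i : ℕ) (F : A ℂ) : sh a (d i F) = d i (sh a F) := by
  induction F using MvPolynomial.induction_on with
  | C z => rw [sh_C]; simp
  | add P Q hP hQ => rw [map_add, map_add, hP, hQ, map_add, map_add]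
  | mul_X P j hP =>
    rw [d_mul, map_add, map_mul, map_mul, hP, map_mul, d_mul]
    have h : sh a (d i (X j)) = d i (sh a (X j)) := by
      cases j with
      | zero =>
        rw [sh_X0, map_add, show d i (C a : A ℂ) = 0 from pderiv_C, add_zero]
        by_cases hi : i = 0
        · subst hi
          rw [pderiv_X_self, map_one]
        · rw [pderiv_X_of_ne (Ne.symm hi), map_zero]
      | succ j =>
        rw [sh_Xs]
        by_cases hi : i = j + 1
        · subst hi
          rw [pderiv_X_self, map_one]
        · rw [pderiv_X_of_ne (Ne.symm hi), map_zero]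
    rw [h]

theorem sh_sh (a : ℂ) (F : A ℂ) : sh (-a) (sh a F) = F := by
  have h : (sh (-a)).comp (sh a) = AlgHom.id ℂ (A ℂ) := by
    apply algHom_ext
    intro i
    cases i with
    | zero =>
      rw [AlgHom.comp_apply, sh_X0, map_add, sh_X0, sh_C, C_neg]
      simp
    | succ i =>
      rw [AlgHom.comp_apply, sh_Xs, sh_Xs]
      rfl
  exact congrArg (fun f : A ℂ →ₐ[ℂ] A ℂ => f F) h

theorem sc_sh (a : ℂ) (F : A ℂ) : sc (sh a F) = (sc F).comp (Polynomial.X + Polynomial.C a) := by
  have h : sc.comp (sh a) = (Polynomial.aeval (Polynomial.X + Polynomial.C a) :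
      Polynomial ℂ →ₐ[ℂ] Polynomial ℂ).comp sc := by
    apply algHom_ext
    intro i
    cases i with
    | zero => simp
    | succ i => simp
  have h2 := congrArg (fun f : A ℂ →ₐ[ℂ] Polynomial ℂ => f F) h
  simp only [AlgHom.comp_apply] at h2
  rw [h2]
  rfl

theorem shL_D (F : A ℂ) : shL (D F) = D (shL F) := by
  induction F using MvPolynomial.induction_on with
  | C z => rw [D_C, map_zero, shL_C, D_C]
  | add P Q hP hQ => rw [map_add, map_add, hP, hQ, map_add, map_add]
  | mul_X P i hP =>
    rw [D_mul, D_X, map_add, map_mul, map_mul, hP, map_mul, D_mul]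
    cases i with
    | zero => rw [shL_X0, map_add, D_X, D_C, add_zero, shL_Xs]
    | succ i => rw [shL_Xs, shL_Xs, D_X]

theorem shL_iter (n : ℕ) (F : A ℂ) : shL ((⇑D)^[n] F) = (⇑D)^[n] (shL F) := by
  induction n with
  | zero => rfl
  | succ n ih => rw [iter_succ, shL_D, ih, iter_succ]

theorem shL_ev (p F : A ℂ) : shL (ev p F) = ev (shL p) (shL F) := by
  induction F using MvPolynomial.induction_on with
  | C z => rw [ev_C, map_zero, shL_C, ev_C]
  | add P Q hP hQ => rw [map_add, map_add, hP, hQ, map_add, map_add]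
  | mul_X P i hP =>
    rw [ev_mul, ev_X, map_add, map_mul, map_mul, hP, map_mul, ev_mul]
    cases i with
    | zero =>
      rw [shL_X0, map_add, ev_X, ev_C, add_zero, shL_iter]
    | succ i => rw [shL_Xs, ev_X, shL_iter]

theorem shL_br (F G : A ℂ) : shL (br F G) = br (shL F) (shL G) := by
  unfold br
  rw [map_sub, shL_ev, shL_ev]

theorem shL_d (i : ℕ) (F : A ℂ) : shL (d i F) = d i (shL F) := by
  induction F using MvPolynomial.induction_on with
  | C z => rw [shL_C]; simp
  | add P Q hP hQ => rw [map_add, map_add, hP, hQ, map_add, map_add]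
  | mul_X P j hP =>
    rw [d_mul, map_add, map_mul, map_mul, hP, map_mul, d_mul]
    have h : shL (d i (X j)) = d i (shL (X j)) := by
      cases j with
      | zero =>
        rw [shL_X0, map_add, show d i (C Polynomial.X : A L) = 0 from pderiv_C, add_zero]
        by_cases hi : i = 0
        · subst hi
          rw [pderiv_X_self, map_one, pderiv_X_self]
        · rw [pderiv_X_of_ne (Ne.symm hi), map_zero, pderiv_X_of_ne (Ne.symm hi)]
      | succ j =>
        rw [shL_Xs]
        by_cases hi : i = j + 1
        · subst hi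
          rw [pderiv_X_self, map_one, pderiv_X_self]
        · rw [pderiv_X_of_ne (Ne.symm hi), map_zero, pderiv_X_of_ne (Ne.symm hi)]
    rw [h]

theorem cd_shL (F : A ℂ) : cd (shL F) = d 0 (shL F) := by
  induction F using MvPolynomial.induction_on with
  | C z => rw [shL_C, cd_C]; simp
  | add P Q hP hQ => rw [map_add, map_add, hP, hQ, map_add]
  | mul_X P j hP =>
    rw [map_mul, cd_mul, d_mul, hP]
    have h : cd (shL (X j)) = d 0 (shL (X j)) := by
      cases j with
      | zero =>
        rw [shL_X0, map_add, map_add, show d 0 (C Polynomial.X : A L) = 0 from pderiv_C, cd_X,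
          cd_C, pderiv_X_self, Polynomial.derivative_X, C_1]
        ring
      | succ j =>
        rw [shL_Xs, cd_X, pderiv_X_of_ne (by omega)]
    rw [h]

theorem e0_shL (F : A ℂ) : e0 (shL F) = F := by
  have h : (e0 : A L →+* A ℂ).comp shL = RingHom.id (A ℂ) := by
    apply ringHom_ext
    · intro r
      rw [RingHom.comp_apply, shL_C]
      unfold e0
      rw [map_C]
      simp
    · intro i
      cases i with
      | zero =>
        rw [RingHom.comp_apply, shL_X0]
        unfold e0
        rw [map_add, map_X, map_C]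
        simp
      | succ i =>
        rw [RingHom.comp_apply, shL_Xs]
        unfold e0
        rw [map_X]
        simp
  exact congrArg (fun f : A ℂ →+* A ℂ => f F) h

theorem hc0_shL (F : A ℂ) : hc 0 (shL F) = C (sc F) := by
  rw [homogeneousComponent_zero]
  congr 1
  have h : (constantCoeff : A L →+* L).comp shL = (sc : A ℂ →ₐ[ℂ] Polynomial ℂ).toRingHom := by
    apply ringHom_ext
    · intro r
      rw [RingHom.comp_apply, shL_C]
      simp
    · intro i
      cases i with
      | zero =>
        rw [RingHom.comp_apply, shL_X0]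
        simp
      | succ i =>
        rw [RingHom.comp_apply, shL_Xs]
        simp
  have h2 := congrArg (fun f : A ℂ →+* L => f F) h
  exact h2

end Pool.Agent.Helper96.FK
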