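import Pool.Agent.Helper96.FK.HCop
import Pool.Agent.Helper96.FK.PDiv
import Pool.Agent.Helper96.FK.TMap2
import Pool.Agent.Helper96.FK.Irr
import Pool.Agent.Helper96.FK.GDvd
import Pool.Agent.Helper96.FK.Odd3
import Pool.Agent.Helper96.FK.NDvd

/-!
# FK-10: the division steps

`p0 = p|_{a=0}`. `e0 (G s p) = G s p0` and `emb (G s q) = G s (q.map C)` by `map_G`.
`s ≥ 4`: `G s q` and `G s p0` are irreducible and do not divide each other: `pdiv`.
`s = 3`: if `q` is not odd, `G 3 q` is irreducible and does not divide `G 3 p0` (`G_not_dvd` or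
`not_dvd_odd`). If `q` is odd and `p0` is not, `G 3 p0` is irreducible and does not divide `G 3 q`;
so no prime factor of `G 3 q` divides `G 3 p0`. If both are odd, `G 3 q = Pi3 * Hq`, and prime
factors of `Hq` divide neither `Pi3` nor `Hp` : so `emb Hq ∣ P_F` by `pdiv`.
-/

set_option autoImplicit false

open MvPolynomial

namespace Pool.Agent.Helper96.FK

private theorem step_e0_G (s : ℕ) (p : Polynomial L) : e0 (G s p) = G s (p0 p) := by
  unfold e0
  rw [map_G]

private theorem step_emb_ne {σ : Type*} {B : MvPolynomial σ ℂ} (hB : B ≠ 0) : emb B ≠ 0 := by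
  intro h0
  apply hB
  rw [← e0_emb B, h0, map_zero]

private theorem step_emb_Pi : emb (Pi3 : MvPolynomial (Fin 3) ℂ) = Pi3 := by
  unfold emb Pi3
  simp only [map_mul, map_add, map_X]

/-- two irreducible symbols of different degrees have no common prime factor -/
private theorem step_irr (n : ℕ) {q p : Polynomial ℂ} (hq : 2 ≤ q.natDegree)
    (hp : 2 ≤ p.natDegree) (hne : q.natDegree ≠ p.natDegree)
    (hiq : Irreducible (G (n + 3) q)) (hip : Irreducible (G (n + 3) p))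
    (B : MvPolynomial (Fin (n + 3)) ℂ) (hB : Prime B) (hBq : B ∣ G (n + 3) q) :
    ¬ B ∣ G (n + 3) p := by
  intro hBp
  have h1 : Associated B (G (n + 3) q) := hB.irreducible.associated_of_dvd hiq hBq
  exact G_not_dvd n p q hp hq hne hip hiq (h1.symm.dvd.trans hBp)

/-- the three variable case, not both odd: no common prime factor -/
private theorem step_no3 {q p : Polynomial ℂ} (hq : 3 ≤ q.natDegree)
    (hp : 3 ≤ p.natDegree) (hne : q.natDegree ≠ p.natDegree) (ho : ¬ (OddP q ∧ OddP p))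
    (B : MvPolynomial (Fin 3) ℂ) (hB : Prime B) (hBq : B ∣ G 3 q) : ¬ B ∣ G 3 p := by
  intro hBp
  by_cases h1 : OddP q
  · have h2 : ¬ OddP p := fun h2 => ho ⟨h1, h2⟩
    have hip : Irreducible (G 3 p) := irr_G3 p (by omega) h2
    have h3 : Associated B (G 3 p) := hB.irreducible.associated_of_dvd hip hBp
    exact not_dvd_odd p q h1 h2 hq hp (h3.symm.dvd.trans hBq)
  · have hiq : Irreducible (G 3 q) := irr_G3 q (by omega) h1
    have h3 : Associated B (G 3 q) := hB.irreducible.associated_of_dvd hiq hBq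
    by_cases h2 : OddP p
    · exact not_dvd_odd q p h2 h1 hp hq (h3.symm.dvd.trans hBp)
    · exact step_irr 0 (by omega) (by omega) hne hiq (irr_G3 p (by omega) h2) B hB hBq hBp

/-- both odd: no common prime factor of the cofactor and `G 3 p` -/
private theorem step_odd {q p : Polynomial ℂ} (hq : 3 ≤ q.natDegree)
    (hp : 3 ≤ p.natDegree) (hne : q.natDegree ≠ p.natDegree) (hoq : OddP q) (hop : OddP p)
    (Hq : MvPolynomial (Fin 3) ℂ) (hHq : G 3 q = Pi3 * Hq)
    (B : MvPolynomial (Fin 3) ℂ) (hB : Prime B) (hBq : B ∣ Hq) : ¬ B ∣ G 3 p := by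
  obtain ⟨Hp, hHp⟩ := exists_H p hop
  intro hBp
  rw [hHp] at hBp
  rcases hB.dvd_or_dvd hBp with h | h
  · exact not_dvd_H_of_dvd_Pi q hoq hq Hq hHq B hB h hBq
  · exact H_coprime p q hop hoq hp hq hne Hp Hq hHp hHq B hB hBq h

private theorem step_G3_ne {q : Polynomial ℂ} (hq : 3 ≤ q.natDegree) : G 3 q ≠ 0 :=
  G_ne_zero 1 q (by omega)

private theorem step_H_ne {q : Polynomial ℂ} (hq : 3 ≤ q.natDegree)
    {Hq : MvPolynomial (Fin 3) ℂ} (hHq : G 3 q = Pi3 * Hq) :
    (Pi3 : MvPolynomial (Fin 3) ℂ) ≠ 0 ∧ Hq ≠ 0 := by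
  have h := step_G3_ne hq
  rw [hHq] at h
  exact mul_ne_zero_iff.1 h

theorem step4 {q : Polynomial ℂ} {p : Polynomial L} (hd : Degs q p) (c : ℂ) (n : ℕ)
    (PF PG : MvPolynomial (Fin (n + 4)) L)
    (h : emb (G (n + 4) q) * PG = G (n + 4) p * PF + C (Polynomial.C c) * cd PF) :
    emb (G (n + 4) q) ∣ PF := by
  have h2q : 2 ≤ q.natDegree := by have := hd.dq; omega
  have h2p : 2 ≤ (p0 p).natDegree := by have := hd.dp; omega
  have hiq : Irreducible (G (n + 4) q) := irr_G n q h2q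
  have hip : Irreducible (G (n + 4) (p0 p)) := irr_G n (p0 p) h2p
  refine pdiv (G (n + 4) q) hiq.ne_zero (G (n + 4) p) ?_ c PF (h ▸ dvd_mul_right _ _)
  intro B hB hBq
  rw [step_e0_G]
  exact step_irr (n + 1) h2q h2p hd.ne hiq hip B hB hBq

theorem step3 {q : Polynomial ℂ} {p : Polynomial L} (hd : Degs q p) (c : ℂ)
    (ho : ¬ (OddP q ∧ OddP (p0 p))) (PF PG : MvPolynomial (Fin 3) L)
    (h : emb (G 3 q) * PG = G 3 p * PF + C (Polynomial.C c) * cd PF) :
    emb (G 3 q) ∣ PF := by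
  refine pdiv (G 3 q) (step_G3_ne hd.dq) (G 3 p) ?_ c PF (h ▸ dvd_mul_right _ _)
  intro B hB hBq
  rw [step_e0_G]
  exact step_no3 hd.dq hd.dp hd.ne ho B hB hBq

theorem step3_odd {q : Polynomial ℂ} {p : Polynomial L} (hd : Degs q p) (c : ℂ)
    (hq : OddP q) (hp : OddP (p0 p)) (PF PG : MvPolynomial (Fin 3) L)
    (h : emb (G 3 q) * PG = G 3 p * PF + C (Polynomial.C c) * cd PF)
    (hPi : Pi3 ∣ PF) : emb (G 3 q) ∣ PF := by
  obtain ⟨Hq, hHq⟩ := exists_H q hq
  obtain ⟨Y, rfl⟩ := hPi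
  obtain ⟨hPne, hHne⟩ := step_H_ne hd.dq hHq
  have hPi : emb (Pi3 : MvPolynomial (Fin 3) ℂ) ≠ 0 := step_emb_ne hPne
  rw [← step_emb_Pi] at h ⊢
  rw [hHq, map_mul]
  apply mul_dvd_mul_left
  have h1 : emb Pi3 * (emb Hq * PG) =
      emb Pi3 * (G 3 p * Y + C (Polynomial.C c) * cd Y) := by
    rw [cd_emb_mul, hHq, map_mul] at h
    linear_combination h
  have h2 : emb Hq * PG = G 3 p * Y + C (Polynomial.C c) * cd Y := mul_left_cancel₀ hPi h1
  refine pdiv Hq hHne (G 3 p) ?_ c Y (h2 ▸ dvd_mul_right _ _)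
  intro B hB hBq
  rw [step_e0_G]
  exact step_odd hd.dq hd.dp hd.ne hq hp Hq hHq B hB hBq

/-- in all cases -/
theorem step3' {q : Polynomial ℂ} {p : Polynomial L} (hd : Degs q p) (c : ℂ)
    (PF PG : MvPolynomial (Fin 3) L)
    (h : emb (G 3 q) * PG = G 3 p * PF + C (Polynomial.C c) * cd PF) :
    emb (G 3 q) ∣ Pi3 * PF := by
  by_cases ho : OddP q ∧ OddP (p0 p)
  · obtain ⟨hq, hp⟩ := ho
    obtain ⟨Hq, hHq⟩ := exists_H q hq
    obtain ⟨hPne, hHne⟩ := step_H_ne hd.dq hHq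
    have h1 : emb Hq ∣ PF := by
      refine pdiv Hq hHne (G 3 p) ?_ c PF ?_
      · intro B hB hBq
        rw [step_e0_G]
        exact step_odd hd.dq hd.dp hd.ne hq hp Hq hHq B hB hBq
      · rw [← h, hHq, map_mul]
        exact (dvd_mul_left _ _).mul_right _
    rw [hHq, map_mul, step_emb_Pi]
    exact mul_dvd_mul_left _ h1
  · exact (step3 hd c ho PF PG h).mul_left _

end Pool.Agent.Helper96.FK
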