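import Pool.Agent.Helper96.FK.Br

/-!
# FK-3: the symbol map `T s`

`T s (monomial e c) = c ∏_j u_{e_j}`. All identities are linear in the argument, so they are
checked on monomials (`MvPolynomial.induction_on'` or `Basis.ext`).
-/

set_option autoImplicit false

open MvPolynomial

namespace Pool.Agent.Helper96.FK

variable {R : Type*} [CommRing R]

theorem T_monomial (s : ℕ) (e : Fin s →₀ ℕ) (c : R) :
    T s (monomial e c) = C c * ∏ j : Fin s, (X (e j) : A R) := by
  have h : (monomial e c : MvPolynomial (Fin s) R) = c • (basisMonomials (Fin s) R e) := by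
    rw [coe_basisMonomials, smul_monomial, smul_eq_mul, mul_one]
  rw [h, map_smul, T, Module.Basis.constr_basis, smul_eq_C_mul]

private theorem tmap_leibniz (δ : Derivation R (A R) (A R)) (s : ℕ) (t : Finset (Fin s))
    (f : Fin s → A R) :
    δ (∏ j ∈ t, f j) = ∑ j ∈ t, (∏ i ∈ t.erase j, f i) * δ (f j) := by
  classical
  induction t using Finset.induction_on with
  | empty => simp
  | insert a t ha ih =>
    rw [Finset.prod_insert ha, Finset.sum_insert ha, Finset.erase_insert ha, Derivation.leibniz,
      ih, smul_eq_mul, smul_eq_mul, Finset.mul_sum, add_comm]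
    congr 1
    refine Finset.sum_congr rfl fun j hj => ?_
    have hja : a ≠ j := fun h => ha (h ▸ hj)
    rw [Finset.erase_insert_of_ne hja, Finset.prod_insert (by simp [ha]), mul_assoc]

private theorem tmap_shift (s : ℕ) (e : Fin s →₀ ℕ) (c : R) (j : Fin s) (n : ℕ) :
    T s (X j ^ n * monomial e c) =
      C c * ((∏ i ∈ Finset.univ.erase j, (X (e i) : A R)) * X (e j + n)) := by
  classical
  have h : (X j ^ n * monomial e c : MvPolynomial (Fin s) R) =
      monomial (e + Finsupp.single j n) c := by
    rw [X_pow_eq_monomial, monomial_mul, one_mul, add_comm]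
  rw [h, T_monomial]
  congr 1
  rw [← Finset.prod_erase_mul _ _ (Finset.mem_univ j)]
  congr 1
  · refine Finset.prod_congr rfl fun i hi => ?_
    rw [Finsupp.add_apply, Finsupp.single_apply, if_neg (Finset.ne_of_mem_erase hi).symm, add_zero]
  · rw [Finsupp.add_apply, Finsupp.single_apply, if_pos rfl]

/-- `D` is multiplication of the symbol by the sum of the variables -/
theorem D_T (s : ℕ) (P : MvPolynomial (Fin s) R) :
    D (T s P) = T s ((∑ j : Fin s, (X j : MvPolynomial (Fin s) R)) * P) := by
  induction P using MvPolynomial.induction_on' with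
  | monomial e c =>
    rw [T_monomial, D_C_mul, tmap_leibniz, Finset.sum_mul, map_sum, Finset.mul_sum]
    refine Finset.sum_congr rfl fun j _ => ?_
    have h := tmap_shift s e c j 1
    rw [pow_one] at h
    rw [h, D_X]
  | add P Q hP hQ => rw [map_add, map_add, hP, hQ, mul_add, map_add]

private theorem tmap_iter_T (s : ℕ) (P : MvPolynomial (Fin s) R) (n : ℕ) :
    (⇑D)^[n] (T s P) = T s ((∑ j : Fin s, (X j : MvPolynomial (Fin s) R)) ^ n * P) := by
  induction n with
  | zero => rw [pow_zero, one_mul]; rfl
  | succ n ih => rw [iter_succ, ih, D_T, pow_succ', mul_assoc]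

private theorem tmap_iter_X (i n : ℕ) : (⇑D)^[n] (X i : A R) = X (i + n) := by
  induction n with
  | zero => rfl
  | succ n ih => rw [iter_succ, ih, D_X]; rfl

private theorem tmap_iter_sum {ι : Type*} (t : Finset ι) (f : ι → A R) (n : ℕ) :
    (⇑D)^[n] (∑ i ∈ t, f i) = ∑ i ∈ t, (⇑D)^[n] (f i) := by
  classical
  induction t using Finset.induction_on with
  | empty =>
    rw [Finset.sum_empty, Finset.sum_empty]
    exact iterate_map_zero D n
  | insert a t ha ih => rw [Finset.sum_insert ha, Finset.sum_insert ha, iter_add, ih]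

private theorem tmap_iter_ell (p : Polynomial R) (n : ℕ) :
    (⇑D)^[n] (ell p) = p.sum (fun i c => C c * (X (i + n) : A R)) := by
  unfold ell Polynomial.sum
  rw [tmap_iter_sum]
  refine Finset.sum_congr rfl fun i _ => ?_
  rw [iter_C_mul, tmap_iter_X]

private theorem tmap_C_mul (s : ℕ) (c : R) (P : MvPolynomial (Fin s) R) :
    T s (C c * P) = C c * T s P := by
  rw [← smul_eq_C_mul, map_smul, smul_eq_C_mul]

private theorem tmap_aeval (s : ℕ) (p : Polynomial R) (x : MvPolynomial (Fin s) R) :
    Polynomial.aeval x p = p.sum (fun i c => C c * x ^ i) := by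
  rw [Polynomial.aeval_eq_sum_range, Polynomial.sum_over_range]
  · refine Finset.sum_congr rfl fun i _ => ?_
    rw [smul_eq_C_mul]
  · intro n; rw [map_zero, zero_mul]

/-- on monomials: `ev (ell p) (∏_j u_{e_j}) = ∑_j D^{e_j}(ell p) ∏_{i ≠ j} u_{e_i}` and
`D^n (ell p) = ∑_i p_i u_{i+n}` -/
theorem ev_ell_T (s : ℕ) (p : Polynomial R) (P : MvPolynomial (Fin s) R) :
    ev (ell p) (T s P) =
      T s ((∑ j : Fin s, Polynomial.aeval (X j : MvPolynomial (Fin s) R) p) * P) := by
  induction P using MvPolynomial.induction_on' with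
  | monomial e c =>
    rw [T_monomial, ev_C_mul, tmap_leibniz, Finset.sum_mul, map_sum, Finset.mul_sum]
    refine Finset.sum_congr rfl fun j _ => ?_
    rw [ev_X, tmap_iter_ell, tmap_aeval]
    unfold Polynomial.sum
    rw [Finset.mul_sum, Finset.mul_sum, Finset.sum_mul, map_sum]
    refine Finset.sum_congr rfl fun i _ => ?_
    rw [mul_assoc (C (p.coeff i)), tmap_C_mul, tmap_shift, add_comm (e j) i]
    ring
  | add P Q hP hQ => rw [map_add, map_add, hP, hQ, mul_add, map_add]

/-- `ev f (ell p) = ∑_i p_i D^i f` -/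
theorem ev_T_ell (s : ℕ) (p : Polynomial R) (P : MvPolynomial (Fin s) R) :
    ev (T s P) (ell p) =
      T s (Polynomial.aeval (∑ j : Fin s, (X j : MvPolynomial (Fin s) R)) p * P) := by
  rw [tmap_aeval]
  unfold ell Polynomial.sum
  rw [map_sum, Finset.sum_mul, map_sum]
  refine Finset.sum_congr rfl fun i _ => ?_
  rw [ev_C_mul, ev_X, tmap_iter_T, mul_assoc, tmap_C_mul]

theorem br_ell_T (s : ℕ) (p : Polynomial R) (P : MvPolynomial (Fin s) R) :
    br (ell p) (T s P) = T s (G s p * P) := by
  unfold br G
  rw [ev_ell_T, ev_T_ell, ← map_sub, sub_mul]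

theorem br_ell_ell (p q : Polynomial R) : br (ell p) (ell q) = 0 := by
  have hq : ell q = T 1 (Polynomial.aeval (X 0 : MvPolynomial (Fin 1) R) q) := by
    have h := ev_T_ell 1 q (X 0 ^ 0 : MvPolynomial (Fin 1) R)
    have hT : T 1 (X 0 ^ 0 : MvPolynomial (Fin 1) R) = X 0 := by
      have h1 : (X 0 ^ 0 : MvPolynomial (Fin 1) R) = monomial 0 1 := by
        rw [pow_zero]; rfl
      rw [h1, T_monomial]
      simp
    rw [hT, pow_zero, mul_one, Fin.sum_univ_one] at h
    rw [← h]
    unfold ell Polynomial.sum
    rw [map_sum]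
    refine Finset.sum_congr rfl fun i _ => ?_
    rw [ev_C_mul, ev_X, tmap_iter_X, zero_add]
  have hG : G 1 p = 0 := by
    unfold G
    rw [Fin.sum_univ_one, Fin.sum_univ_one, sub_self]
  rw [hq, br_ell_T, hG, zero_mul, map_zero]

theorem T_homog (s : ℕ) (P : MvPolynomial (Fin s) R) : (T s P).IsHomogeneous s := by
  induction P using MvPolynomial.induction_on' with
  | monomial e c =>
    rw [T_monomial]
    have h := IsHomogeneous.prod (Finset.univ : Finset (Fin s))
      (fun j => (X (e j) : A R)) (fun _ => 1) (fun j _ => isHomogeneous_X R (e j))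
    simp only [Finset.sum_const, Finset.card_univ, Fintype.card_fin, smul_eq_mul, mul_one] at h
    exact h.C_mul c
  | add P Q hP hQ => rw [map_add]; exact hP.add hQ

theorem ell_homog (p : Polynomial R) : (ell p).IsHomogeneous 1 := by
  unfold ell Polynomial.sum
  exact IsHomogeneous.sum _ _ _ fun i _ => (isHomogeneous_X R i).C_mul _

theorem T_rename (s : ℕ) (σ : Equiv.Perm (Fin s)) (P : MvPolynomial (Fin s) R) :
    T s (rename σ P) = T s P := by
  induction P using MvPolynomial.induction_on' with
  | monomial e c =>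
    rw [rename_monomial, T_monomial, T_monomial]
    congr 1
    rw [← Equiv.prod_comp σ (fun j => (X ((Finsupp.mapDomain σ e) j) : A R))]
    refine Finset.prod_congr rfl fun j _ => ?_
    rw [Finsupp.mapDomain_apply σ.injective]
  | add P Q hP hQ => rw [map_add, map_add, hP, hQ, map_add]

/-- every homogeneous element of degree `s` has a symbol -/
theorem T_surj (s : ℕ) (h : A R) (hh : h.IsHomogeneous s) : ∃ P, T s P = h := by
  classical
  have key : ∀ m : ℕ →₀ ℕ, m.degree = s → ∀ c : R, ∃ P, T s P = monomial m c := by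
    intro m hm c
    set l : List ℕ := (Finsupp.toMultiset m).toList with hl
    have hlen : l.length = s := by
      rw [hl, Multiset.length_toList, Finsupp.card_toMultiset, ← hm]
      rfl
    subst hlen
    refine ⟨monomial (Finsupp.equivFunOnFinite.symm fun j => l.get j) c, ?_⟩
    rw [T_monomial]
    have h1 : ∏ j : Fin l.length, (X ((Finsupp.equivFunOnFinite.symm fun j => l.get j) j) : A R) =
        (l.map (fun n => (X n : A R))).prod := by
      rw [← List.prod_ofFn]
      congr 1
      have h0 : List.map (fun n => (X n : A R)) (List.ofFn l.get) =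
          List.ofFn ((fun n => (X n : A R)) ∘ l.get) := List.map_ofFn
      rw [List.ofFn_get] at h0
      rw [h0]
      rfl
    have h2 : (l.map (fun n => (X n : A R))).prod =
        ((Finsupp.toMultiset m).map (fun n => (X n : A R))).prod := by
      conv_rhs => rw [← Multiset.coe_toList (Finsupp.toMultiset m)]
      rw [Multiset.map_coe, Multiset.prod_coe]
    rw [h1, h2, monomial_eq]
    congr 1
    rw [Finsupp.toMultiset_map, Finsupp.prod_toMultiset, Finsupp.prod_mapDomain_index]
    · intro b; rw [pow_zero]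
    · intro b m₁ m₂; rw [pow_add]
  choose! F hF using key
  refine ⟨∑ m ∈ h.support, F m (coeff m h), ?_⟩
  rw [map_sum]
  conv_rhs => rw [h.as_sum]
  refine Finset.sum_congr rfl fun m hm => ?_
  refine hF m ?_ _
  have := hh (mem_support_iff.1 hm)
  rw [← this]
  exact (congrFun (congrArg DFunLike.coe Finsupp.degree_eq_weight_one) m)

/-- and a symmetric symbol if `s!` is invertible (average over the permutations) -/
theorem T_surj_symm [Algebra ℚ R] (s : ℕ) (h : A R) (hh : h.IsHomogeneous s) :
    ∃ P : MvPolynomial (Fin s) R, P.IsSymmetric ∧ T s P = h := by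
  classical
  obtain ⟨P, hP⟩ := T_surj s h hh
  set r : R := algebraMap ℚ R ((Fintype.card (Equiv.Perm (Fin s)) : ℚ)⁻¹) with hr
  refine ⟨C r * ∑ σ : Equiv.Perm (Fin s), rename σ P, ?_, ?_⟩
  · intro τ
    rw [map_mul, rename_C, map_sum]
    congr 1
    rw [← Equiv.sum_comp (Equiv.mulLeft τ) (fun σ : Equiv.Perm (Fin s) => rename σ P)]
    refine Finset.sum_congr rfl fun σ _ => ?_
    rw [rename_rename]
    rfl
  · rw [tmap_C_mul, map_sum]
    simp only [T_rename, hP]
    rw [Finset.sum_const, Finset.card_univ, nsmul_eq_mul, ← mul_assoc]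
    have h1 : (C r * ((Fintype.card (Equiv.Perm (Fin s)) : ℕ) : A R)) = 1 := by
      rw [← map_natCast (C : R →+* A R), ← map_mul, hr, ← map_natCast (algebraMap ℚ R), ← map_mul,
        inv_mul_cancel₀ (by exact_mod_cast Fintype.card_ne_zero), map_one, map_one]
    rw [h1, one_mul]

end Pool.Agent.Helper96.FK
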