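import Pool.Agent.Helper96.FK.OrdB

/-!
# FK-28: the recursion of the tail

`ε` = evaluation `u_j = 0` for `j ≥ 1`. For `ψ = u_0^l`: `ε(D^j ψ) = 0` for `j ≥ 1`,
`d n (D^i ψ) = C(i,n) D^{i-n} ψ'`. So (`k ≥ 3`, so `1 ≠ k-1`)
`ε(d 1 (d (k-1) (br F ψ))) = -∂_0 (γ ψ + k c0 ψ')`, `γ = ε(d 1 (d (k-1) F)) ∈ ℂ[u_0]`:
`ε d_1 d_{k-1} (ev F ψ) = ψ' γ` and `ε d_1 d_{k-1} (ev ψ F) = γ' ψ + 2 γ ψ' + k c0 ψ''`
(from `ev ψ F = ∑_i F_i D^i ψ`: `i = 0`: `γ' ψ`; `i = 1` and `i = k-1`: `γ ψ'`; `i = k`: `k c0 ψ''`).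
In degree `s` (all `h l = ζ_l u_0^l` in the window): `k c0 s ζ_s + ∑_{i} γ_i ζ_{s-1-i} = 0`
(coefficient of `u_0^{s-2}`, divided by `-(s-1)`), `γ = ∑ γ_i u_0^i`. `W` is any bound for the
degree of `F`.

`combos`: `F, Gt` fixed, for every `n` a formal series with `h 1 = ell r`, `deg r ≥ n`. Given `N`,
choose `W+1` of them with strictly increasing degrees `≥ N` (and `≥ 1`), a common `S`, and a
nontrivial combination whose `ζ_s` vanish for `W` consecutive large `s` (`W` linear conditions);
by the recursion (`c0 ≠ 0`) all later `ζ_s` vanish, so the combination `h` is a polynomial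
(finite sum of its `h s`), commutes with `F` and `Gt` (`hc_br`), and its linear part has degree
`≥ N`: `d j h ≠ 0` for some `j ≥ N`.
-/

set_option autoImplicit false

open MvPolynomial

namespace Pool.Agent.Helper96.FK

/-- evaluation at `u_j = 0` for `j ≥ 1` -/
private noncomputable def tail_e : A ℂ →ₐ[ℂ] Polynomial ℂ :=
  aeval (fun j : ℕ => if j = 0 then (Polynomial.X : Polynomial ℂ) else 0)

private theorem tail_e_X0 : tail_e (X 0) = Polynomial.X := by
  simp [tail_e]

private theorem tail_e_Xs (j : ℕ) : tail_e (X (j + 1)) = 0 := by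
  simp [tail_e]

private theorem tail_e_C (z : ℂ) : tail_e (C z) = Polynomial.C z := by
  simp [tail_e]

private theorem tail_e_D (g : A ℂ) : tail_e (D g) = 0 := by
  induction g using MvPolynomial.induction_on with
  | C a => rw [D_C, map_zero]
  | add p q hp hq => rw [map_add, map_add, hp, hq, add_zero]
  | mul_X p j hp => rw [D_mul, D_X, map_add, map_mul, map_mul, hp, tail_e_Xs]; ring

private theorem tail_e_d0 (g : A ℂ) : tail_e (d 0 g) = Polynomial.derivative (tail_e g) := by
  induction g using MvPolynomial.induction_on with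
  | C a =>
    have : d 0 (C a : A ℂ) = 0 := pderiv_C
    rw [this, map_zero, tail_e_C, Polynomial.derivative_C]
  | add p q hp hq => rw [map_add, map_add, hp, hq, map_add, map_add]
  | mul_X p j hp =>
    rw [d_mul, map_add, map_mul, map_mul, hp, map_mul, Polynomial.derivative_mul]
    rcases Nat.eq_zero_or_pos j with rfl | hj
    · rw [pderiv_X_self, tail_e_X0, map_one, Polynomial.derivative_X]
      ring
    · obtain ⟨j, rfl⟩ : ∃ l, j = l + 1 := ⟨j - 1, by omega⟩
      rw [pderiv_X_of_ne (by omega), tail_e_Xs, map_zero, Polynomial.derivative_zero]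
      ring

/-- `ε(d n (D^i ψ))` for `ψ` of order zero -/
private theorem tail_e_dn {ψ : A ℂ} (hψ : Ord 0 ψ) (n i : ℕ) :
    tail_e (d n ((⇑D)^[i] ψ)) = if i = n then tail_e (d 0 ψ) else 0 := by
  induction i generalizing n with
  | zero =>
    rw [Function.iterate_zero_apply]
    by_cases hn : n = 0
    · subst hn
      rw [if_pos rfl]
    · rw [if_neg (by omega), hψ n (by omega), map_zero]
  | succ i ih =>
    rw [iter_succ]
    cases n with
    | zero => rw [d_zero_D, tail_e_D, if_neg (by omega)]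
    | succ n =>
      rw [d_succ_D, map_add, tail_e_D, zero_add, ih]
      by_cases h : i = n
      · rw [if_pos h, if_pos (by omega)]
      · rw [if_neg h, if_neg (by omega)]

/-- `ε(d 0 (d n (D^i ψ)))` for `ψ` of order zero -/
private theorem tail_e_d0n {ψ : A ℂ} (hψ : Ord 0 ψ) (n i : ℕ) :
    tail_e (d 0 (d n ((⇑D)^[i] ψ))) = if i = n then tail_e (d 0 (d 0 ψ)) else 0 := by
  induction i generalizing n with
  | zero =>
    rw [Function.iterate_zero_apply]
    by_cases hn : n = 0
    · subst hn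
      rw [if_pos rfl]
    · rw [if_neg (by omega), hψ n (by omega), map_zero, map_zero]
  | succ i ih =>
    rw [iter_succ]
    cases n with
    | zero => rw [d_zero_D, d_zero_D, tail_e_D, if_neg (by omega)]
    | succ n =>
      rw [d_succ_D, map_add, d_zero_D, map_add, tail_e_D, zero_add, ih]
      by_cases h : i = n
      · rw [if_pos h, if_pos (by omega)]
      · rw [if_neg h, if_neg (by omega)]

/-- `ε(d 1 (d n (D^i ψ)))` for `ψ` of order zero -/
private theorem tail_e_d1n {ψ : A ℂ} (hψ : Ord 0 ψ) (n i : ℕ) :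
    tail_e (d 1 (d n ((⇑D)^[i] ψ))) =
      if i = n + 1 then ((n + 1 : ℕ) : Polynomial ℂ) * tail_e (d 0 (d 0 ψ)) else 0 := by
  induction i generalizing n with
  | zero =>
    rw [Function.iterate_zero_apply, if_neg (by omega), d_comm, hψ 1 (by omega), map_zero, map_zero]
  | succ i ih =>
    rw [iter_succ]
    cases n with
    | zero =>
      rw [d_zero_D, show (1 : ℕ) = 0 + 1 from rfl, d_succ_D, map_add, tail_e_D, zero_add,
        tail_e_d0n hψ]
      by_cases h : i = 0
      · rw [if_pos h, if_pos (by omega)]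
        simp
      · rw [if_neg h, if_neg (by omega)]
    | succ n =>
      rw [d_succ_D, map_add, map_add, ih, show (1 : ℕ) = 0 + 1 from rfl, d_succ_D, map_add,
        tail_e_D, zero_add, tail_e_d0n hψ]
      by_cases h : i = n + 1
      · rw [if_pos h, if_pos (by omega), if_pos (by omega)]
        push_cast
        ring
      · rw [if_neg h, if_neg (by omega), if_neg (by omega)]
        simp

private theorem tail_ord0_pow (z : ℂ) (j : ℕ) : Ord 0 (C z * X 0 ^ j : A ℂ) :=
  (ord_C z 0).mul ((ord_X 0).pow j)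

/-- the key formula -/
private theorem tail_key {k : ℕ} (hk : 3 ≤ k) {f : A ℂ} {e : ℂ} (hf : Ord k f) (he : d k f = C e)
    {ψ : A ℂ} (hψ : Ord 0 ψ) :
    tail_e (d 1 (d (k - 1) (br f ψ))) =
      -Polynomial.derivative (tail_e (d 1 (d (k - 1) f)) * tail_e ψ +
        (k : Polynomial ℂ) * Polynomial.C e * Polynomial.derivative (tail_e ψ)) := by
  have hψ1 : ∀ j, 0 < j → d j (d 0 ψ) = 0 := fun j hj => hψ.d 0 j hj
  have h1 : tail_e (d 1 (d (k - 1) (ev f ψ))) =
      tail_e (d 0 ψ) * tail_e (d 1 (d (k - 1) f)) := by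
    rw [ev_ord0 f hψ, d_mul, hψ1 (k - 1) (by omega), mul_zero, add_zero, d_mul,
      hψ1 1 (by omega), mul_zero, add_zero, map_mul]
  have h2 : tail_e (d 1 (d (k - 1) (ev ψ f))) =
      tail_e (d 0 (d 1 (d (k - 1) f))) * tail_e ψ +
      2 * (tail_e (d 1 (d (k - 1) f)) * tail_e (d 0 ψ)) +
      (k : Polynomial ℂ) * Polynomial.C e * tail_e (d 0 (d 0 ψ)) := by
    rw [ev_eq_range ψ hf, map_sum, map_sum, map_sum]
    have hterm : ∀ i ∈ Finset.range (k + 1), tail_e (d 1 (d (k - 1) (d i f * (⇑D)^[i] ψ))) =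
        (if i = 0 then tail_e (d 1 (d (k - 1) (d i f))) * tail_e ψ else 0) +
        (if i = 1 then tail_e (d (k - 1) (d i f)) * tail_e (d 0 ψ) else 0) +
        (if i = k - 1 then tail_e (d 1 (d i f)) * tail_e (d 0 ψ) else 0) +
        (if i = k then tail_e (d i f) * ((k : Polynomial ℂ) * tail_e (d 0 (d 0 ψ))) else 0) := by
      intro i _
      rw [d_mul, map_add, d_mul, d_mul, map_add, map_add, map_add, map_mul, map_mul, map_mul,
        map_mul, tail_e_dn hψ (k - 1) i, tail_e_dn hψ 1 i, tail_e_d1n hψ (k - 1) i]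
      have e0 : tail_e ((⇑D)^[i] ψ) = if i = 0 then tail_e ψ else 0 := by
        cases i with
        | zero => simp
        | succ i => rw [iter_succ, tail_e_D, if_neg (by omega)]
      rw [e0, show k - 1 + 1 = k by omega]
      split_ifs <;> ring
    rw [Finset.sum_congr rfl hterm, Finset.sum_add_distrib, Finset.sum_add_distrib,
      Finset.sum_add_distrib, Finset.sum_ite_eq', Finset.sum_ite_eq', Finset.sum_ite_eq',
      Finset.sum_ite_eq', if_pos (Finset.mem_range.2 (by omega)), if_pos (Finset.mem_range.2 (by omega)),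
      if_pos (Finset.mem_range.2 (by omega)), if_pos (Finset.mem_range.2 (by omega)), he, tail_e_C, d_comm (k - 1) 1, d_comm (k - 1) 0, d_comm 1 0]
    ring
  unfold br
  rw [map_sub, map_sub, map_sub, h1, h2, tail_e_d0, tail_e_d0, tail_e_d0, tail_e_d0]
  simp only [map_add, Polynomial.derivative_mul, Polynomial.derivative_C,
    Polynomial.derivative_natCast]
  ring

theorem tail_rec {k : ℕ} {c0 : ℂ} {F : A ℂ} (hF : CS k c0 F) :
    ∃ (W : ℕ) (γ : ℕ → ℂ), ∀ (h : ℕ → A ℂ), Ser h → FC F h → ∀ (S : ℕ) (ζ : ℕ → ℂ),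
      (∀ s, S ≤ s → h s = C (ζ s) * X 0 ^ s) → ∀ s, S + W + 2 ≤ s →
      c0 * k * s * ζ s + ∑ i ∈ Finset.range W, γ i * ζ (s - 1 - i) = 0 := by
  refine ⟨F.totalDegree, fun i => (tail_e (d 1 (d (k - 1) (hc (i + 2) F)))).coeff i, ?_⟩
  intro h _ hFC S ζ hζ s hs
  obtain ⟨t, rfl⟩ : ∃ t, s = t + 2 := ⟨s - 2, by omega⟩
  set W := F.totalDegree with hW
  have hord : ∀ i, Ord k (hc i F) := by
    intro i j hj
    cases i with
    | zero => rw [hF.F0, map_zero]
    | succ i => rw [← hc_d, hF.ord j hj, map_zero]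
  have hsep : ∀ i, d k (hc i F) = C (if i = 1 then c0 else 0) := by
    intro i
    rcases i with _ | _ | i
    · rw [hF.F0, map_zero]; simp
    · have h1 := hc_d k 0 F
      rw [zero_add] at h1
      rw [zero_add, ← h1, hF.sep]
      simp
    · have h1 := hc_d k (i + 1) F
      rw [← h1, hF.sep, if_neg (by omega)]
      have := homogeneousComponent_of_mem (m := i + 1) (isHomogeneous_C ℕ c0)
      rw [if_neg (by omega)] at this
      rw [C_0]
      exact this
  have hbig : ∀ i, W < i → hc i F = 0 := fun i hi => homogeneousComponent_eq_zero i F hi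
  -- the coefficient of every term
  let c : ℕ → ℕ → ℂ := fun i j =>
    (tail_e (d 1 (d (k - 1) (br (hc i F) (h j))))).coeff t
  have hc0 : c 0 (t + 3) = 0 := by
    show (tail_e (d 1 (d (k - 1) (br (hc 0 F) (h (t + 3)))))).coeff t = 0
    rw [hF.F0, br_zero_left, map_zero, map_zero, map_zero, Polynomial.coeff_zero]
  have hcg : ∀ i, i ≤ W → 1 ≤ i → c i (t + 3 - i) =
      -((t + 1 : ℕ) : ℂ) * ((tail_e (d 1 (d (k - 1) (hc i F))) *
        (Polynomial.C (ζ (t + 3 - i)) * Polynomial.X ^ (t + 3 - i)) +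
        (k : Polynomial ℂ) * Polynomial.C (if i = 1 then c0 else 0) *
        Polynomial.derivative (Polynomial.C (ζ (t + 3 - i)) *
          Polynomial.X ^ (t + 3 - i)))).coeff (t + 1) := by
    intro i hi hi1
    show (tail_e (d 1 (d (k - 1) (br (hc i F) (h (t + 3 - i)))))).coeff t = _
    rw [hζ (t + 3 - i) (by omega), tail_key hF.hk (hord i) (hsep i) (tail_ord0_pow _ _)]
    have e1 : tail_e (C (ζ (t + 3 - i)) * X 0 ^ (t + 3 - i)) =
        Polynomial.C (ζ (t + 3 - i)) * Polynomial.X ^ (t + 3 - i) := by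
      rw [map_mul, map_pow, tail_e_C, tail_e_X0]
    rw [e1, Polynomial.coeff_neg, Polynomial.coeff_derivative]
    push_cast
    ring
  have hc1 : 1 ≤ W → c 1 (t + 2) = -((t + 1 : ℕ) : ℂ) * (c0 * k * ((t + 2 : ℕ) : ℂ) * ζ (t + 2)) := by
    intro hW1
    have := hcg 1 hW1 le_rfl
    rw [show t + 3 - 1 = t + 2 by omega] at this
    rw [this, if_pos rfl, Polynomial.coeff_add]
    congr 1
    have a1 : (tail_e (d 1 (d (k - 1) (hc 1 F))) *
        (Polynomial.C (ζ (t + 2)) * Polynomial.X ^ (t + 2))).coeff (t + 1) = 0 := by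
      rw [← mul_assoc, Polynomial.coeff_mul_X_pow', if_neg (by omega)]
    rw [a1, zero_add, Polynomial.derivative_mul, Polynomial.derivative_C, zero_mul, zero_add,
      Polynomial.derivative_X_pow]
    rw [show (k : Polynomial ℂ) * Polynomial.C c0 * (Polynomial.C (ζ (t + 2)) *
      (Polynomial.C ((t + 2 : ℕ) : ℂ) * Polynomial.X ^ (t + 2 - 1))) =
      Polynomial.C ((k : ℂ) * c0 * ζ (t + 2) * ((t + 2 : ℕ) : ℂ)) * Polynomial.X ^ (t + 1) by
        rw [show t + 2 - 1 = t + 1 by omega]
        simp only [map_mul, map_natCast]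
        ring]
    rw [Polynomial.coeff_C_mul, Polynomial.coeff_X_pow_self]
    ring
  have hc2 : ∀ i, i + 2 ≤ W → c (i + 2) (t + 1 - i) = -((t + 1 : ℕ) : ℂ) *
      ((tail_e (d 1 (d (k - 1) (hc (i + 2) F)))).coeff i * ζ (t + 1 - i)) := by
    intro i hi
    have := hcg (i + 2) hi (by omega)
    rw [show t + 3 - (i + 2) = t + 1 - i by omega] at this
    rw [this, if_neg (by omega), Polynomial.C_0, mul_zero, zero_mul, add_zero]
    congr 1
    rw [← mul_assoc, Polynomial.coeff_mul_X_pow', if_pos (by omega),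
      show t + 1 - (t + 1 - i) = i by omega, Polynomial.coeff_mul_C]
  have hcz : ∀ i j, W < i → c i j = 0 := by
    intro i j hi
    show (tail_e (d 1 (d (k - 1) (br (hc i F) (h j))))).coeff t = 0
    rw [hbig i hi, br_zero_left, map_zero, map_zero, map_zero, Polynomial.coeff_zero]
  have hsum : ∑ i ∈ Finset.range (t + 4), c i (t + 3 - i) = 0 := by
    have h1 := hFC (t + 2)
    have h2 : ∑ x ∈ Finset.HasAntidiagonal.antidiagonal (t + 3), c x.1 x.2 = 0 := by
      have h3 := congrArg (fun z => (tail_e (d 1 (d (k - 1) z))).coeff t) h1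
      simp only [map_sum, map_zero, Polynomial.coeff_zero, Polynomial.finsetSum_coeff] at h3
      exact h3
    rw [← h2]
    exact (Finset.Nat.sum_antidiagonal_eq_sum_range_succ c (t + 3)).symm
  by_cases hW1 : 1 ≤ W
  · have hsub : ∑ i ∈ Finset.range (t + 2), c (i + 2) (t + 3 - (i + 2)) =
        ∑ i ∈ Finset.range W, -((t + 1 : ℕ) : ℂ) *
          ((tail_e (d 1 (d (k - 1) (hc (i + 2) F)))).coeff i * ζ (t + 1 - i)) := by
      rw [← Finset.sum_subset (Finset.range_subset_range.2 (show W ≤ t + 2 by omega))]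
      · refine Finset.sum_congr rfl fun i hi => ?_
        have hi' := Finset.mem_range.1 hi
        rw [show t + 3 - (i + 2) = t + 1 - i by omega]
        by_cases h2 : i + 2 ≤ W
        · exact hc2 i h2
        · rw [hcz (i + 2) _ (by omega), hbig (i + 2) (by omega), map_zero, map_zero, map_zero,
            Polynomial.coeff_zero]
          ring
      · intro i _ hi
        have hi' : ¬ i < W := fun h => hi (Finset.mem_range.2 h)
        exact hcz _ _ (by omega)
    rw [Finset.sum_range_succ', Finset.sum_range_succ'] at hsum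
    simp only [Nat.zero_add, Nat.sub_zero] at hsum
    rw [show t + 3 - 1 = t + 2 by omega, hc0, hc1 hW1, add_zero] at hsum
    have hsum2 : ∑ i ∈ Finset.range (t + 2), c (i + 2) (t + 3 - (i + 2)) +
        -((t + 1 : ℕ) : ℂ) * (c0 * k * ((t + 2 : ℕ) : ℂ) * ζ (t + 2)) = 0 := hsum
    rw [hsub, ← Finset.mul_sum, ← mul_add] at hsum2
    have hne : -((t + 1 : ℕ) : ℂ) ≠ 0 := by
      rw [neg_ne_zero]
      exact_mod_cast (Nat.succ_ne_zero t)
    have h5 := (mul_eq_zero.1 hsum2).resolve_left hne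
    rw [add_comm] at h5
    rw [show t + 2 - 1 = t + 1 by omega]
    exact h5
  · have hz : hc 1 F = 0 := hbig 1 (by omega)
    have h1 := hsep 1
    rw [hz, map_zero, if_pos rfl] at h1
    have h2 : c0 = 0 := (C_eq_zero (R := ℂ) (σ := ℕ)).1 h1.symm
    have h3 : W = 0 := by omega
    rw [h2, h3, Finset.sum_range_zero]
    ring

end Pool.Agent.Helper96.FK
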