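import Pool.Agent.Helper96.FK.RootLift

/-!
# FK-16: valued fields, lifting of points at infinity

`root_lift`: write `f = c ∏ (X - x_i)`. Put the roots outside `V` as `X - x_i = -x_i (1 - X/x_i)`;
so `f = c' ∏_{x_i ∈ V} (X - x_i) ∏_{x_i ∉ V} (1 - X / x_i)`. All coefficients of `f` are in `V`, not
all in the maximal ideal, so `c'` is a unit of `V`; reduce modulo the maximal ideal:
`f0 = c̄' ∏ (X - x̄_i)`, so `α` is one of the `x̄_i`. (Or: if no root of `f` is `≡ α` then every
factor has a unit value at `α`, so `f(α)` has the valuation of `c'`, i.e. is a unit.)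

`lift_left`: with `t = 1/y`, `n = B.totalDegree`, the polynomial `f(w) = t^n B(w/t, 1/t)`
`= ∑_j t^{n-j} B_j(w, 1)` is congruent to `B_n(w,1)`, which is nonzero because `B_n` is a nonzero
form.
-/

set_option autoImplicit false

open MvPolynomial

namespace Pool.Agent.Helper96.FK

/-- the homogenised polynomial in one variable -/
noncomputable def vf_f {K : Type} [Field K] [Algebra ℂ K] (i0 : Fin 2)
    (B : MvPolynomial (Fin 2) ℂ) (t : K) : Polynomial K :=
  ∑ e ∈ B.support, Polynomial.C (algebraMap ℂ K (B.coeff e) *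
    t ^ (B.totalDegree - (e 0 + e 1))) * Polynomial.X ^ (e i0)

theorem vf_eval {K : Type} [Field K] [Algebra ℂ K] (i0 : Fin 2)
    (B : MvPolynomial (Fin 2) ℂ) (t w : K) : (vf_f i0 B t).eval w =
      ∑ e ∈ B.support, algebraMap ℂ K (B.coeff e) * t ^ (B.totalDegree - (e 0 + e 1)) *
        w ^ (e i0) := by
  unfold vf_f
  rw [Polynomial.eval_finsetSum]
  apply Finset.sum_congr rfl
  intro e _
  rw [Polynomial.eval_mul, Polynomial.eval_C, Polynomial.eval_pow, Polynomial.eval_X]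

theorem vf_coeff {K : Type} [Field K] [Algebra ℂ K] (i0 : Fin 2)
    (B : MvPolynomial (Fin 2) ℂ) (t : K) (i : ℕ) : (vf_f i0 B t).coeff i =
      ∑ e ∈ B.support, if i = e i0 then algebraMap ℂ K (B.coeff e) *
        t ^ (B.totalDegree - (e 0 + e 1)) else 0 := by
  unfold vf_f
  rw [Polynomial.finsetSum_coeff]
  apply Finset.sum_congr rfl
  intro e _
  rw [Polynomial.coeff_C_mul_X_pow]

theorem vf_deg_le {B : MvPolynomial (Fin 2) ℂ} {e : Fin 2 →₀ ℕ} (he : e ∈ B.support) :
    e 0 + e 1 ≤ B.totalDegree := by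
  have h := le_totalDegree he
  rw [Finsupp.sum_fintype _ _ (fun _ => rfl), Fin.sum_univ_two] at h
  exact h

theorem vf_deg_ex {B : MvPolynomial (Fin 2) ℂ} (hB : B ≠ 0) :
    ∃ e ∈ B.support, e 0 + e 1 = B.totalDegree := by
  have hne : B.support.Nonempty := by
    rw [Finset.nonempty_iff_ne_empty]
    intro h
    exact hB (by rwa [MvPolynomial.support_eq_empty] at h)
  obtain ⟨e, he, h⟩ := Finset.exists_mem_eq_sup B.support hne (fun s => s.sum fun _ e => e)
  refine ⟨e, he, ?_⟩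
  have h2 : B.totalDegree = e.sum fun _ e => e := h
  rw [h2, Finsupp.sum_fintype _ _ (fun _ => rfl), Fin.sum_univ_two]

/-- the value of the polynomial -/
theorem vf_hom {K : Type} [Field K] [Algebra ℂ K] (i0 : Fin 2)
    (B : MvPolynomial (Fin 2) ℂ) (w y : K) (hy : y ≠ 0) :
    y⁻¹ ^ B.totalDegree * aeval (fun i : Fin 2 => if i = i0 then w * y else y) B =
      (vf_f i0 B y⁻¹).eval w := by
  rw [vf_eval, MvPolynomial.aeval_def, MvPolynomial.eval₂_eq', Finset.mul_sum]
  apply Finset.sum_congr rfl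
  intro e he
  have hd := vf_deg_le he
  obtain ⟨m, hm⟩ : ∃ m, B.totalDegree = m + (e 0 + e 1) := ⟨B.totalDegree - (e 0 + e 1), by omega⟩
  rw [hm, Nat.add_sub_cancel, Fin.prod_univ_two, pow_add, pow_add]
  have h0 : y⁻¹ ^ e 0 * y ^ e 0 = 1 := by rw [← mul_pow, inv_mul_cancel₀ hy, one_pow]
  have h1 : y⁻¹ ^ e 1 * y ^ e 1 = 1 := by rw [← mul_pow, inv_mul_cancel₀ hy, one_pow]
  rcases (by omega : i0 = 0 ∨ i0 = 1) with rfl | rfl
  · rw [if_pos rfl, if_neg (by decide), mul_pow]
    calc y⁻¹ ^ m * (y⁻¹ ^ e 0 * y⁻¹ ^ e 1) *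
          (algebraMap ℂ K (coeff e B) * (w ^ e 0 * y ^ e 0 * y ^ e 1))
        = (y⁻¹ ^ e 0 * y ^ e 0) * (y⁻¹ ^ e 1 * y ^ e 1) *
          (algebraMap ℂ K (coeff e B) * y⁻¹ ^ m * w ^ e 0) := by ring
      _ = _ := by rw [h0, h1]; ring
  · rw [if_neg (by decide), if_pos rfl, mul_pow]
    calc y⁻¹ ^ m * (y⁻¹ ^ e 0 * y⁻¹ ^ e 1) *
          (algebraMap ℂ K (coeff e B) * (y ^ e 0 * (w ^ e 1 * y ^ e 1)))
        = (y⁻¹ ^ e 0 * y ^ e 0) * (y⁻¹ ^ e 1 * y ^ e 1) *
          (algebraMap ℂ K (coeff e B) * y⁻¹ ^ m * w ^ e 1) := by ring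
      _ = _ := by rw [h0, h1]; ring

/-- the top form -/
theorem vf_top (i0 : Fin 2) (B : MvPolynomial (Fin 2) ℂ) (α : ℂ) :
    (vf_f i0 B (0 : ℂ)).eval α =
      aeval (fun i : Fin 2 => if i = i0 then α else 1) (top B) := by
  rw [vf_eval]
  unfold top
  rw [homogeneousComponent_apply, map_sum, Finset.sum_filter]
  apply Finset.sum_congr rfl
  intro e he
  have hd := vf_deg_le he
  have hdeg : e.degree = e 0 + e 1 := by rw [Finsupp.degree_eq_sum, Fin.sum_univ_two]
  by_cases h : e.degree = B.totalDegree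
  · rw [if_pos h, aeval_monomial, ← h, hdeg, Nat.sub_self, pow_zero, mul_one]
    congr 1
    rw [Finsupp.prod_fintype _ _ (fun _ => pow_zero _), Fin.prod_univ_two]
    rcases (by omega : i0 = 0 ∨ i0 = 1) with rfl | rfl
    · simp
    · simp
  · rw [if_neg h, zero_pow (by omega), mul_zero, zero_mul]

theorem vf_ne {B : MvPolynomial (Fin 2) ℂ} (i0 : Fin 2) (hB : B ≠ 0) :
    vf_f i0 B (0 : ℂ) ≠ 0 := by
  obtain ⟨e, he, hd⟩ := vf_deg_ex hB
  intro h
  have h1 := vf_coeff i0 B (0 : ℂ) (e i0)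
  rw [h, Polynomial.coeff_zero, Finset.sum_eq_single_of_mem e he] at h1
  · rw [if_pos rfl, hd, Nat.sub_self, pow_zero, mul_one] at h1
    exact (MvPolynomial.mem_support_iff.mp he) h1.symm
  · intro e' he' hne
    by_cases h2 : e i0 = e' i0
    · rw [if_pos h2]
      have hd' := vf_deg_le he'
      have h3 : e' 0 + e' 1 ≠ B.totalDegree := by
        intro h4
        apply hne
        ext i
        rcases (by omega : i0 = 0 ∨ i0 = 1) with rfl | rfl
        · rcases (by omega : i = 0 ∨ i = 1) with rfl | rfl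
          · exact h2.symm
          · omega
        · rcases (by omega : i = 0 ∨ i = 1) with rfl | rfl
          · omega
          · exact h2.symm
      rw [zero_pow (by omega), mul_zero]
    · rw [if_neg h2]

theorem vf_cg_pow {K : Type} [Field K] [Algebra ℂ K] {V : ValuationSubring K} (hV : Over V)
    {x : K} {α : ℂ} (h : Cg V x α) (k : ℕ) : Cg V (x ^ k) (α ^ k) := by
  induction k with
  | zero =>
    rw [pow_zero, pow_zero]
    have := Cg.const V (1 : ℂ)
    rwa [map_one] at this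
  | succ k ih =>
    rw [pow_succ, pow_succ]
    exact ih.mul hV h

theorem vf_cg_zero {K : Type} [Field K] [Algebra ℂ K] (V : ValuationSubring K) :
    Cg V (0 : K) 0 := by
  have := Cg.const V (0 : ℂ)
  rwa [map_zero] at this

theorem vf_cg_sum {K : Type} [Field K] [Algebra ℂ K] {V : ValuationSubring K} {ι : Type*}
    (s : Finset ι) (f : ι → K) (g : ι → ℂ) (h : ∀ i ∈ s, Cg V (f i) (g i)) :
    Cg V (∑ i ∈ s, f i) (∑ i ∈ s, g i) := by
  classical
  induction s using Finset.induction_on with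
  | empty => simpa using vf_cg_zero V
  | insert a s ha ih =>
    rw [Finset.sum_insert ha, Finset.sum_insert ha]
    exact (h a (Finset.mem_insert_self a s)).add
      (ih fun i hi => h i (Finset.mem_insert_of_mem hi))

theorem vf_inv {K : Type} [Field K] [Algebra ℂ K] {V : ValuationSubring K} {y : K} (hy : y ∉ V) :
    y ≠ 0 ∧ Cg V y⁻¹ 0 := by
  have hy0 : y ≠ 0 := by
    rintro rfl
    exact hy V.zero_mem
  refine ⟨hy0, ?_⟩
  unfold Cg
  rw [map_zero, sub_zero, map_inv₀]
  have h1 : 1 < V.valuation y := by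
    rw [← not_le]
    exact fun h => hy ((V.valuation_le_one_iff y).mp h)
  exact inv_lt_one_of_one_lt₀ h1

theorem vf_lift {K : Type} [Field K] [Algebra ℂ K] [IsAlgClosed K] (V : ValuationSubring K)
    (hV : Over V) (i0 : Fin 2) (B : MvPolynomial (Fin 2) ℂ) (hB : B ≠ 0) (α : ℂ)
    (hα : aeval (fun i : Fin 2 => if i = i0 then α else 1) (top B) = 0) (y : K)
    (hy : y ∉ V) : ∃ x : K, aeval (fun i : Fin 2 => if i = i0 then x else y) B = 0 ∧
      Cg V (x / y) α := by
  obtain ⟨hy0, hyt⟩ := vf_inv hy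
  have hf : ∀ i, V.valuation ((vf_f i0 B y⁻¹).coeff i -
      algebraMap ℂ K ((vf_f i0 B (0 : ℂ)).coeff i)) < 1 := by
    intro i
    show Cg V ((vf_f i0 B y⁻¹).coeff i) ((vf_f i0 B (0 : ℂ)).coeff i)
    rw [vf_coeff, vf_coeff]
    apply vf_cg_sum
    intro e _
    by_cases h : i = e i0
    · rw [if_pos h, if_pos h]
      exact (Cg.const V _).mul hV (vf_cg_pow hV hyt _)
    · rw [if_neg h, if_neg h]
      exact vf_cg_zero V
  obtain ⟨w, hw1, hw2⟩ := root_lift V hV (vf_f i0 B y⁻¹) (vf_f i0 B (0 : ℂ)) hf (vf_ne i0 hB) α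
    (by rw [vf_top]; exact hα)
  refine ⟨w * y, ?_, ?_⟩
  · rw [← vf_hom i0 B w y hy0] at hw1
    exact (mul_eq_zero.mp hw1).resolve_left (pow_ne_zero _ (inv_ne_zero hy0))
  · rwa [mul_div_cancel_right₀ _ hy0]

theorem vf_pt0 {S : Type*} (x y : S) :
    (fun i : Fin 2 => if i = 0 then x else y) = ![x, y] := by
  funext i
  rcases (by omega : i = 0 ∨ i = 1) with rfl | rfl <;> simp

theorem vf_pt1 {S : Type*} (x y : S) :
    (fun i : Fin 2 => if i = 1 then x else y) = ![y, x] := by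
  funext i
  rcases (by omega : i = 0 ∨ i = 1) with rfl | rfl <;> simp

theorem lift_left {K : Type} [Field K] [Algebra ℂ K] [IsAlgClosed K] (V : ValuationSubring K)
    (hV : Over V) (B : MvPolynomial (Fin 2) ℂ) (hB : B ≠ 0) (α : ℂ) (hα : tv B α 1 = 0) (y : K)
    (hy : y ∉ V) : ∃ x : K, sb B x y = 0 ∧ Cg V (x / y) α := by
  obtain ⟨x, h1, h2⟩ := vf_lift V hV 0 B hB α (by rw [vf_pt0]; exact hα) y hy
  refine ⟨x, ?_, h2⟩
  rw [vf_pt0] at h1
  exact h1

theorem lift_right {K : Type} [Field K] [Algebra ℂ K] [IsAlgClosed K] (V : ValuationSubring K)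
    (hV : Over V) (B : MvPolynomial (Fin 2) ℂ) (hB : B ≠ 0) (γ : ℂ) (hγ : tv B 1 γ = 0) (x : K)
    (hx : x ∉ V) : ∃ z : K, sb B x z = 0 ∧ Cg V (z / x) γ := by
  obtain ⟨z, h1, h2⟩ := vf_lift V hV 1 B hB γ (by rw [vf_pt1]; exact hγ) x hx
  refine ⟨z, ?_, h2⟩
  rw [vf_pt1] at h1
  exact h1

/-- the value of the polynomial at `x / y` is zero -/
theorem vf_eval_zero {K : Type} [Field K] [Algebra ℂ K] {V : ValuationSubring K}
    (B : MvPolynomial (Fin 2) ℂ) (x y : K) (hy : y ∉ V) (h : sb B x y = 0) :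
    ∑ e ∈ B.support, algebraMap ℂ K (B.coeff e) * y⁻¹ ^ (B.totalDegree - (e 0 + e 1)) *
        (x / y) ^ (e 0) = 0 := by
  obtain ⟨hy0, _⟩ := vf_inv hy
  rw [← vf_eval, ← vf_hom 0 B (x / y) y hy0, div_mul_cancel₀ x hy0, vf_pt0]
  have h' : aeval ![x, y] B = 0 := h
  rw [h', mul_zero]

/-- the direction of a point at infinity is a zero of the top form -/
theorem dir {K : Type} [Field K] [Algebra ℂ K] (V : ValuationSubring K) (hV : Over V)
    (B : MvPolynomial (Fin 2) ℂ) (hB : B ≠ 0) (x y : K) (hy : y ∉ V) (hxy : x / y ∈ V)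
    (h : sb B x y = 0) : ∃ α : ℂ, tv B α 1 = 0 ∧ Cg V (x / y) α := by
  obtain ⟨hy0, hyt⟩ := vf_inv hy
  have hz := vf_eval_zero B x y hy h
  set w := x / y with hw
  have hvw : V.valuation w ≤ 1 := (V.valuation_le_one_iff w).mpr hxy
  -- the value of the top form is small
  have hsmall : V.valuation (Polynomial.aeval w (vf_f 0 B (0 : ℂ))) < 1 := by
    have h1 : Polynomial.aeval w (vf_f 0 B (0 : ℂ)) =
        ∑ e ∈ B.support, algebraMap ℂ K (B.coeff e) *
          (algebraMap ℂ K ((0 : ℂ) ^ (B.totalDegree - (e 0 + e 1))) -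
            y⁻¹ ^ (B.totalDegree - (e 0 + e 1))) * w ^ (e 0) := by
      have h2 : Polynomial.aeval w (vf_f 0 B (0 : ℂ)) = ∑ e ∈ B.support,
          algebraMap ℂ K (B.coeff e) * algebraMap ℂ K ((0 : ℂ) ^ (B.totalDegree - (e 0 + e 1))) *
            w ^ (e 0) := by
        unfold vf_f
        rw [map_sum]
        apply Finset.sum_congr rfl
        intro e _
        rw [map_mul, Polynomial.aeval_C, map_pow, Polynomial.aeval_X, map_mul]
        rfl
      rw [h2, ← sub_zero (∑ e ∈ B.support, algebraMap ℂ K (B.coeff e) *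
        algebraMap ℂ K ((0 : ℂ) ^ (B.totalDegree - (e 0 + e 1))) * w ^ (e 0)), ← hz,
        ← Finset.sum_sub_distrib]
      apply Finset.sum_congr rfl
      intro e _
      ring
    rw [h1]
    apply V.valuation.map_sum_lt' zero_lt_one
    intro e _
    rw [map_mul, map_mul]
    have h3 := vf_cg_pow hV hyt (B.totalDegree - (e 0 + e 1))
    have h4 : V.valuation (algebraMap ℂ K ((0 : ℂ) ^ (B.totalDegree - (e 0 + e 1))) -
            y⁻¹ ^ (B.totalDegree - (e 0 + e 1))) < 1 := by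
      rw [Valuation.map_sub_swap]
      exact h3
    calc V.valuation (algebraMap ℂ K (B.coeff e)) *
          V.valuation (algebraMap ℂ K ((0 : ℂ) ^ (B.totalDegree - (e 0 + e 1))) -
            y⁻¹ ^ (B.totalDegree - (e 0 + e 1))) * V.valuation (w ^ (e 0))
        ≤ 1 * V.valuation (algebraMap ℂ K ((0 : ℂ) ^ (B.totalDegree - (e 0 + e 1))) -
            y⁻¹ ^ (B.totalDegree - (e 0 + e 1))) * 1 := by
          gcongr
          · exact cg_le hV _
          · rw [map_pow]
            exact pow_le_one₀ zero_le hvw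
      _ < 1 := by rwa [one_mul, mul_one]
  -- factor the top form
  have hne := vf_ne 0 hB
  have hsp : (vf_f 0 B (0 : ℂ)).Splits := IsAlgClosed.splits _
  rw [hsp.eq_prod_roots, map_mul, Polynomial.aeval_C, map_multiset_prod, Multiset.map_map,
    map_mul, map_multiset_prod, Multiset.map_map,
    cg_one hV (Polynomial.leadingCoeff_ne_zero.mpr hne), one_mul] at hsmall
  by_contra hcon
  have h5 : (Multiset.map (V.valuation ∘ ⇑(Polynomial.aeval w) ∘ fun a => Polynomial.X - Polynomial.C a)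
      (vf_f 0 B (0 : ℂ)).roots).prod = 1 := by
    apply Multiset.prod_eq_one
    intro v hv
    obtain ⟨a, ha, rfl⟩ := Multiset.mem_map.mp hv
    have ha' : tv B a 1 = 0 := by
      have h6 := Polynomial.isRoot_of_mem_roots ha
      have h7 : (vf_f 0 B (0 : ℂ)).eval a = 0 := h6
      rw [vf_top, vf_pt0] at h7
      exact h7
    have h8 : ¬ Cg V w a := fun h => hcon ⟨a, ha', h⟩
    have h9 : Polynomial.aeval w (Polynomial.X - Polynomial.C a) = w - algebraMap ℂ K a := by
      rw [map_sub, Polynomial.aeval_X, Polynomial.aeval_C]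
    show V.valuation (Polynomial.aeval w (Polynomial.X - Polynomial.C a)) = 1
    rw [h9]
    apply le_antisymm
    · exact (V.valuation_le_one_iff _).mpr (V.sub_mem hxy (hV a))
    · exact not_lt.mp h8
  rw [h5] at hsmall
  exact lt_irrefl _ hsmall

/-- if `x / y ≡ α` with `y` large and `B(x, y) = 0` then the top form vanishes at `α` -/
theorem tv_of_Cg {K : Type} [Field K] [Algebra ℂ K] (V : ValuationSubring K) (hV : Over V)
    (B : MvPolynomial (Fin 2) ℂ) (hB : B ≠ 0) (x y : K) (hy : y ∉ V) (α : ℂ)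
    (hα : Cg V (x / y) α) (h : sb B x y = 0) : tv B α 1 = 0 := by
  obtain ⟨hy0, hyt⟩ := vf_inv hy
  have hz := vf_eval_zero B x y hy h
  have h1 : Cg V (∑ e ∈ B.support, algebraMap ℂ K (B.coeff e) *
      y⁻¹ ^ (B.totalDegree - (e 0 + e 1)) * (x / y) ^ (e 0))
      (∑ e ∈ B.support, B.coeff e * (0 : ℂ) ^ (B.totalDegree - (e 0 + e 1)) * α ^ (e 0)) := by
    apply vf_cg_sum
    intro e _
    exact ((Cg.const V _).mul hV (vf_cg_pow hV hyt _)).mul hV (vf_cg_pow hV hα _)
  rw [hz] at h1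
  have h2 := (vf_cg_zero V).unique hV h1
  have h3 := vf_eval 0 B (0 : ℂ) α
  rw [vf_top, vf_pt0] at h3
  have h4 : tv B α 1 = aeval ![α, 1] (top B) := rfl
  rw [h4, h3]
  exact h2.symm

end Pool.Agent.Helper96.FK
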